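import Pool.Agent.W_MP_23c0ba_an.Defs

/-! Algebra and calculus of Clifford multiplication and of the Dirac operator. -/

set_option autoImplicit false

open MeasureTheory Metric Set Filter Topology
open scoped ENNReal ContDiff NNReal

namespace DiracUCP

variable {n : ℕ} {S : Type} [NormedAddCommGroup S] [InnerProductSpace ℂ S]

theorem c_apply (A : Cliff n S) (x : E n) (s : S) :
    A.c x s = ∑ j, ((x j : ℝ) : ℂ) • A.α j s := by
  simp [Cliff.c]

theorem c_add (A : Cliff n S) (x y : E n) : A.c (x + y) = A.c x + A.c y := by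
  simp [Cliff.c, add_smul, Finset.sum_add_distrib]

theorem c_smul (A : Cliff n S) (r : ℝ) (x : E n) : A.c (r • x) = (r : ℂ) • A.c x := by
  simp [Cliff.c, mul_smul, Finset.smul_sum]

theorem c_zero (A : Cliff n S) : A.c 0 = 0 := by
  simp [Cliff.c]

theorem c_neg (A : Cliff n S) (x : E n) : A.c (-x) = - A.c x := by
  simp [Cliff.c]

theorem c_sub (A : Cliff n S) (x y : E n) : A.c (x - y) = A.c x - A.c y := by
  rw [sub_eq_add_neg, c_add, c_neg, sub_eq_add_neg]

theorem c_bv (A : Cliff n S) (j : Fin n) : A.c (bv j) = A.α j := by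
  simp only [Cliff.c, bv]
  rw [Finset.sum_eq_single j] <;> simp +contextual [eq_comm]

/-- Clifford multiplication as a continuous linear map. -/
noncomputable def Cliff.cL (A : Cliff n S) : E n →L[ℝ] (S →L[ℂ] S) :=
  LinearMap.toContinuousLinearMap
    { toFun := A.c
      map_add' := c_add A
      map_smul' := fun r x => by rw [c_smul]; simp }

@[simp] theorem cL_apply (A : Cliff n S) (x : E n) : A.cL x = A.c x := rfl

theorem inner_c (A : Cliff n S) (x : E n) (s t : S) :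
    inner ℂ (A.c x s) t = - inner ℂ s (A.c x t) := by
  rw [c_apply, c_apply, sum_inner, inner_sum, ← Finset.sum_neg_distrib]
  refine Finset.sum_congr rfl fun j _ => ?_
  rw [inner_smul_left, inner_smul_right, A.skew]
  simp

/-- The Clifford relation `c(x)c(y) + c(y)c(x) = -2⟨x,y⟩`. -/
theorem c_c (A : Cliff n S) (x y : E n) (s : S) :
    A.c x (A.c y s) + A.c y (A.c x s) = (-(2 * (inner ℝ x y : ℝ)) : ℂ) • s := by
  have h1 : A.c x (A.c y s) = ∑ j, ∑ k, (((x j : ℝ) : ℂ) * ((y k : ℝ) : ℂ)) • A.α j (A.α k s) := by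
    rw [c_apply, c_apply]
    refine Finset.sum_congr rfl fun j _ => ?_
    rw [map_sum, Finset.smul_sum]
    refine Finset.sum_congr rfl fun k _ => ?_
    rw [map_smul, smul_smul]
  have h2 : A.c y (A.c x s) = ∑ j, ∑ k, (((x j : ℝ) : ℂ) * ((y k : ℝ) : ℂ)) • A.α k (A.α j s) := by
    rw [c_apply, c_apply, Finset.sum_comm]
    refine Finset.sum_congr rfl fun j _ => ?_
    rw [map_sum, Finset.smul_sum]
    refine Finset.sum_congr rfl fun k _ => ?_
    rw [map_smul, smul_smul, mul_comm]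
  rw [h1, h2, ← Finset.sum_add_distrib]
  have h3 : ∀ j, (∑ k, (((x j : ℝ) : ℂ) * ((y k : ℝ) : ℂ)) • A.α j (A.α k s)) +
      ∑ k, (((x j : ℝ) : ℂ) * ((y k : ℝ) : ℂ)) • A.α k (A.α j s) =
      (-2 * (((x j : ℝ) : ℂ) * ((y j : ℝ) : ℂ))) • s := by
    intro j
    rw [← Finset.sum_add_distrib]
    have : ∀ k, (((x j : ℝ) : ℂ) * ((y k : ℝ) : ℂ)) • A.α j (A.α k s) +
        (((x j : ℝ) : ℂ) * ((y k : ℝ) : ℂ)) • A.α k (A.α j s) =
        if j = k then (-2 * (((x j : ℝ) : ℂ) * ((y k : ℝ) : ℂ))) • s else 0 := by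
      intro k
      rw [← smul_add, A.anti]
      split_ifs with h
      · rw [smul_smul, mul_comm]
      · simp
    simp only [this]
    simp
  simp only [h3]
  rw [← Finset.sum_smul]
  congr 1
  rw [← Finset.mul_sum, PiLp.inner_apply]
  simp only [RCLike.inner_apply, conj_trivial]
  push_cast
  rw [neg_mul]
  congr 2
  refine Finset.sum_congr rfl fun j _ => ?_
  ring

theorem c_sq (A : Cliff n S) (x : E n) (s : S) :
    A.c x (A.c x s) = (-((‖x‖ ^ 2 : ℝ) : ℂ)) • s := by
  have h := c_c A x x s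
  rw [real_inner_self_eq_norm_sq] at h
  have h2 : (2 : ℂ) • A.c x (A.c x s) = (2 : ℂ) • ((-((‖x‖ ^ 2 : ℝ) : ℂ)) • s) := by
    rw [two_smul, h, smul_smul]
    congr 1
    push_cast
    ring
  exact smul_right_injective _ (two_ne_zero) h2

theorem norm_c (A : Cliff n S) (x : E n) (s : S) : ‖A.c x s‖ = ‖x‖ * ‖s‖ := by
  have h : ‖A.c x s‖ ^ 2 = (‖x‖ * ‖s‖) ^ 2 := by
    have h1 : inner ℂ (A.c x s) (A.c x s) = (((‖x‖ * ‖s‖) ^ 2 : ℝ) : ℂ) := by
      rw [inner_c, c_sq, inner_smul_right, inner_self_eq_norm_sq_to_K]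
      push_cast
      simp
      ring
    have h2 : ((‖A.c x s‖ ^ 2 : ℝ) : ℂ) = (((‖x‖ * ‖s‖) ^ 2 : ℝ) : ℂ) := by
      rw [← h1, inner_self_eq_norm_sq_to_K]
      simp
    exact_mod_cast h2
  exact (pow_left_inj₀ (norm_nonneg _) (by positivity) (by norm_num)).mp h

theorem norm_α (A : Cliff n S) (j : Fin n) (s : S) : ‖A.α j s‖ = ‖s‖ := by
  rw [← c_bv, norm_c]
  simp [bv]

theorem norm_D_le (A : Cliff n S) (φ : E n → S) (x : E n) :
    ‖A.D φ x‖ ≤ n * ‖fderiv ℝ φ x‖ := by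
  unfold Cliff.D
  refine (norm_sum_le _ _).trans ?_
  refine (Finset.sum_le_card_nsmul _ _ ‖fderiv ℝ φ x‖ ?_).trans (by simp)
  intro j _
  rw [norm_α]
  refine (ContinuousLinearMap.le_opNorm _ _).trans ?_
  simp [bv]

theorem D_sub (A : Cliff n S) {φ ψ : E n → S} {x : E n} (hφ : DifferentiableAt ℝ φ x)
    (hψ : DifferentiableAt ℝ ψ x) : A.D (fun y => φ y - ψ y) x = A.D φ x - A.D ψ x := by
  unfold Cliff.D
  rw [← Finset.sum_sub_distrib]
  refine Finset.sum_congr rfl fun j _ => ?_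
  rw [fderiv_fun_sub hφ hψ, ← map_sub]
  rfl

theorem D_add (A : Cliff n S) {φ ψ : E n → S} {x : E n} (hφ : DifferentiableAt ℝ φ x)
    (hψ : DifferentiableAt ℝ ψ x) : A.D (fun y => φ y + ψ y) x = A.D φ x + A.D ψ x := by
  unfold Cliff.D
  rw [← Finset.sum_add_distrib]
  refine Finset.sum_congr rfl fun j _ => ?_
  rw [fderiv_fun_add hφ hψ, ← map_add]
  rfl

/-- Leibniz rule with a real scalar function. -/
theorem D_smul (A : Cliff n S) {η : E n → ℝ} {φ : E n → S} {x : E n}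
    (hη : DifferentiableAt ℝ η x) (hφ : DifferentiableAt ℝ φ x) :
    A.D (fun y => η y • φ y) x =
      η x • A.D φ x + ∑ j, (fderiv ℝ η x (bv j)) • A.α j (φ x) := by
  unfold Cliff.D
  rw [Finset.smul_sum, ← Finset.sum_add_distrib]
  refine Finset.sum_congr rfl fun j _ => ?_
  rw [fderiv_fun_smul hη hφ]
  simp [map_add]

/-- The Leibniz term as Clifford multiplication by a vector. -/
theorem c_eq_sum (A : Cliff n S) (L : E n →L[ℝ] ℝ) (k : E n) (hk : ∀ j, L (bv j) = k j) (s : S) :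
    ∑ j, (L (bv j)) • A.α j s = A.c k s := by
  rw [c_apply]
  refine Finset.sum_congr rfl fun j _ => ?_
  rw [hk]
  simp

/-- Conjugation with an exponential. -/
theorem D_exp (A : Cliff n S) (k : E n) {φ : E n → S} {x : E n}
    (hφ : DifferentiableAt ℝ φ x) :
    A.D (fun y => Real.exp (inner ℝ k y) • φ y) x =
      Real.exp (inner ℝ k x) • (A.D φ x + A.c k (φ x)) := by
  have hd : HasFDerivAt (fun y : E n => Real.exp (inner ℝ k y))
      (Real.exp (inner ℝ k x) • (innerSL ℝ k)) x := by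
    have h1 : HasFDerivAt (fun y : E n => (innerSL ℝ k) y) (innerSL ℝ k) x :=
      (innerSL ℝ k).hasFDerivAt
    exact h1.exp
  rw [D_smul A hd.differentiableAt hφ, hd.fderiv, smul_add]
  congr 1
  have : ∀ j, (Real.exp (inner ℝ k x) • (innerSL ℝ k : E n →L[ℝ] ℝ)) (bv j) • A.α j (φ x) =
      Real.exp (inner ℝ k x) • (((innerSL ℝ k : E n →L[ℝ] ℝ) (bv j)) • A.α j (φ x)) := by
    intro j
    rw [smul_apply, smul_eq_mul, mul_smul]
  simp only [this]
  rw [← Finset.smul_sum, c_eq_sum A (innerSL ℝ k) k]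
  intro j
  simp [bv, EuclideanSpace.inner_single_right]

/-- Scaling. -/
theorem D_scale (A : Cliff n S) (r : ℝ) (φ : E n → S) (x : E n) :
    A.D (fun y => φ (r • y)) x = (r : ℝ) • A.D φ (r • x) := by
  unfold Cliff.D
  rw [Finset.smul_sum]
  refine Finset.sum_congr rfl fun j _ => ?_
  rw [fderiv_comp_smul]
  simp

theorem contDiff_D (A : Cliff n S) {φ : E n → S} (hφ : ContDiff ℝ ∞ φ) :
    ContDiff ℝ ∞ (A.D φ) := by
  unfold Cliff.D
  refine ContDiff.sum fun j _ => ?_
  have h1 : ContDiff ℝ ∞ (fun x => fderiv ℝ φ x (bv j)) :=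
    (hφ.fderiv_right (m := ∞) (by simp)).clm_apply contDiff_const
  exact ((A.α j).restrictScalars ℝ).contDiff.comp h1

theorem tsupport_D_subset (A : Cliff n S) (φ : E n → S) : tsupport (A.D φ) ⊆ tsupport φ := by
  refine closure_minimal ?_ (isClosed_tsupport _)
  intro x hx
  by_contra hxn
  apply hx
  have h : fderiv ℝ φ x = 0 := by
    have := (support_fderiv_subset ℝ (f := φ))
    by_contra h
    exact hxn (this h)
  simp [Cliff.D, h]

theorem hasCompactSupport_D (A : Cliff n S) {φ : E n → S} (hφ : HasCompactSupport φ) :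
    HasCompactSupport (A.D φ) :=
  hφ.of_isClosed_subset (isClosed_tsupport _) (tsupport_D_subset A φ)

theorem contDiff_conjF (A : Cliff n S) (e : E n) {w : E n → S} (hw : ContDiff ℝ ∞ w) :
    ContDiff ℝ ∞ (A.conjF e w) := by
  unfold Cliff.conjF
  refine (contDiff_D A hw).sub ?_
  exact (((((2 * Real.pi : ℝ) : ℂ)) • A.c e).restrictScalars ℝ).contDiff.comp hw

theorem hasCompactSupport_conjF (A : Cliff n S) (e : E n) {w : E n → S}
    (hw : HasCompactSupport w) : HasCompactSupport (A.conjF e w) := by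
  refine hw.mono' ?_
  intro x hx
  by_contra hxn
  apply hx
  have h1 : A.D w x = 0 := by
    by_contra h
    exact hxn (tsupport_D_subset A w (subset_tsupport _ h))
  have h2 : w x = 0 := image_eq_zero_of_notMem_tsupport hxn
  simp [Cliff.conjF, h1, h2]

/-- `exp(2π⟨e,x⟩) D φ = conjF e (exp(2π⟨e,x⟩) φ)`. -/
theorem conjF_exp (A : Cliff n S) (e : E n) {φ : E n → S} {x : E n}
    (hφ : DifferentiableAt ℝ φ x) :
    A.conjF e (fun y => Real.exp (inner ℝ ((2 * Real.pi) • e) y) • φ y) x =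
      Real.exp (inner ℝ ((2 * Real.pi) • e) x) • A.D φ x := by
  unfold Cliff.conjF
  rw [D_exp A _ hφ, smul_add, c_smul]
  have : (((2 * Real.pi : ℝ) : ℂ)) • (A.c e) (Real.exp (inner ℝ ((2 * Real.pi) • e) x) • φ x) =
      Real.exp (inner ℝ ((2 * Real.pi) • e) x) • ((((2 * Real.pi : ℝ) : ℂ)) • A.c e) (φ x) := by
    rw [smul_apply]
    have h := (A.c e).map_smul ((Real.exp (inner ℝ ((2 * Real.pi) • e) x) : ℝ) : ℂ) (φ x)
    rw [Complex.coe_smul] at h
    rw [h, smul_comm, Complex.coe_smul]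
  rw [this]
  simp

end DiracUCP
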