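import Pool.Agent.W_MP_23c0ba_an.Alg

/-! Cauchy-Pompeiu type representation in the plane. -/

set_option autoImplicit false

open MeasureTheory Metric Set Filter Topology
open scoped ENNReal ContDiff NNReal FourierTransform ComplexConjugate

namespace DiracUCP

variable {S : Type} [NormedAddCommGroup S] [InnerProductSpace ℂ S]

namespace Cauchy2

/-- the unit vector `(cos t, sin t)` -/
noncomputable def om (t : ℝ) : E 2 := Real.cos t • bv 0 + Real.sin t • bv 1

/-- the unit vector `(-sin t, cos t)` -/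
noncomputable def om' (t : ℝ) : E 2 := (-Real.sin t) • bv 0 + Real.cos t • bv 1

theorem hasDerivAt_om (t : ℝ) : HasDerivAt om (om' t) t := by
  unfold om om'
  exact ((Real.hasDerivAt_cos t).smul_const _).add ((Real.hasDerivAt_sin t).smul_const _)

theorem continuous_om : Continuous om := by
  unfold om; fun_prop

theorem continuous_om' : Continuous om' := by
  unfold om'; fun_prop

theorem norm_om (t : ℝ) : ‖om t‖ = 1 := by
  rw [EuclideanSpace.norm_eq]
  simp [om, Fin.sum_univ_two]

theorem repr_polar (p : ℝ × ℝ) :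
    Complex.orthonormalBasisOneI.repr (Complex.polarCoord.symm p) = p.1 • om p.2 := by
  rw [Complex.polarCoord_symm_apply]
  ext i
  fin_cases i
  · simp [om, Complex.orthonormalBasisOneI_repr_apply, -Complex.ofReal_cos, -Complex.ofReal_sin]
  · simp [om, Complex.orthonormalBasisOneI_repr_apply, -Complex.ofReal_cos, -Complex.ofReal_sin]

/-- Polar coordinates around `x`. -/
theorem lintegral_polar (x : E 2) (f : E 2 → ℝ≥0∞) :
    ∫⁻ y, f y = ∫⁻ p in Ioi (0 : ℝ) ×ˢ Ioo (-Real.pi) Real.pi,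
      ENNReal.ofReal p.1 * f (x + p.1 • om p.2) := by
  have h1 : ∫⁻ y, f y = ∫⁻ y, f (x + y) := (lintegral_add_left_eq_self f x).symm
  have h2 : ∫⁻ y, f (x + y) = ∫⁻ z : ℂ, f (x + Complex.orthonormalBasisOneI.repr z) :=
    ((Complex.orthonormalBasisOneI.repr).measurePreserving.lintegral_comp_emb
      (Complex.orthonormalBasisOneI.repr).toHomeomorph.measurableEmbedding _).symm
  rw [h1, h2, ← Complex.lintegral_comp_polarCoord_symm]
  rw [polarCoord_target]
  refine setLIntegral_congr_fun (measurableSet_Ioi.prod measurableSet_Ioo) fun p _ => ?_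
  simp only [repr_polar, smul_eq_mul]

/-- `c(ω) D ψ = - ∂_ω ψ + α₀α₁ ∂_{ω'} ψ` -/
theorem c_om_D (A : Cliff 2 S) (ψ : E 2 → S) (y : E 2) (t : ℝ) :
    A.c (om t) (A.D ψ y) = -(fderiv ℝ ψ y (om t)) + A.α 0 (A.α 1 (fderiv ℝ ψ y (om' t))) := by
  have h00 : ∀ s : S, A.α 0 (A.α 0 s) = -s := by
    intro s
    have h := A.anti 0 0 s
    rw [if_pos rfl, ← two_smul ℂ] at h
    have : (2 : ℂ) • A.α 0 (A.α 0 s) = (2 : ℂ) • (-s) := by
      rw [h, smul_neg, neg_smul]
    exact smul_right_injective _ (two_ne_zero) this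
  have h11 : ∀ s : S, A.α 1 (A.α 1 s) = -s := by
    intro s
    have h := A.anti 1 1 s
    rw [if_pos rfl, ← two_smul ℂ] at h
    have : (2 : ℂ) • A.α 1 (A.α 1 s) = (2 : ℂ) • (-s) := by
      rw [h, smul_neg, neg_smul]
    exact smul_right_injective _ (two_ne_zero) this
  have h10 : ∀ s : S, A.α 1 (A.α 0 s) = -A.α 0 (A.α 1 s) := by
    intro s
    have h := A.anti 0 1 s
    rw [if_neg (by decide)] at h
    exact (neg_eq_of_add_eq_zero_right h).symm
  have hc : ∀ s : S, A.c (om t) s = Real.cos t • A.α 0 s + Real.sin t • A.α 1 s := by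
    intro s
    rw [c_apply, Fin.sum_univ_two]
    have e0 : om t 0 = Real.cos t := by simp [om]
    have e1 : om t 1 = Real.sin t := by simp [om]
    rw [e0, e1, Complex.coe_smul, Complex.coe_smul]
  have hD : A.D ψ y = A.α 0 (fderiv ℝ ψ y (bv 0)) + A.α 1 (fderiv ℝ ψ y (bv 1)) := by
    unfold Cliff.D
    rw [Fin.sum_univ_two]
  have hsm : ∀ (j : Fin 2) (r : ℝ) (s : S), A.α j (r • s) = r • A.α j s := by
    intro j r s
    exact ((A.α j).restrictScalars ℝ).map_smul r s
  rw [hc, hD]
  unfold om om'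
  simp only [map_add, map_smul, hsm, h00, h11, h10, map_neg, smul_neg, smul_add, neg_smul]
  abel

section Int

theorem continuous_fd {ψ : E 2 → S} (hψ : ContDiff ℝ ∞ ψ) (x : E 2) {g : ℝ → E 2}
    (hg : Continuous g) :
    Continuous (fun p : ℝ × ℝ => fderiv ℝ ψ (x + p.1 • om p.2) (g p.2)) := by
  have h1 : Continuous (fderiv ℝ ψ) := hψ.continuous_fderiv (by simp)
  have h2 : Continuous (fun p : ℝ × ℝ => x + p.1 • om p.2) :=
    continuous_const.add (continuous_fst.smul (continuous_om.comp continuous_snd))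
  exact (h1.comp h2).clm_apply (hg.comp continuous_snd)

theorem hasDerivAt_r {ψ : E 2 → S} (hψ : ContDiff ℝ ∞ ψ) (x : E 2) (t r : ℝ) :
    HasDerivAt (fun r : ℝ => ψ (x + r • om t)) (fderiv ℝ ψ (x + r • om t) (om t)) r := by
  have h1 : HasDerivAt (fun r : ℝ => x + r • om t) (om t) r := by
    simpa using ((hasDerivAt_id r).smul_const (om t)).const_add x
  exact ((hψ.differentiable (by simp)) _).hasFDerivAt.comp_hasDerivAt r h1

theorem hasDerivAt_t {ψ : E 2 → S} (hψ : ContDiff ℝ ∞ ψ) (x : E 2) (t r : ℝ) :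
    HasDerivAt (fun t : ℝ => ψ (x + r • om t)) (r • fderiv ℝ ψ (x + r • om t) (om' t)) t := by
  have h1 : HasDerivAt (fun t : ℝ => x + r • om t) (r • om' t) t :=
    ((hasDerivAt_om t).const_smul r).const_add x
  have h2 := ((hψ.differentiable (by simp)) (x + r • om t)).hasFDerivAt.comp_hasDerivAt t h1
  rw [map_smul] at h2
  exact h2

theorem int_angular [CompleteSpace S] {ψ : E 2 → S} (hψ : ContDiff ℝ ∞ ψ) (x : E 2) {r : ℝ} (hr : r ≠ 0) :
    ∫ t in (-Real.pi)..Real.pi, fderiv ℝ ψ (x + r • om t) (om' t) = 0 := by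
  have h1 : ∫ t in (-Real.pi)..Real.pi, r • fderiv ℝ ψ (x + r • om t) (om' t) =
      ψ (x + r • om Real.pi) - ψ (x + r • om (-Real.pi)) := by
    refine intervalIntegral.integral_eq_sub_of_hasDerivAt (fun t _ => hasDerivAt_t hψ x t r) ?_
    refine Continuous.intervalIntegrable ?_ _ _
    exact (((continuous_fd hψ x continuous_om').comp
      (Continuous.prodMk continuous_const continuous_id))).const_smul r
  have h2 : om (-Real.pi) = om Real.pi := by
    simp [om]
  rw [h2, sub_self, intervalIntegral.integral_smul] at h1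
  exact (smul_eq_zero.mp h1).resolve_left hr

theorem int_radial [CompleteSpace S] {ψ : E 2 → S} (hψ : ContDiff ℝ ∞ ψ) (x : E 2) {R : ℝ} 
    (hR : ∀ t, ψ (x + R • om t) = 0) (t : ℝ) :
    ∫ r in (0 : ℝ)..R, fderiv ℝ ψ (x + r • om t) (om t) = -ψ x := by
  have h1 : ∫ r in (0 : ℝ)..R, fderiv ℝ ψ (x + r • om t) (om t) =
      ψ (x + R • om t) - ψ (x + (0 : ℝ) • om t) := by
    refine intervalIntegral.integral_eq_sub_of_hasDerivAt (fun r _ => hasDerivAt_r hψ x t r) ?_
    refine Continuous.intervalIntegrable ?_ _ _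
    have h2 : Continuous (fun r : ℝ => fderiv ℝ ψ (x + r • om t)) :=
      (hψ.continuous_fderiv (by simp)).comp
        (continuous_const.add (continuous_id.smul continuous_const))
    exact h2.clm_apply continuous_const
  rw [h1, hR]
  simp

theorem repr_formula [CompleteSpace S] (A : Cliff 2 S) {ψ : E 2 → S} (hψ : ContDiff ℝ ∞ ψ) (x : E 2) {R : ℝ}
    (hR : ∀ t, ψ (x + R • om t) = 0) (hR0 : 0 ≤ R) :
    ∫ t in (-Real.pi)..Real.pi, ∫ r in (0 : ℝ)..R, A.c (om t) (A.D ψ (x + r • om t)) =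
      (2 * Real.pi) • ψ x := by
  have hc1 : ∀ t, IntervalIntegrable (fun r : ℝ => -fderiv ℝ ψ (x + r • om t) (om t))
      volume 0 R := by
    intro t
    refine Continuous.intervalIntegrable ?_ _ _
    have h2 : Continuous (fun r : ℝ => fderiv ℝ ψ (x + r • om t)) :=
      (hψ.continuous_fderiv (by simp)).comp
        (continuous_const.add (continuous_id.smul continuous_const))
    exact (h2.clm_apply continuous_const).neg
  have hF : Continuous (fun p : ℝ × ℝ => A.α 0 (A.α 1 (fderiv ℝ ψ (x + p.1 • om p.2) (om' p.2)))) :=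
    (A.α 0).continuous.comp ((A.α 1).continuous.comp (continuous_fd hψ x continuous_om'))
  have hc2 : ∀ t, IntervalIntegrable
      (fun r : ℝ => A.α 0 (A.α 1 (fderiv ℝ ψ (x + r • om t) (om' t)))) volume 0 R := by
    intro t
    refine Continuous.intervalIntegrable ?_ _ _
    exact hF.comp (Continuous.prodMk continuous_id continuous_const)
  have h1 : ∀ t, ∫ r in (0 : ℝ)..R, A.c (om t) (A.D ψ (x + r • om t)) =
      ψ x + ∫ r in (0 : ℝ)..R, A.α 0 (A.α 1 (fderiv ℝ ψ (x + r • om t) (om' t))) := by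
    intro t
    simp only [c_om_D]
    rw [intervalIntegral.integral_add (hc1 t) (hc2 t), intervalIntegral.integral_neg,
      int_radial hψ x hR t, neg_neg]
  simp only [h1]
  have hcont : Continuous (fun t : ℝ => ∫ r in (0 : ℝ)..R,
      A.α 0 (A.α 1 (fderiv ℝ ψ (x + r • om t) (om' t)))) := by
    refine intervalIntegral.continuous_parametric_intervalIntegral_of_continuous' ?_ 0 R
    exact hF.comp continuous_swap
  rw [intervalIntegral.integral_add (by simp) (hcont.intervalIntegrable _ _)]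
  have h2 : ∫ t in (-Real.pi)..Real.pi, ∫ r in (0 : ℝ)..R,
      A.α 0 (A.α 1 (fderiv ℝ ψ (x + r • om t) (om' t))) = 0 := by
    rw [MeasureTheory.intervalIntegral_intervalIntegral_swap]
    · have h3 : ∀ r ∈ uIoc (0 : ℝ) R, ∫ t in (-Real.pi)..Real.pi,
          A.α 0 (A.α 1 (fderiv ℝ ψ (x + r • om t) (om' t))) = 0 := by
        intro r hr
        rw [uIoc_of_le hR0] at hr
        have h4 := ContinuousLinearMap.intervalIntegral_comp_comm
          (((A.α 0).comp (A.α 1)).restrictScalars ℝ)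
          (f := fun t : ℝ => fderiv ℝ ψ (x + r • om t) (om' t)) (a := -Real.pi) (b := Real.pi)
          (μ := volume) (by
            refine Continuous.intervalIntegrable ?_ _ _
            exact (continuous_fd hψ x continuous_om').comp
              (Continuous.prodMk continuous_const continuous_id))
        rw [int_angular hψ x hr.1.ne', map_zero] at h4
        exact h4
      rw [intervalIntegral.integral_congr_ae (g := fun _ => 0)]
      · simp
      · exact ae_of_all _ h3
    · have h5 : IntegrableOn (Function.uncurry fun t r : ℝ =>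
          A.α 0 (A.α 1 (fderiv ℝ ψ (x + r • om t) (om' t))))
          (Icc (-Real.pi) Real.pi ×ˢ Icc 0 R) := by
        refine ContinuousOn.integrableOn_compact (isCompact_Icc.prod isCompact_Icc) ?_
        exact (hF.comp continuous_swap).continuousOn
      refine h5.mono_set (prod_mono ?_ ?_)
      · rw [uIoc_of_le (by linarith [Real.pi_pos])]
        exact Ioc_subset_Icc_self
      · rw [uIoc_of_le hR0]
        exact Ioc_subset_Icc_self
  rw [h2, add_zero, intervalIntegral.integral_const]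
  congr 1
  ring

end Int

end Cauchy2

open Cauchy2

variable [FiniteDimensional ℂ S] [CompleteSpace S]

theorem cauchy_two (A : Cliff 2 S) {ψ : E 2 → S} (hψ : ContDiff ℝ ∞ ψ)
    (hc : HasCompactSupport ψ) (x : E 2) :
    ‖ψ x‖ₑ ≤ ∫⁻ y, ‖x - y‖ₑ⁻¹ * ‖A.D ψ y‖ₑ := by
  obtain ⟨R, hR0, hR⟩ : ∃ R : ℝ, 0 ≤ R ∧ ∀ t, ψ (x + R • om t) = 0 := by
    obtain ⟨C, hC⟩ := hc.isCompact.isBounded.subset_closedBall 0
    refine ⟨max C 0 + ‖x‖ + 1, by positivity, fun t => ?_⟩
    refine image_eq_zero_of_notMem_tsupport fun hmem => ?_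
    have h1 := hC hmem
    rw [mem_closedBall_zero_iff] at h1
    have h2 : ‖(max C 0 + ‖x‖ + 1) • om t‖ = max C 0 + ‖x‖ + 1 := by
      rw [norm_smul, norm_om, mul_one, Real.norm_of_nonneg (by positivity)]
    have h3 : ‖(max C 0 + ‖x‖ + 1) • om t‖ ≤ ‖x + (max C 0 + ‖x‖ + 1) • om t‖ + ‖x‖ := by
      have := norm_sub_le (x + (max C 0 + ‖x‖ + 1) • om t) x
      simpa using this
    have h4 := le_max_left C 0
    linarith
  -- bound by the polar integral
  have hDc : Continuous (A.D ψ) := (contDiff_D A hψ).continuous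
  have hpol : Continuous (fun p : ℝ × ℝ => x + p.1 • om p.2) :=
    continuous_const.add (continuous_fst.smul (continuous_om.comp continuous_snd))
  have h1 : ‖(2 * Real.pi) • ψ x‖ₑ ≤
      ∫⁻ t in Ioc (-Real.pi) Real.pi, ∫⁻ r in Ioc 0 R, ‖A.D ψ (x + r • om t)‖ₑ := by
    rw [← repr_formula A hψ x hR hR0,
      intervalIntegral.integral_of_le (by linarith [Real.pi_pos])]
    refine (enorm_integral_le_lintegral_enorm _).trans ?_
    refine lintegral_mono fun t => ?_
    rw [intervalIntegral.integral_of_le hR0]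
    refine (enorm_integral_le_lintegral_enorm _).trans ?_
    refine lintegral_mono fun r => ?_
    rw [← ofReal_norm, ← ofReal_norm, norm_c, norm_om, one_mul]
  have h2 : ∫⁻ t in Ioc (-Real.pi) Real.pi, ∫⁻ r in Ioc 0 R, ‖A.D ψ (x + r • om t)‖ₑ ≤
      ∫⁻ p in Ioi (0 : ℝ) ×ˢ Ioo (-Real.pi) Real.pi, ‖A.D ψ (x + p.1 • om p.2)‖ₑ := by
    have hm : Measurable (fun p : ℝ × ℝ => ‖A.D ψ (x + p.1 • om p.2)‖ₑ) :=
      (hDc.comp hpol).enorm.measurable
    rw [Measure.volume_eq_prod, ← Measure.prod_restrict, lintegral_prod_symm' _ hm,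
      restrict_Ioo_eq_restrict_Ioc]
    refine lintegral_mono fun t => ?_
    exact lintegral_mono_set Ioc_subset_Ioi_self
  have h3 : ∫⁻ y, ‖x - y‖ₑ⁻¹ * ‖A.D ψ y‖ₑ =
      ∫⁻ p in Ioi (0 : ℝ) ×ˢ Ioo (-Real.pi) Real.pi, ‖A.D ψ (x + p.1 • om p.2)‖ₑ := by
    rw [lintegral_polar x]
    refine setLIntegral_congr_fun (measurableSet_Ioi.prod measurableSet_Ioo) fun p hp => ?_
    have hp1 : (0 : ℝ) < p.1 := hp.1
    have h4 : ‖x - (x + p.1 • om p.2)‖ₑ = ENNReal.ofReal p.1 := by
      rw [← ofReal_norm]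
      congr 1
      rw [sub_add_cancel_left, norm_neg, norm_smul, norm_om, mul_one,
        Real.norm_of_nonneg hp1.le]
    rw [h4, ← mul_assoc, ENNReal.mul_inv_cancel (by simpa using hp1) ENNReal.ofReal_ne_top,
      one_mul]
  rw [h3]
  refine le_trans ?_ (h1.trans h2)
  rw [← ofReal_norm, ← ofReal_norm]
  refine ENNReal.ofReal_le_ofReal ?_
  rw [norm_smul, Real.norm_of_nonneg (by positivity)]
  have := Real.pi_gt_three
  nlinarith [norm_nonneg (ψ x)]

end DiracUCP
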