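import Pool.Agent.W_MP_23c0ba_an.HLS2
import Pool.Agent.W_MP_23c0ba_an.Cauchy2

/-! The Carleman inequality in the plane. -/

set_option autoImplicit false

open MeasureTheory Metric Set Filter Topology
open scoped ENNReal ContDiff NNReal FourierTransform ComplexConjugate

namespace DiracUCP

variable {S : Type} [NormedAddCommGroup S] [InnerProductSpace ℂ S]
  [FiniteDimensional ℂ S] [CompleteSpace S]

/-- The product `α₀ α₁`. -/
private noncomputable def c2B (A : Cliff 2 S) (v : S) : S := A.α 0 (A.α 1 v)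

omit [FiniteDimensional ℂ S] [CompleteSpace S] in
private theorem c2_00 (A : Cliff 2 S) (v : S) : A.α 0 (A.α 0 v) = -v := by
  have h := A.anti 0 0 v
  simp only [if_true] at h
  have h2 : (2 : ℂ) • A.α 0 (A.α 0 v) = (2 : ℂ) • (-v) := by
    rw [two_smul, h]; simp
  exact smul_right_injective _ (two_ne_zero) h2

omit [FiniteDimensional ℂ S] [CompleteSpace S] in
private theorem c2_11 (A : Cliff 2 S) (v : S) : A.α 1 (A.α 1 v) = -v := by
  have h := A.anti 1 1 v
  simp only [if_true] at h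
  have h2 : (2 : ℂ) • A.α 1 (A.α 1 v) = (2 : ℂ) • (-v) := by
    rw [two_smul, h]; simp
  exact smul_right_injective _ (two_ne_zero) h2

omit [FiniteDimensional ℂ S] [CompleteSpace S] in
private theorem c2_10 (A : Cliff 2 S) (v : S) : A.α 1 (A.α 0 v) = - A.α 0 (A.α 1 v) := by
  have h := A.anti 1 0 v
  rw [if_neg (by decide)] at h
  exact eq_neg_of_add_eq_zero_left h

omit [FiniteDimensional ℂ S] [CompleteSpace S] in
private theorem c2_norm (A : Cliff 2 S) (c s : ℝ) (hcs : c ^ 2 + s ^ 2 = 1) (v : S) :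
    ‖c • v + s • c2B A v‖ = ‖v‖ := by
  have hB : ‖c2B A v‖ = ‖v‖ := by rw [c2B, norm_α, norm_α]
  have hin : (inner ℂ v (c2B A v)).re = 0 := by
    have h1 : inner ℂ (c2B A v) v = - inner ℂ v (c2B A v) := by
      have : c2B A v = - A.α 1 (A.α 0 v) := by rw [c2_10]; simp [c2B]
      calc inner ℂ (c2B A v) v = - inner ℂ (A.α 1 v) (A.α 0 v) := by rw [c2B, A.skew]
        _ = inner ℂ v (A.α 1 (A.α 0 v)) := by rw [A.skew]; simp
        _ = - inner ℂ v (c2B A v) := by rw [this]; simp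
    have h2 : (starRingEnd ℂ) (inner ℂ v (c2B A v)) = - inner ℂ v (c2B A v) := by
      rw [inner_conj_symm]; exact h1
    have h3 := congrArg Complex.re h2
    simp only [Complex.conj_re, Complex.neg_re] at h3
    linarith
  have h : ‖c • v + s • c2B A v‖ ^ 2 = ‖v‖ ^ 2 := by
    have h0 : (inner ℂ ((c : ℂ) • v) ((s : ℂ) • c2B A v)).re = 0 := by
      rw [inner_smul_left, inner_smul_right, Complex.conj_ofReal, Complex.re_ofReal_mul,
        Complex.re_ofReal_mul, hin]
      simp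
    rw [← Complex.coe_smul, ← Complex.coe_smul, @norm_add_sq ℂ, norm_smul, norm_smul,
      RCLike.re_to_complex, h0, hB, Complex.norm_real, Complex.norm_real]
    simp only [mul_zero, add_zero, mul_pow, Real.norm_eq_abs, sq_abs]
    rw [← add_mul, hcs, one_mul]
  exact (pow_left_inj₀ (norm_nonneg _) (norm_nonneg _) (by norm_num)).mp h

/-- The conjugate function. -/
private noncomputable def c2H (A : Cliff 2 S) (k : E 2) (φ : E 2 → S) (x : E 2) : S :=
  (Real.exp (inner ℝ k x) * Real.cos (k 0 * x 1 - k 1 * x 0)) • φ x +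
    (-(Real.exp (inner ℝ k x) * Real.sin (k 0 * x 1 - k 1 * x 0))) • c2B A (φ x)

private noncomputable def c2T (k : E 2) : E 2 →L[ℝ] ℝ :=
  k 0 • (EuclideanSpace.proj 1 : E 2 →L[ℝ] ℝ) - k 1 • (EuclideanSpace.proj 0 : E 2 →L[ℝ] ℝ)

private theorem c2T_apply (k x : E 2) : c2T k x = k 0 * x 1 - k 1 * x 0 := by
  simp [c2T]

private theorem c2_e (k x : E 2) : HasFDerivAt (fun y : E 2 => Real.exp (inner ℝ k y))
    (Real.exp (inner ℝ k x) • (innerSL ℝ k)) x := by
  have h1 : HasFDerivAt (fun y : E 2 => (innerSL ℝ k) y) (innerSL ℝ k) x :=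
    (innerSL ℝ k).hasFDerivAt
  exact h1.exp

private theorem c2_t (k x : E 2) : HasFDerivAt (fun y : E 2 => k 0 * y 1 - k 1 * y 0)
    (c2T k) x := by
  have h1 : HasFDerivAt (fun y : E 2 => (c2T k) y) (c2T k) x := (c2T k).hasFDerivAt
  simpa only [c2T_apply] using h1

private theorem c2_ec (k x : E 2) :
    HasFDerivAt (fun y : E 2 => Real.exp (inner ℝ k y) * Real.cos (k 0 * y 1 - k 1 * y 0))
      (Real.exp (inner ℝ k x) • (-Real.sin (k 0 * x 1 - k 1 * x 0)) • c2T k +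
        Real.cos (k 0 * x 1 - k 1 * x 0) • Real.exp (inner ℝ k x) • (innerSL ℝ k)) x :=
  (c2_e k x).mul (c2_t k x).cos

private theorem c2_es (k x : E 2) :
    HasFDerivAt (fun y : E 2 => -(Real.exp (inner ℝ k y) * Real.sin (k 0 * y 1 - k 1 * y 0)))
      (-(Real.exp (inner ℝ k x) • (Real.cos (k 0 * x 1 - k 1 * x 0)) • c2T k +
        Real.sin (k 0 * x 1 - k 1 * x 0) • Real.exp (inner ℝ k x) • (innerSL ℝ k))) x :=
  ((c2_e k x).mul (c2_t k x).sin).neg

/-- `α₀ α₁` as a real-linear continuous map. -/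
private noncomputable def c2BL (A : Cliff 2 S) : S →L[ℝ] S :=
  ((A.α 0).comp (A.α 1)).restrictScalars ℝ

omit [FiniteDimensional ℂ S] [CompleteSpace S] in
private theorem c2BL_apply (A : Cliff 2 S) (v : S) : c2BL A v = c2B A v := rfl

omit [FiniteDimensional ℂ S] [CompleteSpace S] in
private theorem c2_D (A : Cliff 2 S) (k : E 2) {φ : E 2 → S} {x : E 2}
    (hφ : DifferentiableAt ℝ φ x) :
    A.D (c2H A k φ) x = Real.exp (inner ℝ k x) •
      (Real.cos (k 0 * x 1 - k 1 * x 0) • A.D φ x +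
        Real.sin (k 0 * x 1 - k 1 * x 0) • c2B A (A.D φ x)) := by
  have hBφ : HasFDerivAt (fun y => c2B A (φ y)) ((c2BL A).comp (fderiv ℝ φ x)) x := by
    have := (c2BL A).hasFDerivAt.comp x hφ.hasFDerivAt
    exact this
  have h1 : DifferentiableAt ℝ (fun y : E 2 =>
      (Real.exp (inner ℝ k y) * Real.cos (k 0 * y 1 - k 1 * y 0)) • φ y) x :=
    (c2_ec k x).differentiableAt.smul hφ
  have h2 : DifferentiableAt ℝ (fun y : E 2 =>
      (-(Real.exp (inner ℝ k y) * Real.sin (k 0 * y 1 - k 1 * y 0))) • c2B A (φ y)) x :=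
    (c2_es k x).differentiableAt.smul hBφ.differentiableAt
  have h3 : A.D (fun y => c2B A (φ y)) x = - c2B A (A.D φ x) := by
    unfold Cliff.D
    rw [hBφ.fderiv]
    simp only [Fin.sum_univ_two, ContinuousLinearMap.comp_apply, c2BL_apply, c2B, map_add,
      c2_00, c2_10, c2_11, map_neg]
    abel
  unfold c2H
  rw [D_add A h1 h2, D_smul A (c2_ec k x).differentiableAt hφ,
    D_smul A (c2_es k x).differentiableAt hBφ.differentiableAt, (c2_ec k x).fderiv,
    (c2_es k x).fderiv, h3]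
  have hk : ∀ j, (innerSL ℝ k : E 2 →L[ℝ] ℝ) (bv j) = k j := by
    intro j; simp [bv, EuclideanSpace.inner_single_right]
  have hT0 : c2T k (bv 0) = - k 1 := by rw [c2T_apply]; simp [bv]
  have hT1 : c2T k (bv 1) = k 0 := by rw [c2T_apply]; simp [bv]
  simp only [Fin.sum_univ_two, add_apply, smul_apply, neg_apply, hk, hT0, hT1, smul_eq_mul]
  have hb0 : A.α 0 (c2B A (φ x)) = - A.α 1 (φ x) := by rw [c2B, c2_00]
  have hb1 : A.α 1 (c2B A (φ x)) = A.α 0 (φ x) := by rw [c2B, c2_10, c2_11]; simp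
  rw [hb0, hb1]
  module

theorem carleman_two_smooth (A : Cliff 2 S) : ∃ C : ℝ≥0,
    ∀ (k : E 2) (φ : E 2 → S), ContDiff ℝ ∞ φ → HasCompactSupport φ →
      eLpNorm (fun x => Real.exp (inner ℝ k x) • φ x) 4 volume ≤
        C * eLpNorm (fun x => Real.exp (inner ℝ k x) • A.D φ x) (4 / 3) volume := by
  obtain ⟨C, hC⟩ := hls_two
  refine ⟨C, fun k φ hφ hc => ?_⟩
  set ψ : E 2 → S := c2H A k φ with hψdef
  have hψ : ContDiff ℝ ∞ ψ := by
    have he : ContDiff ℝ ∞ (fun y : E 2 => Real.exp (inner ℝ k y)) :=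
      (contDiff_const.inner ℝ contDiff_id).exp
    have ht : ContDiff ℝ ∞ (fun y : E 2 => k 0 * y 1 - k 1 * y 0) := by
      have : (fun y : E 2 => k 0 * y 1 - k 1 * y 0) = fun y => c2T k y := by
        funext y; rw [c2T_apply]
      rw [this]
      exact (c2T k).contDiff
    have hB : ContDiff ℝ ∞ (fun y => c2B A (φ y)) := (c2BL A).contDiff.comp hφ
    exact ((he.mul ht.cos).smul hφ).add (((he.mul ht.sin).neg).smul hB)
  have hcψ : HasCompactSupport ψ := by
    refine hc.mono ?_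
    intro x hx
    by_contra hxn
    apply hx
    have h0 : φ x = 0 := by simpa using hxn
    simp [hψdef, c2H, h0, c2B]
  have hn1 : ∀ x, ‖ψ x‖ₑ = ‖Real.exp (inner ℝ k x) • φ x‖ₑ := by
    intro x
    have h : ‖ψ x‖ = ‖Real.exp (inner ℝ k x) • φ x‖ := by
      have : ψ x = Real.exp (inner ℝ k x) • (Real.cos (k 0 * x 1 - k 1 * x 0) • φ x +
          (-Real.sin (k 0 * x 1 - k 1 * x 0)) • c2B A (φ x)) := by
        simp only [hψdef, c2H]
        module
      rw [this, norm_smul, norm_smul, c2_norm]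
      nlinarith [Real.sin_sq_add_cos_sq (k 0 * x 1 - k 1 * x 0)]
    rw [← ofReal_norm, ← ofReal_norm, h]
  have hn2 : ∀ x, ‖A.D ψ x‖ₑ = ‖Real.exp (inner ℝ k x) • A.D φ x‖ₑ := by
    intro x
    have h : ‖A.D ψ x‖ = ‖Real.exp (inner ℝ k x) • A.D φ x‖ := by
      have hd : DifferentiableAt ℝ φ x := hφ.differentiable (by simp) x
      rw [hψdef, c2_D A k hd, norm_smul, norm_smul, c2_norm]
      nlinarith [Real.sin_sq_add_cos_sq (k 0 * x 1 - k 1 * x 0)]
    rw [← ofReal_norm, ← ofReal_norm, h]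
  have hmeas : Measurable (fun y => ‖A.D ψ y‖ₑ) :=
    (contDiff_D A hψ).continuous.enorm.measurable
  have key : ∫⁻ x, ‖ψ x‖ₑ ^ (4 : ℝ) ≤ (C * (∫⁻ y, ‖A.D ψ y‖ₑ ^ (4 / 3 : ℝ)) ^ (3 / 4 : ℝ)) ^ (4 : ℝ) := by
    refine le_trans (lintegral_mono fun x => ?_) (hC _ hmeas)
    exact ENNReal.rpow_le_rpow (cauchy_two A hψ hcψ x) (by norm_num)
  have e4 : (4 : ℝ≥0∞).toReal = 4 := by simp
  have e43 : (4 / 3 : ℝ≥0∞).toReal = 4 / 3 := by simp
  have n43 : (4 / 3 : ℝ≥0∞) ≠ 0 := by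
    intro h
    have := congrArg ENNReal.toReal h
    rw [e43] at this
    norm_num at this
  have t43 : (4 / 3 : ℝ≥0∞) ≠ ⊤ := by
    intro h
    have := congrArg ENNReal.toReal h
    rw [e43] at this
    norm_num at this
  rw [eLpNorm_eq_lintegral_rpow_enorm_toReal (by norm_num) (by norm_num),
    eLpNorm_eq_lintegral_rpow_enorm_toReal n43 t43, e4, e43]
  simp only [← hn1, ← hn2]
  have := ENNReal.rpow_le_rpow key (show (0 : ℝ) ≤ 1 / 4 by norm_num)
  rw [← ENNReal.rpow_mul] at this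
  norm_num at this ⊢
  exact this

end DiracUCP
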