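import Pool.Agent.W_MP_23c0ba_an.CarlSmooth
import Pool.Agent.W_MP_23c0ba_an.Alg

/-! The Carleman inequality for admissible pairs (limit). -/

set_option autoImplicit false

open MeasureTheory Metric Set Filter Topology
open scoped ENNReal ContDiff NNReal FourierTransform ComplexConjugate

namespace DiracUCP

variable {n : ℕ} {S : Type} [NormedAddCommGroup S] [InnerProductSpace ℂ S]
  [FiniteDimensional ℂ S] [CompleteSpace S]

omit [InnerProductSpace ℂ S] [FiniteDimensional ℂ S] [CompleteSpace S] in
/-- an `L²` limit of functions vanishing off `K` vanishes a.e. off `K`. -/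
theorem ae_zero_of_limit {K : Set (E n)} (hK : MeasurableSet K) {v : E n → S} {φ : ℕ → E n → S}
    (hv : AEStronglyMeasurable v volume)
    (hφ : ∀ i, ∀ x ∉ K, φ i x = 0)
    (h : Tendsto (fun i => eLpNorm (fun x => φ i x - v x) 2 volume) atTop (𝓝 0)) :
    ∀ᵐ x, x ∉ K → v x = 0 := by
  have h0 : eLpNorm v 2 (volume.restrict Kᶜ) = 0 := by
    have h1 : ∀ i, eLpNorm v 2 (volume.restrict Kᶜ) ≤
        eLpNorm (fun x => φ i x - v x) 2 volume := by
      intro i
      have h2 : eLpNorm v 2 (volume.restrict Kᶜ) =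
          eLpNorm (fun x => φ i x - v x) 2 (volume.restrict Kᶜ) := by
        apply eLpNorm_congr_norm_ae
        filter_upwards [ae_restrict_mem hK.compl] with x hx
        rw [hφ i x hx, zero_sub, norm_neg]
      rw [h2]
      exact eLpNorm_mono_measure _ Measure.restrict_le_self
    exact le_antisymm (ge_of_tendsto' h h1) zero_le
  rw [eLpNorm_eq_zero_iff hv.restrict (by norm_num)] at h0
  have h3 := (ae_restrict_iff' hK.compl).mp h0
  filter_upwards [h3] with x hx hxK
  exact hx hxK

theorem carleman_adm (hn : 3 ≤ n) (A : Cliff n S) : ∃ C : ℝ≥0,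
    ∀ (k : E n) (v f : E n → S) (T : Set (E n)), k ≠ 0 → Adm A v f →
      MeasurableSet T → volume T ≠ ⊤ →
      eLpNorm (fun x => Real.exp (inner ℝ k x) • v x) 2 (volume.restrict T) ≤
        C * (1 + ‖k‖ₑ * volume T ^ (1 / (n : ℝ))) *
          eLpNorm (fun x => Real.exp (inner ℝ k x) • f x) (pe n) volume := by
  obtain ⟨C, hC⟩ := carleman_smooth (n := n) hn A
  refine ⟨C, ?_⟩
  intro k v f T hk had hT hTf
  obtain ⟨K, φ, hK, hsm, hsupp, hlv, hlf⟩ := had.approx
  have hcs : ∀ i, HasCompactSupport (φ i) := fun i =>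
    hK.of_isClosed_subset (isClosed_tsupport _) (hsupp i)
  have hφ0 : ∀ i, ∀ x ∉ K, φ i x = 0 := fun i x hx =>
    image_eq_zero_of_notMem_tsupport fun h => hx (hsupp i h)
  have hDφ0 : ∀ i, ∀ x ∉ K, A.D (φ i) x = 0 := fun i x hx =>
    image_eq_zero_of_notMem_tsupport fun h => hx (hsupp i (tsupport_D_subset A _ h))
  have hvK := ae_zero_of_limit hK.measurableSet had.memv.1 hφ0 hlv
  have hfK := ae_zero_of_limit hK.measurableSet had.memf.1 hDφ0 hlf
  -- bound of the weight on K
  have hwc : Continuous (fun x : E n => Real.exp (inner ℝ k x)) := by fun_prop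
  obtain ⟨M, hM⟩ := hK.exists_bound_of_continuousOn hwc.continuousOn
  have hM' : ∀ x ∈ K, ‖Real.exp (inner ℝ k x)‖ ≤ (M.toNNReal : ℝ) := fun x hx =>
    (hM x hx).trans (Real.le_coe_toNNReal M)
  have hφm : ∀ i, AEStronglyMeasurable (φ i) volume := fun i =>
    (hsm i).continuous.aestronglyMeasurable
  have hDm : ∀ i, AEStronglyMeasurable (A.D (φ i)) volume := fun i =>
    (contDiff_D A (hsm i)).continuous.aestronglyMeasurable
  have hwm : AEStronglyMeasurable (fun x : E n => Real.exp (inner ℝ k x)) volume :=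
    hwc.aestronglyMeasurable
  set Q : ℝ≥0∞ := C * (1 + ‖k‖ₑ * volume T ^ (1 / (n : ℝ))) with hQ
  have hQtop : Q ≠ ⊤ := by
    rw [hQ]
    refine ENNReal.mul_ne_top ENNReal.coe_ne_top ?_
    refine ENNReal.add_ne_top.mpr ⟨ENNReal.one_ne_top, ?_⟩
    refine ENNReal.mul_ne_top (by simp) ?_
    exact ENNReal.rpow_ne_top_of_nonneg (by positivity) hTf
  set R : ℝ≥0∞ := eLpNorm (fun x => Real.exp (inner ℝ k x) • f x) (pe n) volume with hR
  -- p between 1 and 2
  have hn' : (3 : ℝ) ≤ n := by exact_mod_cast hn
  have hp1 : 1 ≤ pe n := by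
    unfold pe
    rw [← ENNReal.ofReal_one]
    apply ENNReal.ofReal_le_ofReal
    rw [le_div_iff₀ (by linarith)]
    linarith
  have hp2 : pe n ≤ 2 := by
    unfold pe
    rw [show (2 : ℝ≥0∞) = ENNReal.ofReal 2 by simp]
    apply ENNReal.ofReal_le_ofReal
    rw [div_le_iff₀ (by linarith)]
    linarith
  set V : ℝ≥0∞ := volume K ^ (1 / (pe n).toReal - 1 / (2 : ℝ≥0∞).toReal) with hV
  have hVtop : V ≠ ⊤ := by
    rw [hV]
    apply ENNReal.rpow_ne_top_of_nonneg _ hK.measure_lt_top.ne
    rw [sub_nonneg]
    apply one_div_le_one_div_of_le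
    · apply ENNReal.toReal_pos
      · exact (lt_of_lt_of_le zero_lt_one hp1).ne'
      · exact (lt_of_le_of_lt hp2 (by simp)).ne
    · exact ENNReal.toReal_mono (by simp) hp2
  -- bounds
  have hb : ∀ i, eLpNorm (fun x => Real.exp (inner ℝ k x) • v x) 2 (volume.restrict T) ≤
      M.toNNReal * eLpNorm (fun x => φ i x - v x) 2 volume +
      Q * (R + M.toNNReal * (eLpNorm (fun x => A.D (φ i) x - f x) 2 volume * V)) := by
    intro i
    have e1 : eLpNorm (fun x => Real.exp (inner ℝ k x) • v x) 2 (volume.restrict T) ≤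
        eLpNorm (fun x => Real.exp (inner ℝ k x) • (v x - φ i x)) 2 (volume.restrict T) +
        eLpNorm (fun x => Real.exp (inner ℝ k x) • φ i x) 2 (volume.restrict T) := by
      have h1 : (fun x => Real.exp (inner ℝ k x) • v x) =
          (fun x => Real.exp (inner ℝ k x) • (v x - φ i x)) +
          (fun x => Real.exp (inner ℝ k x) • φ i x) := by
        funext x
        simp only [Pi.add_apply]
        rw [← smul_add, sub_add_cancel]
      rw [h1]
      apply eLpNorm_add_le
      · exact (hwm.smul (had.memv.1.sub (hφm i))).restrict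
      · exact (hwm.smul (hφm i)).restrict
      · norm_num
    have e2 : eLpNorm (fun x => Real.exp (inner ℝ k x) • (v x - φ i x)) 2 (volume.restrict T) ≤
        M.toNNReal * eLpNorm (fun x => φ i x - v x) 2 volume := by
      refine (eLpNorm_mono_measure _ Measure.restrict_le_self).trans ?_
      have := eLpNorm_le_nnreal_smul_eLpNorm_of_ae_le_mul
        (f := fun x => Real.exp (inner ℝ k x) • (v x - φ i x)) (g := fun x => φ i x - v x)
        (c := M.toNNReal) (μ := volume) (by
          filter_upwards [hvK] with x hx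
          by_cases hxK : x ∈ K
          · rw [← NNReal.coe_le_coe]
            push_cast
            rw [norm_smul, norm_sub_rev (φ i x)]
            exact mul_le_mul_of_nonneg_right (hM' x hxK) (norm_nonneg _)
          · rw [hx hxK, hφ0 i x hxK]; simp) 2
      simpa [ENNReal.smul_def] using this
    have e3 := hC k (φ i) T hk (hsm i) (hcs i) hT hTf
    have e4 : eLpNorm (fun x => Real.exp (inner ℝ k x) • A.D (φ i) x) (pe n) volume ≤
        R + M.toNNReal * (eLpNorm (fun x => A.D (φ i) x - f x) 2 volume * V) := by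
      have h1 : (fun x => Real.exp (inner ℝ k x) • A.D (φ i) x) =
          (fun x => Real.exp (inner ℝ k x) • f x) +
          (fun x => Real.exp (inner ℝ k x) • (A.D (φ i) x - f x)) := by
        funext x
        simp only [Pi.add_apply]
        rw [← smul_add, add_sub_cancel]
      rw [h1]
      refine (eLpNorm_add_le (hwm.smul had.memf.1) (hwm.smul ((hDm i).sub had.memf.1)) hp1).trans ?_
      refine add_le_add le_rfl ?_
      have h2 : eLpNorm (fun x => Real.exp (inner ℝ k x) • (A.D (φ i) x - f x)) (pe n) volume ≤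
          M.toNNReal * eLpNorm (fun x => A.D (φ i) x - f x) (pe n) volume := by
        have := eLpNorm_le_nnreal_smul_eLpNorm_of_ae_le_mul
          (f := fun x => Real.exp (inner ℝ k x) • (A.D (φ i) x - f x))
          (g := fun x => A.D (φ i) x - f x)
          (c := M.toNNReal) (μ := volume) (by
            filter_upwards [hfK] with x hx
            by_cases hxK : x ∈ K
            · rw [← NNReal.coe_le_coe]
              push_cast
              rw [norm_smul]
              exact mul_le_mul_of_nonneg_right (hM' x hxK) (norm_nonneg _)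
            · rw [hx hxK, hDφ0 i x hxK]; simp) (pe n)
        simpa [ENNReal.smul_def] using this
      refine h2.trans (mul_le_mul_right (a := (M.toNNReal : ℝ≥0∞)) ?_)
      have h3 : eLpNorm (fun x => A.D (φ i) x - f x) (pe n) volume =
          eLpNorm (fun x => A.D (φ i) x - f x) (pe n) (volume.restrict K) := by
        rw [← eLpNorm_indicator_eq_eLpNorm_restrict hK.measurableSet]
        apply eLpNorm_congr_ae
        filter_upwards [hfK] with x hx
        by_cases hxK : x ∈ K
        · simp [hxK]
        · simp [hxK, hx hxK, hDφ0 i x hxK]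
      rw [h3]
      refine (eLpNorm_le_eLpNorm_mul_rpow_measure_univ hp2
        (((hDm i).sub had.memf.1).restrict)).trans ?_
      rw [Measure.restrict_apply_univ]
      refine mul_le_mul_left (a := V) ?_
      exact eLpNorm_mono_measure _ Measure.restrict_le_self
    refine e1.trans (add_le_add e2 (e3.trans ?_))
    exact mul_le_mul_right (a := Q) e4
  have hlim : Tendsto (fun i => (M.toNNReal : ℝ≥0∞) * eLpNorm (fun x => φ i x - v x) 2 volume +
      Q * (R + M.toNNReal * (eLpNorm (fun x => A.D (φ i) x - f x) 2 volume * V))) atTop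
      (𝓝 ((M.toNNReal : ℝ≥0∞) * 0 + Q * (R + M.toNNReal * (0 * V)))) := by
    refine Tendsto.add (ENNReal.Tendsto.const_mul hlv (Or.inr ENNReal.coe_ne_top)) ?_
    refine ENNReal.Tendsto.const_mul ?_ (Or.inr hQtop)
    refine Tendsto.const_add _ ?_
    refine ENNReal.Tendsto.const_mul ?_ (Or.inr ENNReal.coe_ne_top)
    exact ENNReal.Tendsto.mul_const hlf (Or.inr hVtop)
  have := ge_of_tendsto' hlim hb
  simpa using this

end DiracUCP
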