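import Pool.Agent.W_MP_23c0ba_an.CarlUnit

/-! The Carleman inequality for smooth compactly supported functions (scaling). -/

set_option autoImplicit false

open MeasureTheory Metric Set Filter Topology
open scoped ENNReal ContDiff NNReal FourierTransform ComplexConjugate

namespace DiracUCP

variable {n : ℕ} {S : Type} [NormedAddCommGroup S] [InnerProductSpace ℂ S]
  [FiniteDimensional ℂ S] [CompleteSpace S]

/-- Scaling of `Lᵖ` norms on a preimage. -/
private theorem eLpNorm_comp_scale {X : Type} [NormedAddCommGroup X] (G : E n → X) {l : ℝ}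
    (hl : 0 < l) (p : ℝ≥0∞) (T : Set (E n)) :
    eLpNorm (fun x => G (l⁻¹ • x)) p (volume.restrict ((fun x : E n => l⁻¹ • x) ⁻¹' T)) =
      (ENNReal.ofReal l ^ n) ^ (1 / p).toReal * eLpNorm G p (volume.restrict T) := by
  have hl' : l⁻¹ ≠ 0 := inv_ne_zero hl.ne'
  have hemb : MeasurableEmbedding (fun x : E n => l⁻¹ • x) :=
    (Homeomorph.smul (isUnit_iff_ne_zero.2 hl').unit).measurableEmbedding
  have h1 := hemb.eLpNorm_map_measure (g := G) (p := p)
    (μ := volume.restrict ((fun x : E n => l⁻¹ • x) ⁻¹' T))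
  rw [← hemb.restrict_map, Measure.map_addHaar_smul volume hl', Measure.restrict_smul,
    finrank_euclideanSpace_fin] at h1
  have hc : ENNReal.ofReal |(l⁻¹ ^ n)⁻¹| = ENNReal.ofReal l ^ n := by
    rw [inv_pow, inv_inv, abs_of_nonneg (by positivity), ENNReal.ofReal_pow hl.le]
  rw [hc] at h1
  have hne : ENNReal.ofReal l ^ n ≠ 0 := pow_ne_zero _ (by simpa using hl)
  rw [eLpNorm_smul_measure_of_ne_zero hne, smul_eq_mul] at h1
  exact h1.symm

theorem carleman_smooth (hn : 3 ≤ n) (A : Cliff n S) : ∃ C : ℝ≥0,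
    ∀ (k : E n) (φ : E n → S) (T : Set (E n)), k ≠ 0 → ContDiff ℝ ∞ φ → HasCompactSupport φ →
      MeasurableSet T → volume T ≠ ⊤ →
      eLpNorm (fun x => Real.exp (inner ℝ k x) • φ x) 2 (volume.restrict T) ≤
        C * (1 + ‖k‖ₑ * volume T ^ (1 / (n : ℝ))) *
          eLpNorm (fun x => Real.exp (inner ℝ k x) • A.D φ x) (pe n) volume := by
  obtain ⟨C, hC⟩ := carleman_unit hn A
  refine ⟨C, ?_⟩
  intro k φ T hk hφ hφc hT hTfin
  have hkn : 0 < ‖k‖ := norm_pos_iff.2 hk
  have hpi : 0 < 2 * Real.pi := by positivity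
  set l : ℝ := ‖k‖ / (2 * Real.pi) with hldef
  have hl : 0 < l := div_pos hkn hpi
  have hl' : l⁻¹ ≠ 0 := inv_ne_zero hl.ne'
  set e : E n := ‖k‖⁻¹ • k with hedef
  have hen : ‖e‖ = 1 := by
    rw [hedef, norm_smul, norm_inv, norm_norm, inv_mul_cancel₀ hkn.ne']
  have hek : (2 * Real.pi) • e = l⁻¹ • k := by
    rw [hedef, smul_smul, hldef, inv_div, div_eq_mul_inv]
  set ψ : E n → S := fun x => φ (l⁻¹ • x) with hψdef
  have hψ : ContDiff ℝ ∞ ψ := hφ.comp (contDiff_const_smul _)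
  have hψc : HasCompactSupport ψ :=
    hφc.comp_homeomorph (Homeomorph.smul (isUnit_iff_ne_zero.2 hl').unit)
  set G : E n → S := fun x => Real.exp (inner ℝ k x) • φ x with hG
  set H : E n → S := fun x => Real.exp (inner ℝ k x) • A.D φ x with hH
  have hinner : ∀ x : E n, inner ℝ ((2 * Real.pi) • e) x = inner ℝ k (l⁻¹ • x) := by
    intro x
    rw [hek, inner_smul_left, inner_smul_right]
    simp
  set w : E n → S := fun x => Real.exp (inner ℝ ((2 * Real.pi) • e) x) • ψ x with hw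
  have hwG : w = fun x => G (l⁻¹ • x) := by
    funext x
    simp only [hw, hG, hψdef, hinner]
  have hwD : A.conjF e w = l⁻¹ • fun x => H (l⁻¹ • x) := by
    funext x
    rw [hw, conjF_exp A e (hψ.contDiffAt.differentiableAt (by simp)), hinner]
    rw [hψdef, D_scale, Pi.smul_apply, hH, smul_comm]
  have hws : ContDiff ℝ ∞ w := by
    have h1 : ContDiff ℝ ∞ (fun x : E n => Real.exp (inner ℝ ((2 * Real.pi) • e) x)) :=
      Real.contDiff_exp.comp (innerSL ℝ ((2 * Real.pi) • e)).contDiff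
    exact h1.smul hψ
  have hwc : HasCompactSupport w := hψc.smul_left
  have hcont : Measurable (fun x : E n => l⁻¹ • x) := measurable_const_smul _
  have hT' : MeasurableSet ((fun x : E n => l⁻¹ • x) ⁻¹' T) := hcont hT
  have hc : ENNReal.ofReal |(l⁻¹ ^ n)⁻¹| = ENNReal.ofReal l ^ n := by
    rw [inv_pow, inv_inv, abs_of_nonneg (by positivity), ENNReal.ofReal_pow hl.le]
  have hvol : volume ((fun x : E n => l⁻¹ • x) ⁻¹' T) = ENNReal.ofReal l ^ n * volume T := by
    rw [Measure.addHaar_preimage_smul volume hl', finrank_euclideanSpace_fin, hc]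
  have hLtop : ENNReal.ofReal l ≠ ⊤ := ENNReal.ofReal_ne_top
  have hL0 : ENNReal.ofReal l ≠ 0 := by simpa using hl
  have key := hC e w _ hen hws hwc hT' (by
    rw [hvol]; exact ENNReal.mul_ne_top (ENNReal.pow_ne_top hLtop) hTfin)
  rw [hwD, eLpNorm_const_smul, hvol, hwG, eLpNorm_comp_scale G hl] at key
  have hH2 := eLpNorm_comp_scale H hl (pe n) univ
  rw [preimage_univ, Measure.restrict_univ] at hH2
  rw [hH2] at key
  have hn0 : (n : ℝ) ≠ 0 := by
    have : 0 < n := by omega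
    exact_mod_cast this.ne'
  have hpe : (1 / pe n).toReal = (n + 2) / (2 * n) := by
    have : (0 : ℝ) ≤ 2 * n / (n + 2) := by positivity
    rw [one_div, ENNReal.toReal_inv, pe, ENNReal.toReal_ofReal this, inv_div]
  have h2 : (1 / (2 : ℝ≥0∞)).toReal = 1 / 2 := by simp
  rw [hpe, h2] at key
  set L := ENNReal.ofReal l with hLdef
  have e1 : (L ^ n) ^ (1 / 2 : ℝ) = L ^ ((n : ℝ) / 2) := by
    rw [← ENNReal.rpow_natCast, ← ENNReal.rpow_mul]
    congr 1
    ring
  have e2 : (L ^ n) ^ (((n : ℝ) + 2) / (2 * n)) = L ^ ((n : ℝ) / 2) * L := by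
    rw [← ENNReal.rpow_natCast, ← ENNReal.rpow_mul]
    conv_rhs => rw [← ENNReal.rpow_one L, ← ENNReal.rpow_mul, ← ENNReal.rpow_add _ _ hL0 hLtop]
    congr 1
    field_simp
  have e3 : (L ^ n * volume T) ^ (1 / (n : ℝ)) = L * volume T ^ (1 / (n : ℝ)) := by
    rw [ENNReal.mul_rpow_of_nonneg _ _ (by positivity), ← ENNReal.rpow_natCast,
      ← ENNReal.rpow_mul, mul_one_div_cancel hn0, ENNReal.rpow_one]
  have e4 : ‖l⁻¹‖ₑ = L⁻¹ := by
    rw [← ofReal_norm, norm_inv, Real.norm_of_nonneg hl.le, ENNReal.ofReal_inv_of_pos hl]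
  rw [e1, e2, e3, e4] at key
  have hM0 : L ^ ((n : ℝ) / 2) ≠ 0 := by
    simp [ENNReal.rpow_eq_zero_iff, hL0, hLtop]
  have hMtop : L ^ ((n : ℝ) / 2) ≠ ⊤ := ENNReal.rpow_ne_top_of_nonneg (by positivity) hLtop
  have key2 : L ^ ((n : ℝ) / 2) * eLpNorm G 2 (volume.restrict T) ≤
      L ^ ((n : ℝ) / 2) * (C * (1 + L * volume T ^ (1 / (n : ℝ))) * eLpNorm H (pe n) volume) := by
    refine key.trans (le_of_eq ?_)
    have : L⁻¹ * (L ^ ((n : ℝ) / 2) * L * eLpNorm H (pe n) volume) =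
        (L⁻¹ * L) * (L ^ ((n : ℝ) / 2) * eLpNorm H (pe n) volume) := by ring
    rw [this, ENNReal.inv_mul_cancel hL0 hLtop]
    ring
  have key3 := (ENNReal.mul_le_mul_iff_right hM0 hMtop).1 key2
  refine key3.trans ?_
  gcongr
  rw [hLdef, ← ofReal_norm]
  refine ENNReal.ofReal_le_ofReal ?_
  rw [hldef]
  refine div_le_self hkn.le ?_
  have := Real.pi_gt_three
  linarith

end DiracUCP
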