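import Pool.Agent.W_MP_23c0ba_an.Alg
import Pool.Agent.W_MP_fd6526_gt.Plancherel

/-! Fourier transform of spinor valued functions and the Dirac operator. -/

set_option autoImplicit false

open MeasureTheory Metric Set Filter Topology
open scoped ENNReal ContDiff NNReal FourierTransform ComplexConjugate

namespace DiracUCP

variable {n : ℕ} {S : Type} [NormedAddCommGroup S] [InnerProductSpace ℂ S]
  [FiniteDimensional ℂ S] [CompleteSpace S]

/-- The Fourier transform commutes with `⟪b, ·⟫`. -/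
theorem inner_fourier (F : E n → S) (hF : Integrable F) (b : S) (ξ : E n) :
    inner ℂ b (𝓕 F ξ) = 𝓕 (fun x => (inner ℂ b (F x) : ℂ)) ξ := by
  rw [Real.fourier_eq', Real.fourier_eq']
  have hint : Integrable (fun v : E n =>
      Complex.exp ((↑(-2 * Real.pi * inner ℝ v ξ) * Complex.I)) • F v) := by
    have := (Real.fourierIntegral_convergent_iff (f := F) (μ := volume) ξ).2 hF
    simpa [Circle.smul_def, Real.fourierChar_apply, mul_neg, neg_mul] using this
  have h := ((innerSL ℂ) b).integral_comp_comm hint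
  simp only [innerSL_apply_apply] at h
  rw [← h]
  refine integral_congr_ae (Eventually.of_forall fun x => ?_)
  simp only [inner_smul_right, smul_eq_mul]

/-- The Fourier transform commutes with continuous linear maps. -/
theorem clm_fourier (T : S →L[ℂ] S) (F : E n → S) (hF : Integrable F) (ξ : E n) :
    T (𝓕 F ξ) = 𝓕 (fun x => T (F x)) ξ := by
  rw [Real.fourier_eq', Real.fourier_eq']
  have hint : Integrable (fun v : E n =>
      Complex.exp ((↑(-2 * Real.pi * inner ℝ v ξ) * Complex.I)) • F v) := by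
    have := (Real.fourierIntegral_convergent_iff (f := F) (μ := volume) ξ).2 hF
    simpa [Circle.smul_def, Real.fourierChar_apply, mul_neg, neg_mul] using this
  have h := T.integral_comp_comm hint
  rw [← h]
  refine integral_congr_ae (Eventually.of_forall fun x => ?_)
  simp only [map_smul]

/-- The Fourier transform of a partial derivative. -/
theorem fourier_pderiv {w : E n → S} (hw : ContDiff ℝ ∞ w) (hc : HasCompactSupport w) (v ξ : E n) :
    𝓕 (fun x => fderiv ℝ w x v) ξ =
      ((2 * Real.pi * (inner ℝ ξ v : ℝ) : ℂ) * Complex.I) • 𝓕 w ξ := by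
  have hI : Integrable w := hw.continuous.integrable_of_hasCompactSupport hc
  have hd : Differentiable ℝ w := hw.differentiable (by simp)
  have hcd : Continuous (fderiv ℝ w) := hw.continuous_fderiv (by simp)
  have hI' : Integrable (fderiv ℝ w) := hcd.integrable_of_hasCompactSupport (hc.fderiv ℝ)
  have h := Real.fourier_fderiv hI hd hI'
  have h1 : 𝓕 (fderiv ℝ w) ξ v = 𝓕 (fun x => fderiv ℝ w x v) ξ :=
    VectorFourier.fourierIntegral_continuousLinearMap_apply (L := innerSL ℝ)
      Real.continuous_fourierChar hI'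
  rw [← h1, h]
  change -(2 * Real.pi * Complex.I) • ((-innerSL ℝ : E n →L[ℝ] E n →L[ℝ] ℝ) ξ v) • 𝓕 w ξ = _
  rw [neg_apply, neg_apply, innerSL_apply_apply, ← Complex.coe_smul, smul_smul]
  congr 1
  push_cast
  ring

theorem fourier_conj (A : Cliff n S) {e : E n} (he : ‖e‖ = 1) {w : E n → S}
    (hw : ContDiff ℝ ∞ w) (hc : HasCompactSupport w) (ξ : E n) :
    Complex.I • A.c ξ (𝓕 (A.conjF e w) ξ) - A.c e (𝓕 (A.conjF e w) ξ) =
      (2 * Real.pi * aSym e ξ) • 𝓕 w ξ := by
  have hI : Integrable w := hw.continuous.integrable_of_hasCompactSupport hc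
  have hD : Continuous (A.D w) := (contDiff_D A hw).continuous
  have hDI : Integrable (A.D w) := hD.integrable_of_hasCompactSupport (hasCompactSupport_D A hc)
  -- the Fourier transform of `D w`
  have h1 : 𝓕 (A.D w) ξ = ((2 * Real.pi : ℝ) * Complex.I : ℂ) • A.c ξ (𝓕 w ξ) := by
    have hj : ∀ j : Fin n, Integrable (fun x => A.α j (fderiv ℝ w x (bv j))) := by
      intro j
      have hc1 : Continuous (fun x => A.α j (fderiv ℝ w x (bv j))) :=
        (A.α j).continuous.comp ((hw.continuous_fderiv (by simp)).clm_apply continuous_const)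
      refine hc1.integrable_of_hasCompactSupport ?_
      have := (hc.fderiv_apply ℝ (bv j))
      exact this.comp_left (g := fun y => A.α j y) (map_zero _)
    have h2 : 𝓕 (A.D w) ξ = ∑ j, 𝓕 (fun x => A.α j (fderiv ℝ w x (bv j))) ξ := by
      simp only [Real.fourier_eq]
      rw [← integral_finsetSum]
      · refine integral_congr_ae (Eventually.of_forall fun x => ?_)
        simp only [Cliff.D, Finset.smul_sum]
      · intro j _
        exact (Real.fourierIntegral_convergent_iff (μ := volume) ξ).2 (hj j)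
    rw [h2, c_apply, Finset.smul_sum]
    refine Finset.sum_congr rfl fun j _ => ?_
    have hI1 : Integrable (fun x => fderiv ℝ w x (bv j)) :=
      ((hw.continuous_fderiv (by simp)).clm_apply continuous_const).integrable_of_hasCompactSupport
        (hc.fderiv_apply ℝ (bv j))
    rw [← clm_fourier (A.α j) _ hI1 ξ, fourier_pderiv hw hc, map_smul, smul_smul]
    congr 1
    simp only [bv, EuclideanSpace.inner_single_right]
    simp
    ring
  have h3 : 𝓕 (A.conjF e w) ξ = ((2 * Real.pi : ℝ) : ℂ) • (Complex.I • A.c ξ (𝓕 w ξ) - A.c e (𝓕 w ξ)) := by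
    have h4 : 𝓕 (A.conjF e w) ξ = 𝓕 (A.D w) ξ - 𝓕 (fun x => (((2 * Real.pi : ℝ) : ℂ) • A.c e) (w x)) ξ := by
      have hI2 : Integrable (fun x => (((2 * Real.pi : ℝ) : ℂ) • A.c e) (w x)) :=
        (((2 * Real.pi : ℝ) : ℂ) • A.c e).integrable_comp hI
      simp only [Real.fourier_eq]
      rw [← integral_sub ((Real.fourierIntegral_convergent_iff (μ := volume) ξ).2 hDI)
        ((Real.fourierIntegral_convergent_iff (μ := volume) ξ).2 hI2)]
      refine integral_congr_ae (Eventually.of_forall fun x => ?_)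
      simp only [Cliff.conjF, smul_sub]
      rfl
    rw [h4, h1, ← clm_fourier _ _ hI, smul_sub, smul_smul]
    rfl
  rw [h3]
  simp only [map_smul, map_sub, smul_sub]
  have c1 := c_c A e ξ (𝓕 w ξ)
  have c2 := c_sq A ξ (𝓕 w ξ)
  have c3 := c_sq A e (𝓕 w ξ)
  rw [c2, c3]
  have c4 : A.c e (A.c ξ (𝓕 w ξ)) = (-(2 * (inner ℝ e ξ : ℝ)) : ℂ) • 𝓕 w ξ - A.c ξ (A.c e (𝓕 w ξ)) := by
    rw [← c1]; abel
  rw [c4, he]
  simp only [smul_sub, smul_smul, aSym]
  have : ∀ (a b c d : ℂ) (u v : S), a • u - b • v - (c • u - b • v - d • u) = (a - c + d) • u := by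
    intro a b c d u v
    rw [add_smul, sub_smul]; abel
  have h5 : Complex.I * ↑(2 * Real.pi) = ↑(2 * Real.pi) * Complex.I := mul_comm _ _
  rw [h5]
  rw [this]
  congr 1
  push_cast
  linear_combination (2 * (Real.pi : ℂ) * (-(‖ξ‖ : ℂ) ^ 2)) * Complex.I_sq

theorem parseval {w : E n → S} (hw : ContDiff ℝ ∞ w) (hc : HasCompactSupport w) {G : E n → S}
    (hG : Integrable G) :
    ∫ x, inner ℂ (G x) (w x) = ∫ ξ, inner ℂ (𝓕 G ξ) (𝓕 w ξ) := by
  set W : SchwartzMap (E n) S := hc.toSchwartzMap hw with hWdef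
  have hWw : ∀ x, W x = w x := fun x => rfl
  have h1 := VectorFourier.integral_sesq_fourierIntegral_eq_neg_flip (μ := volume) (ν := volume)
    (L := innerₗ (E n)) (innerSL ℂ : S →L⋆[ℂ] S →L[ℂ] ℂ) Real.continuous_fourierChar
    continuous_inner (f := G) (g := (𝓕 W : SchwartzMap (E n) S)) hG (𝓕 W).integrable
  have h2 : VectorFourier.fourierIntegral Real.fourierChar volume (-(innerₗ (E n)).flip)
      ((𝓕 W : SchwartzMap (E n) S) : E n → S) = 𝓕⁻ ((𝓕 W : SchwartzMap (E n) S) : E n → S) := by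
    rw [flip_innerₗ]
    rfl
  rw [h2, ← SchwartzMap.fourierInv_coe] at h1
  have h3 : (𝓕⁻ (𝓕 W) : SchwartzMap (E n) S) = W := FourierTransform.fourierInv_fourier_eq W
  rw [h3] at h1
  exact h1.symm

theorem plancherel_vec {G : E n → S} (hG : Integrable G) (hG2 : MemLp G 2) :
    ∫⁻ ξ, ‖𝓕 G ξ‖ₑ ^ 2 = ∫⁻ x, ‖G x‖ₑ ^ 2 := by
  set b := stdOrthonormalBasis ℂ S
  have key : ∀ v : S, ‖v‖ₑ ^ 2 = ∑ i, ‖(inner ℂ (b i) v : ℂ)‖ₑ ^ 2 := by
    intro v
    have h := b.sum_sq_norm_inner_right v
    have h' : ENNReal.ofReal (‖v‖ ^ 2) = ENNReal.ofReal (∑ i, ‖(inner ℂ (b i) v : ℂ)‖ ^ 2) := by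
      rw [h]
    rw [ENNReal.ofReal_sum_of_nonneg (fun i _ => by positivity)] at h'
    simpa only [ENNReal.ofReal_pow (norm_nonneg _), ofReal_norm] using h'
  have hGi : ∀ i, Integrable (fun x => (inner ℂ (b i) (G x) : ℂ)) := fun i =>
    ((innerSL ℂ) (b i)).integrable_comp hG
  have hGm : ∀ i, MemLp (fun x => (inner ℂ (b i) (G x) : ℂ)) 2 := fun i =>
    ((innerSL ℂ) (b i)).comp_memLp' hG2
  have hcont : Continuous (𝓕 G) :=
    VectorFourier.fourierIntegral_continuous Real.continuous_fourierChar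
      (L := innerₗ (E n)) (by exact continuous_inner) hG
  simp only [key]
  rw [lintegral_finsetSum' _ (fun i _ => ?_), lintegral_finsetSum' _ (fun i _ => ?_)]
  · refine Finset.sum_congr rfl fun i _ => ?_
    rw [← Pool.Agent.W_MP_fd6526_gt.lintegral_fourier_sq _ (hGi i) (hGm i)]
    refine lintegral_congr fun ξ => ?_
    rw [inner_fourier G hG]
  · exact ((hGi i).aestronglyMeasurable.enorm.pow_const 2)
  · exact ((((innerSL ℂ) (b i)).continuous.comp hcont).enorm.measurable.pow_const 2).aemeasurable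

end DiracUCP
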