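import Pool.Agent.W_MP_23c0ba_an.SobDual
import Pool.Agent.W_MP_23c0ba_an.FourierD

/-! The high frequency part. -/

set_option autoImplicit false

open MeasureTheory Metric Set Filter Topology
open scoped ENNReal ContDiff NNReal FourierTransform ComplexConjugate

namespace DiracUCP

variable {n : ℕ} {S : Type} [NormedAddCommGroup S] [InnerProductSpace ℂ S]
  [FiniteDimensional ℂ S] [CompleteSpace S]

theorem norm_one_sub_exp_le (a : ℂ) (ha : -1 ≤ a.re) :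
    ‖1 - Complex.exp (-a)‖ ≤ Real.exp 1 * ‖a‖ := by
  have hs : Convex ℝ {z : ℂ | z.re ≤ 1} := convex_halfSpace_re_le 1
  have h := hs.norm_image_sub_le_of_norm_deriv_le (𝕜 := ℂ) (f := Complex.exp) (C := Real.exp 1)
    (x := -a) (y := 0)
    (fun x _ => Complex.differentiableAt_exp) (fun x hx => by
      rw [Complex.deriv_exp, Complex.norm_exp]
      exact Real.exp_le_exp.mpr hx) (by simp; linarith) (by simp)
  simpa using h

theorem aSym_re (e ξ : E n) : (aSym e ξ).re = ‖ξ‖ ^ 2 - 1 := by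
  simp [aSym]
  norm_cast

theorem high_pointwise (A : Cliff n S) {e : E n} (he : ‖e‖ = 1) {w : E n → S}
    (hw : ContDiff ℝ ∞ w) (hc : HasCompactSupport w) (ξ : E n) :
    ‖ξ‖ * (‖1 - Complex.exp (-aSym e ξ)‖ * ‖𝓕 w ξ‖) ≤ 3 * ‖𝓕 (A.conjF e w) ξ‖ := by
  set F := 𝓕 (A.conjF e w) ξ with hF
  set a := aSym e ξ with ha
  have h1 := fourier_conj A he hw hc ξ
  have h2 : 2 * Real.pi * ‖a‖ * ‖𝓕 w ξ‖ ≤ (‖ξ‖ + 1) * ‖F‖ := by
    have h3 : ‖(2 * Real.pi * a) • 𝓕 w ξ‖ = 2 * Real.pi * ‖a‖ * ‖𝓕 w ξ‖ := by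
      rw [norm_smul, norm_mul, norm_mul]
      simp [abs_of_pos Real.pi_pos]
    rw [← h3, ← h1]
    refine (norm_sub_le _ _).trans ?_
    rw [norm_smul, norm_c, norm_c, he]
    simp
    linarith
  have hre := aSym_re e ξ
  rw [← ha] at hre
  have hpi : 3 < Real.pi := Real.pi_gt_three
  have hexp : Real.exp 1 < 2.7182818286 := Real.exp_one_lt_d9
  have hξ : 0 ≤ ‖ξ‖ := norm_nonneg _
  have hw0 : 0 ≤ ‖𝓕 w ξ‖ := norm_nonneg _
  have hF0 : 0 ≤ ‖F‖ := norm_nonneg _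
  rcases le_total ‖ξ‖ 2 with hcase | hcase
  · have h4 := norm_one_sub_exp_le a (by rw [hre]; nlinarith)
    have h5 : ‖1 - Complex.exp (-a)‖ * ‖𝓕 w ξ‖ ≤ Real.exp 1 * ‖a‖ * ‖𝓕 w ξ‖ :=
      mul_le_mul_of_nonneg_right h4 hw0
    have h6 : 6 * (‖a‖ * ‖𝓕 w ξ‖) ≤ 3 * ‖F‖ := by
      have : 6 * (‖a‖ * ‖𝓕 w ξ‖) ≤ 2 * Real.pi * ‖a‖ * ‖𝓕 w ξ‖ := by
        have h0 : 0 ≤ ‖a‖ * ‖𝓕 w ξ‖ := by positivity
        nlinarith
      have h7 : (‖ξ‖ + 1) * ‖F‖ ≤ 3 * ‖F‖ := by nlinarith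
      linarith
    have h8 : ‖1 - Complex.exp (-a)‖ * ‖𝓕 w ξ‖ ≤ 3 / 2 * ‖F‖ := by
      have h0 : 0 ≤ ‖a‖ * ‖𝓕 w ξ‖ := by positivity
      nlinarith
    have h9 : 0 ≤ ‖1 - Complex.exp (-a)‖ * ‖𝓕 w ξ‖ := by positivity
    nlinarith
  · have h4 : ‖1 - Complex.exp (-a)‖ ≤ 2 := by
      refine (norm_sub_le _ _).trans ?_
      rw [norm_one, Complex.norm_exp]
      have : Real.exp (-a).re ≤ 1 := by
        rw [Real.exp_le_one_iff, Complex.neg_re, hre]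
        nlinarith
      linarith
    have h5 : ‖ξ‖ ^ 2 * (3 / 4) ≤ ‖a‖ := by
      have := Complex.re_le_norm a
      rw [hre] at this
      nlinarith
    have h6 : ‖ξ‖ * (‖ξ‖ * ‖𝓕 w ξ‖) * (9 / 2) ≤ ‖ξ‖ * (3 / 2 * ‖F‖) := by
      have h7 : 6 * (‖ξ‖ ^ 2 * (3 / 4)) * ‖𝓕 w ξ‖ ≤ 2 * Real.pi * ‖a‖ * ‖𝓕 w ξ‖ := by
        refine mul_le_mul_of_nonneg_right ?_ hw0
        have : 0 ≤ ‖ξ‖ ^ 2 * (3 / 4) := by positivity
        nlinarith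
      have h8 : (‖ξ‖ + 1) * ‖F‖ ≤ ‖ξ‖ * (3 / 2 * ‖F‖) := by nlinarith
      nlinarith
    have h7 : (‖ξ‖ * ‖𝓕 w ξ‖) * (9 / 2) ≤ (3 / 2 * ‖F‖) := by
      have : 0 < ‖ξ‖ := by linarith
      have h8 : ‖ξ‖ * ((‖ξ‖ * ‖𝓕 w ξ‖) * (9 / 2)) ≤ ‖ξ‖ * (3 / 2 * ‖F‖) := by linarith
      exact le_of_mul_le_mul_left h8 this
    have h8 : ‖ξ‖ * (‖1 - Complex.exp (-a)‖ * ‖𝓕 w ξ‖) ≤ 2 * (‖ξ‖ * ‖𝓕 w ξ‖) := by
      have : ‖1 - Complex.exp (-a)‖ * ‖𝓕 w ξ‖ ≤ 2 * ‖𝓕 w ξ‖ := mul_le_mul_of_nonneg_right h4 hw0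
      have h9 := mul_le_mul_of_nonneg_left this hξ
      linarith
    linarith

theorem high_bound (hn : 3 ≤ n) (A : Cliff n S) : ∃ C : ℝ, 0 ≤ C ∧
    ∀ (e : E n) (w G : E n → S), ‖e‖ = 1 → ContDiff ℝ ∞ w →
      HasCompactSupport w → Nice volume G →
      ‖∫ ξ : E n, (1 - Complex.exp (-aSym e ξ)) * inner ℂ (𝓕 G ξ) (𝓕 w ξ)‖ ≤
      C * (eLpNorm (A.conjF e w) (pe n) volume).toReal * (eLpNorm G 2 volume).toReal := by
  obtain ⟨C1, hC1⟩ := sobolev_dual (n := n) hn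
  set b := stdOrthonormalBasis ℂ S with hb
  set d : ℕ := Module.finrank ℂ S with hd
  have : Nontrivial (E n) := by
    have : Nonempty (Fin n) := ⟨⟨0, by omega⟩⟩
    infer_instance
  refine ⟨3 * (d * C1), by positivity, ?_⟩
  intro e w G he hw hc hG
  set F := A.conjF e w with hF
  have hFs : ContDiff ℝ ∞ F := contDiff_conjF A e hw
  have hFc : HasCompactSupport F := hasCompactSupport_conjF A e hc
  have hFI : Integrable F := hFs.continuous.integrable_of_hasCompactSupport hFc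
  have key : ∀ v : S, ‖v‖ₑ ^ 2 = ∑ i, ‖(inner ℂ (b i) v : ℂ)‖ₑ ^ 2 := by
    intro v
    have h := b.sum_sq_norm_inner_right v
    have h' : ENNReal.ofReal (‖v‖ ^ 2) = ENNReal.ofReal (∑ i, ‖(inner ℂ (b i) v : ℂ)‖ ^ 2) := by
      rw [h]
    rw [ENNReal.ofReal_sum_of_nonneg (fun i _ => by positivity)] at h'
    simpa only [ENNReal.ofReal_pow (norm_nonneg _), ofReal_norm] using h'
  have hcontF : Continuous (𝓕 F) :=
    VectorFourier.fourierIntegral_continuous Real.continuous_fourierChar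
      (L := innerₗ (E n)) (by exact continuous_inner) hFI
  have hcontG : Continuous (𝓕 G) :=
    VectorFourier.fourierIntegral_continuous Real.continuous_fourierChar
      (L := innerₗ (E n)) (by exact continuous_inner) hG.int
  -- the weighted bound for F
  have hX : ∫⁻ ξ, (‖ξ‖ₑ⁻¹ * ‖𝓕 F ξ‖ₑ) ^ 2 ≤ (d * C1 * eLpNorm F (pe n) volume) ^ 2 := by
    have h1 : ∀ ξ, (‖ξ‖ₑ⁻¹ * ‖𝓕 F ξ‖ₑ) ^ 2 =
        ∑ i, (‖ξ‖ₑ⁻¹ * ‖𝓕 (fun x => (inner ℂ (b i) (F x) : ℂ)) ξ‖ₑ) ^ 2 := by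
      intro ξ
      rw [mul_pow, key, Finset.mul_sum]
      refine Finset.sum_congr rfl fun i _ => ?_
      rw [mul_pow, inner_fourier F hFI]
    simp only [h1]
    rw [lintegral_finsetSum' _ (fun i _ => ?_)]
    · have h2 : ∀ i, ∫⁻ ξ, (‖ξ‖ₑ⁻¹ * ‖𝓕 (fun x => (inner ℂ (b i) (F x) : ℂ)) ξ‖ₑ) ^ 2 ≤
          (C1 * eLpNorm F (pe n) volume) ^ 2 := by
        intro i
        refine (hC1 _ ?_ ?_).trans ?_
        · exact (((innerSL ℂ) (b i)).restrictScalars ℝ).contDiff.comp hFs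
        · exact hFc.comp_left (g := fun y => (inner ℂ (b i) y : ℂ)) (inner_zero_right _)
        · gcongr
          refine eLpNorm_mono fun x => ?_
          refine (norm_inner_le_norm _ _).trans ?_
          rw [b.orthonormal.1 i, one_mul]
      refine (Finset.sum_le_sum fun i _ => h2 i).trans ?_
      rw [Finset.sum_const, Finset.card_univ, Fintype.card_fin, nsmul_eq_mul, mul_assoc (d : ℝ≥0∞),
        mul_pow (d : ℝ≥0∞)]
      refine mul_le_mul' ?_ le_rfl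
      have : d ≤ d ^ 2 := Nat.le_self_pow (by norm_num) d
      exact_mod_cast this
    · have h3 : Continuous (𝓕 (fun x => (inner ℂ (b i) (F x) : ℂ))) :=
        VectorFourier.fourierIntegral_continuous Real.continuous_fourierChar
          (L := innerₗ (E n)) (by exact continuous_inner) (((innerSL ℂ) (b i)).integrable_comp hFI)
      exact (((measurable_enorm.inv).mul h3.enorm.measurable).pow_const 2).aemeasurable
  have hY : ∫⁻ ξ, ‖𝓕 G ξ‖ₑ ^ 2 = (eLpNorm G 2 volume) ^ 2 := by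
    rw [plancherel_vec hG.int hG.mem, eLpNorm_eq_lintegral_rpow_enorm_toReal (by norm_num) (by norm_num)]
    rw [← ENNReal.rpow_natCast, ← ENNReal.rpow_mul]
    norm_num
  have hpt : ∀ᵐ ξ : E n, ‖(1 - Complex.exp (-aSym e ξ)) * inner ℂ (𝓕 G ξ) (𝓕 w ξ)‖ₑ ≤
      3 * ((‖ξ‖ₑ⁻¹ * ‖𝓕 F ξ‖ₑ) * ‖𝓕 G ξ‖ₑ) := by
    have h0 : ∀ᵐ ξ : E n, ξ ≠ 0 := by
      have : volume ({0} : Set (E n)) = 0 := measure_singleton 0
      exact compl_mem_ae_iff.mpr this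
    filter_upwards [h0] with ξ hξ
    have h1 := high_pointwise A he hw hc ξ
    have h2 : 0 < ‖ξ‖ := norm_pos_iff.mpr hξ
    have h3 : ‖(1 - Complex.exp (-aSym e ξ)) * inner ℂ (𝓕 G ξ) (𝓕 w ξ)‖ ≤
        3 * ((‖ξ‖⁻¹ * ‖𝓕 F ξ‖) * ‖𝓕 G ξ‖) := by
      rw [norm_mul]
      have h4 : ‖(inner ℂ (𝓕 G ξ) (𝓕 w ξ) : ℂ)‖ ≤ ‖𝓕 G ξ‖ * ‖𝓕 w ξ‖ := norm_inner_le_norm _ _
      have h5 : ‖1 - Complex.exp (-aSym e ξ)‖ * ‖𝓕 w ξ‖ ≤ ‖ξ‖⁻¹ * (3 * ‖𝓕 F ξ‖) := by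
        rw [le_inv_mul_iff₀ h2]
        exact h1
      calc ‖1 - Complex.exp (-aSym e ξ)‖ * ‖(inner ℂ (𝓕 G ξ) (𝓕 w ξ) : ℂ)‖
          ≤ ‖1 - Complex.exp (-aSym e ξ)‖ * (‖𝓕 G ξ‖ * ‖𝓕 w ξ‖) := by gcongr
        _ = (‖1 - Complex.exp (-aSym e ξ)‖ * ‖𝓕 w ξ‖) * ‖𝓕 G ξ‖ := by ring
        _ ≤ (‖ξ‖⁻¹ * (3 * ‖𝓕 F ξ‖)) * ‖𝓕 G ξ‖ := by gcongr
        _ = _ := by ring
    rw [← ofReal_norm, ← ofReal_norm ξ, ← ofReal_norm (𝓕 F ξ), ← ofReal_norm (𝓕 G ξ),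
      ← ENNReal.ofReal_inv_of_pos h2, ← ENNReal.ofReal_mul (by positivity),
      ← ENNReal.ofReal_mul (by positivity)]
    rw [show (3 : ℝ≥0∞) = ENNReal.ofReal 3 by simp, ← ENNReal.ofReal_mul (by norm_num)]
    exact ENNReal.ofReal_le_ofReal h3
  have hmain : ‖∫ ξ : E n, (1 - Complex.exp (-aSym e ξ)) * inner ℂ (𝓕 G ξ) (𝓕 w ξ)‖ₑ ≤
      3 * ((d * C1 * eLpNorm F (pe n) volume) * eLpNorm G 2 volume) := by
    refine (enorm_integral_le_lintegral_enorm _).trans ?_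
    refine (lintegral_mono_ae hpt).trans ?_
    rw [lintegral_const_mul' _ _ (by norm_num)]
    refine mul_le_mul_right ?_ _
    have hH := ENNReal.lintegral_mul_le_Lp_mul_Lq (volume : Measure (E n)) (p := 2) (q := 2)
      Real.HolderConjugate.two_two (f := fun ξ => ‖ξ‖ₑ⁻¹ * ‖𝓕 F ξ‖ₑ) (g := fun ξ => ‖𝓕 G ξ‖ₑ)
      ((measurable_enorm.inv).mul hcontF.enorm.measurable).aemeasurable
      hcontG.enorm.measurable.aemeasurable
    refine hH.trans ?_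
    have e1 : ∀ x : ℝ≥0∞, x ^ (2 : ℝ) = x ^ 2 := fun x => by
      rw [← ENNReal.rpow_natCast]; norm_num
    have e2 : ∀ x : ℝ≥0∞, (x ^ 2) ^ (1 / 2 : ℝ) = x := fun x => by
      rw [← ENNReal.rpow_natCast, ← ENNReal.rpow_mul]; norm_num
    simp only [e1]
    refine mul_le_mul' ?_ ?_
    · refine (ENNReal.rpow_le_rpow hX (by norm_num)).trans ?_
      rw [e2]
    · rw [hY, e2]
  have hFfin : eLpNorm F (pe n) volume ≠ ⊤ :=
    (hFs.continuous.memLp_of_hasCompactSupport hFc).eLpNorm_lt_top.ne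
  have hGfin : eLpNorm G 2 volume ≠ ⊤ := hG.mem.eLpNorm_lt_top.ne
  have hfin : 3 * ((d * C1 * eLpNorm F (pe n) volume) * eLpNorm G 2 volume) ≠ ⊤ := by
    refine ENNReal.mul_ne_top (by norm_num) (ENNReal.mul_ne_top (ENNReal.mul_ne_top ?_ hFfin) hGfin)
    exact ENNReal.mul_ne_top (ENNReal.natCast_ne_top _) ENNReal.coe_ne_top
  have := (ENNReal.toReal_le_toReal (by simp) hfin).mpr hmain
  rw [toReal_enorm] at this
  refine this.trans (le_of_eq ?_)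
  simp only [ENNReal.toReal_mul]
  simp
  ring

end DiracUCP
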