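import Pool.Agent.W_MP_23c0ba_an.Low
import Pool.Agent.W_MP_23c0ba_an.High

/-! The Carleman inequality with |k| = 2π. -/

set_option autoImplicit false

open MeasureTheory Metric Set Filter Topology
open scoped ENNReal ContDiff NNReal FourierTransform ComplexConjugate

namespace DiracUCP

variable {n : ℕ} {S : Type} [NormedAddCommGroup S] [InnerProductSpace ℂ S]
  [FiniteDimensional ℂ S] [CompleteSpace S]

omit [FiniteDimensional ℂ S] [CompleteSpace S] in
theorem CarlUnit_integrable_fourier {w : E n → S} (hw : ContDiff ℝ ∞ w)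
    (hc : HasCompactSupport w) : Integrable (𝓕 w) := by
  exact SchwartzMap.integrable (μ := volume) (𝓕 (hc.toSchwartzMap hw) : SchwartzMap (E n) S)

omit [FiniteDimensional ℂ S] [CompleteSpace S] in
theorem CarlUnit_continuous_fourier {G : E n → S} (hG : Integrable G) : Continuous (𝓕 G) :=
  VectorFourier.fourierIntegral_continuous Real.continuous_fourierChar
    (by exact (innerSL ℝ).continuous₂) hG

omit [FiniteDimensional ℂ S] [CompleteSpace S] in
theorem CarlUnit_norm_fourier_le (G : E n → S) (ξ : E n) : ‖𝓕 G ξ‖ ≤ ∫ x, ‖G x‖ :=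
  VectorFourier.norm_fourierIntegral_le_integral_norm _ _ _ _ _

theorem CarlUnit_norm_exp_le (e ξ : E n) : ‖Complex.exp (-aSym e ξ)‖ ≤ Real.exp 1 := by
  rw [Complex.norm_exp, Real.exp_le_exp, aSym]
  simp only [Complex.neg_re, Complex.add_re, Complex.ofReal_re, Complex.mul_re, Complex.re_ofNat,
    Complex.I_re, Complex.im_ofNat, Complex.I_im, Complex.ofReal_im, Complex.mul_im]
  nlinarith [sq_nonneg ‖ξ‖]

theorem CarlUnit_continuous_aSym (e : E n) : Continuous (aSym e) := by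
  unfold aSym
  fun_prop

theorem CarlUnit_integrable_inner {w G : E n → S} (hw : ContDiff ℝ ∞ w)
    (hc : HasCompactSupport w) (hG : Integrable G) :
    Integrable (fun ξ => (inner ℂ (𝓕 G ξ) (𝓕 w ξ) : ℂ)) := by
  have h1 := CarlUnit_integrable_fourier hw hc
  have hwi : Integrable w := hw.continuous.integrable_of_hasCompactSupport hc
  refine (h1.norm.const_mul (∫ x, ‖G x‖)).mono'
    ((CarlUnit_continuous_fourier hG).inner (CarlUnit_continuous_fourier hwi)).aestronglyMeasurable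
    (Eventually.of_forall fun ξ => ?_)
  exact (norm_inner_le_norm _ _).trans
    (mul_le_mul_of_nonneg_right (CarlUnit_norm_fourier_le G ξ) (norm_nonneg _))

theorem CarlUnit_integrable_exp {w G : E n → S} (e : E n) (hw : ContDiff ℝ ∞ w)
    (hc : HasCompactSupport w) (hG : Integrable G) :
    Integrable (fun ξ => Complex.exp (-aSym e ξ) * (inner ℂ (𝓕 G ξ) (𝓕 w ξ) : ℂ)) := by
  refine (CarlUnit_integrable_inner hw hc hG).bdd_mul (c := Real.exp 1)
    (Complex.continuous_exp.comp (CarlUnit_continuous_aSym e).neg).aestronglyMeasurable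
    (Eventually.of_forall fun ξ => CarlUnit_norm_exp_le e ξ)

theorem CarlUnit_hyperplane {e : E n} (he : ‖e‖ = 1) :
    volume {ξ : E n | (inner ℝ e ξ : ℝ) = 0} = 0 := by
  have h1 : {ξ : E n | (inner ℝ e ξ : ℝ) = 0} = (LinearMap.ker (innerₗ (E n) e) : Set (E n)) := by
    ext ξ
    simp
  rw [h1]
  refine Measure.addHaar_submodule _ _ ?_
  intro h2
  have h3 : e ∈ LinearMap.ker (innerₗ (E n) e) := by
    rw [h2]
    trivial
  simp only [LinearMap.mem_ker, innerₗ_apply_apply] at h3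
  rw [real_inner_self_eq_norm_sq, he] at h3
  norm_num at h3

theorem CarlUnit_split {w G : E n → S} {e : E n} (he : ‖e‖ = 1) (hw : ContDiff ℝ ∞ w)
    (hc : HasCompactSupport w) (hG : Integrable G) :
    ∫ ξ, (inner ℂ (𝓕 G ξ) (𝓕 w ξ) : ℂ) =
      (∫ ξ, (1 - Complex.exp (-aSym e ξ)) * (inner ℂ (𝓕 G ξ) (𝓕 w ξ) : ℂ)) +
      ((∫ ξ in {ξ : E n | 0 < (1 : ℝ) * (inner ℝ e ξ : ℝ)},
        Complex.exp (-aSym e ξ) * (inner ℂ (𝓕 G ξ) (𝓕 w ξ) : ℂ)) +
      (∫ ξ in {ξ : E n | 0 < (-1 : ℝ) * (inner ℝ e ξ : ℝ)},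
        Complex.exp (-aSym e ξ) * (inner ℂ (𝓕 G ξ) (𝓕 w ξ) : ℂ))) := by
  have hi := CarlUnit_integrable_inner hw hc hG
  have hf := CarlUnit_integrable_exp e hw hc hG
  have hm : MeasurableSet {ξ : E n | 0 < (1 : ℝ) * (inner ℝ e ξ : ℝ)} := by
    apply measurableSet_lt measurable_const
    fun_prop
  have h1 : (∫ ξ in {ξ : E n | 0 < (-1 : ℝ) * (inner ℝ e ξ : ℝ)},
        Complex.exp (-aSym e ξ) * (inner ℂ (𝓕 G ξ) (𝓕 w ξ) : ℂ)) =
      ∫ ξ in {ξ : E n | 0 < (1 : ℝ) * (inner ℝ e ξ : ℝ)}ᶜ,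
        Complex.exp (-aSym e ξ) * (inner ℂ (𝓕 G ξ) (𝓕 w ξ) : ℂ) := by
    refine setIntegral_congr_set ?_
    have h2 : ∀ᵐ ξ : E n, (inner ℝ e ξ : ℝ) ≠ 0 := by
      rw [ae_iff]
      simpa using CarlUnit_hyperplane he
    filter_upwards [h2] with ξ hξ
    refine propext ?_
    change (0 < (-1 : ℝ) * (inner ℝ e ξ : ℝ)) ↔ ¬ (0 < (1 : ℝ) * (inner ℝ e ξ : ℝ))
    rw [not_lt, one_mul, neg_one_mul, neg_pos]
    exact ⟨le_of_lt, fun h => lt_of_le_of_ne h hξ⟩
  rw [h1, integral_add_compl hm hf, ← integral_add _ hf]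
  · congr 1
    funext ξ
    ring
  · have h3 : (fun ξ => (1 - Complex.exp (-aSym e ξ)) * (inner ℂ (𝓕 G ξ) (𝓕 w ξ) : ℂ)) =
        fun ξ => (inner ℂ (𝓕 G ξ) (𝓕 w ξ) : ℂ) -
          Complex.exp (-aSym e ξ) * (inner ℂ (𝓕 G ξ) (𝓕 w ξ) : ℂ) := by
      funext ξ
      ring
    rw [h3]
    exact hi.sub hf

theorem carleman_unit (hn : 3 ≤ n) (A : Cliff n S) : ∃ C : ℝ≥0,
    ∀ (e : E n) (w : E n → S) (T : Set (E n)), ‖e‖ = 1 → ContDiff ℝ ∞ w → HasCompactSupport w →
      MeasurableSet T → volume T ≠ ⊤ →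
      eLpNorm w 2 (volume.restrict T) ≤
        C * (1 + volume T ^ (1 / (n : ℝ))) * eLpNorm (A.conjF e w) (pe n) volume := by
  obtain ⟨C₁, hC₁, hlow⟩ := low_bound hn A
  obtain ⟨C₂, hC₂, hhigh⟩ := high_bound hn A
  refine ⟨Real.toNNReal (2 * C₁ + C₂), ?_⟩
  intro e w T he hw hc hT hTfin
  have hwc : Continuous w := hw.continuous
  have hnice : Nice volume (T.indicator w) :=
    ⟨hwc.stronglyMeasurable.indicator hT, (hwc.integrable_of_hasCompactSupport hc).indicator hT,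
      (hwc.memLp_of_hasCompactSupport hc).indicator hT⟩
  set G := T.indicator w with hGdef
  have hF : MemLp (A.conjF e w) (pe n) volume :=
    (contDiff_conjF A e hw).continuous.memLp_of_hasCompactSupport (hasCompactSupport_conjF A e hc)
  set NF : ℝ := (eLpNorm (A.conjF e w) (pe n) volume).toReal with hNF
  have hNFe : eLpNorm (A.conjF e w) (pe n) volume = ENNReal.ofReal NF :=
    (ENNReal.ofReal_toReal hF.eLpNorm_ne_top).symm
  have hw2 : MemLp w 2 (volume.restrict T) :=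
    (hwc.memLp_of_hasCompactSupport (μ := volume) hc).restrict T
  set L : ℝ := (eLpNorm w 2 (volume.restrict T)).toReal with hL
  have hLe : eLpNorm w 2 (volume.restrict T) = ENNReal.ofReal L :=
    (ENNReal.ofReal_toReal hw2.eLpNorm_ne_top).symm
  have hL0 : 0 ≤ L := ENNReal.toReal_nonneg
  have hNF0 : 0 ≤ NF := ENNReal.toReal_nonneg
  have hLsq : L ^ 2 = ∫ x in T, ‖w x‖ ^ 2 := by
    have h1 := hw2.eLpNorm_eq_integral_rpow_norm two_ne_zero ENNReal.ofNat_ne_top
    rw [hL, h1, ENNReal.toReal_ofReal (by positivity)]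
    simp only [ENNReal.toReal_ofNat, Real.rpow_two]
    rw [← Real.rpow_natCast, ← Real.rpow_mul (integral_nonneg fun x => by positivity)]
    norm_num
  -- the left-hand side
  have hleft : ∫ x, (inner ℂ (G x) (w x) : ℂ) = ((L ^ 2 : ℝ) : ℂ) := by
    have h1 : (fun x => (inner ℂ (G x) (w x) : ℂ)) =
        T.indicator fun x => ((‖w x‖ ^ 2 : ℝ) : ℂ) := by
      funext x
      by_cases hx : x ∈ T
      · rw [hGdef, indicator_of_mem hx, indicator_of_mem hx, inner_self_eq_norm_sq_to_K]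
        push_cast
        rfl
      · rw [hGdef, indicator_of_notMem hx, indicator_of_notMem hx, inner_zero_left]
    rw [h1, integral_indicator hT, hLsq]
    exact integral_ofReal (𝕜 := ℂ)
  have hGi : Integrable G := hnice.int
  -- norms of `G`
  have hG2 : (eLpNorm G 2 volume).toReal = L := by
    rw [hGdef, eLpNorm_indicator_eq_eLpNorm_restrict hT]
  set τ : ℝ := (volume T).toReal with hτ
  have hτe : volume T = ENNReal.ofReal τ := (ENNReal.ofReal_toReal hTfin).symm
  have hτ0 : 0 ≤ τ := ENNReal.toReal_nonneg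
  have hn0 : (0 : ℝ) < n := by
    have : 0 < n := by omega
    exact_mod_cast this
  have hpe : (pe n).toReal = 2 * n / (n + 2) := by
    rw [pe, ENNReal.toReal_ofReal (by positivity)]
  have hGp : (eLpNorm G (pe n) volume).toReal ≤ L * τ ^ (1 / (n : ℝ)) := by
    rw [hGdef, eLpNorm_indicator_eq_eLpNorm_restrict hT]
    have h1 : eLpNorm w (pe n) (volume.restrict T) ≤
        eLpNorm w 2 (volume.restrict T) *
          (volume.restrict T) Set.univ ^ (1 / (pe n).toReal - 1 / (2 : ℝ≥0∞).toReal) := by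
      refine eLpNorm_le_eLpNorm_mul_rpow_measure_univ ?_ hwc.aestronglyMeasurable
      rw [pe, show (2 : ℝ≥0∞) = ENNReal.ofReal 2 by simp]
      refine ENNReal.ofReal_le_ofReal ?_
      rw [div_le_iff₀ (by positivity)]
      nlinarith
    have h2 : 1 / (pe n).toReal - 1 / (2 : ℝ≥0∞).toReal = 1 / (n : ℝ) := by
      rw [hpe]
      simp only [ENNReal.toReal_ofNat]
      field_simp
      ring
    rw [h2, Measure.restrict_apply_univ, hLe, hτe,
      ENNReal.ofReal_rpow_of_nonneg hτ0 (by positivity), ← ENNReal.ofReal_mul hL0] at h1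
    have h3 := ENNReal.toReal_mono ENNReal.ofReal_ne_top h1
    rwa [ENNReal.toReal_ofReal (by positivity)] at h3
  -- the main estimate
  have hmain : L ^ 2 ≤ C₂ * NF * L + 2 * (C₁ * NF * (L * τ ^ (1 / (n : ℝ)))) := by
    have h1 : ‖((L ^ 2 : ℝ) : ℂ)‖ ≤ C₂ * NF * L + (C₁ * NF * (eLpNorm G (pe n) volume).toReal +
        C₁ * NF * (eLpNorm G (pe n) volume).toReal) := by
      rw [← hleft, parseval hw hc hGi, CarlUnit_split he hw hc hGi]
      refine (norm_add_le _ _).trans (add_le_add ?_ ((norm_add_le _ _).trans (add_le_add ?_ ?_)))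
      · have := hhigh e w G he hw hc hnice
        rwa [hG2] at this
      · exact hlow 1 e w G (Or.inl rfl) he hw hc hnice
      · exact hlow (-1) e w G (Or.inr rfl) he hw hc hnice
    rw [Complex.norm_real, Real.norm_eq_abs, abs_of_nonneg (sq_nonneg L)] at h1
    have h2 : C₁ * NF * (eLpNorm G (pe n) volume).toReal ≤ C₁ * NF * (L * τ ^ (1 / (n : ℝ))) :=
      mul_le_mul_of_nonneg_left hGp (by positivity)
    linarith
  have hτr : 0 ≤ τ ^ (1 / (n : ℝ)) := by positivity
  have hfinal : L ≤ (2 * C₁ + C₂) * (1 + τ ^ (1 / (n : ℝ))) * NF := by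
    rcases eq_or_lt_of_le hL0 with h0 | h0
    · rw [← h0]
      positivity
    · have h1 : L * L ≤ ((2 * C₁ + C₂) * (1 + τ ^ (1 / (n : ℝ))) * NF) * L := by
        have h3 : 0 ≤ C₁ * NF * L := by positivity
        have h4 : 0 ≤ C₂ * NF * L * τ ^ (1 / (n : ℝ)) := by positivity
        nlinarith
      exact le_of_mul_le_mul_right h1 h0
  rw [hLe, hNFe, hτe, ENNReal.ofReal_rpow_of_nonneg hτ0 (by positivity)]
  have h5 : ((Real.toNNReal (2 * C₁ + C₂) : ℝ≥0) : ℝ≥0∞) *
      (1 + ENNReal.ofReal (τ ^ (1 / (n : ℝ)))) * ENNReal.ofReal NF =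
      ENNReal.ofReal ((2 * C₁ + C₂) * (1 + τ ^ (1 / (n : ℝ))) * NF) := by
    rw [ENNReal.ofReal_mul (by positivity), ENNReal.ofReal_mul (by positivity),
      ENNReal.ofReal_add zero_le_one hτr, ENNReal.ofReal_one]
    rfl
  rw [h5]
  exact ENNReal.ofReal_le_ofReal hfinal

end DiracUCP
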