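import Mathlib

/-!
# Dirac operators on `ℝⁿ`: basic definitions
-/

set_option autoImplicit false

open MeasureTheory Metric Set Filter Topology
open scoped ENNReal ContDiff NNReal

namespace DiracUCP

/-- Euclidean space `ℝⁿ`. -/
abbrev E (n : ℕ) := EuclideanSpace ℝ (Fin n)

/-- The `j`-th standard basis vector of `ℝⁿ`. -/
noncomputable abbrev bv {n : ℕ} (j : Fin n) : E n := EuclideanSpace.single j (1 : ℝ)

/-- The data `α₁, …, αₙ` of a Dirac operator: skew-adjoint operators on the spinor space `S` with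
`αⱼ αₖ + αₖ αⱼ = -2 δⱼₖ`. -/
structure Cliff (n : ℕ) (S : Type) [NormedAddCommGroup S] [InnerProductSpace ℂ S] where
  /-- the operators `αⱼ` -/
  α : Fin n → S →L[ℂ] S
  skew : ∀ (j : Fin n) (s t : S), inner ℂ (α j s) t = - inner ℂ s (α j t)
  anti : ∀ (j k : Fin n) (s : S), α j (α k s) + α k (α j s) = if j = k then (-2 : ℂ) • s else 0

variable {n : ℕ} {S : Type} [NormedAddCommGroup S] [InnerProductSpace ℂ S]

/-- Clifford multiplication by the vector `x`: `c(x) = ∑ⱼ xⱼ αⱼ`. -/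
noncomputable def Cliff.c (A : Cliff n S) (x : E n) : S →L[ℂ] S :=
  ∑ j, ((x j : ℝ) : ℂ) • A.α j

/-- The Dirac operator `D = ∑ⱼ αⱼ ∂ⱼ` (for differentiable functions). -/
noncomputable def Cliff.D (A : Cliff n S) (φ : E n → S) (x : E n) : S :=
  ∑ j, A.α j (fderiv ℝ φ x (bv j))

/-- `g = D u` in the sense of distributions on the open set `Ω`. -/
def Cliff.IsWeakD (A : Cliff n S) (Ω : Set (E n)) (u g : E n → S) : Prop :=
  ∀ η : E n → ℝ, ContDiff ℝ ∞ η → HasCompactSupport η → tsupport η ⊆ Ω →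
    ∫ x, η x • g x = - ∫ x, ∑ j, (fderiv ℝ η x (bv j)) • A.α j (u x)

/-- Local square integrability on `Ω`. -/
def L2loc (Ω : Set (E n)) (u : E n → S) : Prop :=
  ∀ K : Set (E n), IsCompact K → K ⊆ Ω → MemLp u 2 (volume.restrict K)

/-- `(v, f)` is the `L²` limit of pairs `(φ, D φ)` with `φ` smooth and supported in a fixed
compact set (so that `f = D v`). -/
structure Adm (A : Cliff n S) (v f : E n → S) : Prop where
  memv : MemLp v 2 volume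
  memf : MemLp f 2 volume
  approx : ∃ (K : Set (E n)) (φ : ℕ → E n → S), IsCompact K ∧
    (∀ i, ContDiff ℝ ∞ (φ i)) ∧ (∀ i, tsupport (φ i) ⊆ K) ∧
    Tendsto (fun i => eLpNorm (fun x => φ i x - v x) 2 volume) atTop (𝓝 0) ∧
    Tendsto (fun i => eLpNorm (fun x => A.D (φ i) x - f x) 2 volume) atTop (𝓝 0)

/-- The exponent `p = 2n/(n+2)`. -/
noncomputable def pe (n : ℕ) : ℝ≥0∞ := ENNReal.ofReal (2 * n / (n + 2))

/-- The normalised local statement. -/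
def NL (A : Cliff n S) (ε : ℝ≥0∞) : Prop :=
  ∀ (v f : E n → S) (W h : E n → ℝ) (y₀ : E n), Adm A v f → ‖y₀‖ = 1 →
    AEStronglyMeasurable W volume → (∀ y, 0 ≤ W y) → eLpNorm W n volume ≤ ε →
    MemLp h 2 volume →
    (∀ᵐ y, v y ≠ 0 → ‖y‖ ≤ 1 ∧ ‖y - y₀‖ ≤ 1 / 2) →
    (∀ᵐ y, h y ≠ 0 → ‖y‖ ≤ 1 ∧ 1 / 4 ≤ ‖y - y₀‖ ∧ ‖y - y₀‖ ≤ 1 / 2) →
    (∀ᵐ y, ‖f y‖ ≤ W y * ‖v y‖ + h y) →
    ∀ᵐ y, y ∈ ball y₀ (1 / 512) → v y = 0

/-- The conjugated Dirac operator `D w - 2π c(e) w` (so that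
`exp(2π⟨e,x⟩) D φ = conjF e (exp(2π⟨e,x⟩) φ)`). -/
noncomputable def Cliff.conjF (A : Cliff n S) (e : E n) (w : E n → S) (x : E n) : S :=
  A.D w x - ((2 * Real.pi : ℝ) : ℂ) • A.c e (w x)

/-- The inversion `Φ(y) = a + r y / |y|²`. -/
noncomputable def Phi (a : E n) (r : ℝ) (y : E n) : E n := a + (r / ‖y‖ ^ 2) • y

/-- The symbol `a(ξ) = |ξ|² - 1 + 2 i ⟨e, ξ⟩`. -/
noncomputable def aSym (e ξ : E n) : ℂ :=
  ((‖ξ‖ ^ 2 - 1 : ℝ) : ℂ) + 2 * Complex.I * ((inner ℝ e ξ : ℝ) : ℂ)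

/-- The multiplier `1_{σ⟨e,ξ⟩ > 0} exp((iσs - 1) a(ξ)) (i⟨b,ξ⟩ - ⟨b,e⟩)`. -/
noncomputable def multS (σ s : ℝ) (e b ξ : E n) : ℂ :=
  if 0 < σ * (inner ℝ e ξ : ℝ) then
    Complex.exp (((σ * s : ℝ) * Complex.I - 1) * aSym e ξ) *
      (Complex.I * ((inner ℝ b ξ : ℝ) : ℂ) - ((inner ℝ b e : ℝ) : ℂ))
  else 0

/-- Strongly measurable functions in `L¹ ∩ L²`. -/
structure Nice {X : Type*} [MeasurableSpace X] (μ : Measure X) {H : Type*} [NormedAddCommGroup H]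
    (F : X → H) : Prop where
  meas : StronglyMeasurable F
  int : Integrable F μ
  mem : MemLp F 2 μ

end DiracUCP
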