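import Pool.Agent.W_MP_23c0ba_an.Defs

/-! One-dimensional Gaussian integrals. -/

set_option autoImplicit false

open MeasureTheory Metric Set Filter Topology
open scoped ENNReal ContDiff NNReal FourierTransform ComplexConjugate

namespace DiracUCP

/-- The integrand written as one exponential. -/
theorem gauss_integrand (σ s x t : ℝ) :
    Complex.exp (((σ * s : ℝ) * Complex.I - 1) * (t : ℂ) ^ 2) *
      Complex.exp (2 * Real.pi * Complex.I * (x * t : ℝ)) =
    Complex.exp (-(1 - (σ * s : ℝ) * Complex.I) * (t : ℂ) ^ 2 +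
      (2 * Real.pi * Complex.I * x) * t + 0) := by
  rw [← Complex.exp_add]
  congr 1
  push_cast
  ring

theorem gauss_b_norm {σ s : ℝ} (hσ : σ = 1 ∨ σ = -1) (hs : 0 ≤ s) :
    (1 + s) / 2 ≤ ‖(1 - (σ * s : ℝ) * Complex.I : ℂ)‖ ∧
      1 ≤ ‖(1 - (σ * s : ℝ) * Complex.I : ℂ)‖ := by
  have h2 : ‖(1 - (σ * s : ℝ) * Complex.I : ℂ)‖ ^ 2 = 1 + s ^ 2 := by
    rw [← Complex.normSq_eq_norm_sq, Complex.normSq_apply]
    rcases hσ with rfl | rfl <;> simp <;> ring
  have h0 : 0 ≤ ‖(1 - (σ * s : ℝ) * Complex.I : ℂ)‖ := norm_nonneg _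
  constructor
  · nlinarith [sq_nonneg (s - 1)]
  · nlinarith [sq_nonneg s]

theorem gauss_b_inv_re (σ s : ℝ) :
    ((1 - (σ * s : ℝ) * Complex.I : ℂ)⁻¹).re =
      1 / ‖(1 - (σ * s : ℝ) * Complex.I : ℂ)‖ ^ 2 := by
  rw [Complex.inv_re, Complex.normSq_eq_norm_sq]
  simp

/-- The exact norm of the Gaussian integral. -/
theorem gauss_line_norm {σ s x : ℝ} :
    ‖∫ t : ℝ, Complex.exp (((σ * s : ℝ) * Complex.I - 1) * (t : ℂ) ^ 2) *
      Complex.exp (2 * Real.pi * Complex.I * (x * t : ℝ))‖ =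
    (Real.pi / ‖(1 - (σ * s : ℝ) * Complex.I : ℂ)‖) ^ (1 / 2 : ℝ) *
      Real.exp (-(Real.pi * x / ‖(1 - (σ * s : ℝ) * Complex.I : ℂ)‖) ^ 2) := by
  set b : ℂ := 1 - (σ * s : ℝ) * Complex.I with hb
  have hbre : b.re = 1 := by simp [hb]
  have hb0 : b ≠ 0 := by
    intro h
    rw [h] at hbre
    simp at hbre
  simp_rw [gauss_integrand]
  rw [← hb, integral_cexp_quadratic (by simp [hbre])]
  rw [norm_mul, neg_neg]
  congr 1
  · rw [show (1 / 2 : ℂ) = ((1 / 2 : ℝ) : ℂ) by push_cast; rfl, Complex.norm_cpow_real, norm_div,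
      Complex.norm_real, Real.norm_of_nonneg Real.pi_pos.le]
  · rw [Complex.norm_exp]
    congr 1
    have h1 : (0 - (2 * Real.pi * Complex.I * x) ^ 2 / (4 * -b) : ℂ) =
        ((-(Real.pi * x) ^ 2 : ℝ) : ℂ) * b⁻¹ := by
      push_cast
      field_simp
      ring_nf
      rw [Complex.I_sq]
      ring
    rw [h1, Complex.re_ofReal_mul, hb, gauss_b_inv_re]
    ring

theorem gauss_sqrt_bound {σ s : ℝ} (hσ : σ = 1 ∨ σ = -1) (hs : 0 ≤ s) :
    (Real.pi / ‖(1 - (σ * s : ℝ) * Complex.I : ℂ)‖) ^ (1 / 2 : ℝ) ≤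
      (2 * Real.pi) ^ (1 / 2 : ℝ) * (1 + s) ^ (-(1 : ℝ) / 2) := by
  obtain ⟨h1, h2⟩ := gauss_b_norm hσ hs
  have hs' : 0 < 1 + s := by linarith
  have hpi := Real.pi_pos
  have h3 : Real.pi / ‖(1 - (σ * s : ℝ) * Complex.I : ℂ)‖ ≤ (2 * Real.pi) * (1 + s)⁻¹ := by
    rw [← div_eq_mul_inv, div_le_div_iff₀ (by linarith) hs']
    nlinarith
  calc _ ≤ ((2 * Real.pi) * (1 + s)⁻¹) ^ (1 / 2 : ℝ) :=
        Real.rpow_le_rpow (div_nonneg hpi.le (norm_nonneg _)) h3 (by norm_num)
    _ = _ := by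
        rw [Real.mul_rpow (by positivity) (by positivity), Real.inv_rpow hs'.le,
          ← Real.rpow_neg hs'.le]
        norm_num

/-- Full line, no numerator. -/
theorem gauss_line : ∃ C : ℝ, 0 ≤ C ∧ ∀ (σ s x : ℝ), (σ = 1 ∨ σ = -1) → 0 ≤ s →
    ‖∫ t : ℝ, Complex.exp (((σ * s : ℝ) * Complex.I - 1) * (t : ℂ) ^ 2) *
      Complex.exp (2 * Real.pi * Complex.I * (x * t : ℝ))‖ ≤ C * (1 + s) ^ (-(1 : ℝ) / 2) := by
  refine ⟨(2 * Real.pi) ^ (1 / 2 : ℝ), by positivity, fun σ s x hσ hs => ?_⟩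
  rw [gauss_line_norm]
  refine le_trans ?_ (gauss_sqrt_bound hσ hs)
  apply mul_le_of_le_one_right (by positivity)
  rw [Real.exp_le_one_iff]
  nlinarith [sq_nonneg (Real.pi * x / ‖(1 - (σ * s : ℝ) * Complex.I : ℂ)‖)]

/-- Full line, numerator `t`. -/
theorem gauss_line_mul : ∃ C : ℝ, 0 ≤ C ∧ ∀ (σ s x : ℝ), (σ = 1 ∨ σ = -1) → 0 ≤ s →
    ‖∫ t : ℝ, (t : ℂ) * (Complex.exp (((σ * s : ℝ) * Complex.I - 1) * (t : ℂ) ^ 2) *
      Complex.exp (2 * Real.pi * Complex.I * (x * t : ℝ)))‖ ≤ C * (1 + s) ^ (-(1 : ℝ) / 2) := by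
  refine ⟨(2 * Real.pi) ^ (1 / 2 : ℝ), by positivity, fun σ s x hσ hs => ?_⟩
  set b : ℂ := 1 - (σ * s : ℝ) * Complex.I with hb
  have hbre : b.re = 1 := by simp [hb]
  have hb0 : b ≠ 0 := by
    intro h
    rw [h] at hbre
    simp at hbre
  set c : ℂ := 2 * Real.pi * Complex.I * x with hc
  set g : ℝ → ℂ := fun t => Complex.exp (-b * (t : ℂ) ^ 2 + c * t + 0) with hg
  have hgint : Integrable g := integrable_cexp_quadratic' (by simp [hbre]) c 0
  have hgnorm : ∀ t : ℝ, ‖g t‖ = Real.exp (-1 * t ^ 2) := by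
    intro t
    rw [hg]
    simp only [Complex.norm_exp]
    congr 1
    simp [hb, hc, pow_two]
  have htgint : Integrable (fun t : ℝ => (t : ℂ) * g t) := by
    have h0 : Integrable (fun t : ℝ => t * Real.exp (-1 * t ^ 2)) :=
      integrable_mul_exp_neg_mul_sq one_pos
    refine h0.norm.mono' ?_ (Eventually.of_forall fun t => ?_)
    · exact (Complex.continuous_ofReal.mul (by
        rw [hg]; fun_prop)).aestronglyMeasurable
    · rw [norm_mul, norm_mul, hgnorm, Complex.norm_real, Real.norm_of_nonneg (Real.exp_pos _).le]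
  have hderiv : ∀ t : ℝ, HasDerivAt g ((-b * (2 * t) + c) * g t) t := by
    intro t
    have h1 : HasDerivAt (fun t : ℝ => (-b * (t : ℂ) ^ 2 + c * t + 0)) (-b * (2 * t) + c) t := by
      have h2 : HasDerivAt (fun t : ℝ => (t : ℂ)) 1 t := Complex.ofRealCLM.hasDerivAt
      have h3 := ((h2.pow 2).const_mul (-b)).add (h2.const_mul c)
      have h4 := h3.add_const (0 : ℂ)
      refine h4.congr_deriv ?_
      push_cast
      ring
    have h5 := h1.cexp
    convert h5 using 1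
    rw [hg]
    ring
  have hg'int : Integrable (fun t : ℝ => (-b * (2 * t) + c) * g t) := by
    have := ((htgint.const_mul (-b * 2)).add (hgint.const_mul c))
    refine this.congr (Eventually.of_forall fun t => ?_)
    simp only [Pi.add_apply]
    ring
  have hzero := integral_eq_zero_of_hasDerivAt_of_integrable hderiv hg'int hgint
  have hsplit : ∫ t : ℝ, (-b * (2 * t) + c) * g t =
      (-b * 2) * (∫ t : ℝ, (t : ℂ) * g t) + c * ∫ t : ℝ, g t := by
    rw [← integral_const_mul, ← integral_const_mul, ← integral_add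
      (htgint.const_mul _) (hgint.const_mul c)]
    congr 1
    funext t
    ring
  have hval : ∫ t : ℝ, (t : ℂ) * g t = (c / (2 * b)) * ∫ t : ℝ, g t := by
    have h1 : (b * 2) * (∫ t : ℝ, (t : ℂ) * g t) = c * ∫ t : ℝ, g t := by
      have := hsplit.symm.trans hzero
      linear_combination -this
    field_simp
    linear_combination h1
  have hfun : (fun t : ℝ => (t : ℂ) * (Complex.exp (((σ * s : ℝ) * Complex.I - 1) * (t : ℂ) ^ 2) *
      Complex.exp (2 * Real.pi * Complex.I * (x * t : ℝ)))) = fun t : ℝ => (t : ℂ) * g t := by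
    funext t
    rw [gauss_integrand]
  have hfun2 : (fun t : ℝ => (Complex.exp (((σ * s : ℝ) * Complex.I - 1) * (t : ℂ) ^ 2) *
      Complex.exp (2 * Real.pi * Complex.I * (x * t : ℝ)))) = g := by
    funext t
    rw [gauss_integrand]
  have hn := @gauss_line_norm σ s x
  rw [hfun2] at hn
  rw [hfun, hval, norm_mul, hn, ← hb]
  obtain ⟨h1, h2⟩ := gauss_b_norm hσ hs
  rw [← hb] at h1 h2
  set N := ‖b‖ with hN
  have hcn : ‖c / (2 * b)‖ = |Real.pi * x / N| := by
    rw [norm_div, norm_mul 2 b, ← hN, hc]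
    simp only [norm_mul, Complex.norm_I, Complex.norm_real, Complex.norm_ofNat, mul_one,
      Real.norm_eq_abs]
    rw [abs_div, abs_mul, abs_of_nonneg (by linarith : (0 : ℝ) ≤ N)]
    field_simp
  rw [hcn]
  set u := Real.pi * x / N with hu
  have hue : |u| * Real.exp (-u ^ 2) ≤ 1 := by
    have h3 : |u| ≤ Real.exp (u ^ 2) := by
      have h4 := Real.add_one_le_exp (u ^ 2)
      have h5 : |u| ≤ u ^ 2 + 1 := by
        rw [← sq_abs]
        nlinarith [abs_nonneg u, sq_nonneg (|u| - 1)]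
      linarith
    rw [Real.exp_neg, ← div_eq_mul_inv, div_le_one (Real.exp_pos _)]
    exact h3
  have h6 := gauss_sqrt_bound hσ hs
  rw [← hb, ← hN] at h6
  calc |u| * ((Real.pi / N) ^ (1 / 2 : ℝ) * Real.exp (-u ^ 2))
      = (Real.pi / N) ^ (1 / 2 : ℝ) * (|u| * Real.exp (-u ^ 2)) := by ring
    _ ≤ (Real.pi / N) ^ (1 / 2 : ℝ) * 1 :=
        mul_le_mul_of_nonneg_left hue
          (Real.rpow_nonneg (div_nonneg Real.pi_pos.le (by linarith)) _)
    _ ≤ _ := by rw [mul_one]; exact h6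

/-- Half line `σ t > 0`, with the extra factor `exp((iσs - 1) 2 i t)` and numerator `1` or `t`. -/
theorem gauss_half : ∃ C : ℝ, 0 ≤ C ∧ ∀ (σ s x : ℝ) (j : ℕ), (σ = 1 ∨ σ = -1) → 0 ≤ s → j ≤ 1 →
    ‖∫ t : ℝ, (if 0 < σ * t then (t : ℂ) ^ j *
      (Complex.exp (((σ * s : ℝ) * Complex.I - 1) * ((t : ℂ) ^ 2 + 2 * Complex.I * t)) *
      Complex.exp (2 * Real.pi * Complex.I * (x * t : ℝ))) else 0)‖ ≤ C * (1 + s) ^ (-(1 : ℝ)) := by
  refine ⟨Real.exp (9 / 4), (Real.exp_pos _).le, fun σ s x j hσ hs hj => ?_⟩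
  have hs' : 0 < 1 + s := by linarith
  have hbound : ∀ t : ℝ, ‖(if 0 < σ * t then (t : ℂ) ^ j *
      (Complex.exp (((σ * s : ℝ) * Complex.I - 1) * ((t : ℂ) ^ 2 + 2 * Complex.I * t)) *
      Complex.exp (2 * Real.pi * Complex.I * (x * t : ℝ))) else 0)‖ ≤
      (fun r : ℝ => Real.exp (9 / 4) * Real.exp (-(2 * (1 + s)) * r)) |t| := by
    intro t
    split_ifs with ht
    · have hat : σ * t = |t| := by
        rcases hσ with rfl | rfl
        · rw [one_mul] at ht ⊢
          exact (abs_of_pos ht).symm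
        · have : t < 0 := by linarith
          rw [abs_of_neg this]; ring
      rw [norm_mul, norm_mul, norm_pow, Complex.norm_real, Complex.norm_exp, Complex.norm_exp,
        Real.norm_eq_abs]
      have e1 : ((((σ * s : ℝ) : ℂ) * Complex.I - 1) * ((t : ℂ) ^ 2 + 2 * Complex.I * t)).re =
          -(t ^ 2) - 2 * s * |t| := by
        rw [← hat]
        simp [pow_two]
        ring
      have e2 : (2 * Real.pi * Complex.I * (x * t : ℝ) : ℂ).re = 0 := by
        simp
      rw [e1, e2, Real.exp_zero, mul_one]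
      have e3 : |t| ^ j ≤ Real.exp |t| := by
        interval_cases j
        · simp
        · have := Real.add_one_le_exp |t|
          rw [pow_one]
          linarith
      calc |t| ^ j * Real.exp (-(t ^ 2) - 2 * s * |t|)
          ≤ Real.exp |t| * Real.exp (-(t ^ 2) - 2 * s * |t|) :=
            mul_le_mul_of_nonneg_right e3 (Real.exp_pos _).le
        _ = Real.exp (|t| + (-(t ^ 2) - 2 * s * |t|)) := by rw [Real.exp_add]
        _ ≤ Real.exp (9 / 4 + -(2 * (1 + s)) * |t|) := by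
            apply Real.exp_le_exp.mpr
            rw [← sq_abs t]
            nlinarith [sq_nonneg (|t| - 3 / 2)]
        _ = _ := by rw [Real.exp_add]
    · rw [norm_zero]
      positivity
  have hval : ∫ t : ℝ, (fun r : ℝ => Real.exp (9 / 4) * Real.exp (-(2 * (1 + s)) * r)) |t| =
      Real.exp (9 / 4) * (1 + s)⁻¹ := by
    rw [integral_comp_abs (f := fun r : ℝ => Real.exp (9 / 4) * Real.exp (-(2 * (1 + s)) * r)),
      integral_const_mul, integral_exp_mul_Ioi (by linarith)]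
    rw [mul_zero, Real.exp_zero]
    field_simp
  have hI2 : Integrable (fun t : ℝ =>
      (fun r : ℝ => Real.exp (9 / 4) * Real.exp (-(2 * (1 + s)) * r)) |t|) := by
    by_contra h
    rw [integral_undef h] at hval
    have : 0 < Real.exp (9 / 4) * (1 + s)⁻¹ := by positivity
    linarith
  refine (norm_integral_le_integral_norm _).trans ?_
  refine (integral_mono_of_nonneg (Eventually.of_forall fun t => norm_nonneg _) hI2
    (Eventually.of_forall hbound)).trans ?_
  rw [hval, Real.rpow_neg_one]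

end DiracUCP
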