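import Pool.Agent.W_MP_23c0ba_an.Defs

/-! From the local claim to unique continuation. -/

set_option autoImplicit false

open MeasureTheory Metric Set Filter Topology
open scoped ENNReal ContDiff NNReal FourierTransform ComplexConjugate

namespace DiracUCP

variable {n : ℕ} {S : Type} [NormedAddCommGroup S] [InnerProductSpace ℂ S]

/-- The set of the points of `Ω` near which `u` vanishes almost everywhere. -/
def zset (Ω : Set (E n)) (u : E n → S) : Set (E n) :=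
  {x | x ∈ Ω ∧ ∃ ρ > 0, ∀ᵐ y, y ∈ ball x ρ → u y = 0}

theorem isOpen_zset {Ω : Set (E n)} (hΩ : IsOpen Ω) (u : E n → S) : IsOpen (zset Ω u) := by
  rw [isOpen_iff_mem_nhds]
  rintro x ⟨hx, ρ, hρ, hz⟩
  filter_upwards [hΩ.mem_nhds hx, ball_mem_nhds x hρ] with y hy hyb
  refine ⟨hy, ρ - dist y x, by rw [mem_ball] at hyb; linarith, ?_⟩
  filter_upwards [hz] with w hw hwy
  exact hw (ball_subset_ball' (by linarith) hwy)

theorem ae_zset (Ω : Set (E n)) (u : E n → S) : ∀ᵐ y, y ∈ zset Ω u → u y = 0 := by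
  have h : volume (zset Ω u ∩ {y | u y ≠ 0}) = 0 := by
    refine measure_null_of_locally_null _ ?_
    rintro x ⟨⟨_, ρ, hρ, hz⟩, _⟩
    refine ⟨ball x ρ ∩ {y | u y ≠ 0}, ?_, ?_⟩
    · refine inter_mem (mem_nhdsWithin_of_mem_nhds (ball_mem_nhds x hρ)) ?_
      exact mem_of_superset self_mem_nhdsWithin fun y hy => hy.2
    · rw [ae_iff] at hz
      refine measure_mono_null ?_ hz
      rintro y ⟨hy1, hy2⟩
      exact fun hcon => hy2 (hcon hy1)
  rw [ae_iff]
  refine measure_mono_null ?_ h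
  intro y hy
  by_contra hcon
  apply hy
  intro hyz
  by_contra hne
  exact hcon ⟨hyz, hne⟩

theorem global_of_local {Ω : Set (E n)} (hΩ : IsOpen Ω) (hc : IsPreconnected Ω) {u : E n → S}
    (hloc : ∀ x₀ ∈ Ω, ∀ (a : E n) (r : ℝ), 0 < r → dist x₀ a = r →
      (∀ᵐ x, x ∈ ball a r → u x = 0) → ∃ ρ > 0, ∀ᵐ x, x ∈ ball x₀ ρ → u x = 0)
    {U : Set (E n)} (hU : IsOpen U) (hne : U.Nonempty) (hUΩ : U ⊆ Ω)
    (hu : ∀ᵐ x, x ∈ U → u x = 0) : ∀ᵐ x, x ∈ Ω → u x = 0 := by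
  have hopen := isOpen_zset hΩ u
  have hsub : Ω ⊆ zset Ω u := by
    refine hc.subset_of_closure_inter_subset hopen ?_ ?_
    · obtain ⟨x, hx⟩ := hne
      obtain ⟨ρ, hρ, hb⟩ := Metric.isOpen_iff.1 hU x hx
      refine ⟨x, hUΩ hx, hUΩ hx, ρ, hρ, ?_⟩
      filter_upwards [hu] with y hy hyb
      exact hy (hb hyb)
    · rintro z ⟨hzc, hzΩ⟩
      by_contra hzZ
      obtain ⟨ρ, hρ, hb⟩ := Metric.isOpen_iff.1 hΩ z hzΩ
      obtain ⟨a, haZ, haz⟩ := Metric.mem_closure_iff.1 hzc (ρ / 2) (by linarith)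
      rw [dist_comm] at haz
      have hcl : IsClosed (zset Ω u)ᶜ := hopen.isClosed_compl
      obtain ⟨x₀, hx₀, hd⟩ := hcl.exists_infDist_eq_dist ⟨z, hzZ⟩ a
      have hr : 0 < infDist a (zset Ω u)ᶜ := by
        rw [← hcl.notMem_iff_infDist_pos ⟨z, hzZ⟩]
        exact fun h => h haZ
      have hrz : infDist a (zset Ω u)ᶜ ≤ dist a z := infDist_le_dist_of_mem hzZ
      have hx₀Ω : x₀ ∈ Ω := by
        apply hb
        rw [mem_ball]
        have h1 := dist_triangle x₀ a z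
        rw [dist_comm x₀ a, ← hd] at h1
        linarith
      have hball : ∀ᵐ x, x ∈ ball a (infDist a (zset Ω u)ᶜ) → u x = 0 := by
        filter_upwards [ae_zset Ω u] with x hx hxb
        apply hx
        by_contra hxZ
        have h2 : infDist a (zset Ω u)ᶜ ≤ dist a x := infDist_le_dist_of_mem hxZ
        rw [mem_ball, dist_comm] at hxb
        linarith
      obtain ⟨ρ', hρ', hz'⟩ := hloc x₀ hx₀Ω a _ hr (by rw [dist_comm, hd]) hball
      exact hx₀ ⟨hx₀Ω, ρ', hρ', hz'⟩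
  filter_upwards [ae_zset Ω u] with x hx hxΩ
  exact hx (hsub hxΩ)

end DiracUCP
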