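import Pool.Agent.W_MP_23c0ba_an.Defs

/-! Hardy-Littlewood-Sobolev inequality in the plane with kernel 1/|x-y|. -/

set_option autoImplicit false

open MeasureTheory Metric Set Filter Topology
open scoped ENNReal ContDiff NNReal FourierTransform ComplexConjugate

namespace DiracUCP

namespace HLSAux

lemma ker_meas : Measurable (fun z : E 2 => ‖z‖ₑ⁻¹) := by fun_prop

lemma ker_unit : ∫⁻ z in ball (0 : E 2) 1, ‖z‖ₑ⁻¹ < ⊤ := by
  have h := integrableOn_ball_of_norm_le_rpow (E := E 2) (μ := volume) (F := ℝ)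
    (f := fun z => ‖z‖⁻¹) (C := 1) (α := 1) (r := 1) (by simp) (by simp)
    (by
      filter_upwards with z
      rw [Real.rpow_neg_one, one_mul, Real.norm_of_nonneg (by positivity)])
    (by fun_prop)
  have h2 := h.2
  unfold HasFiniteIntegral at h2
  refine lt_of_le_of_lt (le_of_eq ?_) h2
  apply lintegral_congr_ae
  apply ae_restrict_of_ae
  have : ∀ᵐ z : E 2, z ≠ 0 := by
    rw [ae_iff]; simp
  filter_upwards [this] with z hz
  rw [enorm_inv (by simpa using hz)]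
  simp

lemma ker_ball (R : ℝ) (hR : 0 < R) :
    ∫⁻ z in ball (0 : E 2) R, ‖z‖ₑ⁻¹ =
      ENNReal.ofReal R * ∫⁻ z in ball (0 : E 2) 1, ‖z‖ₑ⁻¹ := by
  have hR0 : R ≠ 0 := hR.ne'
  have h1 : ∫⁻ z in ball (0 : E 2) R, ‖z‖ₑ⁻¹
      = ∫⁻ z, (ball (0 : E 2) R).indicator (fun z => ‖z‖ₑ⁻¹) z := by
    rw [lintegral_indicator measurableSet_ball]
  have h2 : ∫⁻ z, (ball (0 : E 2) R).indicator (fun z => ‖z‖ₑ⁻¹) z
        ∂(Measure.map (fun z : E 2 => R • z) volume)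
      = ∫⁻ z, (ball (0 : E 2) R).indicator (fun z => ‖z‖ₑ⁻¹) (R • z) := by
    rw [lintegral_map (ker_meas.indicator measurableSet_ball) (measurable_const_smul R)]
  rw [show (fun z : E 2 => R • z) = (R • ·) from rfl, Measure.map_addHaar_smul _ hR0,
    lintegral_smul_measure] at h2
  have h3 : ∀ z : E 2, (ball (0 : E 2) R).indicator (fun z => ‖z‖ₑ⁻¹) (R • z)
      = (ENNReal.ofReal R)⁻¹ * (ball (0 : E 2) 1).indicator (fun z => ‖z‖ₑ⁻¹) z := by
    intro z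
    have hmem : R • z ∈ ball (0 : E 2) R ↔ z ∈ ball (0 : E 2) 1 := by
      simp only [mem_ball_zero_iff, norm_smul, Real.norm_eq_abs, abs_of_pos hR]
      constructor
      · intro h; nlinarith
      · intro h; nlinarith
    by_cases hz : z ∈ ball (0 : E 2) 1
    · rw [indicator_of_mem (hmem.2 hz), indicator_of_mem hz, enorm_smul,
        ENNReal.mul_inv]
      · rw [Real.enorm_eq_ofReal hR.le]
      · left; simpa using hR0
      · left; simp
    · rw [indicator_of_notMem (fun h => hz (hmem.1 h)), indicator_of_notMem hz, mul_zero]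
  simp_rw [h3] at h2
  have h6 : ∫⁻ z, (ball (0 : E 2) 1).indicator (fun z => ‖z‖ₑ⁻¹) z
      = ∫⁻ z in ball (0 : E 2) 1, ‖z‖ₑ⁻¹ := by
    rw [lintegral_indicator measurableSet_ball]
  rw [lintegral_const_mul' _ _ (by simpa using hR), h6, ← h1] at h2
  have hfin : Module.finrank ℝ (E 2) = 2 := by simp
  rw [hfin] at h2
  have hc : ENNReal.ofReal |(R ^ 2)⁻¹| = (ENNReal.ofReal R)⁻¹ * (ENNReal.ofReal R)⁻¹ := by
    rw [abs_of_pos (by positivity), ← ENNReal.ofReal_inv_of_pos hR, ← ENNReal.ofReal_mul (by positivity)]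
    congr 1
    field_simp
  rw [hc] at h2
  set a := ENNReal.ofReal R with ha
  have ha0 : a ≠ 0 := by simpa [ha] using hR
  have hat : a ≠ ⊤ := by simp [ha]
  set X := ∫⁻ z in ball (0 : E 2) R, ‖z‖ₑ⁻¹
  set Y := ∫⁻ z in ball (0 : E 2) 1, ‖z‖ₑ⁻¹
  have h4 : (a * a) * (a⁻¹ * a⁻¹ * X) = (a * a) * (a⁻¹ * Y) :=
    congrArg (fun t => (a * a) * t) h2
  have h5 : (a * a) * (a⁻¹ * a⁻¹ * X) = X := by
    rw [show (a * a) * (a⁻¹ * a⁻¹ * X) = (a * a⁻¹) * (a * a⁻¹) * X by ring,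
      ENNReal.mul_inv_cancel ha0 hat]; simp
  rw [← h5, h4, show (a * a) * (a⁻¹ * Y) = (a * a⁻¹) * (a * Y) by ring,
    ENNReal.mul_inv_cancel ha0 hat, one_mul]

/-- The constant in the kernel estimate. -/
noncomputable def C0 : ℝ≥0∞ := (∫⁻ z in ball (0 : E 2) 1, ‖z‖ₑ⁻¹) + 1

lemma C0_ne_top : C0 ≠ ⊤ := by
  unfold C0
  exact ENNReal.add_ne_top.2 ⟨ker_unit.ne, by simp⟩

lemma C0_ne_zero : C0 ≠ 0 := by
  unfold C0; simp

lemma ker_set (x : E 2) (B : Set (E 2)) (hB : MeasurableSet B) :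
    ∫⁻ y in B, ‖x - y‖ₑ⁻¹ ≤ C0 * (volume B) ^ (1 / 2 : ℝ) := by
  rcases eq_or_ne (volume B) 0 with h0 | h0
  · rw [Measure.restrict_eq_zero.2 h0]; simp
  rcases eq_or_ne (volume B) ⊤ with ht | ht
  · rw [ht, ENNReal.top_rpow_of_pos (by norm_num), ENNReal.mul_top C0_ne_zero]; exact le_top
  set R := ((volume B) ^ (1 / 2 : ℝ)).toReal with hR
  have hBt : (volume B) ^ (1 / 2 : ℝ) ≠ ⊤ := by
    simp [ENNReal.rpow_eq_top_iff, h0, ht]
  have hB0 : (volume B) ^ (1 / 2 : ℝ) ≠ 0 := by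
    simp [ENNReal.rpow_eq_zero_iff, h0, ht]
  have hRR : ENNReal.ofReal R = (volume B) ^ (1 / 2 : ℝ) := ENNReal.ofReal_toReal hBt
  have hRpos : 0 < R := ENNReal.toReal_pos hB0 hBt
  have hvol : volume B = ENNReal.ofReal R * ENNReal.ofReal R := by
    rw [hRR, ← ENNReal.rpow_add _ _ h0 ht]; norm_num
  calc ∫⁻ y in B, ‖x - y‖ₑ⁻¹
      ≤ ∫⁻ y in (ball x R ∪ (B \ ball x R)), ‖x - y‖ₑ⁻¹ := by
        apply lintegral_mono_set
        intro y hy
        by_cases h : y ∈ ball x R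
        · exact Or.inl h
        · exact Or.inr ⟨hy, h⟩
    _ ≤ (∫⁻ y in ball x R, ‖x - y‖ₑ⁻¹) + ∫⁻ y in B \ ball x R, ‖x - y‖ₑ⁻¹ :=
        lintegral_union_le _ _ _
    _ ≤ ENNReal.ofReal R * (∫⁻ z in ball (0 : E 2) 1, ‖z‖ₑ⁻¹) + ENNReal.ofReal R := by
        gcongr
        · rw [← ker_ball R hRpos]
          have h1 : ∫⁻ y in ball x R, ‖x - y‖ₑ⁻¹
              = ∫⁻ y, (ball (0 : E 2) R).indicator (fun z => ‖z‖ₑ⁻¹) (x - y) := by
            rw [← lintegral_indicator measurableSet_ball]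
            apply lintegral_congr
            intro y
            have : y ∈ ball x R ↔ x - y ∈ ball (0 : E 2) R := by
              rw [mem_ball, mem_ball_zero_iff, dist_comm, dist_eq_norm]
            by_cases hy : y ∈ ball x R
            · rw [indicator_of_mem hy, indicator_of_mem (this.1 hy)]
            · rw [indicator_of_notMem hy, indicator_of_notMem (fun h => hy (this.2 h))]
          rw [h1, lintegral_sub_left_eq_self
            (fun z => (ball (0 : E 2) R).indicator (fun z => ‖z‖ₑ⁻¹) z) x,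
            lintegral_indicator measurableSet_ball]
        · calc ∫⁻ y in B \ ball x R, ‖x - y‖ₑ⁻¹
              ≤ ∫⁻ y in B \ ball x R, (ENNReal.ofReal R)⁻¹ := by
                apply setLIntegral_mono' (hB.diff measurableSet_ball)
                intro y hy
                rw [ENNReal.inv_le_inv, ← ofReal_norm]
                apply ENNReal.ofReal_le_ofReal
                have := hy.2
                rw [mem_ball, dist_comm, dist_eq_norm, not_lt] at this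
                exact this
            _ = (ENNReal.ofReal R)⁻¹ * volume (B \ ball x R) := by
                rw [setLIntegral_const]
            _ ≤ (ENNReal.ofReal R)⁻¹ * volume B := by gcongr; exact sdiff_subset
            _ = ENNReal.ofReal R := by
                rw [hvol, ← mul_assoc, ENNReal.inv_mul_cancel, one_mul]
                · simpa using hRpos
                · simp
    _ = C0 * (volume B) ^ (1 / 2 : ℝ) := by
        rw [← hRR]; unfold C0; ring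


lemma int_rpow (α : ℝ) (hα : 0 < α) :
    ∫⁻ b in Ioo 0 α, ENNReal.ofReal (b ^ (-(2 / 3) : ℝ)) = ENNReal.ofReal (3 * α ^ (1 / 3 : ℝ)) := by
  have hint : IntegrableOn (fun b : ℝ => b ^ (-(2 / 3) : ℝ)) (Ioo 0 α) := by
    rw [intervalIntegral.integrableOn_Ioo_rpow_iff hα]; norm_num
  rw [← ofReal_integral_eq_lintegral_ofReal hint]
  · congr 1
    rw [← integral_Ioc_eq_integral_Ioo, ← intervalIntegral.integral_of_le hα.le,
      integral_rpow (Or.inl (by norm_num))]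
    norm_num
    ring
  · filter_upwards [ae_restrict_mem measurableSet_Ioo] with b hb
    exact Real.rpow_nonneg hb.1.le _

lemma cheb (g : E 2 → ℝ≥0∞) (hg : Measurable g) (b : ℝ) (hb : 0 < b) :
    (volume {y | ENNReal.ofReal b < g y}) ^ (1 / 2 : ℝ) ≤
      (∫⁻ y, g y ^ (4 / 3 : ℝ)) ^ (1 / 2 : ℝ) * ENNReal.ofReal (b ^ (-(2 / 3) : ℝ)) := by
  set c := ENNReal.ofReal b with hc
  have hc0 : c ≠ 0 := by simpa [hc] using hb
  have hct : c ≠ ⊤ := by simp [hc]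
  have h1 : c ^ (4 / 3 : ℝ) * volume {y | c < g y} ≤ ∫⁻ y, g y ^ (4 / 3 : ℝ) := by
    calc c ^ (4 / 3 : ℝ) * volume {y | c < g y}
        ≤ c ^ (4 / 3 : ℝ) * volume {y | c ^ (4 / 3 : ℝ) ≤ g y ^ (4 / 3 : ℝ)} := by
          refine mul_le_mul_right (measure_mono fun y hy => ?_) _
          exact ENNReal.rpow_le_rpow (le_of_lt hy) (by norm_num)
      _ ≤ _ := mul_meas_ge_le_lintegral (by fun_prop) _
  have h2 : ENNReal.ofReal (b ^ (-(2 / 3) : ℝ)) = c ^ (-(2 / 3) : ℝ) := by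
    rw [hc, ENNReal.ofReal_rpow_of_pos hb]
  rw [h2]
  have h3 : c ^ (2 / 3 : ℝ) * (volume {y | c < g y}) ^ (1 / 2 : ℝ)
      ≤ (∫⁻ y, g y ^ (4 / 3 : ℝ)) ^ (1 / 2 : ℝ) := by
    have := ENNReal.rpow_le_rpow h1 (show (0 : ℝ) ≤ 1 / 2 by norm_num)
    rw [ENNReal.mul_rpow_of_nonneg _ _ (by norm_num), ← ENNReal.rpow_mul] at this
    norm_num at this ⊢
    exact this
  have h4 : c ^ (-(2 / 3) : ℝ) * c ^ (2 / 3 : ℝ) = 1 := by
    rw [← ENNReal.rpow_add _ _ hc0 hct]; simp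
  calc (volume {y | c < g y}) ^ (1 / 2 : ℝ)
      = (c ^ (2 / 3 : ℝ) * (volume {y | c < g y}) ^ (1 / 2 : ℝ)) * c ^ (-(2 / 3) : ℝ) := by
        rw [show (c ^ (2 / 3 : ℝ) * (volume {y | c < g y}) ^ (1 / 2 : ℝ)) * c ^ (-(2 / 3) : ℝ)
          = (c ^ (-(2 / 3) : ℝ) * c ^ (2 / 3 : ℝ)) * (volume {y | c < g y}) ^ (1 / 2 : ℝ) by ring,
          h4, one_mul]
    _ ≤ _ := by gcongr

/-- The constant in the truncated estimate. -/
noncomputable def C1 : ℝ≥0∞ := 3 * C0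

lemma C1_ne_top : C1 ≠ ⊤ := by
  unfold C1
  exact ENNReal.mul_ne_top (by simp) C0_ne_top

lemma C1_ne_zero : C1 ≠ 0 := by
  unfold C1
  simp [C0_ne_zero]

lemma min_ker (g : E 2 → ℝ≥0∞) (hg : Measurable g) (x : E 2) (a : ℝ≥0∞) :
    ∫⁻ y, ‖x - y‖ₑ⁻¹ * min (g y) a ≤
      C1 * (∫⁻ y, g y ^ (4 / 3 : ℝ)) ^ (1 / 2 : ℝ) * a ^ (1 / 3 : ℝ) := by
  rcases eq_or_ne a 0 with ha0 | ha0
  · simp [ha0]
  rcases eq_or_ne (∫⁻ y, g y ^ (4 / 3 : ℝ)) 0 with hG | hG
  · have h1 : ∀ᵐ y, g y = 0 := by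
      rw [lintegral_eq_zero_iff (by fun_prop)] at hG
      filter_upwards [hG] with y hy
      rcases ENNReal.rpow_eq_zero_iff.1 hy with h | h
      · exact h.1
      · exact absurd h.2 (by norm_num)
    have h2 : ∫⁻ y, ‖x - y‖ₑ⁻¹ * min (g y) a = 0 := by
      rw [lintegral_eq_zero_iff (by fun_prop)]
      filter_upwards [h1] with y hy
      simp [hy]
    rw [h2]; exact bot_le
  rcases eq_or_ne a ⊤ with hat | hat
  · rw [hat, ENNReal.top_rpow_of_pos (by norm_num), ENNReal.mul_top]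
    · exact le_top
    · have : (∫⁻ y, g y ^ (4 / 3 : ℝ)) ^ (1 / 2 : ℝ) ≠ 0 := by
        simp [ENNReal.rpow_eq_zero_iff, hG]
      exact mul_ne_zero C1_ne_zero this
  set α := a.toReal with hα
  have haα : ENNReal.ofReal α = a := ENNReal.ofReal_toReal hat
  have hαpos : 0 < α := ENNReal.toReal_pos ha0 hat
  have key : ∀ y, min (g y) a ≤
      ∫⁻ b in Ioo 0 α, {b : ℝ | ENNReal.ofReal b < g y}.indicator (fun _ => (1 : ℝ≥0∞)) b := by
    intro y
    have hm : MeasurableSet {b : ℝ | ENNReal.ofReal b < g y} :=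
      measurableSet_lt (by fun_prop) measurable_const
    rw [lintegral_indicator hm, setLIntegral_const, one_mul,
      Measure.restrict_apply hm]
    set t := min (g y) a with ht
    have htt : t ≠ ⊤ := ne_top_of_le_ne_top hat (min_le_right _ _)
    calc t = ENNReal.ofReal t.toReal := (ENNReal.ofReal_toReal htt).symm
      _ = volume (Ioo 0 t.toReal) := by rw [Real.volume_Ioo, sub_zero]
      _ ≤ _ := by
        apply measure_mono
        intro b hb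
        have hb2 : ENNReal.ofReal b < t := by
          rw [← ENNReal.ofReal_toReal htt]
          exact (ENNReal.ofReal_lt_ofReal_iff (lt_trans hb.1 hb.2)).2 hb.2
        refine ⟨?_, hb.1, ?_⟩
        · exact lt_of_lt_of_le hb2 (min_le_left _ _)
        · have : ENNReal.ofReal b < ENNReal.ofReal α := by
            rw [haα]; exact lt_of_lt_of_le hb2 (min_le_right _ _)
          exact (ENNReal.ofReal_lt_ofReal_iff hαpos).1 this
  have hjm : Measurable (fun p : E 2 × ℝ =>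
      ‖x - p.1‖ₑ⁻¹ * {p : E 2 × ℝ | ENNReal.ofReal p.2 < g p.1}.indicator
        (fun _ => (1 : ℝ≥0∞)) p) := by
    refine Measurable.mul (by fun_prop) (measurable_const.indicator ?_)
    exact measurableSet_lt (by fun_prop) (by fun_prop)
  calc ∫⁻ y, ‖x - y‖ₑ⁻¹ * min (g y) a
      ≤ ∫⁻ y, ‖x - y‖ₑ⁻¹ * ∫⁻ b in Ioo 0 α,
          {b : ℝ | ENNReal.ofReal b < g y}.indicator (fun _ => (1 : ℝ≥0∞)) b := by
        gcongr with y; exact key y
    _ = ∫⁻ y, ∫⁻ b in Ioo 0 α, ‖x - y‖ₑ⁻¹ *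
          {b : ℝ | ENNReal.ofReal b < g y}.indicator (fun _ => (1 : ℝ≥0∞)) b := by
        apply lintegral_congr
        intro y
        rw [lintegral_const_mul]
        exact measurable_const.indicator (measurableSet_lt (by fun_prop) measurable_const)
    _ = ∫⁻ b in Ioo 0 α, ∫⁻ y, ‖x - y‖ₑ⁻¹ *
          {b : ℝ | ENNReal.ofReal b < g y}.indicator (fun _ => (1 : ℝ≥0∞)) b := by
        rw [lintegral_lintegral_swap]
        exact hjm.aemeasurable
    _ ≤ ∫⁻ b in Ioo 0 α, (C0 * (∫⁻ y, g y ^ (4 / 3 : ℝ)) ^ (1 / 2 : ℝ)) *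
          ENNReal.ofReal (b ^ (-(2 / 3) : ℝ)) := by
        apply setLIntegral_mono' measurableSet_Ioo
        intro b hb
        have h1 : ∀ y, ‖x - y‖ₑ⁻¹ *
          {b : ℝ | ENNReal.ofReal b < g y}.indicator (fun _ => (1 : ℝ≥0∞)) b
            = {y | ENNReal.ofReal b < g y}.indicator (fun y => ‖x - y‖ₑ⁻¹) y := by
          intro y
          by_cases h : ENNReal.ofReal b < g y
          · rw [indicator_of_mem (by exact h), indicator_of_mem (by exact h), mul_one]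
          · rw [indicator_of_notMem (by exact h), indicator_of_notMem (by exact h), mul_zero]
        simp_rw [h1]
        have hms : MeasurableSet {y | ENNReal.ofReal b < g y} :=
          measurableSet_lt measurable_const hg
        rw [lintegral_indicator hms, mul_assoc]
        exact le_trans (ker_set x _ hms) (by gcongr; exact cheb g hg b hb.1)
    _ = (C0 * (∫⁻ y, g y ^ (4 / 3 : ℝ)) ^ (1 / 2 : ℝ)) *
          ∫⁻ b in Ioo 0 α, ENNReal.ofReal (b ^ (-(2 / 3) : ℝ)) := by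
        rw [lintegral_const_mul]
        exact (measurable_id.pow_const _).ennreal_ofReal
    _ = C1 * (∫⁻ y, g y ^ (4 / 3 : ℝ)) ^ (1 / 2 : ℝ) * a ^ (1 / 3 : ℝ) := by
        rw [int_rpow α hαpos, ENNReal.ofReal_mul (by norm_num),
          ← ENNReal.ofReal_rpow_of_pos hαpos, haα]
        unfold C1
        rw [show ENNReal.ofReal 3 = 3 by simp]
        ring

lemma split_mul (u v l : ℝ≥0∞) (hl0 : l ≠ 0) (hlt : l ≠ ⊤) :
    u * v ≤ u * min v (l * u) + v * min u (l⁻¹ * v) := by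
  rcases le_total v (l * u) with h | h
  · rw [min_eq_left h]; exact le_self_add
  · have h2 : u ≤ l⁻¹ * v := by
      calc u = l⁻¹ * (l * u) := by rw [← mul_assoc, ENNReal.inv_mul_cancel hl0 hlt, one_mul]
        _ ≤ l⁻¹ * v := by gcongr
    rw [min_eq_left h2, mul_comm v u]; exact le_add_self

lemma half (f g : E 2 → ℝ≥0∞) (hf : Measurable f) (hg : Measurable g) (l : ℝ≥0∞) :
    ∫⁻ x, ∫⁻ y, ‖x - y‖ₑ⁻¹ * (f x * min (g y) (l ^ 3 * f x)) ≤
      C1 * (∫⁻ y, g y ^ (4 / 3 : ℝ)) ^ (1 / 2 : ℝ) * l * ∫⁻ x, f x ^ (4 / 3 : ℝ) := by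
  have h1 : ∀ x, ∫⁻ y, ‖x - y‖ₑ⁻¹ * (f x * min (g y) (l ^ 3 * f x)) ≤
      (C1 * (∫⁻ y, g y ^ (4 / 3 : ℝ)) ^ (1 / 2 : ℝ) * l) * f x ^ (4 / 3 : ℝ) := by
    intro x
    have h2 : ∀ y, ‖x - y‖ₑ⁻¹ * (f x * min (g y) (l ^ 3 * f x))
        = f x * (‖x - y‖ₑ⁻¹ * min (g y) (l ^ 3 * f x)) := fun y => by ring
    simp_rw [h2]
    rw [lintegral_const_mul _ (by fun_prop)]
    refine le_trans (mul_le_mul_right (min_ker g hg x _) _) (le_of_eq ?_)
    have h3 : (l ^ 3 * f x) ^ (1 / 3 : ℝ) = l * f x ^ (1 / 3 : ℝ) := by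
      rw [ENNReal.mul_rpow_of_nonneg _ _ (by norm_num), ← ENNReal.rpow_natCast, ← ENNReal.rpow_mul]
      norm_num
    have h4 : f x ^ (4 / 3 : ℝ) = f x * f x ^ (1 / 3 : ℝ) := by
      rw [show (4 / 3 : ℝ) = 1 + 1 / 3 by norm_num,
        ENNReal.rpow_add_of_nonneg _ _ (by norm_num) (by norm_num), ENNReal.rpow_one]
    rw [h3, h4]; ring
  calc _ ≤ ∫⁻ x, (C1 * (∫⁻ y, g y ^ (4 / 3 : ℝ)) ^ (1 / 2 : ℝ) * l) * f x ^ (4 / 3 : ℝ) := by
        gcongr with x; exact h1 x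
    _ = _ := by rw [lintegral_const_mul _ (by fun_prop)]


lemma bilin (f g : E 2 → ℝ≥0∞) (hf : Measurable f) (hg : Measurable g) (s t : ℝ≥0∞)
    (hs0 : s ≠ 0) (hst : s ≠ ⊤) (ht0 : t ≠ 0) (htt : t ≠ ⊤)
    (hF : ∫⁻ x, f x ^ (4 / 3 : ℝ) = s ^ 4) (hG : ∫⁻ x, g x ^ (4 / 3 : ℝ) = t ^ 4) :
    ∫⁻ x, f x * ∫⁻ y, ‖x - y‖ₑ⁻¹ * g y ≤ 2 * C1 * t ^ 3 * s ^ 3 := by
  set l : ℝ≥0∞ := t * s⁻¹ with hl
  have hl0 : l ≠ 0 := by simp [hl, ht0, hst]
  have hlt : l ≠ ⊤ := ENNReal.mul_ne_top htt (ENNReal.inv_ne_top.2 hs0)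
  have hli : l⁻¹ = s * t⁻¹ := by
    rw [hl, ENNReal.mul_inv (Or.inl ht0) (Or.inl htt), inv_inv, mul_comm]
  have hpt : ∀ x y, ‖x - y‖ₑ⁻¹ * (f x * g y) ≤
      ‖x - y‖ₑ⁻¹ * (f x * min (g y) (l ^ 3 * f x)) +
      ‖x - y‖ₑ⁻¹ * (g y * min (f x) (l⁻¹ ^ 3 * g y)) := by
    intro x y
    rw [← mul_add]
    gcongr
    have := split_mul (f x) (g y) (l ^ 3) (pow_ne_zero _ hl0) (ENNReal.pow_ne_top hlt)
    rwa [ENNReal.inv_pow] at this
  have hpow : ∀ z : ℝ≥0∞, (z ^ 4) ^ (1 / 2 : ℝ) = z ^ 2 := by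
    intro z
    rw [← ENNReal.rpow_natCast, ← ENNReal.rpow_mul, ← ENNReal.rpow_natCast]
    norm_num
  have hss : s⁻¹ * s = 1 := ENNReal.inv_mul_cancel hs0 hst
  have htt' : t⁻¹ * t = 1 := ENNReal.inv_mul_cancel ht0 htt
  calc ∫⁻ x, f x * ∫⁻ y, ‖x - y‖ₑ⁻¹ * g y
      = ∫⁻ x, ∫⁻ y, ‖x - y‖ₑ⁻¹ * (f x * g y) := by
        apply lintegral_congr
        intro x
        rw [← lintegral_const_mul _ (by fun_prop)]
        apply lintegral_congr
        intro y; ring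
    _ ≤ ∫⁻ x, ∫⁻ y, (‖x - y‖ₑ⁻¹ * (f x * min (g y) (l ^ 3 * f x)) +
      ‖x - y‖ₑ⁻¹ * (g y * min (f x) (l⁻¹ ^ 3 * g y))) := by
        gcongr with x y; exact hpt x y
    _ = (∫⁻ x, ∫⁻ y, ‖x - y‖ₑ⁻¹ * (f x * min (g y) (l ^ 3 * f x))) +
        ∫⁻ x, ∫⁻ y, ‖x - y‖ₑ⁻¹ * (g y * min (f x) (l⁻¹ ^ 3 * g y)) := by
        rw [← lintegral_add_left]
        · apply lintegral_congr
          intro x
          rw [lintegral_add_left (by fun_prop)]
        · apply Measurable.lintegral_prod_right'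
            (f := fun p : E 2 × E 2 => ‖p.1 - p.2‖ₑ⁻¹ * (f p.1 * min (g p.2) (l ^ 3 * f p.1)))
          fun_prop
    _ = (∫⁻ x, ∫⁻ y, ‖x - y‖ₑ⁻¹ * (f x * min (g y) (l ^ 3 * f x))) +
        ∫⁻ y, ∫⁻ x, ‖y - x‖ₑ⁻¹ * (g y * min (f x) (l⁻¹ ^ 3 * g y)) := by
        congr 1
        rw [lintegral_lintegral_swap]
        · apply lintegral_congr
          intro y
          apply lintegral_congr
          intro x
          rw [show x - y = -(y - x) by abel, enorm_neg]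
        · apply Measurable.aemeasurable
          show Measurable (fun p : E 2 × E 2 =>
            ‖p.1 - p.2‖ₑ⁻¹ * (g p.2 * min (f p.1) (l⁻¹ ^ 3 * g p.2)))
          fun_prop
    _ ≤ C1 * (∫⁻ y, g y ^ (4 / 3 : ℝ)) ^ (1 / 2 : ℝ) * l * (∫⁻ x, f x ^ (4 / 3 : ℝ)) +
        C1 * (∫⁻ y, f y ^ (4 / 3 : ℝ)) ^ (1 / 2 : ℝ) * l⁻¹ * (∫⁻ x, g x ^ (4 / 3 : ℝ)) :=
        add_le_add (half f g hf hg l) (half g f hg hf l⁻¹)
    _ = 2 * C1 * t ^ 3 * s ^ 3 := by
        rw [hF, hG, hpow, hpow, hli, hl]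
        calc C1 * t ^ 2 * (t * s⁻¹) * s ^ 4 + C1 * s ^ 2 * (s * t⁻¹) * t ^ 4
            = C1 * t ^ 3 * s ^ 3 * (s⁻¹ * s) + C1 * t ^ 3 * s ^ 3 * (t⁻¹ * t) := by ring
          _ = 2 * C1 * t ^ 3 * s ^ 3 := by rw [hss, htt']; ring

end HLSAux

open HLSAux in
theorem hls_two : ∃ C : ℝ≥0, ∀ f : E 2 → ℝ≥0∞, Measurable f →
    ∫⁻ x, (∫⁻ y, ‖x - y‖ₑ⁻¹ * f y) ^ (4 : ℝ) ≤
      (C * (∫⁻ y, f y ^ (4 / 3 : ℝ)) ^ (3 / 4 : ℝ)) ^ (4 : ℝ) := by
  have hC2 : (2 * C1 : ℝ≥0∞) ≠ ⊤ := ENNReal.mul_ne_top (by simp) C1_ne_top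
  have hC20 : (2 * C1 : ℝ≥0∞) ≠ 0 := mul_ne_zero (by simp) C1_ne_zero
  refine ⟨(2 * C1).toNNReal, fun g hg => ?_⟩
  rw [ENNReal.coe_toNNReal hC2]
  rcases eq_or_ne (∫⁻ y, g y ^ (4 / 3 : ℝ)) 0 with hG | hG
  · have h1 : ∀ᵐ y, g y = 0 := by
      rw [lintegral_eq_zero_iff (by fun_prop)] at hG
      filter_upwards [hG] with y hy
      rcases ENNReal.rpow_eq_zero_iff.1 hy with h | h
      · exact h.1
      · exact absurd h.2 (by norm_num)
    have h2 : ∀ x, ∫⁻ y, ‖x - y‖ₑ⁻¹ * g y = 0 := by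
      intro x
      rw [lintegral_eq_zero_iff (by fun_prop)]
      filter_upwards [h1] with y hy
      simp [hy]
    simp [h2]
  rcases eq_or_ne (∫⁻ y, g y ^ (4 / 3 : ℝ)) ⊤ with hGt | hGt
  · rw [hGt, ENNReal.top_rpow_of_pos (by norm_num), ENNReal.mul_top hC20,
      ENNReal.top_rpow_of_pos (by norm_num)]
    exact le_top
  set t := (∫⁻ y, g y ^ (4 / 3 : ℝ)) ^ (1 / 4 : ℝ) with ht
  have ht0 : t ≠ 0 := by simp [ht, ENNReal.rpow_eq_zero_iff, hG]
  have htt : t ≠ ⊤ := by simp [ht, ENNReal.rpow_eq_top_iff, hG, hGt]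
  have hGt4 : ∫⁻ y, g y ^ (4 / 3 : ℝ) = t ^ 4 := by
    rw [ht, ← ENNReal.rpow_natCast, ← ENNReal.rpow_mul]; norm_num
  have h34 : (∫⁻ y, g y ^ (4 / 3 : ℝ)) ^ (3 / 4 : ℝ) = t ^ 3 := by
    rw [ht, ← ENNReal.rpow_natCast, ← ENNReal.rpow_mul]; norm_num
  rw [h34]
  set u : E 2 → ℝ≥0∞ := fun x => ∫⁻ y, ‖x - y‖ₑ⁻¹ * g y with hu
  have hum : Measurable u := by
    apply Measurable.lintegral_prod_right' (f := fun p : E 2 × E 2 => ‖p.1 - p.2‖ₑ⁻¹ * g p.2)
    fun_prop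
  set U : ℕ → E 2 → ℝ≥0∞ := fun N => (ball (0 : E 2) N).indicator (fun x => min (u x) N) with hU
  have hUm : ∀ N, Measurable (U N) := fun N =>
    (hum.min measurable_const).indicator measurableSet_ball
  have hUu : ∀ N x, U N x ≤ u x := by
    intro N x
    simp only [hU]
    by_cases h : x ∈ ball (0 : E 2) N
    · rw [indicator_of_mem h]; exact min_le_left _ _
    · rw [indicator_of_notMem h]; exact bot_le
  have hbound : ∀ N, ∫⁻ x, U N x ^ (4 : ℝ) ≤ (2 * C1 * t ^ 3) ^ (4 : ℝ) := by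
    intro N
    rcases eq_or_ne (∫⁻ x, U N x ^ (4 : ℝ)) 0 with h0 | h0
    · rw [h0]; exact bot_le
    have hfin : ∫⁻ x, U N x ^ (4 : ℝ) ≠ ⊤ := by
      apply ne_of_lt
      calc ∫⁻ x, U N x ^ (4 : ℝ) ≤ ∫⁻ x, (ball (0 : E 2) N).indicator
            (fun _ => (N : ℝ≥0∞) ^ (4 : ℝ)) x := by
            gcongr with x
            simp only [hU]
            by_cases h : x ∈ ball (0 : E 2) N
            · rw [indicator_of_mem h, indicator_of_mem h]
              exact ENNReal.rpow_le_rpow (min_le_right _ _) (by norm_num)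
            · rw [indicator_of_notMem h, indicator_of_notMem h]; simp
        _ = (N : ℝ≥0∞) ^ (4 : ℝ) * volume (ball (0 : E 2) N) := by
            rw [lintegral_indicator measurableSet_ball, setLIntegral_const]
        _ < ⊤ := by
            apply ENNReal.mul_lt_top
            · exact ENNReal.rpow_lt_top_of_nonneg (by norm_num) (by simp)
            · exact measure_ball_lt_top
    set s := (∫⁻ x, U N x ^ (4 : ℝ)) ^ (1 / 4 : ℝ) with hs
    have hs0 : s ≠ 0 := (ENNReal.rpow_pos (pos_iff_ne_zero.2 h0) hfin).ne'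
    have hst : s ≠ ⊤ := ENNReal.rpow_ne_top_of_nonneg (by norm_num) hfin
    have hs4 : ∫⁻ x, U N x ^ (4 : ℝ) = s ^ 4 := by
      rw [hs, ← ENNReal.rpow_natCast, ← ENNReal.rpow_mul]; norm_num
    have hf4 : ∫⁻ x, (U N x ^ 3) ^ (4 / 3 : ℝ) = s ^ 4 := by
      rw [← hs4]
      apply lintegral_congr
      intro x
      rw [← ENNReal.rpow_natCast, ← ENNReal.rpow_mul]; norm_num
    have hb := bilin (fun x => U N x ^ 3) g ((hUm N).pow_const 3) hg s t hs0 hst ht0 htt hf4 hGt4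
    have hlow : s ^ 4 ≤ ∫⁻ x, U N x ^ 3 * ∫⁻ y, ‖x - y‖ₑ⁻¹ * g y := by
      rw [← hs4]
      gcongr with x
      calc U N x ^ (4 : ℝ) = U N x ^ 3 * U N x := by
            rw [show (4 : ℝ) = ((4 : ℕ) : ℝ) by norm_num, ENNReal.rpow_natCast]; ring
        _ ≤ _ := by gcongr; exact hUu N x
    have h5 : s ≤ 2 * C1 * t ^ 3 := by
      have h6 : s ^ 3 * s ≤ s ^ 3 * (2 * C1 * t ^ 3) := by
        calc s ^ 3 * s = s ^ 4 := by ring
          _ ≤ 2 * C1 * t ^ 3 * s ^ 3 := le_trans hlow hb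
          _ = _ := by ring
      exact (ENNReal.mul_le_mul_iff_right (pow_ne_zero _ hs0) (ENNReal.pow_ne_top hst)).1 h6
    rw [hs4, ← ENNReal.rpow_natCast]
    exact ENNReal.rpow_le_rpow h5 (by norm_num)
  have htend : ∀ x, Tendsto (fun N => U N x ^ (4 : ℝ)) atTop (𝓝 (u x ^ (4 : ℝ))) := by
    intro x
    have h1 : Tendsto (fun N : ℕ => min (u x) (N : ℝ≥0∞)) atTop (𝓝 (min (u x) ⊤)) :=
      tendsto_const_nhds.min ENNReal.tendsto_nat_nhds_top
    rw [min_top_right] at h1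
    have h2 : Tendsto (fun N => U N x) atTop (𝓝 (u x)) := by
      apply h1.congr'
      obtain ⟨M, hM⟩ := exists_nat_gt ‖x‖
      filter_upwards [eventually_ge_atTop M] with N hN
      simp only [hU]
      rw [indicator_of_mem]
      rw [mem_ball_zero_iff]
      exact lt_of_lt_of_le hM (by exact_mod_cast hN)
    exact (ENNReal.continuous_rpow_const.tendsto _).comp h2
  calc ∫⁻ x, u x ^ (4 : ℝ) = ∫⁻ x, liminf (fun N => U N x ^ (4 : ℝ)) atTop := by
        apply lintegral_congr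
        intro x
        exact (htend x).liminf_eq.symm
    _ ≤ liminf (fun N => ∫⁻ x, U N x ^ (4 : ℝ)) atTop :=
        lintegral_liminf_le fun N => (hUm N).pow_const _
    _ ≤ (2 * C1 * t ^ 3) ^ (4 : ℝ) := by
        refine liminf_le_of_frequently_le' (Frequently.of_forall ?_)
        exact hbound

end DiracUCP
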