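import Pool.Agent.W_MP_23c0ba_an.Defs

/-! Real interpolation of a bilinear form between (L²,L²) and (L¹,L¹). -/

set_option autoImplicit false

open MeasureTheory Metric Set Filter Topology
open scoped ENNReal ContDiff NNReal FourierTransform ComplexConjugate

namespace DiracUCP
namespace InterpAux

lemma summable_geo {w : ℝ} (hw : 0 < w) : Summable fun l : ℤ => (2:ℝ) ^ (-(w * |(l:ℝ)|)) := by
  have h1 : Summable fun n : ℕ => ((2:ℝ) ^ (-w)) ^ n := by
    apply summable_geometric_of_lt_one (by positivity)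
    exact Real.rpow_lt_one_of_one_lt_of_neg (by norm_num) (by linarith)
  have h2 : ∀ n : ℕ, ((2:ℝ) ^ (-w)) ^ n = (2:ℝ) ^ (-(w * (n:ℝ))) := by
    intro n
    rw [← Real.rpow_natCast, ← Real.rpow_mul (by norm_num)]
    congr 1
    ring
  apply Summable.of_nat_of_neg
  · refine h1.congr fun n => ?_
    rw [h2]
    simp
  · refine h1.congr fun n => ?_
    rw [h2]
    simp

/-- The dyadic minimum. -/
noncomputable def mn (u v a c : ℝ) (l : ℤ) : ℝ :=
  min (a * (2:ℝ) ^ ((l:ℝ) * u)) (c * (2:ℝ) ^ (-((l:ℝ) * v)))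

lemma mn_nonneg {u v a c : ℝ} (ha : 0 ≤ a) (hc : 0 ≤ c) (l : ℤ) : 0 ≤ mn u v a c l := by
  unfold mn
  positivity

lemma mn_bound {u v : ℝ} (hu : 0 < u) (hv : 0 < v) {a c : ℝ} (ha : 0 < a) (hc : 0 < c) :
    ∃ n : ℤ, ∀ l : ℤ, mn u v a c l ≤
      (a ^ (v / (u + v)) * c ^ (u / (u + v))) * (2:ℝ) ^ v * (2:ℝ) ^ (-(min u v * |((l - n : ℤ):ℝ)|)) := by
  have huv : 0 < u + v := by linarith
  set t : ℝ := Real.logb 2 (c / a) / (u + v) with ht
  have h2t : (2:ℝ) ^ (t * (u + v)) = c / a := by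
    rw [ht, div_mul_cancel₀ _ huv.ne', Real.rpow_logb (by norm_num) (by norm_num) (by positivity)]
  set M : ℝ := a ^ (v / (u + v)) * c ^ (u / (u + v)) with hM
  have hM0 : 0 < M := by positivity
  have h2 : ∀ s : ℝ, (2:ℝ) ^ (t * s) = (c / a) ^ (s / (u + v)) := by
    intro s
    rw [← h2t, ← Real.rpow_mul (by norm_num)]
    congr 1
    field_simp
  have hMa : M = a * (2:ℝ) ^ (t * u) := by
    rw [h2, Real.div_rpow hc.le ha.le, hM]
    have : a = a ^ (v / (u + v)) * a ^ (u / (u + v)) := by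
      rw [← Real.rpow_add ha, ← add_div, add_comm v u, div_self huv.ne', Real.rpow_one]
    have h3 : a ^ (u / (u + v)) ≠ 0 := by positivity
    field_simp
    rw [← this]
  have hMc : M = c * (2:ℝ) ^ (-(t * v)) := by
    rw [hMa]
    have : (2:ℝ) ^ (t * u) = (c / a) * (2:ℝ) ^ (-(t * v)) := by
      rw [← h2t, ← Real.rpow_add (by norm_num)]
      congr 1
      ring
    rw [this]
    field_simp
  refine ⟨⌊t⌋, fun l => ?_⟩
  set n := ⌊t⌋ with hn
  have hn1 : (n:ℝ) ≤ t := Int.floor_le t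
  have hn2 : t < n + 1 := Int.lt_floor_add_one t
  have hmu : min u v ≤ u := min_le_left _ _
  have hmv : min u v ≤ v := min_le_right _ _
  have hm0 : 0 < min u v := lt_min hu hv
  rcases le_or_gt l n with hl | hl
  · have hlR : (l:ℝ) ≤ n := by exact_mod_cast hl
    calc mn u v a c l ≤ a * (2:ℝ) ^ ((l:ℝ) * u) := min_le_left _ _
      _ = M * (2:ℝ) ^ (((l:ℝ) - t) * u) := by
          rw [hMa, mul_assoc, ← Real.rpow_add (by norm_num)]
          congr 2
          ring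
      _ ≤ M * ((2:ℝ) ^ v * (2:ℝ) ^ (-(min u v * |((l - n : ℤ):ℝ)|))) := by
          rw [← Real.rpow_add (by norm_num)]
          apply mul_le_mul_of_nonneg_left _ hM0.le
          apply Real.rpow_le_rpow_of_exponent_le (by norm_num)
          rw [abs_of_nonpos (by push_cast; linarith)]
          push_cast
          nlinarith
      _ = _ := by ring
  · have hlR : (n:ℝ) + 1 ≤ l := by exact_mod_cast hl
    calc mn u v a c l ≤ c * (2:ℝ) ^ (-((l:ℝ) * v)) := min_le_right _ _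
      _ = M * (2:ℝ) ^ (-(((l:ℝ) - t) * v)) := by
          rw [hMc, mul_assoc, ← Real.rpow_add (by norm_num)]
          congr 2
          ring
      _ ≤ M * ((2:ℝ) ^ v * (2:ℝ) ^ (-(min u v * |((l - n : ℤ):ℝ)|))) := by
          rw [← Real.rpow_add (by norm_num)]
          apply mul_le_mul_of_nonneg_left _ hM0.le
          apply Real.rpow_le_rpow_of_exponent_le (by norm_num)
          rw [abs_of_nonneg (by push_cast; linarith)]
          push_cast
          nlinarith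
      _ = _ := by ring

lemma sum_mn {u v : ℝ} (hu : 0 < u) (hv : 0 < v) : ∃ C : ℝ, 0 ≤ C ∧ ∀ a c : ℝ, 0 < a → 0 ≤ c →
    ∀ (k : ℤ) (I : Finset ℤ), ∑ j ∈ I, mn u v a c (k + j) ≤
      C * (a ^ (v / (u + v)) * c ^ (u / (u + v))) := by
  have hm0 : 0 < min u v := lt_min hu hv
  have hs := summable_geo hm0
  have huv : 0 < u + v := by linarith
  refine ⟨(2:ℝ) ^ v * ∑' l : ℤ, (2:ℝ) ^ (-(min u v * |(l:ℝ)|)), by positivity, ?_⟩
  intro a c ha hc k I
  rcases hc.eq_or_lt with hc | hc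
  · subst hc
    have h0 : ∀ l : ℤ, mn u v a 0 l = 0 := by
      intro l
      unfold mn
      rw [zero_mul]
      exact min_eq_right (by positivity)
    simp only [h0, Finset.sum_const_zero]
    positivity
  · obtain ⟨n, hn⟩ := mn_bound hu hv ha hc
    have hinj : Function.Injective fun j : ℤ => k + j - n := fun x y h => by
      simp only at h
      linarith
    have hs2 := hs.comp_injective hinj
    calc ∑ j ∈ I, mn u v a c (k + j)
        ≤ ∑ j ∈ I, (a ^ (v / (u + v)) * c ^ (u / (u + v))) * (2:ℝ) ^ v *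
            (2:ℝ) ^ (-(min u v * |((k + j - n : ℤ):ℝ)|)) := Finset.sum_le_sum fun j _ => hn _
      _ = (a ^ (v / (u + v)) * c ^ (u / (u + v))) * (2:ℝ) ^ v *
            ∑ j ∈ I, (2:ℝ) ^ (-(min u v * |((k + j - n : ℤ):ℝ)|)) := by
          rw [Finset.mul_sum]
      _ ≤ (a ^ (v / (u + v)) * c ^ (u / (u + v))) * (2:ℝ) ^ v *
            ∑' l : ℤ, (2:ℝ) ^ (-(min u v * |(l:ℝ)|)) := by
          apply mul_le_mul_of_nonneg_left _ (by positivity)
          refine (hs2.sum_le_tsum I fun j _ => Real.rpow_nonneg (by norm_num) _).trans ?_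
          exact tsum_comp_le_tsum_of_inj hs (fun l => Real.rpow_nonneg (by norm_num) _) hinj
      _ = _ := by ring

/-- Schur test for the kernel `m (i + j)`. -/
lemma schur (I : Finset ℤ) (m : ℤ → ℝ) (hm : ∀ l, 0 ≤ m l) (S : ℝ)
    (hS : ∀ k : ℤ, ∑ j ∈ I, m (k + j) ≤ S) (a c : ℤ → ℝ) (ha : ∀ i, 0 ≤ a i) (hc : ∀ i, 0 ≤ c i)
    (P Q : ℝ) (hP : ∑ i ∈ I, a i ≤ P) (hQ : ∑ i ∈ I, c i ≤ Q) :
    ∑ i ∈ I, ∑ j ∈ I, √(a i * c j) * m (i + j) ≤ S * √(P * Q) := by
  have hS0 : 0 ≤ S := (Finset.sum_nonneg fun j _ => hm _).trans (hS 0)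
  have hP0 : 0 ≤ P := (Finset.sum_nonneg fun j _ => ha _).trans hP
  have hQ0 : 0 ≤ Q := (Finset.sum_nonneg fun j _ => hc _).trans hQ
  rw [← Finset.sum_product']
  have h1 : ∀ x : ℤ × ℤ, √(a x.1 * c x.2) * m (x.1 + x.2) =
      √(a x.1 * m (x.1 + x.2)) * √(c x.2 * m (x.1 + x.2)) := by
    intro x
    rw [← Real.sqrt_mul (mul_nonneg (ha _) (hm _))]
    have : a x.1 * m (x.1 + x.2) * (c x.2 * m (x.1 + x.2)) = (a x.1 * c x.2) * (m (x.1 + x.2)) ^ 2 := by
      ring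
    rw [this, Real.sqrt_mul (mul_nonneg (ha _) (hc _)), Real.sqrt_sq (hm _)]
  simp only [h1]
  refine (Real.sum_mul_le_sqrt_mul_sqrt _ _ _).trans ?_
  have h2 : ∑ x ∈ I ×ˢ I, √(a x.1 * m (x.1 + x.2)) ^ 2 ≤ P * S := by
    simp only [Real.sq_sqrt (mul_nonneg (ha _) (hm _))]
    rw [Finset.sum_product]
    calc ∑ x ∈ I, ∑ y ∈ I, a x * m (x + y) = ∑ x ∈ I, a x * ∑ y ∈ I, m (x + y) := by
          simp only [Finset.mul_sum]
      _ ≤ ∑ x ∈ I, a x * S := Finset.sum_le_sum fun i _ => mul_le_mul_of_nonneg_left (hS i) (ha i)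
      _ = (∑ x ∈ I, a x) * S := by rw [Finset.sum_mul]
      _ ≤ P * S := mul_le_mul_of_nonneg_right hP hS0
  have h3 : ∑ x ∈ I ×ˢ I, √(c x.2 * m (x.1 + x.2)) ^ 2 ≤ Q * S := by
    simp only [Real.sq_sqrt (mul_nonneg (hc _) (hm _))]
    rw [Finset.sum_product_right]
    calc ∑ y ∈ I, ∑ x ∈ I, c y * m (x + y) = ∑ y ∈ I, c y * ∑ x ∈ I, m (y + x) := by
          simp only [Finset.mul_sum, add_comm]
      _ ≤ ∑ x ∈ I, c x * S := Finset.sum_le_sum fun i _ => mul_le_mul_of_nonneg_left (hS i) (hc i)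
      _ = (∑ x ∈ I, c x) * S := by rw [Finset.sum_mul]
      _ ≤ Q * S := mul_le_mul_of_nonneg_right hQ hS0
  calc √(∑ x ∈ I ×ˢ I, √(a x.1 * m (x.1 + x.2)) ^ 2) * √(∑ x ∈ I ×ˢ I, √(c x.2 * m (x.1 + x.2)) ^ 2)
      ≤ √(P * S) * √(Q * S) := by gcongr
    _ = S * √(P * Q) := by
        rw [← Real.sqrt_mul (by positivity)]
        have : P * S * (Q * S) = (P * Q) * S ^ 2 := by ring
        rw [this, Real.sqrt_mul (by positivity), Real.sqrt_sq hS0]
        ring

/-! ### Dyadic level sets -/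

variable {X : Type*} [MeasurableSpace X]

/-- the dyadic level of `F x` -/
noncomputable def fl (F : X → ℂ) (x : X) : ℤ := ⌊Real.logb 2 ‖F x‖⌋

/-- the level set -/
def lset (F : X → ℂ) (i : ℤ) : Set X := {x | F x ≠ 0 ∧ fl F x = i}

/-- the part of `F` on a level set -/
noncomputable def lev (F : X → ℂ) (i : ℤ) : X → ℂ := (lset F i).indicator F

lemma measurableSet_lset {F : X → ℂ} (hF : StronglyMeasurable F) (i : ℤ) :
    MeasurableSet (lset F i) := by
  have h1 : MeasurableSet {x | F x ≠ 0} := by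
    exact (hF.measurable (measurableSet_singleton (0:ℂ))).compl
  have h2 : Measurable (fl F) := by
    apply Int.measurable_floor.comp
    unfold Real.logb
    exact (Real.measurable_log.comp hF.norm.measurable).div_const _
  exact h1.inter (h2 (measurableSet_singleton i))

omit [MeasurableSpace X] in
lemma lset_bounds {F : X → ℂ} {i : ℤ} {x : X} (hx : x ∈ lset F i) :
    (2:ℝ) ^ (i:ℝ) ≤ ‖F x‖ ∧ ‖F x‖ ≤ 2 * (2:ℝ) ^ (i:ℝ) := by
  obtain ⟨h1, h2⟩ := hx
  have h0 : 0 < ‖F x‖ := norm_pos_iff.2 h1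
  unfold fl at h2
  rw [Int.floor_eq_iff] at h2
  constructor
  · exact (Real.le_logb_iff_rpow_le (by norm_num) h0).1 h2.1
  · have := (Real.logb_lt_iff_lt_rpow (by norm_num) h0).1 h2.2
    rw [Real.rpow_add (by norm_num), Real.rpow_one] at this
    linarith

lemma nice_lev {μ : Measure X} {F : X → ℂ} (hF : Nice μ F) (i : ℤ) : Nice μ (lev F i) :=
  ⟨hF.meas.indicator (measurableSet_lset hF.meas i),
    hF.int.indicator (measurableSet_lset hF.meas i),
    hF.mem.indicator (measurableSet_lset hF.meas i)⟩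

lemma lset_finite {μ : Measure X} {F : X → ℂ} (hF : Nice μ F) (i : ℤ) : μ (lset F i) < ⊤ := by
  refine lt_of_le_of_lt (measure_mono ?_)
    (hF.int.measure_norm_ge_lt_top (ε := (2:ℝ) ^ (i:ℝ)) (by positivity))
  intro x hx
  exact (lset_bounds hx).1

lemma lev_norm {μ : Measure X} {F : X → ℂ} (hF : Nice μ F) (i : ℤ) {q : ℝ≥0∞} (hq0 : q ≠ 0)
    (hq : q ≠ ⊤) :
    (eLpNorm (lev F i) q μ).toReal ≤ 2 * (2:ℝ) ^ (i:ℝ) * (μ.real (lset F i)) ^ (1 / q.toReal) := by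
  have h1 : eLpNorm (lev F i) q μ ≤
      eLpNorm ((lset F i).indicator fun _ => (2 * (2:ℝ) ^ (i:ℝ) : ℝ)) q μ := by
    apply eLpNorm_mono
    intro x
    unfold lev
    by_cases hx : x ∈ lset F i
    · rw [indicator_of_mem hx, indicator_of_mem hx, Real.norm_of_nonneg (by positivity)]
      exact (lset_bounds hx).2
    · rw [indicator_of_notMem hx, indicator_of_notMem hx]
      simp
  rw [eLpNorm_indicator_const (measurableSet_lset hF.meas i) hq0 hq] at h1
  have h2 : ‖(2 * (2:ℝ) ^ (i:ℝ) : ℝ)‖ₑ * μ (lset F i) ^ (1 / q.toReal) ≠ ⊤ := by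
    apply ENNReal.mul_ne_top enorm_ne_top
    apply ENNReal.rpow_ne_top_of_nonneg (by positivity) (lset_finite hF i).ne
  refine (ENNReal.toReal_mono h2 h1).trans ?_
  rw [ENNReal.toReal_mul, ← ENNReal.toReal_rpow, toReal_enorm,
    Real.norm_of_nonneg (by positivity)]
  rfl

omit [MeasurableSpace X] in
lemma pairwise_lset (F : X → ℂ) (I : Finset ℤ) : (I : Set ℤ).PairwiseDisjoint (lset F) := by
  intro i _ j _ hij
  rw [Function.onFun, Set.disjoint_left]
  intro x hx hx'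
  exact hij (hx.2.symm.trans hx'.2)

lemma memLp_nice {μ : Measure X} {F : X → ℂ} (hF : Nice μ F) {p : ℝ} (hp1 : 1 < p)
    (hp2 : p < 2) : ∫⁻ x, ‖F x‖ₑ ^ p ∂μ < ⊤ := by
  have h1 : ∀ x, ‖F x‖ₑ ^ p ≤ ‖F x‖ₑ + ‖F x‖ₑ ^ (2:ℝ) := by
    intro x
    rcases le_total ‖F x‖ₑ 1 with h | h
    · calc ‖F x‖ₑ ^ p ≤ ‖F x‖ₑ ^ (1:ℝ) := ENNReal.rpow_le_rpow_of_exponent_ge h hp1.le
        _ = ‖F x‖ₑ := ENNReal.rpow_one _
        _ ≤ _ := le_self_add
    · calc ‖F x‖ₑ ^ p ≤ ‖F x‖ₑ ^ (2:ℝ) := ENNReal.rpow_le_rpow_of_exponent_le h hp2.le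
        _ ≤ _ := le_add_self
  refine lt_of_le_of_lt (lintegral_mono h1) ?_
  rw [lintegral_add_left hF.meas.enorm]
  refine ENNReal.add_lt_top.2 ⟨hF.int.2, ?_⟩
  have := hF.mem.2
  rw [eLpNorm_lt_top_iff_lintegral_rpow_enorm_lt_top (by norm_num) (by norm_num)] at this
  simpa using this

lemma sum_level {μ : Measure X} {F : X → ℂ} (hF : Nice μ F) {p : ℝ} (hp1 : 1 < p)
    (hp2 : p < 2) (I : Finset ℤ) :
    ∑ i ∈ I, (2:ℝ) ^ ((i:ℝ) * p) * μ.real (lset F i) ≤
      (eLpNorm F (ENNReal.ofReal p) μ).toReal ^ p := by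
  have hp0 : 0 < p := by linarith
  have hfin := memLp_nice hF hp1 hp2
  have h1 : (eLpNorm F (ENNReal.ofReal p) μ).toReal ^ p = (∫⁻ x, ‖F x‖ₑ ^ p ∂μ).toReal := by
    rw [eLpNorm_eq_lintegral_rpow_enorm_toReal (by simpa using hp0) (by simp),
      ENNReal.toReal_ofReal hp0.le, ← ENNReal.toReal_rpow, ← Real.rpow_mul (by positivity)]
    rw [one_div, inv_mul_cancel₀ hp0.ne', Real.rpow_one]
  rw [h1]
  have h2 : ∀ i ∈ I, (2:ℝ) ^ ((i:ℝ) * p) * μ.real (lset F i) =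
      (ENNReal.ofReal ((2:ℝ) ^ ((i:ℝ) * p)) * μ (lset F i)).toReal := by
    intro i _
    rw [ENNReal.toReal_mul, ENNReal.toReal_ofReal (by positivity)]
    rfl
  rw [Finset.sum_congr rfl h2, ← ENNReal.toReal_sum (fun i _ =>
    ENNReal.mul_ne_top ENNReal.ofReal_ne_top (lset_finite hF i).ne)]
  apply ENNReal.toReal_mono hfin.ne
  calc ∑ i ∈ I, ENNReal.ofReal ((2:ℝ) ^ ((i:ℝ) * p)) * μ (lset F i)
      = ∑ i ∈ I, ∫⁻ x in lset F i, ENNReal.ofReal ((2:ℝ) ^ ((i:ℝ) * p)) ∂μ := by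
        simp
    _ ≤ ∑ i ∈ I, ∫⁻ x in lset F i, ‖F x‖ₑ ^ p ∂μ := by
        apply Finset.sum_le_sum
        intro i _
        apply setLIntegral_mono' (measurableSet_lset hF.meas i)
        intro x hx
        rw [Real.rpow_mul (by norm_num), ← ENNReal.ofReal_rpow_of_nonneg (by positivity) hp0.le]
        apply ENNReal.rpow_le_rpow _ hp0.le
        rw [← ofReal_norm]
        exact ENNReal.ofReal_le_ofReal (lset_bounds hx).1
    _ = ∫⁻ x in ⋃ i ∈ I, lset F i, ‖F x‖ₑ ^ p ∂μ := by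
        rw [lintegral_biUnion_finset (pairwise_lset F I)
          (fun i _ => measurableSet_lset hF.meas i)]
    _ ≤ ∫⁻ x, ‖F x‖ₑ ^ p ∂μ := setLIntegral_le_lintegral _ _

/-! ### Finite sums of level parts -/

lemma nice_zero {μ : Measure X} : Nice μ (0 : X → ℂ) :=
  ⟨stronglyMeasurable_zero, integrable_zero _ _ _, MemLp.zero⟩

lemma Nice.add {μ : Measure X} {F G : X → ℂ} (hF : Nice μ F) (hG : Nice μ G) :
    Nice μ (F + G) :=
  ⟨hF.meas.add hG.meas, hF.int.add hG.int, hF.mem.add hG.mem⟩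

lemma Nice.sub {μ : Measure X} {F G : X → ℂ} (hF : Nice μ F) (hG : Nice μ G) :
    Nice μ (F - G) :=
  ⟨hF.meas.sub hG.meas, hF.int.sub hG.int, hF.mem.sub hG.mem⟩

lemma add_sum {μ : Measure X} {φ : (X → ℂ) → ℂ}
    (hadd : ∀ F F', Nice μ F → Nice μ F' → φ (F + F') = φ F + φ F')
    (f : ℤ → X → ℂ) (hf : ∀ i, Nice μ (f i)) (I : Finset ℤ) :
    Nice μ (∑ i ∈ I, f i) ∧ φ (∑ i ∈ I, f i) = ∑ i ∈ I, φ (f i) := by
  induction I using Finset.induction_on with
  | empty =>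
    refine ⟨by simpa using nice_zero, ?_⟩
    have := hadd 0 0 nice_zero nice_zero
    simpa using this
  | insert a I ha ih =>
    rw [Finset.sum_insert ha, Finset.sum_insert ha]
    exact ⟨Nice.add (hf a) ih.1, by rw [hadd _ _ (hf a) ih.1, ih.2]⟩

omit [MeasurableSpace X] in
lemma sum_lev_apply (F : X → ℂ) (I : Finset ℤ) (x : X) :
    (∑ i ∈ I, lev F i) x = if fl F x ∈ I then F x else 0 := by
  classical
  rw [Finset.sum_apply]
  have h : ∀ i : ℤ, lev F i x = if fl F x = i then F x else 0 := by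
    intro i
    unfold lev
    rw [indicator_apply]
    by_cases h0 : F x = 0
    · simp [h0]
    · simp [lset, h0]
  simp only [h]
  rw [Finset.sum_ite_eq]

/-- The main estimate for finite sums of level parts. -/
lemma trunc_bound {μ : Measure X} {p : ℝ} (hp1 : 1 < p) (hp2 : p < 2)
    {b : (X → ℂ) → (X → ℂ) → ℂ} {A B : ℝ} (hA : 0 < A) (hB : 0 < B)
    (hb2 : ∀ F G, Nice μ F → Nice μ G →
        ‖b F G‖ ≤ A * (eLpNorm F 2 μ).toReal * (eLpNorm G 2 μ).toReal)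
    (hb1 : ∀ F G, Nice μ F → Nice μ G →
        ‖b F G‖ ≤ B * (eLpNorm F 1 μ).toReal * (eLpNorm G 1 μ).toReal)
    {F G : X → ℂ} (hF : Nice μ F) (hG : Nice μ G) (I : Finset ℤ) {P Q : ℝ}
    (hP : P = (eLpNorm F (ENNReal.ofReal p) μ).toReal ^ p)
    (hQ : Q = (eLpNorm G (ENNReal.ofReal p) μ).toReal ^ p) {i j : ℤ} (hi : i ∈ I) (hj : j ∈ I) :
    ‖b (lev F i) (lev G j)‖ ≤
      4 * (√(((2:ℝ) ^ ((i:ℝ) * p) * μ.real (lset F i)) * ((2:ℝ) ^ ((j:ℝ) * p) * μ.real (lset G j))) *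
        mn (1 - p / 2) (p - 1) A (B * √(P * Q)) (i + j)) := by
  set s : ℝ := μ.real (lset F i) with hs
  set t : ℝ := μ.real (lset G j) with ht
  have hs0 : 0 ≤ s := measureReal_nonneg
  have ht0 : 0 ≤ t := measureReal_nonneg
  set a : ℝ := (2:ℝ) ^ ((i:ℝ) * p) * s with ha
  set c : ℝ := (2:ℝ) ^ ((j:ℝ) * p) * t with hc
  have ha0 : 0 ≤ a := by positivity
  have hc0 : 0 ≤ c := by positivity
  have haP : a ≤ P := by
    rw [hP]
    refine le_trans ?_ (sum_level hF hp1 hp2 I)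
    exact Finset.single_le_sum (f := fun i : ℤ => (2:ℝ) ^ ((i:ℝ) * p) * μ.real (lset F i))
      (fun i _ => by positivity) hi
  have hcQ : c ≤ Q := by
    rw [hQ]
    refine le_trans ?_ (sum_level hG hp1 hp2 I)
    exact Finset.single_le_sum (f := fun i : ℤ => (2:ℝ) ^ ((i:ℝ) * p) * μ.real (lset G i))
      (fun i _ => by positivity) hj
  have hac : a * c = ((2:ℝ) ^ (((i:ℝ) + j) * p / 2)) ^ 2 * (s * t) := by
    rw [ha, hc, ← Real.rpow_natCast, ← Real.rpow_mul (by norm_num)]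
    have : ((i:ℝ) + j) * p / 2 * ((2:ℕ):ℝ) = (i:ℝ) * p + (j:ℝ) * p := by push_cast; ring
    rw [this, Real.rpow_add (by norm_num)]
    ring
  have hsq : √(a * c) = (2:ℝ) ^ (((i:ℝ) + j) * p / 2) * √(s * t) := by
    rw [hac, Real.sqrt_mul (by positivity), Real.sqrt_sq (by positivity)]
  unfold mn
  rw [mul_min_of_nonneg _ _ (Real.sqrt_nonneg _), mul_min_of_nonneg _ _ (by norm_num)]
  apply le_min
  · refine (hb2 _ _ (nice_lev hF i) (nice_lev hG j)).trans ?_
    have h1 := lev_norm hF i (q := 2) (by norm_num) (by norm_num)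
    have h2 := lev_norm hG j (q := 2) (by norm_num) (by norm_num)
    rw [← hs, ENNReal.toReal_ofNat, ← Real.sqrt_eq_rpow] at h1
    rw [← ht, ENNReal.toReal_ofNat, ← Real.sqrt_eq_rpow] at h2
    calc A * (eLpNorm (lev F i) 2 μ).toReal * (eLpNorm (lev G j) 2 μ).toReal
        ≤ A * (2 * (2:ℝ) ^ (i:ℝ) * √s) * (2 * (2:ℝ) ^ (j:ℝ) * √t) := by gcongr
      _ = 4 * (((2:ℝ) ^ (i:ℝ) * (2:ℝ) ^ (j:ℝ)) * (√s * √t) * A) := by ring
      _ = 4 * (√(a * c) * (A * (2:ℝ) ^ (((i + j : ℤ):ℝ) * (1 - p / 2)))) := by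
          rw [hsq, ← Real.sqrt_mul hs0, ← Real.rpow_add (by norm_num)]
          have : (2:ℝ) ^ ((i:ℝ) + j) = (2:ℝ) ^ (((i:ℝ) + j) * p / 2) *
              (2:ℝ) ^ (((i + j : ℤ):ℝ) * (1 - p / 2)) := by
            rw [← Real.rpow_add (by norm_num)]
            congr 1
            push_cast
            ring
          rw [this]
          ring
  · refine (hb1 _ _ (nice_lev hF i) (nice_lev hG j)).trans ?_
    have h1 := lev_norm hF i (q := 1) (by norm_num) (by norm_num)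
    have h2 := lev_norm hG j (q := 1) (by norm_num) (by norm_num)
    rw [← hs, ENNReal.toReal_one, div_one, Real.rpow_one] at h1
    rw [← ht, ENNReal.toReal_one, div_one, Real.rpow_one] at h2
    have hP0 : 0 ≤ P := ha0.trans haP
    have hQ0 : 0 ≤ Q := hc0.trans hcQ
    have h3 : a * c ≤ √(a * c) * √(P * Q) := by
      calc a * c = √(a * c) * √(a * c) := (Real.mul_self_sqrt (by positivity)).symm
        _ ≤ √(a * c) * √(P * Q) := by gcongr
    calc B * (eLpNorm (lev F i) 1 μ).toReal * (eLpNorm (lev G j) 1 μ).toReal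
        ≤ B * (2 * (2:ℝ) ^ (i:ℝ) * s) * (2 * (2:ℝ) ^ (j:ℝ) * t) := by gcongr
      _ = 4 * B * ((2:ℝ) ^ (i:ℝ) * (2:ℝ) ^ (j:ℝ) * (s * t)) := by ring
      _ = 4 * B * ((a * c) * (2:ℝ) ^ (-(((i + j : ℤ):ℝ) * (p - 1)))) := by
          rw [ha, hc, ← Real.rpow_add (by norm_num)]
          have : (2:ℝ) ^ ((i:ℝ) + j) = (2:ℝ) ^ ((i:ℝ) * p) * (2:ℝ) ^ ((j:ℝ) * p) *
              (2:ℝ) ^ (-(((i + j : ℤ):ℝ) * (p - 1))) := by
            rw [← Real.rpow_add (by norm_num), ← Real.rpow_add (by norm_num)]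
            congr 1
            push_cast
            ring
          rw [this]
          ring
      _ ≤ 4 * B * ((√(a * c) * √(P * Q)) * (2:ℝ) ^ (-(((i + j : ℤ):ℝ) * (p - 1)))) := by
          gcongr
      _ = 4 * (√(a * c) * (B * √(P * Q) * (2:ℝ) ^ (-(((i + j : ℤ):ℝ) * (p - 1))))) := by ring

lemma tendsto_trunc {μ : Measure X} {F : X → ℂ} (hF : Nice μ F) :
    Tendsto (fun N : ℕ => (eLpNorm (F - ∑ i ∈ Finset.Icc (-(N:ℤ)) N, lev F i) 2 μ).toReal)
      atTop (𝓝 0) := by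
  rw [← ENNReal.toReal_zero]
  apply (ENNReal.tendsto_toReal ENNReal.zero_ne_top).comp
  have h1 : ∀ N : ℕ, eLpNorm (F - ∑ i ∈ Finset.Icc (-(N:ℤ)) N, lev F i) 2 μ =
      (∫⁻ x, ‖(F - ∑ i ∈ Finset.Icc (-(N:ℤ)) N, lev F i) x‖ₑ ^ (2:ℝ) ∂μ) ^ (1 / (2:ℝ)) := by
    intro N
    rw [eLpNorm_eq_lintegral_rpow_enorm_toReal (by norm_num) (by norm_num)]
    simp
  simp only [h1]
  have h2 : Tendsto (fun N : ℕ =>
      ∫⁻ x, ‖(F - ∑ i ∈ Finset.Icc (-(N:ℤ)) N, lev F i) x‖ₑ ^ (2:ℝ) ∂μ) atTop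
      (𝓝 (∫⁻ _, 0 ∂μ)) := by
    apply tendsto_lintegral_of_dominated_convergence (fun x => ‖F x‖ₑ ^ (2:ℝ))
    · intro N
      have hn := (add_sum (μ := μ) (φ := fun _ => (0:ℂ)) (by simp) (lev F) (nice_lev hF)
        (Finset.Icc (-(N:ℤ)) N)).1
      exact ((Nice.sub hF hn).meas.enorm).pow_const _
    · intro N
      filter_upwards with x
      apply ENNReal.rpow_le_rpow _ (by norm_num)
      rw [Pi.sub_apply, sum_lev_apply]
      split_ifs
      · simp
      · simp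
    · have := hF.mem.2
      rw [eLpNorm_lt_top_iff_lintegral_rpow_enorm_lt_top (by norm_num) (by norm_num)] at this
      simpa using this.ne
    · filter_upwards with x
      apply tendsto_const_nhds.congr'
      filter_upwards [eventually_ge_atTop (fl F x).natAbs] with N hN
      have : fl F x ∈ Finset.Icc (-(N:ℤ)) N := by
        rw [Finset.mem_Icc]
        omega
      rw [Pi.sub_apply, sum_lev_apply, if_pos this]
      simp
  have h3 := ((ENNReal.continuous_rpow_const (y := 1 / (2:ℝ))).tendsto _).comp h2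
  have h4 : (∫⁻ _ : X, (0:ℝ≥0∞) ∂μ) ^ (1 / (2:ℝ)) = 0 := by simp
  rw [h4] at h3
  exact h3

end InterpAux

/-- Real interpolation between the bounds `A ‖F‖₂ ‖G‖₂` and `B ‖F‖₁ ‖G‖₁`. -/
theorem interp {X : Type*} [MeasurableSpace X] (μ : Measure X) {p : ℝ} (hp1 : 1 < p)
    (hp2 : p < 2) :
    ∃ C : ℝ, 0 ≤ C ∧ ∀ (b : (X → ℂ) → (X → ℂ) → ℂ) (A B : ℝ), 0 < A → 0 < B →
      (∀ F F' G, Nice μ F → Nice μ F' → Nice μ G → b (F + F') G = b F G + b F' G) →
      (∀ F G G', Nice μ F → Nice μ G → Nice μ G' → b F (G + G') = b F G + b F G') →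
      (∀ F G, Nice μ F → Nice μ G →
        ‖b F G‖ ≤ A * (eLpNorm F 2 μ).toReal * (eLpNorm G 2 μ).toReal) →
      (∀ F G, Nice μ F → Nice μ G →
        ‖b F G‖ ≤ B * (eLpNorm F 1 μ).toReal * (eLpNorm G 1 μ).toReal) →
      ∀ F G, Nice μ F → Nice μ G →
        ‖b F G‖ ≤ C * (A ^ (2 - 2 / p) * B ^ (2 / p - 1)) *
          (eLpNorm F (ENNReal.ofReal p) μ).toReal * (eLpNorm G (ENNReal.ofReal p) μ).toReal := by
  have hu : 0 < 1 - p / 2 := by linarith
  have hv : 0 < p - 1 := by linarith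
  have hp0 : 0 < p := by linarith
  obtain ⟨C, hC0, hC⟩ := InterpAux.sum_mn hu hv
  refine ⟨4 * C, by positivity, ?_⟩
  intro b A B hA hB hadd1 hadd2 hb2 hb1 F G hF hG
  set NF : ℝ := (eLpNorm F (ENNReal.ofReal p) μ).toReal with hNF
  set NG : ℝ := (eLpNorm G (ENNReal.ofReal p) μ).toReal with hNG
  have hNF0 : 0 ≤ NF := ENNReal.toReal_nonneg
  have hNG0 : 0 ≤ NG := ENNReal.toReal_nonneg
  set FN : ℕ → X → ℂ := fun N => ∑ i ∈ Finset.Icc (-(N:ℤ)) N, InterpAux.lev F i with hFN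
  set GN : ℕ → X → ℂ := fun N => ∑ i ∈ Finset.Icc (-(N:ℤ)) N, InterpAux.lev G i with hGN
  have hFNn : ∀ N, Nice μ (FN N) := fun N =>
    (InterpAux.add_sum (μ := μ) (φ := fun _ => (0:ℂ)) (by simp) (InterpAux.lev F)
      (InterpAux.nice_lev hF) _).1
  have hGNn : ∀ N, Nice μ (GN N) := fun N =>
    (InterpAux.add_sum (μ := μ) (φ := fun _ => (0:ℂ)) (by simp) (InterpAux.lev G)
      (InterpAux.nice_lev hG) _).1
  -- the bound for the truncations
  have key : ∀ N, ‖b (FN N) (GN N)‖ ≤ 4 * C * (A ^ (2 - 2 / p) * B ^ (2 / p - 1)) * NF * NG := by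
    intro N
    set I := Finset.Icc (-(N:ℤ)) N with hI
    set P : ℝ := NF ^ p with hP
    set Q : ℝ := NG ^ p with hQ
    have e1 : b (FN N) (GN N) = ∑ i ∈ I, ∑ j ∈ I, b (InterpAux.lev F i) (InterpAux.lev G j) := by
      rw [(InterpAux.add_sum (φ := fun F => b F (GN N))
        (fun F F' h h' => hadd1 F F' _ h h' (hGNn N)) (InterpAux.lev F)
        (InterpAux.nice_lev hF) I).2]
      refine Finset.sum_congr rfl fun i _ => ?_
      exact (InterpAux.add_sum (φ := fun G => b (InterpAux.lev F i) G)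
        (fun G G' h h' => hadd2 _ G G' (InterpAux.nice_lev hF i) h h') (InterpAux.lev G)
        (InterpAux.nice_lev hG) I).2
    rw [e1]
    have hPQ : √(P * Q) = (NF * NG) ^ (p / 2) := by
      rw [hP, hQ, ← Real.mul_rpow hNF0 hNG0, Real.sqrt_eq_rpow, ← Real.rpow_mul (by positivity)]
      congr 1
      ring
    have h1 : ‖∑ i ∈ I, ∑ j ∈ I, b (InterpAux.lev F i) (InterpAux.lev G j)‖ ≤
        ∑ i ∈ I, ∑ j ∈ I,
          4 * (√(((2:ℝ) ^ ((i:ℝ) * p) * μ.real (InterpAux.lset F i)) *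
            ((2:ℝ) ^ ((j:ℝ) * p) * μ.real (InterpAux.lset G j))) *
        InterpAux.mn (1 - p / 2) (p - 1) A (B * √(P * Q)) (i + j)) := by
      refine (norm_sum_le _ _).trans (Finset.sum_le_sum fun i hi => ?_)
      refine (norm_sum_le _ _).trans (Finset.sum_le_sum fun j hj => ?_)
      exact InterpAux.trunc_bound hp1 hp2 hA hB hb2 hb1 hF hG I hP hQ hi hj
    refine h1.trans ?_
    simp only [← Finset.mul_sum]
    have h2 := InterpAux.schur I (InterpAux.mn (1 - p / 2) (p - 1) A (B * √(P * Q)))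
      (fun l => InterpAux.mn_nonneg hA.le (by positivity) l)
      (C * (A ^ ((p - 1) / (1 - p / 2 + (p - 1))) *
        (B * √(P * Q)) ^ ((1 - p / 2) / (1 - p / 2 + (p - 1)))))
      (fun k => hC A (B * √(P * Q)) hA (by positivity) k I)
      (fun i : ℤ => (2:ℝ) ^ ((i:ℝ) * p) * μ.real (InterpAux.lset F i))
      (fun i : ℤ => (2:ℝ) ^ ((i:ℝ) * p) * μ.real (InterpAux.lset G i))
      (fun i => by positivity) (fun i => by positivity) P Q
      (InterpAux.sum_level hF hp1 hp2 I) (InterpAux.sum_level hG hp1 hp2 I)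
    refine (mul_le_mul_of_nonneg_left h2 (by norm_num)).trans (le_of_eq ?_)
    have e2 : (p - 1) / (1 - p / 2 + (p - 1)) = 2 - 2 / p := by
      have : 1 - p / 2 + (p - 1) = p / 2 := by ring
      rw [this]
      field_simp
    have e3 : (1 - p / 2) / (1 - p / 2 + (p - 1)) = 2 / p - 1 := by
      have : 1 - p / 2 + (p - 1) = p / 2 := by ring
      rw [this]
      field_simp
    have hT0 : 0 ≤ NF * NG := by positivity
    rw [e2, e3, Real.mul_rpow hB.le (Real.sqrt_nonneg _), hPQ, ← Real.rpow_mul hT0]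
    have e4 : p / 2 * (2 / p - 1) = 1 - p / 2 := by
      field_simp
    rw [e4]
    have e5 : (NF * NG) ^ (1 - p / 2) * (NF * NG) ^ (p / 2) = NF * NG := by
      rw [← Real.rpow_add' hT0 (by norm_num)]
      rw [sub_add_cancel, Real.rpow_one]
    calc 4 * (C * (A ^ (2 - 2 / p) * (B ^ (2 / p - 1) * (NF * NG) ^ (1 - p / 2))) *
          (NF * NG) ^ (p / 2))
        = 4 * C * (A ^ (2 - 2 / p) * B ^ (2 / p - 1)) *
          ((NF * NG) ^ (1 - p / 2) * (NF * NG) ^ (p / 2)) := by ring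
      _ = 4 * C * (A ^ (2 - 2 / p) * B ^ (2 / p - 1)) * NF * NG := by rw [e5]; ring
  -- the limit
  set f2 : ℝ := (eLpNorm F 2 μ).toReal
  set g2 : ℝ := (eLpNorm G 2 μ).toReal
  have hlim : Tendsto (fun N => 4 * C * (A ^ (2 - 2 / p) * B ^ (2 / p - 1)) * NF * NG +
      A * (eLpNorm (F - FN N) 2 μ).toReal * g2 + A * f2 * (eLpNorm (G - GN N) 2 μ).toReal)
      atTop (𝓝 (4 * C * (A ^ (2 - 2 / p) * B ^ (2 / p - 1)) * NF * NG + A * 0 * g2 +
        A * f2 * 0)) := by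
    apply Tendsto.add
    · apply Tendsto.add tendsto_const_nhds
      exact (tendsto_const_nhds.mul (InterpAux.tendsto_trunc hF)).mul_const _
    · exact tendsto_const_nhds.mul (InterpAux.tendsto_trunc hG)
  have hle : ‖b F G‖ ≤ 4 * C * (A ^ (2 - 2 / p) * B ^ (2 / p - 1)) * NF * NG + A * 0 * g2 +
        A * f2 * 0 := by
    apply ge_of_tendsto' hlim
    intro N
    have e1 : b F G = b (FN N) (GN N) + b (F - FN N) G + b (FN N) (G - GN N) := by
      have h1 : F = FN N + (F - FN N) := by abel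
      have h2 : G = GN N + (G - GN N) := by abel
      have h3 : b F G = b (FN N) G + b (F - FN N) G := by
        conv_lhs => rw [h1]
        exact hadd1 _ _ _ (hFNn N) (InterpAux.Nice.sub hF (hFNn N)) hG
      have h4 : b (FN N) G = b (FN N) (GN N) + b (FN N) (G - GN N) := by
        conv_lhs => rw [h2]
        exact hadd2 _ _ _ (hFNn N) (hGNn N) (InterpAux.Nice.sub hG (hGNn N))
      rw [h3, h4]
      ring
    have h5 : (eLpNorm (FN N) 2 μ).toReal ≤ f2 := by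
      apply ENNReal.toReal_mono hF.mem.2.ne
      apply eLpNorm_mono
      intro x
      rw [hFN]
      simp only
      rw [InterpAux.sum_lev_apply]
      split_ifs <;> simp
    rw [e1]
    calc ‖b (FN N) (GN N) + b (F - FN N) G + b (FN N) (G - GN N)‖
        ≤ ‖b (FN N) (GN N)‖ + ‖b (F - FN N) G‖ + ‖b (FN N) (G - GN N)‖ := norm_add₃_le
      _ ≤ 4 * C * (A ^ (2 - 2 / p) * B ^ (2 / p - 1)) * NF * NG +
          A * (eLpNorm (F - FN N) 2 μ).toReal * g2 +
          A * (eLpNorm (FN N) 2 μ).toReal * (eLpNorm (G - GN N) 2 μ).toReal :=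
        add_le_add (add_le_add (key N) (hb2 _ _ (InterpAux.Nice.sub hF (hFNn N)) hG))
          (hb2 _ _ (hFNn N) (InterpAux.Nice.sub hG (hGNn N)))
      _ ≤ _ := by gcongr
  simpa using hle

end DiracUCP
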