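import Pool.Agent.W_MP_23c0ba_an.Alg

/-! The Kelvin transform and the Dirac operator. -/

set_option autoImplicit false

open MeasureTheory Metric Set Filter Topology
open scoped ENNReal ContDiff NNReal FourierTransform ComplexConjugate

namespace DiracUCP

variable {n : ℕ} {S : Type} [NormedAddCommGroup S] [InnerProductSpace ℂ S]

/-- Derivative of an integer power of the norm. -/
theorem kelvin_hasFDerivAt_norm_zpow (m : ℤ) {y : E n} (hy : y ≠ 0) :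
    HasFDerivAt (fun z : E n => ‖z‖ ^ m) (((m : ℝ) * ‖y‖ ^ (m - 2)) • (innerSL ℝ y)) y := by
  have hn : ‖y‖ ≠ 0 := norm_ne_zero_iff.mpr hy
  have h1 : HasFDerivAt (fun z : E n => ‖z‖ ^ 2) (2 • (innerSL ℝ y)) y :=
    (hasStrictFDerivAt_norm_sq y).hasFDerivAt
  have h2 := h1.sqrt (by positivity)
  have h3 : (fun z : E n => √(‖z‖ ^ 2)) = fun z : E n => ‖z‖ := by
    funext z; exact Real.sqrt_sq (norm_nonneg z)
  rw [h3, Real.sqrt_sq (norm_nonneg y)] at h2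
  have h4 := (hasDerivAt_zpow m ‖y‖ (Or.inl hn)).comp_hasFDerivAt y h2
  refine h4.congr_fderiv ?_
  ext v
  simp only [smul_apply, nsmul_eq_mul, smul_eq_mul]
  have : ‖y‖ ^ (m - 1) = ‖y‖ ^ (m - 2) * ‖y‖ := by
    rw [← zpow_add_one₀ hn]
    congr 1; ring
  rw [this]
  field_simp
  push_cast
  ring

/-- Derivative of the inversion. -/
theorem kelvin_hasFDerivAt_Phi (a : E n) (r : ℝ) {y : E n} (hy : y ≠ 0) :
    ∃ L : E n →L[ℝ] E n, HasFDerivAt (Phi a r) L y ∧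
      ∀ v, L v = (r / ‖y‖ ^ 2) • v - (2 * r * (inner ℝ y v : ℝ) / ‖y‖ ^ 4) • y := by
  have hn : ‖y‖ ≠ 0 := norm_ne_zero_iff.mpr hy
  have h1 := (kelvin_hasFDerivAt_norm_zpow (n := n) (-2) hy).const_mul r
  have h2 := h1.smul (hasFDerivAt_id y)
  have h3 := h2.const_add a
  refine ⟨_, h3.congr_of_eventuallyEq ?_, ?_⟩
  · filter_upwards with z
    simp only [Phi]
    congr 2
  · intro v
    simp only [add_apply, smul_apply, ContinuousLinearMap.smulRight_apply, innerSL_apply_apply,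
      smul_eq_mul, id_eq, ContinuousLinearMap.id_apply]
    have e1 : ‖y‖ ^ (-2 : ℤ) = (‖y‖ ^ 2)⁻¹ := by rw [zpow_neg]; rfl
    have e2 : ‖y‖ ^ (-2 - 2 : ℤ) = (‖y‖ ^ 4)⁻¹ := by
      rw [show (-2 - 2 : ℤ) = -(4 : ℤ) by norm_num, zpow_neg]; rfl
    rw [e1, e2, sub_eq_add_neg, ← neg_smul]
    congr 1
    congr 1
    push_cast
    field_simp

/-- `D (|y|⁻ⁿ c(y) φ(Φ(y))) = - r |y|⁻ⁿ⁻² c(y) (Dφ)(Φ(y))`. -/
theorem kelvin (A : Cliff n S) (a : E n) (r : ℝ) (φ : E n → S) {y : E n} (hy : y ≠ 0)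
    (hφ : DifferentiableAt ℝ φ (Phi a r y)) :
    A.D (fun z => (‖z‖ ^ (-(n : ℤ)) : ℝ) • A.c z (φ (Phi a r z))) y =
      (-(r * ‖y‖ ^ (-(n : ℤ) - 2)) : ℝ) • A.c y (A.D φ (Phi a r y)) := by
  have hn : ‖y‖ ≠ 0 := norm_ne_zero_iff.mpr hy
  obtain ⟨L, hL, hLv⟩ := kelvin_hasFDerivAt_Phi a r hy
  have hη := kelvin_hasFDerivAt_norm_zpow (n := n) (-(n : ℤ)) hy
  set ψ : S := φ (Phi a r y) with hψ
  set dφ : E n →L[ℝ] S := fderiv ℝ φ (Phi a r y) with hdφ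
  have hcomp : HasFDerivAt (fun z => φ (Phi a r z)) (dφ.comp L) y :=
    hφ.hasFDerivAt.comp y hL
  -- the derivative of `z ↦ c(z) φ(Φ z)`
  have hg : ∃ M : E n →L[ℝ] S, HasFDerivAt (fun z => A.c z (φ (Phi a r z))) M y ∧
      ∀ v, M v = A.c v ψ + A.c y (dφ (L v)) := by
    have hc : HasFDerivAt (fun z : E n => ((ContinuousLinearMap.restrictScalarsL ℂ S S ℝ ℝ)
        (A.c z) : S →L[ℝ] S)) (((ContinuousLinearMap.restrictScalarsL ℂ S S ℝ ℝ)).comp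
          (A.cL : E n →L[ℝ] (S →L[ℂ] S))) y := by
      exact (((ContinuousLinearMap.restrictScalarsL ℂ S S ℝ ℝ)).comp
          (A.cL : E n →L[ℝ] (S →L[ℂ] S))).hasFDerivAt
    have h := hc.clm_apply hcomp
    refine ⟨_, h, ?_⟩
    intro v
    simp [add_comm]
    rfl
  obtain ⟨M, hM, hMv⟩ := hg
  -- the basic algebra
  have hαα : ∀ (j : Fin n) (s : S), A.α j (A.α j s) = -s := by
    intro j s
    rw [← c_bv, c_sq]
    simp [bv]
  have hαc : ∀ (j : Fin n) (s : S), A.α j (A.c y s) = - A.c y (A.α j s) - (2 * y j) • s := by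
    intro j s
    have h := c_c A (bv j) y s
    rw [c_bv] at h
    rw [eq_sub_iff_add_eq, eq_neg_iff_add_eq_zero]
    have h2 : (inner ℝ (bv j) y : ℝ) = y j := by
      simp [bv, EuclideanSpace.inner_single_left]
    rw [h2] at h
    have h3 : A.α j (A.c y s) = (-(2 * ((y j : ℝ) : ℂ))) • s - A.c y (A.α j s) :=
      eq_sub_of_add_eq h
    rw [h3]
    rw [← Complex.coe_smul]
    push_cast
    module
  have hsm : ∀ (T : S →L[ℂ] S) (t : ℝ) (s : S), T (t • s) = t • T s := fun T t s =>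
    T.map_smul_of_tower t s
  have hsumy : ∑ j, y j • dφ (bv j) = dφ y := by
    have h : y = ∑ j, y j • (bv j : E n) := by
      ext i
      simp [bv, Finset.sum_apply, Pi.single_apply]
    conv_rhs => rw [h]
    rw [map_sum]
    simp only [map_smul]
  have hsumα : ∀ s : S, ∑ j, y j • A.α j s = A.c y s := by
    intro s
    rw [c_apply]
    refine Finset.sum_congr rfl fun j _ => ?_
    rw [Complex.coe_smul]
  have hD : A.D (fun z => A.c z (φ (Phi a r z))) y =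
      -((n : ℝ) • ψ) - (r / ‖y‖ ^ 2) • A.c y (A.D φ (Phi a r y)) := by
    unfold Cliff.D
    rw [hM.fderiv]
    have hterm : ∀ j, A.α j (M (bv j)) = -ψ +
        (-((r / ‖y‖ ^ 2) • A.c y (A.α j (dφ (bv j)))) - (2 * r / ‖y‖ ^ 2) • (y j • dφ (bv j)) -
          (2 * r / ‖y‖ ^ 4) • (y j • A.α j (A.c y (dφ y)))) := by
      intro j
      have hin : (inner ℝ y (bv j) : ℝ) = y j := by
        simp [bv, EuclideanSpace.inner_single_right]
      rw [hMv, hLv, c_bv, map_add, hαα, hin, map_sub, map_smul, map_smul, map_sub, hsm, hsm,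
        map_sub, hsm, hsm, hαc]
      module
    simp only [hterm]
    rw [Finset.sum_add_distrib, Finset.sum_sub_distrib, Finset.sum_sub_distrib]
    have s1 : ∑ j : Fin n, -ψ = -((n : ℝ) • ψ) := by
      simp [Nat.cast_smul_eq_nsmul]
    have s2 : ∑ j : Fin n, -((r / ‖y‖ ^ 2) • A.c y (A.α j (dφ (bv j)))) =
        -((r / ‖y‖ ^ 2) • A.c y (∑ j, A.α j (dφ (bv j)))) := by
      rw [map_sum, Finset.smul_sum, Finset.sum_neg_distrib]
    have s3 : ∑ j : Fin n, (2 * r / ‖y‖ ^ 2) • (y j • dφ (bv j)) = (2 * r / ‖y‖ ^ 2) • dφ y := by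
      rw [← Finset.smul_sum, hsumy]
    have s4 : ∑ j : Fin n, (2 * r / ‖y‖ ^ 4) • (y j • A.α j (A.c y (dφ y))) =
        -((2 * r / ‖y‖ ^ 2) • dφ y) := by
      rw [← Finset.smul_sum, hsumα, c_sq, neg_smul, Complex.coe_smul, smul_neg, smul_smul]
      congr 2
      field_simp
    rw [s1, s2, s3, s4]
    abel
  have hE : ∑ j, (((((-(n : ℤ) : ℤ) : ℝ) * ‖y‖ ^ (-(n : ℤ) - 2)) • (innerSL ℝ y : E n →L[ℝ] ℝ))
      (bv j)) • A.α j (A.c y ψ) = ((n : ℝ) * ‖y‖ ^ (-(n : ℤ))) • ψ := by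
    have : ∀ j, (((((-(n : ℤ) : ℤ) : ℝ) * ‖y‖ ^ (-(n : ℤ) - 2)) •
        (innerSL ℝ y : E n →L[ℝ] ℝ)) (bv j)) • A.α j (A.c y ψ) =
        (((-(n : ℤ) : ℤ) : ℝ) * ‖y‖ ^ (-(n : ℤ) - 2)) • (y j • A.α j (A.c y ψ)) := by
      intro j
      rw [smul_smul]
      congr 1
      simp [bv, EuclideanSpace.inner_single_right]
    simp only [this]
    rw [← Finset.smul_sum, hsumα, c_sq, neg_smul, Complex.coe_smul, smul_neg, smul_smul, ← neg_smul]
    congr 1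
    have e : ‖y‖ ^ (-(n : ℤ)) = ‖y‖ ^ (-(n : ℤ) - 2) * ‖y‖ ^ 2 := by
      rw [← zpow_natCast, ← zpow_add₀ hn]
      congr 1
      push_cast
      ring
    rw [e]
    push_cast
    ring
  rw [D_smul A hη.differentiableAt hM.differentiableAt, hη.fderiv]
  rw [hD, ← hψ, hE]
  have e : ‖y‖ ^ (-(n : ℤ)) = ‖y‖ ^ (-(n : ℤ) - 2) * ‖y‖ ^ 2 := by
    rw [← zpow_natCast, ← zpow_add₀ hn]
    congr 1
    push_cast
    ring
  have e2 : ‖y‖ ^ (-(n : ℤ)) * (r / ‖y‖ ^ 2) = r * ‖y‖ ^ (-(n : ℤ) - 2) := by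
    rw [e]
    field_simp
  rw [smul_sub, smul_smul, e2, smul_neg, smul_smul, mul_comm (‖y‖ ^ (-(n : ℤ))) (n : ℝ), neg_smul]
  abel

end DiracUCP
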