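import Pool.Agent.W_MP_23c0ba_an.Defs

/-! Change of variables under the inversion Phi. -/

set_option autoImplicit false

open MeasureTheory Metric Set Filter Topology
open scoped ENNReal ContDiff NNReal FourierTransform ComplexConjugate

namespace DiracUCP

variable {n : ℕ}

theorem Phi_eq_inversion (a : E n) {r : ℝ} (hr : 0 < r) (y : E n) :
    Phi a r y = a + EuclideanGeometry.inversion 0 (Real.sqrt r) y := by
  rw [Phi, EuclideanGeometry.inversion]
  simp only [vsub_eq_sub, sub_zero, vadd_eq_add, add_zero, dist_zero_right, div_pow,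
    Real.sq_sqrt hr.le]

theorem Phi_injective (a : E n) {r : ℝ} (hr : 0 < r) : Function.Injective (Phi a r) := by
  intro x y hxy
  rw [Phi_eq_inversion a hr, Phi_eq_inversion a hr] at hxy
  exact EuclideanGeometry.inversion_injective 0 (Real.sqrt_pos.2 hr).ne' (add_left_cancel hxy)

theorem Phi_injOn (a : E n) {r : ℝ} (hr : 0 < r) : InjOn (Phi a r) {0}ᶜ :=
  (Phi_injective a hr).injOn

theorem continuousOn_Phi (a : E n) (r : ℝ) : ContinuousOn (Phi a r) {0}ᶜ := by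
  have h : ContinuousOn (fun y : E n => a + (r / ‖y‖ ^ 2) • y) {0}ᶜ := by
    have h1 : ContinuousOn (fun y : E n => r / ‖y‖ ^ 2) {0}ᶜ := by
      refine continuousOn_const.div (continuous_norm.pow 2).continuousOn ?_
      intro y hy
      have hy' : y ≠ 0 := hy
      exact pow_ne_zero _ (norm_ne_zero_iff.2 hy')
    exact continuousOn_const.add (h1.smul (continuousOn_id' _))
  exact h

/-- `Phi a r` is inverted by `x ↦ Phi 0 r (x - a)`. -/
theorem Phi_Phi (a : E n) {r : ℝ} (hr : 0 < r) {x : E n} (hx : x ≠ a) :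
    Phi a r (Phi 0 r (x - a)) = x := by
  rw [Phi_eq_inversion a hr, Phi_eq_inversion 0 hr, zero_add,
    EuclideanGeometry.inversion_inversion 0 (Real.sqrt_pos.2 hr).ne']
  abel

theorem Phi_Phi' (a : E n) {r : ℝ} (hr : 0 < r) (y : E n) :
    Phi 0 r (Phi a r y - a) = y := by
  rw [Phi_eq_inversion a hr, Phi_eq_inversion 0 hr, zero_add, add_sub_cancel_left,
    EuclideanGeometry.inversion_inversion 0 (Real.sqrt_pos.2 hr).ne']

theorem hasFDerivAt_Phi (a : E n) {r : ℝ} (hr : 0 < r) {y : E n} (hy : y ≠ 0) :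
    HasFDerivAt (Phi a r)
      ((r / ‖y‖ ^ 2) • (((ℝ ∙ y)ᗮ.reflection : E n ≃L[ℝ] E n) : E n →L[ℝ] E n)) y := by
  have h1 : Phi a r = fun y => a + EuclideanGeometry.inversion 0 (Real.sqrt r) y :=
    funext (Phi_eq_inversion a hr)
  rw [h1]
  have h2 := (EuclideanGeometry.hasFDerivAt_inversion (c := (0 : E n)) (R := Real.sqrt r)
    hy).const_add a
  rw [dist_zero_right, div_pow, Real.sq_sqrt hr.le] at h2
  have h3 : (y - 0 : E n) = y := sub_zero y
  rw [h3] at h2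
  exact h2

theorem abs_det_Phi {r : ℝ} (hr : 0 < r) (y : E n) :
    |((r / ‖y‖ ^ 2) • (((ℝ ∙ y)ᗮ.reflection : E n ≃L[ℝ] E n) : E n →L[ℝ] E n)).det|
      = (r / ‖y‖ ^ 2) ^ n := by
  have h1 : ((r / ‖y‖ ^ 2) • (((ℝ ∙ y)ᗮ.reflection : E n ≃L[ℝ] E n) : E n →L[ℝ] E n)).det =
      (r / ‖y‖ ^ 2) ^ n * LinearMap.det ((ℝ ∙ y)ᗮ.reflection.toLinearMap) := by
    rw [ContinuousLinearMap.det]
    have h2 : (((r / ‖y‖ ^ 2) • (((ℝ ∙ y)ᗮ.reflection : E n ≃L[ℝ] E n) : E n →L[ℝ] E n) :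
        E n →L[ℝ] E n) : E n →ₗ[ℝ] E n) = (r / ‖y‖ ^ 2) • ((ℝ ∙ y)ᗮ.reflection.toLinearMap) := by
      ext1 z
      rfl
    rw [h2, LinearMap.det_smul, finrank_euclideanSpace_fin]
  rw [h1, Submodule.det_reflection, abs_mul, abs_pow, abs_pow, abs_neg, abs_one, one_pow, mul_one,
    abs_of_nonneg (by positivity)]

theorem Phi_lintegral (a : E n) {r : ℝ} (hr : 0 < r) {s : Set (E n)} (hs : MeasurableSet s)
    (h0 : (0 : E n) ∉ s) (g : E n → ℝ≥0∞) :
    ∫⁻ x in Phi a r '' s, g x =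
      ∫⁻ y in s, ENNReal.ofReal ((r / ‖y‖ ^ 2) ^ n) * g (Phi a r y) := by
  have hne : ∀ y ∈ s, y ≠ 0 := fun y hy h => h0 (h ▸ hy)
  rw [lintegral_image_eq_lintegral_abs_det_fderiv_mul volume hs
    (fun y hy => (hasFDerivAt_Phi a hr (hne y hy)).hasFDerivWithinAt)
    (Phi_injective a hr).injOn g]
  refine lintegral_congr fun y => ?_
  rw [abs_det_Phi hr y]

/-- `Phi` pulls null sets back to null sets. -/
theorem Phi_ae (a : E n) {r : ℝ} (hr : 0 < r) {s : Set (E n)} (hs : MeasurableSet s)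
    (h0 : (0 : E n) ∉ s) {P : E n → Prop} (hP : ∀ᵐ x, x ∈ Phi a r '' s → P x) :
    ∀ᵐ y, y ∈ s → P (Phi a r y) := by
  have hne : ∀ y ∈ s, y ≠ 0 := fun y hy h => h0 (h ▸ hy)
  have h1 : volume {x | ¬ (x ∈ Phi a r '' s → P x)} = 0 := hP
  have hd : DifferentiableOn ℝ (fun x => Phi 0 r (x - a)) {x | ¬ (x ∈ Phi a r '' s → P x)} := by
    intro x hx
    have hx' : ¬ (x ∈ Phi a r '' s → P x) := hx
    rw [Classical.not_imp] at hx'
    obtain ⟨⟨y, hy, rfl⟩, -⟩ := hx'
    have h2 : Phi a r y - a ≠ 0 := by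
      intro h3
      have h4 := Phi_Phi' a hr y
      rw [h3] at h4
      have h5 : Phi (0 : E n) r 0 = 0 := by simp [Phi]
      rw [h5] at h4
      exact hne y hy h4.symm
    have h6 := (hasFDerivAt_Phi (0 : E n) hr h2).differentiableAt
    have h7 : DifferentiableAt ℝ (fun x : E n => x - a) (Phi a r y) :=
      differentiableAt_id.sub_const a
    exact (DifferentiableAt.comp (Phi a r y) h6 h7).differentiableWithinAt
  have h2 := addHaar_image_eq_zero_of_differentiableOn_of_addHaar_eq_zero volume hd h1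
  refine measure_mono_null ?_ h2
  intro y hy
  have hy' : ¬ (y ∈ s → P (Phi a r y)) := hy
  rw [Classical.not_imp] at hy'
  refine ⟨Phi a r y, ?_, Phi_Phi' a hr y⟩
  intro h
  exact hy'.2 (h ⟨y, hy'.1, rfl⟩)

/-- `Phi` pushes null sets to null sets. -/
theorem Phi_ae_image (a : E n) {r : ℝ} (hr : 0 < r) {s : Set (E n)} (hs : MeasurableSet s)
    (h0 : (0 : E n) ∉ s) {P : E n → Prop} (hP : ∀ᵐ y, y ∈ s → P (Phi a r y)) :
    ∀ᵐ x, x ∈ Phi a r '' s → P x := by
  have hne : ∀ y ∈ s, y ≠ 0 := fun y hy h => h0 (h ▸ hy)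
  have h1 : volume {y | ¬ (y ∈ s → P (Phi a r y))} = 0 := hP
  have hd : DifferentiableOn ℝ (Phi a r) {y | ¬ (y ∈ s → P (Phi a r y))} := by
    intro y hy
    have hy' : ¬ (y ∈ s → P (Phi a r y)) := hy
    rw [Classical.not_imp] at hy'
    exact (hasFDerivAt_Phi a hr (hne y hy'.1)).differentiableAt.differentiableWithinAt
  have h2 := addHaar_image_eq_zero_of_differentiableOn_of_addHaar_eq_zero volume hd h1
  refine measure_mono_null ?_ h2
  intro x hx
  have hx' : ¬ (x ∈ Phi a r '' s → P x) := hx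
  rw [Classical.not_imp] at hx'
  obtain ⟨⟨y, hy, rfl⟩, hn⟩ := hx'
  exact ⟨y, fun h => hn (h hy), rfl⟩

end DiracUCP
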