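import Pool.Agent.W_MP_23c0ba_an.Kelvin
import Pool.Agent.W_MP_23c0ba_an.PhiCov

/-! Kelvin transform of smooth approximations gives admissible pairs. -/

set_option autoImplicit false

open MeasureTheory Metric Set Filter Topology
open scoped ENNReal ContDiff NNReal FourierTransform ComplexConjugate

namespace DiracUCP

variable {n : ℕ} {S : Type} [NormedAddCommGroup S] [InnerProductSpace ℂ S]
  [FiniteDimensional ℂ S] [CompleteSpace S]

namespace KelvinAdmAux

variable {a y₀ : E n} {r : ℝ}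

theorem norm_bounds (hy₀ : ‖y₀‖ = 1) {y : E n} (hy : y ∈ ball y₀ (1 / 2)) :
    1 / 2 < ‖y‖ ∧ ‖y‖ < 3 / 2 := by
  rw [mem_ball, dist_eq_norm] at hy
  have h1 := norm_sub_norm_le y₀ y
  have h2 := norm_sub_norm_le y y₀
  rw [norm_sub_rev] at h1
  constructor <;> linarith

theorem zero_notMem (hy₀ : ‖y₀‖ = 1) : (0 : E n) ∉ ball y₀ (1 / 2) := by
  intro h
  have := (norm_bounds hy₀ h).1
  rw [norm_zero] at this
  linarith

theorem measurable_Phi (a : E n) (r : ℝ) : Measurable (Phi a r) := by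
  unfold Phi
  exact measurable_const.add ((measurable_const.div (measurable_norm.pow_const 2)).smul
    measurable_id)

theorem Phi_mapsTo (a : E n) (hr : 0 < r) (hy₀ : ‖y₀‖ = 1) {y : E n}
    (hy : y ∈ ball y₀ (1 / 2)) : Phi a r y ∈ closedBall (a + r • y₀) (4 * r) := by
  have hb := norm_bounds hy₀ hy
  rw [mem_ball, dist_eq_norm] at hy
  rw [mem_closedBall, dist_eq_norm]
  have h0 : ‖y‖ ≠ 0 := by linarith
  have e1 : Phi a r y - (a + r • y₀) = r • ((‖y‖ ^ 2)⁻¹ • y - y₀) := by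
    unfold Phi
    rw [smul_sub, smul_smul, div_eq_mul_inv]
    abel
  rw [e1, norm_smul, Real.norm_eq_abs, abs_of_pos hr]
  have h1 : ‖(‖y‖ ^ 2)⁻¹ • y‖ = ‖y‖⁻¹ := by
    rw [norm_smul, norm_inv, norm_pow, norm_norm]
    field_simp
  have h2 : ‖y‖⁻¹ ≤ 2 := by
    rw [inv_le_comm₀ (by linarith) (by norm_num)]
    linarith
  have h3 : ‖(‖y‖ ^ 2)⁻¹ • y - y₀‖ ≤ 3 := by
    refine (norm_sub_le _ _).trans ?_
    rw [h1, hy₀]
    linarith
  nlinarith

omit [InnerProductSpace ℂ S] [FiniteDimensional ℂ S] [CompleteSpace S] in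
theorem eLpNorm_comp_Phi (hr : 0 < r) (hy₀ : ‖y₀‖ = 1) (a : E n) : ∃ C : ℝ≥0,
    ∀ F : E n → S, eLpNorm (fun y => F (Phi a r y)) 2 (volume.restrict (ball y₀ (1 / 2))) ≤
      C * eLpNorm F 2 (volume.restrict (closedBall (a + r • y₀) (4 * r))) := by
  set c : ℝ := (r / (9 / 4)) ^ n with hc
  have hc0 : 0 < c := by positivity
  have key : ∀ F : E n → S, ENNReal.ofReal c *
      ∫⁻ y in ball y₀ (1 / 2), ‖F (Phi a r y)‖ₑ ^ (2 : ℝ) ≤
      ∫⁻ x in closedBall (a + r • y₀) (4 * r), ‖F x‖ₑ ^ (2 : ℝ) := by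
    intro F
    have h1 := Phi_lintegral a hr (measurableSet_ball (x := y₀) (ε := 1 / 2)) (zero_notMem hy₀)
      (fun x => ‖F x‖ₑ ^ (2 : ℝ))
    have h2 : ∫⁻ x in Phi a r '' ball y₀ (1 / 2), ‖F x‖ₑ ^ (2 : ℝ) ≤
        ∫⁻ x in closedBall (a + r • y₀) (4 * r), ‖F x‖ₑ ^ (2 : ℝ) := by
      apply lintegral_mono_set
      rintro _ ⟨y, hy, rfl⟩
      exact Phi_mapsTo a hr hy₀ hy
    refine le_trans ?_ h2
    rw [h1, ← lintegral_const_mul' _ _ ENNReal.ofReal_ne_top]
    refine lintegral_mono_ae ?_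
    filter_upwards [ae_restrict_mem measurableSet_ball] with y hy
    have hb := norm_bounds hy₀ hy
    gcongr
    rw [hc]
    have h3 : ‖y‖ ^ 2 ≤ 9 / 4 := by nlinarith
    have h4 : 0 < ‖y‖ ^ 2 := by
      have : 0 < ‖y‖ := by linarith
      positivity
    gcongr
  refine ⟨(Real.toNNReal c)⁻¹ ^ (1 / 2 : ℝ), fun F => ?_⟩
  have h2 : (2 : ℝ≥0∞) ≠ 0 := by norm_num
  have h2' : (2 : ℝ≥0∞) ≠ ⊤ := by norm_num
  rw [eLpNorm_eq_lintegral_rpow_enorm_toReal h2 h2', eLpNorm_eq_lintegral_rpow_enorm_toReal h2 h2']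
  rw [ENNReal.toReal_ofNat]
  have hcn : Real.toNNReal c ≠ 0 := by
    rw [ne_eq, Real.toNNReal_eq_zero, not_le]
    exact hc0
  have h3 : ∫⁻ y in ball y₀ (1 / 2), ‖F (Phi a r y)‖ₑ ^ (2 : ℝ) ≤
      ((Real.toNNReal c)⁻¹ : ℝ≥0) *
        ∫⁻ x in closedBall (a + r • y₀) (4 * r), ‖F x‖ₑ ^ (2 : ℝ) := by
    rw [ENNReal.coe_inv hcn, ← ENNReal.div_eq_inv_mul, ENNReal.le_div_iff_mul_le, mul_comm]
    · exact key F
    · left
      simpa using hcn
    · left
      exact ENNReal.coe_ne_top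
  calc (∫⁻ y in ball y₀ (1 / 2), ‖F (Phi a r y)‖ₑ ^ (2 : ℝ)) ^ (1 / (2 : ℝ))
      ≤ (((Real.toNNReal c)⁻¹ : ℝ≥0) *
        ∫⁻ x in closedBall (a + r • y₀) (4 * r), ‖F x‖ₑ ^ (2 : ℝ)) ^ (1 / (2 : ℝ)) :=
        ENNReal.rpow_le_rpow h3 (by norm_num)
    _ = _ := by
        rw [ENNReal.mul_rpow_of_nonneg _ _ (by norm_num : (0 : ℝ) ≤ 1 / 2),
          ENNReal.coe_rpow_of_nonneg _ (by norm_num : (0 : ℝ) ≤ 1 / 2)]

theorem qmp (hr : 0 < r) (hy₀ : ‖y₀‖ = 1) (a : E n) :
    Measure.QuasiMeasurePreserving (Phi a r) (volume.restrict (ball y₀ (1 / 2)))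
      (volume.restrict (closedBall (a + r • y₀) (4 * r))) := by
  refine ⟨measurable_Phi a r, ?_⟩
  refine Measure.AbsolutelyContinuous.mk fun s hs h => ?_
  rw [Measure.map_apply (measurable_Phi a r) hs]
  have h1 : ∀ᵐ x, x ∈ closedBall (a + r • y₀) (4 * r) → x ∉ s := by
    rw [← ae_restrict_iff' measurableSet_closedBall]
    exact measure_eq_zero_iff_ae_notMem.mp h
  have h2 := Phi_ae a hr (measurableSet_ball (x := y₀) (ε := 1 / 2)) (zero_notMem hy₀)
    (P := fun x => x ∉ s) (by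
      filter_upwards [h1] with x hx hx2
      obtain ⟨y, hy, rfl⟩ := hx2
      exact hx (Phi_mapsTo a hr hy₀ hy))
  rw [measure_eq_zero_iff_ae_notMem]
  rw [ae_restrict_iff' measurableSet_ball]
  exact h2

omit [FiniteDimensional ℂ S] [CompleteSpace S] in
/-- The operator `F ↦ M(y) F(Φ(y))` for a continuous compactly supported `M`. -/
theorem eLpNorm_M (hr : 0 < r) (hy₀ : ‖y₀‖ = 1) (a : E n) {M : E n → S →L[ℂ] S}
    (hM : Continuous M) (hMc : HasCompactSupport M) (hMs : Function.support M ⊆ ball y₀ (1 / 2)) :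
    ∃ C : ℝ≥0, ∀ F : E n → S, eLpNorm (fun y => M y (F (Phi a r y))) 2 volume ≤
      C * eLpNorm F 2 (volume.restrict (closedBall (a + r • y₀) (4 * r))) := by
  obtain ⟨C, hC⟩ := eLpNorm_comp_Phi (S := S) hr hy₀ a
  obtain ⟨C', hC'⟩ := hM.bounded_above_of_compact_support hMc
  refine ⟨Real.toNNReal C' * C, fun F => ?_⟩
  have h1 : eLpNorm (fun y => M y (F (Phi a r y))) 2 volume =
      eLpNorm (fun y => M y (F (Phi a r y))) 2 (volume.restrict (ball y₀ (1 / 2))) := by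
    refine (eLpNorm_restrict_eq_of_support_subset fun y hy => hMs ?_).symm
    intro h
    apply hy
    show M y (F (Phi a r y)) = 0
    rw [h]
    rfl
  rw [h1]
  have h2 : eLpNorm (fun y => M y (F (Phi a r y))) 2 (volume.restrict (ball y₀ (1 / 2))) ≤
      ENNReal.ofReal C' *
        eLpNorm (fun y => F (Phi a r y)) 2 (volume.restrict (ball y₀ (1 / 2))) := by
    refine eLpNorm_le_mul_eLpNorm_of_ae_le_mul (Eventually.of_forall fun y => ?_) 2
    exact ((M y).le_opNorm _).trans (mul_le_mul_of_nonneg_right (hC' y) (norm_nonneg _))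
  refine h2.trans ?_
  rw [ENNReal.coe_mul, mul_assoc]
  exact mul_le_mul' le_rfl (hC F)

omit [CompleteSpace S] in
theorem aesm_M (hr : 0 < r) (hy₀ : ‖y₀‖ = 1) (a : E n) {M : E n → S →L[ℂ] S}
    (hM : Continuous M) (hMs : Function.support M ⊆ ball y₀ (1 / 2)) {F : E n → S}
    (hF : AEStronglyMeasurable F (volume.restrict (closedBall (a + r • y₀) (4 * r)))) :
    AEStronglyMeasurable (fun y => M y (F (Phi a r y))) volume := by
  have h1 : (fun y => M y (F (Phi a r y))) =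
      (ball y₀ (1 / 2)).indicator (fun y => M y (F (Phi a r y))) := by
    ext y
    by_cases hy : y ∈ ball y₀ (1 / 2)
    · rw [indicator_of_mem hy]
    · rw [indicator_of_notMem hy]
      have : M y = 0 := by
        by_contra h
        exact hy (hMs h)
      rw [this]
      rfl
  rw [h1, aestronglyMeasurable_indicator_iff measurableSet_ball]
  have h2 : AEStronglyMeasurable (fun y => F (Phi a r y))
      (volume.restrict (ball y₀ (1 / 2))) := hF.comp_quasiMeasurePreserving (qmp hr hy₀ a)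
  exact (isBoundedBilinearMap_apply (𝕜 := ℂ) (E := S) (F := S)).continuous.comp_aestronglyMeasurable
    (hM.aestronglyMeasurable.prodMk h2)

theorem memLp_M (hr : 0 < r) (hy₀ : ‖y₀‖ = 1) (a : E n) {M : E n → S →L[ℂ] S}
    (hM : Continuous M) (hMc : HasCompactSupport M) (hMs : Function.support M ⊆ ball y₀ (1 / 2))
    {F : E n → S} (hF : MemLp F 2 (volume.restrict (closedBall (a + r • y₀) (4 * r)))) :
    MemLp (fun y => M y (F (Phi a r y))) 2 volume := by
  refine ⟨aesm_M hr hy₀ a hM hMs hF.1, ?_⟩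
  obtain ⟨C, hC⟩ := eLpNorm_M hr hy₀ a hM hMc hMs
  exact (hC F).trans_lt (ENNReal.mul_lt_top ENNReal.coe_lt_top hF.2)

omit [FiniteDimensional ℂ S] [CompleteSpace S] in
theorem contDiffAt_c (A : Cliff n S) {F : E n → S} {y : E n} (hF : ContDiffAt ℝ ∞ F y) :
    ContDiffAt ℝ ∞ (fun z => A.c z (F z)) y := by
  have h1 : (fun z => A.c z (F z)) = fun z => ∑ j, (z j : ℝ) • A.α j (F z) := by
    ext z
    rw [c_apply]
    refine Finset.sum_congr rfl fun j _ => ?_
    simp
  rw [h1]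
  refine ContDiffAt.sum fun j _ => ?_
  have h2 : ContDiffAt ℝ ∞ (fun z : E n => (z j : ℝ)) y :=
    (EuclideanSpace.proj (𝕜 := ℝ) j).contDiff.contDiffAt
  have h3 : ContDiffAt ℝ ∞ (fun z : E n => A.α j (F z)) y :=
    ((A.α j).restrictScalars ℝ).contDiff.contDiffAt.comp y hF
  exact h2.smul h3

omit [FiniteDimensional ℂ S] [CompleteSpace S] in
theorem contDiffAt_npow {y : E n} (hy : y ≠ 0) (m : ℕ) :
    ContDiffAt ℝ ∞ (fun z : E n => (‖z‖ ^ (-(m : ℤ)) : ℝ)) y := by
  simp only [zpow_neg, zpow_natCast]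
  exact ((contDiffAt_norm ℝ hy).pow m).inv (pow_ne_zero _ (norm_ne_zero_iff.mpr hy))

theorem contDiffAt_Phi (a : E n) (r : ℝ) {y : E n} (hy : y ≠ 0) :
    ContDiffAt ℝ ∞ (Phi a r) y := by
  unfold Phi
  have h1 : ContDiffAt ℝ ∞ (fun z : E n => r / ‖z‖ ^ 2) y :=
    contDiffAt_const.div ((contDiffAt_norm ℝ hy).pow 2)
      (pow_ne_zero _ (norm_ne_zero_iff.mpr hy))
  have h2 : ContDiffAt ℝ ∞ (fun z : E n => (r / ‖z‖ ^ 2) • z) y := h1.smul contDiffAt_id
  exact contDiffAt_const.add h2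

end KelvinAdmAux

open KelvinAdmAux

theorem kelvin_adm (hn : 1 ≤ n) (A : Cliff n S) (a y₀ : E n) {r : ℝ} (hr : 0 < r)
    (hy₀ : ‖y₀‖ = 1) {u g : E n → S}
    (hu : MemLp u 2 (volume.restrict (closedBall (a + r • y₀) (4 * r))))
    (hg : MemLp g 2 (volume.restrict (closedBall (a + r • y₀) (4 * r))))
    {φ : ℕ → E n → S} (hφ : ∀ i, ContDiff ℝ ∞ (φ i))
    (h1 : Tendsto (fun i => eLpNorm (fun x => φ i x - u x) 2
      (volume.restrict (closedBall (a + r • y₀) (4 * r)))) atTop (𝓝 0))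
    (h2 : Tendsto (fun i => eLpNorm (fun x => A.D (φ i) x - g x) 2
      (volume.restrict (closedBall (a + r • y₀) (4 * r)))) atTop (𝓝 0))
    {χ : E n → ℝ} (hχ : ContDiff ℝ ∞ χ) (hχs : tsupport χ ⊆ ball y₀ (1 / 2)) :
    Adm A (fun y => (χ y * ‖y‖ ^ (-(n : ℤ))) • A.c y (u (Phi a r y)))
      (fun y => (-(χ y * (r * ‖y‖ ^ (-(n : ℤ) - 2)))) • A.c y (g (Phi a r y)) +
        (‖y‖ ^ (-(n : ℤ)) : ℝ) •
          ∑ j, (fderiv ℝ χ y (bv j)) • A.α j (A.c y (u (Phi a r y)))) := by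
  have hne : ∀ y ∈ tsupport χ, y ≠ 0 := by
    rintro y hy rfl
    exact zero_notMem hy₀ (hχs hy)
  have hcpt : IsCompact (tsupport χ) :=
    Metric.isCompact_of_isClosed_isBounded (isClosed_tsupport χ)
      (isBounded_ball.subset hχs)
  have hout : ∀ y ∉ tsupport χ, χ =ᶠ[𝓝 y] 0 := fun y hy => notMem_tsupport_iff_eventuallyEq.mp hy
  have hz : ∀ y ∉ tsupport χ, χ y = 0 := fun y hy => image_eq_zero_of_notMem_tsupport hy
  have hfz : ∀ y ∉ tsupport χ, fderiv ℝ χ y = 0 := fun y hy => by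
    have := (hout y hy).fderiv_eq (𝕜 := ℝ)
    rw [this]
    exact fderiv_const_apply 0
  -- the three multipliers
  set M1 : E n → S →L[ℂ] S := fun y => (χ y * ‖y‖ ^ (-(n : ℤ))) • A.c y with hM1
  set M2 : E n → S →L[ℂ] S := fun y => (-(χ y * (r * ‖y‖ ^ (-(n : ℤ) - 2)))) • A.c y with hM2
  set M3 : E n → S →L[ℂ] S := fun y => (‖y‖ ^ (-(n : ℤ)) : ℝ) •
    ∑ j, (fderiv ℝ χ y (bv j)) • ((A.α j).comp (A.c y)) with hM3
  have z1 : ∀ y ∉ tsupport χ, M1 y = 0 := fun y hy => by simp [hM1, hz y hy]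
  have z2 : ∀ y ∉ tsupport χ, M2 y = 0 := fun y hy => by simp [hM2, hz y hy]
  have z3 : ∀ y ∉ tsupport χ, M3 y = 0 := fun y hy => by simp [hM3, hfz y hy]
  have hcont : ∀ M : E n → S →L[ℂ] S, (∀ y ∉ tsupport χ, M y = 0) →
      (∀ y ∈ tsupport χ, ContinuousAt M y) → Continuous M := by
    intro M h0 hc
    rw [continuous_iff_continuousAt]
    intro y
    by_cases hy : y ∈ tsupport χ
    · exact hc y hy
    · have : M =ᶠ[𝓝 y] fun _ => 0 := by
        filter_upwards [(isClosed_tsupport χ).isOpen_compl.mem_nhds hy] with z hz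
        exact h0 z hz
      exact continuousAt_const.congr this.symm
  have hcs : ∀ M : E n → S →L[ℂ] S, (∀ y ∉ tsupport χ, M y = 0) → HasCompactSupport M :=
    fun M h0 => HasCompactSupport.intro hcpt h0
  have hsup : ∀ M : E n → S →L[ℂ] S, (∀ y ∉ tsupport χ, M y = 0) →
      Function.support M ⊆ ball y₀ (1 / 2) := by
    intro M h0 y hy
    apply hχs
    by_contra h
    exact hy (h0 y h)
  have hcc : Continuous fun y : E n => A.c y := A.cL.continuous
  have hnp : ∀ (y : E n) (k : ℤ), y ≠ 0 → ContinuousAt (fun z : E n => (‖z‖ ^ k : ℝ)) y :=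
    fun y k hy => continuous_norm.continuousAt.zpow₀ k (Or.inl (norm_ne_zero_iff.mpr hy))
  have c1 : Continuous M1 := hcont M1 z1 fun y hy =>
    (hχ.continuous.continuousAt.mul (hnp y _ (hne y hy))).smul hcc.continuousAt
  have c2 : Continuous M2 := hcont M2 z2 fun y hy =>
    (hχ.continuous.continuousAt.mul (continuousAt_const.mul (hnp y _ (hne y hy)))).neg.smul
      hcc.continuousAt
  have c3 : Continuous M3 := hcont M3 z3 fun y hy => by
    refine (hnp y _ (hne y hy)).smul (Continuous.continuousAt ?_)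
    refine continuous_finsetSum _ fun j _ => ?_
    have h3 : Continuous fun z : E n => (A.α j).comp (A.c z) :=
      (ContinuousLinearMap.compL ℂ S S S (A.α j)).continuous.comp hcc
    have h4 : Continuous fun z : E n => fderiv ℝ χ z (bv j) :=
      (hχ.continuous_fderiv (by simp)).clm_apply continuous_const
    exact h4.smul h3
  have e1 : ∀ F : E n → S, (fun y => (χ y * ‖y‖ ^ (-(n : ℤ))) • A.c y (F (Phi a r y))) =
      fun y => M1 y (F (Phi a r y)) := fun F => rfl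
  have e2 : ∀ F G : E n → S, (fun y => (-(χ y * (r * ‖y‖ ^ (-(n : ℤ) - 2)))) •
        A.c y (G (Phi a r y)) + (‖y‖ ^ (-(n : ℤ)) : ℝ) •
          ∑ j, (fderiv ℝ χ y (bv j)) • A.α j (A.c y (F (Phi a r y)))) =
      fun y => M2 y (G (Phi a r y)) + M3 y (F (Phi a r y)) := by
    intro F G
    ext y
    simp [hM2, hM3]
  rw [e1 u, e2 u g]
  have hD : ∀ i, A.D (fun y => M1 y (φ i (Phi a r y))) =
      fun y => M2 y (A.D (φ i) (Phi a r y)) + M3 y (φ i (Phi a r y)) := by
    intro i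
    ext y
    by_cases hy : y ∈ tsupport χ
    · have hy0 := hne y hy
      have hd : DifferentiableAt ℝ (φ i) (Phi a r y) :=
        ((hφ i).differentiable (by simp)).differentiableAt
      have hd2 : DifferentiableAt ℝ (fun z => (‖z‖ ^ (-(n : ℤ)) : ℝ) • A.c z (φ i (Phi a r z))) y :=
        ((contDiffAt_npow hy0 n).smul (contDiffAt_c A
          ((hφ i).contDiffAt.comp y (contDiffAt_Phi a r hy0)))).differentiableAt (by simp)
      have h3 := D_smul A (hχ.differentiable (by simp)).differentiableAt hd2 (η := χ)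
      have h4 : (fun z => χ z • (‖z‖ ^ (-(n : ℤ)) : ℝ) • A.c z (φ i (Phi a r z))) =
          fun y => M1 y (φ i (Phi a r y)) := by
        ext z
        simp [hM1, smul_smul]
      rw [← h4, h3, kelvin A a r (φ i) hy0 hd]
      have h5 : _ = M2 y (A.D (φ i) (Phi a r y)) + M3 y (φ i (Phi a r y)) :=
        congrFun (e2 (φ i) (A.D (φ i))) y
      rw [← h5, smul_smul, mul_neg, Finset.smul_sum]
      congr 1
      refine Finset.sum_congr rfl fun j _ => ?_
      rw [ContinuousLinearMap.map_smul_of_tower, smul_comm]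
    · rw [z2 y hy, z3 y hy]
      have : (fun y => M1 y (φ i (Phi a r y))) =ᶠ[𝓝 y] fun _ => 0 := by
        filter_upwards [(isClosed_tsupport χ).isOpen_compl.mem_nhds hy] with z hz
        rw [z1 z hz]
        rfl
      unfold Cliff.D
      rw [this.fderiv_eq]
      simp
  obtain ⟨C1, hC1⟩ := eLpNorm_M hr hy₀ a c1 (hcs _ z1) (hsup _ z1)
  obtain ⟨C2, hC2⟩ := eLpNorm_M hr hy₀ a c2 (hcs _ z2) (hsup _ z2)
  obtain ⟨C3, hC3⟩ := eLpNorm_M hr hy₀ a c3 (hcs _ z3) (hsup _ z3)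
  have hφm : ∀ i, AEStronglyMeasurable (φ i)
      (volume.restrict (closedBall (a + r • y₀) (4 * r))) :=
    fun i => (hφ i).continuous.aestronglyMeasurable
  have hDφm : ∀ i, AEStronglyMeasurable (A.D (φ i))
      (volume.restrict (closedBall (a + r • y₀) (4 * r))) :=
    fun i => (contDiff_D A (hφ i)).continuous.aestronglyMeasurable
  refine ⟨memLp_M hr hy₀ a c1 (hcs _ z1) (hsup _ z1) hu,
    (memLp_M hr hy₀ a c2 (hcs _ z2) (hsup _ z2) hg).add
      (memLp_M hr hy₀ a c3 (hcs _ z3) (hsup _ z3) hu),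
    tsupport χ, fun i y => M1 y (φ i (Phi a r y)), hcpt, ?_, ?_, ?_, ?_⟩
  · intro i
    rw [contDiff_iff_contDiffAt]
    intro y
    by_cases hy : y ∈ tsupport χ
    · have hy0 := hne y hy
      show ContDiffAt ℝ ∞ (fun z => (χ z * ‖z‖ ^ (-(n : ℤ))) • A.c z (φ i (Phi a r z))) y
      exact (hχ.contDiffAt.mul (contDiffAt_npow hy0 n)).smul (contDiffAt_c A
          ((hφ i).contDiffAt.comp y (contDiffAt_Phi a r hy0)))
    · have : (fun y => M1 y (φ i (Phi a r y))) =ᶠ[𝓝 y] fun _ => 0 := by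
        filter_upwards [(isClosed_tsupport χ).isOpen_compl.mem_nhds hy] with z hz
        rw [z1 z hz]
        rfl
      exact contDiffAt_const.congr_of_eventuallyEq this
  · intro i
    refine closure_minimal ?_ (isClosed_tsupport χ)
    intro y hy
    by_contra h
    apply hy
    simp only
    rw [z1 y h]
    rfl
  · refine tendsto_of_tendsto_of_tendsto_of_le_of_le tendsto_const_nhds
      (h := fun i => C1 * eLpNorm (fun x => φ i x - u x) 2
      (volume.restrict (closedBall (a + r • y₀) (4 * r)))) ?_ (fun i => bot_le) ?_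
    · have := ENNReal.Tendsto.const_mul (a := (C1 : ℝ≥0∞)) h1 (Or.inr ENNReal.coe_ne_top)
      rwa [mul_zero] at this
    · intro i
      have := hC1 (fun x => φ i x - u x)
      simpa only [map_sub] using this
  · refine tendsto_of_tendsto_of_tendsto_of_le_of_le tendsto_const_nhds
      (h := fun i => C2 * eLpNorm (fun x => A.D (φ i) x - g x) 2
      (volume.restrict (closedBall (a + r • y₀) (4 * r))) + C3 * eLpNorm (fun x => φ i x - u x) 2
      (volume.restrict (closedBall (a + r • y₀) (4 * r)))) ?_ (fun i => bot_le) ?_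
    · have h3 := ENNReal.Tendsto.const_mul (a := (C2 : ℝ≥0∞)) h2 (Or.inr ENNReal.coe_ne_top)
      have h4 := ENNReal.Tendsto.const_mul (a := (C3 : ℝ≥0∞)) h1 (Or.inr ENNReal.coe_ne_top)
      have := h3.add h4
      rwa [mul_zero, mul_zero, add_zero] at this
    · intro i
      have h5 : (fun x => A.D (fun y => M1 y (φ i (Phi a r y))) x -
          (M2 x (g (Phi a r x)) + M3 x (u (Phi a r x)))) =
          (fun x => M2 x ((fun x => A.D (φ i) x - g x) (Phi a r x))) +
          (fun x => M3 x ((fun x => φ i x - u x) (Phi a r x))) := by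
        ext x
        rw [hD i]
        simp only [Pi.add_apply, map_sub]
        abel
      simp only [h5]
      refine (eLpNorm_add_le (aesm_M hr hy₀ a c2 (hsup _ z2) ((hDφm i).sub hg.1))
        (aesm_M hr hy₀ a c3 (hsup _ z3) ((hφm i).sub hu.1)) (by norm_num)).trans ?_
      exact add_le_add (hC2 _) (hC3 _)

end DiracUCP
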