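import Pool.Agent.W_MP_23c0ba_an.Gauss1

/-! The multiplier multS: pointwise bound, integrability, kernel bound. -/

set_option autoImplicit false

open MeasureTheory Metric Set Filter Topology
open scoped ENNReal ContDiff NNReal FourierTransform ComplexConjugate

namespace DiracUCP


variable {n : ℕ}

theorem norm_multS_le {σ s : ℝ} (hσ : σ = 1 ∨ σ = -1) (hs : 0 ≤ s) {e b : E n} (he : ‖e‖ = 1)
    (hb : ‖b‖ ≤ 1) (ξ : E n) : ‖multS σ s e b ξ‖ ≤ 6 * Real.exp (-‖ξ‖ ^ 2 / 2) := by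
  unfold multS
  split_ifs with hpos
  · rw [norm_mul, Complex.norm_exp]
    have hre : (((σ * s : ℝ) * Complex.I - 1) * aSym e ξ).re =
        1 - ‖ξ‖ ^ 2 - 2 * s * (σ * (inner ℝ e ξ : ℝ)) := by
      unfold aSym
      simp [Complex.mul_re, Complex.add_re, Complex.mul_im, ← Complex.ofReal_pow]
      ring
    rw [hre]
    have h1 : Real.exp (1 - ‖ξ‖ ^ 2 - 2 * s * (σ * (inner ℝ e ξ : ℝ))) ≤
        Real.exp (1 - ‖ξ‖ ^ 2) := by
      apply Real.exp_le_exp.mpr
      have : 0 ≤ 2 * s * (σ * (inner ℝ e ξ : ℝ)) := by positivity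
      linarith
    have h2 : ‖Complex.I * ((inner ℝ b ξ : ℝ) : ℂ) - ((inner ℝ b e : ℝ) : ℂ)‖ ≤ ‖ξ‖ + 1 := by
      refine (norm_sub_le _ _).trans ?_
      have h3 : |(inner ℝ b ξ : ℝ)| ≤ ‖ξ‖ := by
        refine (abs_real_inner_le_norm b ξ).trans ?_
        nlinarith [norm_nonneg ξ]
      have h4 : |(inner ℝ b e : ℝ)| ≤ 1 := by
        refine (abs_real_inner_le_norm b e).trans ?_
        rw [he]; linarith
      simp only [norm_mul, Complex.norm_I, one_mul, Complex.norm_real, Real.norm_eq_abs]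
      linarith
    have h5 : ‖ξ‖ + 1 ≤ 2 * Real.exp (‖ξ‖ ^ 2 / 2) := by
      have := Real.add_one_le_exp (‖ξ‖ ^ 2 / 2)
      nlinarith [sq_nonneg (‖ξ‖ - 1)]
    have h6 : Real.exp 1 ≤ 3 := by
      have := Real.exp_one_lt_d9
      linarith
    calc Real.exp (1 - ‖ξ‖ ^ 2 - 2 * s * (σ * (inner ℝ e ξ : ℝ))) *
          ‖Complex.I * ((inner ℝ b ξ : ℝ) : ℂ) - ((inner ℝ b e : ℝ) : ℂ)‖
        ≤ Real.exp (1 - ‖ξ‖ ^ 2) * (2 * Real.exp (‖ξ‖ ^ 2 / 2)) := by
          apply mul_le_mul h1 (h2.trans h5) (norm_nonneg _) (Real.exp_nonneg _)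
      _ = Real.exp 1 * (2 * (Real.exp (-‖ξ‖ ^ 2 / 2))) := by
          have : Real.exp (1 - ‖ξ‖ ^ 2) * Real.exp (‖ξ‖ ^ 2 / 2) =
              Real.exp 1 * Real.exp (-‖ξ‖ ^ 2 / 2) := by
            rw [← Real.exp_add, ← Real.exp_add]; congr 1; ring
          linear_combination 2 * this
      _ ≤ 3 * (2 * (Real.exp (-‖ξ‖ ^ 2 / 2))) := by
          apply mul_le_mul_of_nonneg_right h6 (by positivity)
      _ = _ := by ring
  · simp only [norm_zero]; positivity

theorem measurable_multS (σ s : ℝ) (e b : E n) : Measurable (multS σ s e b) := by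
  unfold multS aSym
  apply Measurable.ite
  · exact measurableSet_lt measurable_const (by fun_prop)
  · apply Continuous.measurable
    fun_prop
  · exact measurable_const

theorem integrable_gauss : Integrable (fun ξ : E n => Real.exp (-‖ξ‖ ^ 2 / 2)) := by
  have h := (GaussianFourier.integrable_cexp_neg_mul_sq_norm_add (V := E n) (b := (1 / 2 : ℂ))
    (by norm_num) 0 0).norm
  refine h.congr (Eventually.of_forall fun ξ => ?_)
  simp only [Complex.norm_exp]
  congr 1
  simp [← Complex.ofReal_pow]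
  ring

theorem integrable_multS {σ s : ℝ} (hσ : σ = 1 ∨ σ = -1) (hs : 0 ≤ s) {e b : E n} (he : ‖e‖ = 1)
    (hb : ‖b‖ ≤ 1) : Integrable (multS σ s e b) := by
  refine Integrable.mono' (integrable_gauss.const_mul 6)
    (measurable_multS σ s e b).aestronglyMeasurable (Eventually.of_forall fun ξ => ?_)
  exact norm_multS_le hσ hs he hb ξ

/-- one-dimensional factors -/
noncomputable def gfac (i₀ : Fin n) (σ s : ℝ) (k : ℕ) (x : ℝ) (l : Fin n) (t : ℝ) : ℂ :=
  if l = i₀ then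
    (if 0 < σ * t then (t : ℂ) ^ k *
      (Complex.exp (((σ * s : ℝ) * Complex.I - 1) * ((t : ℂ) ^ 2 + 2 * Complex.I * t)) *
      Complex.exp (2 * Real.pi * Complex.I * (x * t : ℝ))) else 0)
  else (t : ℂ) ^ k * (Complex.exp (((σ * s : ℝ) * Complex.I - 1) * (t : ℂ) ^ 2) *
      Complex.exp (2 * Real.pi * Complex.I * (x * t : ℝ)))

theorem measurable_gfac (i₀ : Fin n) (σ s : ℝ) (k : ℕ) (x : ℝ) (l : Fin n) :
    Measurable (gfac i₀ σ s k x l) := by
  unfold gfac
  split_ifs with h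
  · apply Measurable.ite
    · exact measurableSet_lt measurable_const (by fun_prop)
    · apply Continuous.measurable
      fun_prop
    · exact measurable_const
  · apply Continuous.measurable
    fun_prop

theorem norm_exp_two_pi (x t : ℝ) :
    ‖Complex.exp (2 * Real.pi * Complex.I * (x * t : ℝ))‖ = 1 := by
  rw [Complex.norm_exp]
  simp [Complex.mul_re, Complex.mul_im]

theorem norm_gfac_le {i₀ : Fin n} {σ s : ℝ} (hs : 0 ≤ s) (k : ℕ) (hk : k ≤ 1) (x : ℝ) (l : Fin n)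
    (t : ℝ) : ‖gfac i₀ σ s k x l t‖ ≤ 2 * Real.exp (-(1 / 2) * t ^ 2) := by
  have hkey : |t| ^ k * Real.exp (-t ^ 2) ≤ 2 * Real.exp (-(1 / 2) * t ^ 2) := by
    have h1 : |t| ^ k ≤ 1 + |t| := by
      interval_cases k
      · simp
      · simp
    have h2 : 1 + |t| ≤ 2 * Real.exp (t ^ 2 / 2) := by
      have := Real.add_one_le_exp (t ^ 2 / 2)
      nlinarith [sq_nonneg (|t| - 1), sq_abs t]
    calc |t| ^ k * Real.exp (-t ^ 2) ≤ (2 * Real.exp (t ^ 2 / 2)) * Real.exp (-t ^ 2) :=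
          mul_le_mul_of_nonneg_right (h1.trans h2) (Real.exp_nonneg _)
      _ = 2 * Real.exp (-(1 / 2) * t ^ 2) := by
          rw [mul_assoc, ← Real.exp_add]; congr 2; ring
  unfold gfac
  split_ifs with h1 h2
  · rw [norm_mul, norm_mul, norm_exp_two_pi, mul_one, Complex.norm_exp]
    have hre : (((σ * s : ℝ) * Complex.I - 1) * ((t : ℂ) ^ 2 + 2 * Complex.I * t)).re =
        - t ^ 2 - 2 * s * (σ * t) := by
      simp [Complex.mul_re, Complex.add_re, Complex.mul_im, ← Complex.ofReal_pow]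
      ring
    rw [hre, norm_pow, Complex.norm_real, Real.norm_eq_abs]
    refine le_trans ?_ hkey
    apply mul_le_mul_of_nonneg_left _ (by positivity)
    apply Real.exp_le_exp.mpr
    have : 0 ≤ 2 * s * (σ * t) := by positivity
    linarith
  · simp only [norm_zero]; positivity
  · rw [norm_mul, norm_mul, norm_exp_two_pi, mul_one, Complex.norm_exp]
    have hre : (((σ * s : ℝ) * Complex.I - 1) * ((t : ℂ) ^ 2)).re = - t ^ 2 := by
      simp [Complex.mul_re, Complex.add_re, Complex.mul_im, ← Complex.ofReal_pow]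
    rw [hre, norm_pow, Complex.norm_real, Real.norm_eq_abs]
    exact hkey

theorem integrable_gfac {i₀ : Fin n} {σ s : ℝ} (hs : 0 ≤ s) (k : ℕ) (hk : k ≤ 1) (x : ℝ)
    (l : Fin n) : Integrable (gfac i₀ σ s k x l) := by
  refine Integrable.mono' ((integrable_exp_neg_mul_sq (b := 1 / 2) (by norm_num)).const_mul 2)
    (measurable_gfac i₀ σ s k x l).aestronglyMeasurable (Eventually.of_forall fun t => ?_)
  exact norm_gfac_le hs k hk x l t

theorem integrable_prod_gfac {i₀ : Fin n} {σ s : ℝ} (hs : 0 ≤ s) (k : Fin n → ℕ)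
    (hk : ∀ l, k l ≤ 1) (x : E n) :
    Integrable (fun η : E n => ∏ l, gfac i₀ σ s (k l) (x l) l (η l)) := by
  have h := Integrable.fintype_prod (μ := fun _ : Fin n => (volume : Measure ℝ))
    (f := fun l => gfac i₀ σ s (k l) (x l) l)
    (fun l => integrable_gfac hs (k l) (hk l) (x l) l)
  have h2 := (PiLp.volume_preserving_ofLp (Fin n)).integrable_comp_of_integrable h
  exact h2

theorem norm_integral_prod_gfac_le {i₀ : Fin n} {Ch Cl : ℝ} {σ s : ℝ} (hCl : 0 ≤ Cl)
    (hs : 0 ≤ s)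
    (h1 : ∀ (x : ℝ) (k : ℕ), k ≤ 1 → ‖∫ t : ℝ, gfac i₀ σ s k x i₀ t‖ ≤ Ch * (1 + s) ^ (-(1 : ℝ)))
    (h2 : ∀ (x : ℝ) (k : ℕ) (l : Fin n), l ≠ i₀ → k ≤ 1 →
      ‖∫ t : ℝ, gfac i₀ σ s k x l t‖ ≤ Cl * (1 + s) ^ (-(1 : ℝ) / 2))
    (k : Fin n → ℕ) (hk : ∀ l, k l ≤ 1) (x : E n) :
    ‖∫ η : E n, ∏ l, gfac i₀ σ s (k l) (x l) l (η l)‖ ≤
      Ch * Cl ^ (n - 1) * (1 + s) ^ (-((n : ℝ) + 1) / 2) := by
  have hint : ∫ η : E n, ∏ l, gfac i₀ σ s (k l) (x l) l (η l) =
      ∏ l, ∫ t : ℝ, gfac i₀ σ s (k l) (x l) l t := by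
    rw [← integral_fintype_prod_volume_eq_prod]
    have := (PiLp.volume_preserving_ofLp (Fin n)).integral_comp
      (MeasurableEquiv.toLp 2 (Fin n → ℝ)).symm.measurableEmbedding
      (fun y : Fin n → ℝ => ∏ l, gfac i₀ σ s (k l) (x l) l (y l))
    exact this
  rw [hint, norm_prod]
  have hn : 1 ≤ n := i₀.pos
  have hs1 : 0 < 1 + s := by linarith
  rw [← Finset.mul_prod_erase Finset.univ _ (Finset.mem_univ i₀)]
  have h3 : ∏ l ∈ Finset.univ.erase i₀, ‖∫ t : ℝ, gfac i₀ σ s (k l) (x l) l t‖ ≤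
      ∏ l ∈ Finset.univ.erase i₀, (Cl * (1 + s) ^ (-(1 : ℝ) / 2)) := by
    apply Finset.prod_le_prod
    · intro i _; exact norm_nonneg _
    · intro i hi
      exact h2 _ _ _ (Finset.ne_of_mem_erase hi) (hk i)
  rw [Finset.prod_const, Finset.card_erase_of_mem (Finset.mem_univ _), Finset.card_univ,
    Fintype.card_fin] at h3
  have h4 := h1 (x i₀) (k i₀) (hk i₀)
  refine (mul_le_mul h4 h3 (Finset.prod_nonneg fun i _ => norm_nonneg _)
    ((norm_nonneg _).trans h4)).trans (le_of_eq ?_)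
  rw [mul_pow, ← Real.rpow_natCast ((1 + s) ^ (-(1 : ℝ) / 2)) (n - 1), ← Real.rpow_mul hs1.le]
  have h5 : (1 + s) ^ (-((n : ℝ) + 1) / 2) =
      (1 + s) ^ (-(1 : ℝ)) * (1 + s) ^ (-(1 : ℝ) / 2 * ((n - 1 : ℕ) : ℝ)) := by
    rw [← Real.rpow_add hs1]
    congr 1
    push_cast [Nat.cast_sub hn]
    ring
  rw [h5]
  ring

theorem exists_rot (i₀ : Fin n) {e : E n} (he : ‖e‖ = 1) :
    ∃ R : E n ≃ₗᵢ[ℝ] E n, R (bv i₀) = e := by
  have hv : Orthonormal ℝ (({i₀} : Set (Fin n)).domRestrict (fun _ => e)) := by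
    constructor
    · intro i; simpa [Set.domRestrict] using he
    · intro i j hij
      exact absurd (Subsingleton.elim i j) hij
  obtain ⟨b, hb⟩ := hv.exists_orthonormalBasis_extension_of_card_eq (by simp)
  refine ⟨b.repr.symm, ?_⟩
  have := hb i₀ (by simp)
  simpa using this

theorem prod_gfac (i₀ : Fin n) (σ s : ℝ) (k : Fin n → ℕ) (x η : E n) :
    ∏ l, gfac i₀ σ s (k l) (x l) l (η l) =
      if 0 < σ * η i₀ then (∏ l, (η l : ℂ) ^ (k l)) *
        (Complex.exp (((σ * s : ℝ) * Complex.I - 1) *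
          (((‖η‖ ^ 2 : ℝ) : ℂ) + 2 * Complex.I * (η i₀ : ℂ))) *
        Complex.exp (2 * Real.pi * Complex.I * (inner ℝ x η : ℝ))) else 0 := by
  split_ifs with hpos
  · have h1 : ∀ l, gfac i₀ σ s (k l) (x l) l (η l) = (η l : ℂ) ^ (k l) *
        (Complex.exp (((σ * s : ℝ) * Complex.I - 1) *
          ((η l : ℂ) ^ 2 + (if l = i₀ then 2 * Complex.I * (η i₀ : ℂ) else 0))) *
        Complex.exp (2 * Real.pi * Complex.I * ((x l * η l : ℝ) : ℂ))) := by
      intro l
      unfold gfac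
      by_cases hl : l = i₀
      · subst hl
        simp [hpos]
      · simp [hl]
    simp only [h1, Finset.prod_mul_distrib]
    congr 1
    rw [← Complex.exp_sum, ← Complex.exp_sum, ← Finset.mul_sum, ← Finset.mul_sum,
      Finset.sum_add_distrib]
    congr 3
    · congr 2
      · rw [EuclideanSpace.norm_sq_eq]
        simp only [Real.norm_eq_abs, sq_abs]
        push_cast
        rfl
      · simp
    · rw [PiLp.inner_apply]
      push_cast
      apply Finset.sum_congr rfl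
      intro l _
      simp [mul_comm]
  · apply Finset.prod_eq_zero (Finset.mem_univ i₀)
    unfold gfac
    simp [hpos]

/-- The kernel of the multiplier is bounded by `C (1+s)^(-(n+1)/2)`. -/
theorem kernel_bound (hn : 1 ≤ n) : ∃ C : ℝ, 0 ≤ C ∧ ∀ (σ s : ℝ) (e b x : E n),
    (σ = 1 ∨ σ = -1) → 0 ≤ s → ‖e‖ = 1 → ‖b‖ ≤ 1 →
    ‖∫ ξ, multS σ s e b ξ * Complex.exp (2 * Real.pi * Complex.I * (inner ℝ x ξ : ℝ))‖ ≤
      C * (1 + s) ^ (-((n : ℝ) + 1) / 2) := by
  obtain ⟨C1, hC1, hg1⟩ := gauss_line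
  obtain ⟨C2, hC2, hg2⟩ := gauss_line_mul
  obtain ⟨C3, hC3, hg3⟩ := gauss_half
  set i₀ : Fin n := ⟨0, hn⟩ with hi₀
  refine ⟨Real.exp 1 * ((n + 1) * (C3 * (max C1 C2) ^ (n - 1))), by positivity, ?_⟩
  intro σ s e b x hσ hs he hb
  obtain ⟨R, hR⟩ := exists_rot i₀ he
  have hmp := (R.measurePreserving).integral_comp R.toHomeomorph.measurableEmbedding
    (fun ξ => multS σ s e b ξ * Complex.exp (2 * Real.pi * Complex.I * (inner ℝ x ξ : ℝ)))
  rw [← hmp]
  set b' := R.symm b with hb'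
  set x' := R.symm x with hx'
  have hbn : ‖b'‖ ≤ 1 := by rw [hb', LinearIsometryEquiv.norm_map]; exact hb
  have hs1 : 0 < 1 + s := by linarith
  -- bounds of the factors
  have h1 : ∀ (x : ℝ) (k : ℕ), k ≤ 1 →
      ‖∫ t : ℝ, gfac i₀ σ s k x i₀ t‖ ≤ C3 * (1 + s) ^ (-(1 : ℝ)) := by
    intro x k hk
    have := hg3 σ s x k hσ hs hk
    unfold gfac
    simp only [if_true]
    exact this
  have h2 : ∀ (x : ℝ) (k : ℕ) (l : Fin n), l ≠ i₀ → k ≤ 1 →
      ‖∫ t : ℝ, gfac i₀ σ s k x l t‖ ≤ max C1 C2 * (1 + s) ^ (-(1 : ℝ) / 2) := by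
    intro x k l hl hk
    unfold gfac
    simp only [hl, if_false]
    have hpos : 0 ≤ (1 + s) ^ (-(1 : ℝ) / 2) := by positivity
    interval_cases k
    · simp only [pow_zero, one_mul]
      exact (hg1 σ s x hσ hs).trans (mul_le_mul_of_nonneg_right (le_max_left _ _) hpos)
    · simp only [pow_one]
      exact (hg2 σ s x hσ hs).trans (mul_le_mul_of_nonneg_right (le_max_right _ _) hpos)
  have hP := fun (k : Fin n → ℕ) (hk : ∀ l, k l ≤ 1) (x : E n) =>
    norm_integral_prod_gfac_le (le_trans hC1 (le_max_left C1 C2)) hs h1 h2 k hk x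
  -- the integrand
  have hfun : (fun η : E n => multS σ s e b (R η) *
      Complex.exp (2 * Real.pi * Complex.I * (inner ℝ x (R η) : ℝ))) =
      fun η => Complex.exp (-((σ * s : ℝ) * Complex.I - 1)) *
        ((∑ j, (Complex.I * (b' j : ℂ)) *
            ∏ l, gfac i₀ σ s ((Pi.single j 1 : Fin n → ℕ) l) (x' l) l (η l)) -
          (b' i₀ : ℂ) * ∏ l, gfac i₀ σ s ((0 : Fin n → ℕ) l) (x' l) l (η l)) := by
    funext η
    have e1 : (inner ℝ e (R η) : ℝ) = η i₀ := by
      rw [← hR, LinearIsometryEquiv.inner_map_map, EuclideanSpace.inner_single_left]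
      simp
    have e2 : (inner ℝ b (R η) : ℝ) = ∑ j, b' j * η j := by
      rw [hb', ← LinearIsometryEquiv.inner_map_map R.symm b (R η),
        LinearIsometryEquiv.symm_apply_apply, PiLp.inner_apply]
      apply Finset.sum_congr rfl
      intro j _
      simp [mul_comm]
    have e3 : (inner ℝ b e : ℝ) = b' i₀ := by
      rw [hb', ← LinearIsometryEquiv.inner_map_map R.symm b e, ← hR,
        LinearIsometryEquiv.symm_apply_apply, EuclideanSpace.inner_single_right]
      simp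
    have e4 : (inner ℝ x (R η) : ℝ) = inner ℝ x' η := by
      rw [hx', ← LinearIsometryEquiv.inner_map_map R.symm x (R η),
        LinearIsometryEquiv.symm_apply_apply]
    unfold multS aSym
    rw [e1, e2, e3, e4, LinearIsometryEquiv.norm_map]
    simp only [prod_gfac]
    split_ifs with hpos
    · have e5 : Complex.exp (((σ * s : ℝ) * Complex.I - 1) *
          (((‖η‖ ^ 2 - 1 : ℝ) : ℂ) + 2 * Complex.I * (η i₀ : ℂ))) =
          Complex.exp (-((σ * s : ℝ) * Complex.I - 1)) *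
          Complex.exp (((σ * s : ℝ) * Complex.I - 1) *
          (((‖η‖ ^ 2 : ℝ) : ℂ) + 2 * Complex.I * (η i₀ : ℂ))) := by
        rw [← Complex.exp_add]
        congr 1
        push_cast
        ring
      rw [e5]
      have e6 : ∀ j, ∏ l, (η l : ℂ) ^ ((Pi.single j 1 : Fin n → ℕ) l) = (η j : ℂ) := by
        intro j
        rw [Finset.prod_eq_single j]
        · simp
        · intro l _ hl
          simp [hl]
        · simp
      simp only [e6, Pi.zero_apply, pow_zero, Finset.prod_const_one, one_mul]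
      have e7 : ∀ (z w : ℂ), ∑ j, Complex.I * (b' j : ℂ) * ((η j : ℂ) * (z * w)) =
          Complex.I * (∑ j, (b' j : ℂ) * (η j : ℂ)) * (z * w) := by
        intro z w
        rw [Finset.mul_sum, Finset.sum_mul]
        apply Finset.sum_congr rfl
        intro j _
        ring
      rw [e7]
      push_cast
      ring
    · simp
  rw [hfun, integral_const_mul, norm_mul]
  have hI1 : ∀ j, Integrable (fun η : E n => (Complex.I * (b' j : ℂ)) *
            ∏ l, gfac i₀ σ s ((Pi.single j 1 : Fin n → ℕ) l) (x' l) l (η l)) := by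
    intro j
    apply Integrable.const_mul
    apply integrable_prod_gfac hs
    intro l
    by_cases h : l = j
    · subst h; simp
    · simp [h]
  have hI0 : Integrable (fun η : E n => (b' i₀ : ℂ) *
      ∏ l, gfac i₀ σ s ((0 : Fin n → ℕ) l) (x' l) l (η l)) := by
    apply Integrable.const_mul
    apply integrable_prod_gfac hs
    intro l
    simp
  rw [integral_sub (integrable_finsetSum _ fun j _ => hI1 j) hI0,
    integral_finsetSum _ fun j _ => hI1 j]
  have hexp : ‖Complex.exp (-((σ * s : ℝ) * Complex.I - 1))‖ = Real.exp 1 := by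
    rw [Complex.norm_exp]
    congr 1
    simp
  rw [hexp]
  have hbj : ∀ j, |b' j| ≤ 1 := by
    intro j
    have := EuclideanSpace.norm_eq b'
    have h := PiLp.norm_apply_le b' j
    rw [Real.norm_eq_abs] at h
    linarith
  set Q := C3 * max C1 C2 ^ (n - 1) * (1 + s) ^ (-((n : ℝ) + 1) / 2) with hQ
  have hsum : ‖∑ j, ∫ η : E n, (Complex.I * (b' j : ℂ)) *
            ∏ l, gfac i₀ σ s ((Pi.single j 1 : Fin n → ℕ) l) (x' l) l (η l)‖ ≤ n * Q := by
    refine (norm_sum_le _ _).trans ?_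
    refine (Finset.sum_le_sum (g := fun _ => Q) fun j _ => ?_).trans (le_of_eq (by simp))
    rw [integral_const_mul, norm_mul]
    have h3 := hP (Pi.single j 1) (by
      intro l
      by_cases h : l = j
      · subst h; simp
      · simp [h]) x'
    have h4 : ‖Complex.I * (b' j : ℂ)‖ ≤ 1 := by
      rw [norm_mul, Complex.norm_I, one_mul, Complex.norm_real]
      exact hbj j
    calc ‖Complex.I * (b' j : ℂ)‖ * _ ≤ 1 * _ :=
          mul_le_mul_of_nonneg_right h4 (norm_nonneg _)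
      _ ≤ Q := by rw [one_mul]; exact h3
  have hzero : ‖∫ η : E n, (b' i₀ : ℂ) *
      ∏ l, gfac i₀ σ s ((0 : Fin n → ℕ) l) (x' l) l (η l)‖ ≤ Q := by
    rw [integral_const_mul, norm_mul]
    have h3 := hP 0 (by intro l; simp) x'
    have h4 : ‖(b' i₀ : ℂ)‖ ≤ 1 := by
      rw [Complex.norm_real]
      exact hbj i₀
    calc ‖(b' i₀ : ℂ)‖ * _ ≤ 1 * _ :=
          mul_le_mul_of_nonneg_right h4 (norm_nonneg _)
      _ ≤ Q := by rw [one_mul]; exact h3
  calc Real.exp 1 * ‖_ - _‖ ≤ Real.exp 1 * (n * Q + Q) := by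
        apply mul_le_mul_of_nonneg_left _ (Real.exp_nonneg _)
        exact (norm_sub_le _ _).trans (add_le_add hsum hzero)
    _ = _ := by rw [hQ]; ring


end DiracUCP
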