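import Pool.Agent.W_MP_23c0ba_an.Alg
import Pool.Agent.W_MP_55e37b_an.Moll

/-! Mollification of weak solutions. -/

set_option autoImplicit false

open MeasureTheory Metric Set Filter Topology
open scoped ENNReal ContDiff NNReal FourierTransform ComplexConjugate Convolution Manifold

namespace DiracUCP

variable {n : ℕ} {S : Type} [NormedAddCommGroup S] [InnerProductSpace ℂ S]
  [FiniteDimensional ℂ S] [CompleteSpace S]

open HMor.Mollify

theorem memLp_smul_of_L2loc {Ω : Set (E n)} {u : E n → S} (hu : L2loc Ω u) {ζ : E n → ℝ}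
    (hζ : Continuous ζ) (hc : HasCompactSupport ζ) (hs : tsupport ζ ⊆ Ω) :
    MemLp (fun x => ζ x • u x) 2 volume ∧ Integrable (fun x => ζ x • u x) volume := by
  have hK : IsCompact (tsupport ζ) := hc
  have hKm : MeasurableSet (tsupport ζ) := hK.measurableSet
  have h1 : MemLp u 2 (volume.restrict (tsupport ζ)) := hu _ hK hs
  obtain ⟨C, hC⟩ := hζ.bounded_above_of_compact_support hc
  have h2 : MemLp (fun x => ζ x • u x) 2 (volume.restrict (tsupport ζ)) := by
    refine MemLp.of_le_mul (c := C) h1 (hζ.aestronglyMeasurable.smul h1.1) ?_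
    refine ae_of_all _ fun x => ?_
    rw [norm_smul]
    exact mul_le_mul_of_nonneg_right (hC x) (norm_nonneg _)
  have h3 : (tsupport ζ).indicator (fun x => ζ x • u x) = fun x => ζ x • u x := by
    rw [indicator_eq_self]
    intro x hx
    by_contra hxn
    apply hx
    have : ζ x = 0 := image_eq_zero_of_notMem_tsupport hxn
    simp [this]
  constructor
  · rw [← h3, memLp_indicator_iff_restrict hKm]
    exact h2
  · rw [← h3, integrable_indicator_iff hKm]
    have : IsFiniteMeasure (volume.restrict (tsupport ζ)) :=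
      ⟨by rw [Measure.restrict_apply_univ]; exact hK.measure_lt_top⟩
    exact h2.integrable (by norm_num)

theorem smul_α (A : Cliff n S) (j : Fin n) (r : ℝ) (s : S) :
    A.α j (r • s) = r • A.α j s :=
  ((A.α j).restrictScalars ℝ).map_smul r s

theorem integrable_smul_α (A : Cliff n S) {Ω : Set (E n)} {u : E n → S} (hu : L2loc Ω u)
    {ζ : E n → ℝ} (hζ : Continuous ζ) (hc : HasCompactSupport ζ) (hs : tsupport ζ ⊆ Ω)
    (j : Fin n) : MemLp (fun x => ζ x • A.α j (u x)) 2 volume ∧
      Integrable (fun x => ζ x • A.α j (u x)) volume := by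
  have h := memLp_smul_of_L2loc hu hζ hc hs
  have e : (fun x => ζ x • A.α j (u x)) =
      fun x => ((A.α j).restrictScalars ℝ) (ζ x • u x) := by
    funext x
    exact (smul_α A j _ _).symm
  rw [e]
  exact ⟨((A.α j).restrictScalars ℝ).comp_memLp' h.1,
    ((A.α j).restrictScalars ℝ).integrable_comp h.2⟩

/-- Multiplication by a cutoff function. -/
theorem isWeakD_cutoff (A : Cliff n S) {Ω : Set (E n)} {u g : E n → S}
    (hu : L2loc Ω u) (hg : L2loc Ω g) (hw : A.IsWeakD Ω u g) {χ : E n → ℝ}
    (hχ : ContDiff ℝ ∞ χ) (hc : HasCompactSupport χ) (hs : tsupport χ ⊆ Ω) :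
    A.IsWeakD univ (fun x => χ x • u x)
      (fun x => χ x • g x + ∑ j, (fderiv ℝ χ x (bv j)) • A.α j (u x)) := by
  intro η hη hηc _
  have hχη : ContDiff ℝ ∞ (fun x => η x * χ x) := hη.mul hχ
  have hsub : tsupport (fun x => η x * χ x) ⊆ tsupport χ := tsupport_mul_subset_right
  have hcc : HasCompactSupport (fun x => η x * χ x) := hc.mul_left
  have h := hw _ hχη hcc (hsub.trans hs)
  have hdχ : Differentiable ℝ χ := hχ.differentiable (by simp)
  have hdη : Differentiable ℝ η := hη.differentiable (by simp)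
  have hcd : ∀ j, Continuous (fun x => fderiv ℝ χ x (bv j)) := fun j =>
    (hχ.continuous_fderiv (by simp)).clm_apply continuous_const
  have hcdη : ∀ j, Continuous (fun x => fderiv ℝ η x (bv j)) := fun j =>
    (hη.continuous_fderiv (by simp)).clm_apply continuous_const
  -- integrability
  have i1 : Integrable (fun x => (η x * χ x) • g x) volume :=
    (memLp_smul_of_L2loc hg hχη.continuous hcc (hsub.trans hs)).2
  have i2 : ∀ j, Integrable (fun x => (η x * fderiv ℝ χ x (bv j)) • A.α j (u x)) volume := by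
    intro j
    have hcs : HasCompactSupport (fun x => fderiv ℝ χ x (bv j)) := hc.fderiv_apply (𝕜 := ℝ) (bv j)
    refine (integrable_smul_α A hu (hη.continuous.mul (hcd j)) hcs.mul_left ?_ j).2
    refine tsupport_mul_subset_right.trans ((tsupport_fderiv_apply_subset ℝ (bv j)).trans hs)
  have i3 : ∀ j, Integrable (fun x => (fderiv ℝ η x (bv j) * χ x) • A.α j (u x)) volume := by
    intro j
    refine (integrable_smul_α A hu ((hcdη j).mul hχ.continuous) hc.mul_left ?_ j).2
    exact tsupport_mul_subset_right.trans hs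
  have e1 : ∀ x, (∑ j, (fderiv ℝ (fun x => η x * χ x) x (bv j)) • A.α j (u x)) =
      (∑ j, (η x * fderiv ℝ χ x (bv j)) • A.α j (u x)) +
      ∑ j, (fderiv ℝ η x (bv j) * χ x) • A.α j (u x) := by
    intro x
    rw [← Finset.sum_add_distrib]
    refine Finset.sum_congr rfl fun j _ => ?_
    rw [fderiv_fun_mul (hdη x) (hdχ x), ← add_smul]
    congr 1
    simp [mul_comm]
  have i2s : Integrable (fun x => ∑ j, (η x * fderiv ℝ χ x (bv j)) • A.α j (u x)) volume :=
    integrable_finsetSum _ fun j _ => i2 j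
  have i3s : Integrable (fun x => ∑ j, (fderiv ℝ η x (bv j) * χ x) • A.α j (u x)) volume :=
    integrable_finsetSum _ fun j _ => i3 j
  simp only [e1] at h
  rw [integral_add i2s i3s] at h
  have e2 : ∀ x, η x • (χ x • g x + ∑ j, (fderiv ℝ χ x (bv j)) • A.α j (u x)) =
      (η x * χ x) • g x + ∑ j, (η x * fderiv ℝ χ x (bv j)) • A.α j (u x) := by
    intro x
    rw [smul_add, smul_smul, Finset.smul_sum]
    simp only [smul_smul]
  have e3 : ∀ x, ∑ j, (fderiv ℝ η x (bv j)) • A.α j (χ x • u x) =
      ∑ j, (fderiv ℝ η x (bv j) * χ x) • A.α j (u x) := by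
    intro x
    refine Finset.sum_congr rfl fun j _ => ?_
    rw [smul_α, smul_smul]
  simp only [e2, e3]
  rw [integral_add i1 i2s, h]
  abel

theorem D_moll (A : Cliff n S) {v f : E n → S} (hv : LocallyIntegrable v volume)
    (hw : A.IsWeakD univ v f) (k : ℕ) (x : E n) :
    A.D (moll k v) x = moll k f x := by
  have hκ1 : ContDiff ℝ 1 (ker n k) := (ker_contDiff k).of_le (by simp)
  have hd : HasFDerivAt (moll k v)
      ((fderiv ℝ (ker n k) ⋆[(ContinuousLinearMap.lsmul ℝ ℝ).precompL (E n), volume] v) x) x := by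
    rw [moll_eq]
    exact (ker_hcs k).hasFDerivAt_convolution_left _ hκ1 hv x
  have hex := ((ker_hcs (n := n) k).fderiv ℝ).convolutionExists_left
    ((ContinuousLinearMap.lsmul ℝ ℝ).precompL (E n)) (hκ1.continuous_fderiv one_ne_zero) hv x
  -- the test function
  set ψ : E n → ℝ := fun s => ker n k (x - s) with hψ
  have hψc : ContDiff ℝ ∞ ψ :=
    (ker_contDiff k).comp (contDiff_const.sub contDiff_id)
  have hψs : HasCompactSupport ψ := by
    have := (ker_hcs (n := n) k).comp_homeomorph (Homeomorph.subLeft x)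
    exact this
  have hψd : ∀ s v, fderiv ℝ ψ s v = - fderiv ℝ (ker n k) (x - s) v := by
    intro s v
    have h1 : HasFDerivAt (ker n k) (fderiv ℝ (ker n k) (x - s)) (x - s) :=
      ((hκ1.differentiable one_ne_zero) _).hasFDerivAt
    have h2 : HasFDerivAt (fun s : E n => x - s) (-(ContinuousLinearMap.id ℝ (E n))) s := by
      have h5 := (hasFDerivAt_const x s).sub (hasFDerivAt_id (𝕜 := ℝ) s)
      rw [zero_sub] at h5
      exact h5
    have h3 := h1.comp s h2
    have h4 : fderiv ℝ ψ s = (fderiv ℝ (ker n k) (x - s)).comp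
        (-(ContinuousLinearMap.id ℝ (E n))) := h3.fderiv
    rw [h4]
    simp
  have e1 : ∀ w, fderiv ℝ (moll k v) x w = ∫ t, fderiv ℝ (ker n k) t w • v (x - t) := by
    intro w
    rw [hd.fderiv, convolution_def, ContinuousLinearMap.integral_apply hex]
    rfl
  have i1 : ∀ w, Integrable (fun t => fderiv ℝ (ker n k) t w • v (x - t)) volume := by
    intro w
    have := hex.apply_continuousLinearMap w
    exact this
  have e2 : A.D (moll k v) x =
      ∫ t, ∑ j, fderiv ℝ (ker n k) t (bv j) • A.α j (v (x - t)) := by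
    unfold Cliff.D
    rw [integral_finsetSum]
    · refine Finset.sum_congr rfl fun j _ => ?_
      rw [e1]
      have := ((A.α j).restrictScalars ℝ).integral_comp_comm (i1 (bv j))
      simp only [ContinuousLinearMap.coe_restrictScalars'] at this
      rw [← this]
      refine integral_congr_ae (ae_of_all _ fun t => ?_)
      exact smul_α A j _ _
    · intro j _
      have := ((A.α j).restrictScalars ℝ).integrable_comp (i1 (bv j))
      refine this.congr (ae_of_all _ fun t => ?_)
      exact smul_α A j _ _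
  have e3 : ∫ t, ∑ j, fderiv ℝ (ker n k) t (bv j) • A.α j (v (x - t)) =
      ∫ s, ∑ j, fderiv ℝ (ker n k) (x - s) (bv j) • A.α j (v s) := by
    rw [← integral_sub_left_eq_self
      (fun t => ∑ j, fderiv ℝ (ker n k) t (bv j) • A.α j (v (x - t))) volume x]
    simp
  have h := hw ψ hψc hψs (subset_univ _)
  have e4 : ∫ s, ∑ j, fderiv ℝ (ker n k) (x - s) (bv j) • A.α j (v s) =
      - ∫ s, ∑ j, fderiv ℝ ψ s (bv j) • A.α j (v s) := by
    rw [← integral_neg]
    refine integral_congr_ae (ae_of_all _ fun s => ?_)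
    simp only [hψd, neg_smul, Finset.sum_neg_distrib, neg_neg]
  rw [e2, e3, e4, ← h, moll]
  rw [← integral_sub_left_eq_self (fun s => ψ s • f s) volume x]
  refine integral_congr_ae (ae_of_all _ fun s => ?_)
  simp [hψ]

theorem exists_smooth_approx (A : Cliff n S) {Ω : Set (E n)} (hΩ : IsOpen Ω) {u g : E n → S}
    (hu : L2loc Ω u) (hg : L2loc Ω g) (hw : A.IsWeakD Ω u g) {K : Set (E n)} (hK : IsCompact K)
    (hKΩ : K ⊆ Ω) :
    ∃ φ : ℕ → E n → S, (∀ i, ContDiff ℝ ∞ (φ i)) ∧
      Tendsto (fun i => eLpNorm (fun x => φ i x - u x) 2 (volume.restrict K)) atTop (𝓝 0) ∧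
      Tendsto (fun i => eLpNorm (fun x => A.D (φ i) x - g x) 2 (volume.restrict K))
        atTop (𝓝 0) := by
  obtain ⟨K', hK', hKK', hK'Ω⟩ := exists_compact_between hK hΩ hKΩ
  obtain ⟨χ', h1, h0, _⟩ := exists_contMDiffMap_one_nhds_of_subset_interior
    (𝓘(ℝ, E n)) (n := ⊤) hK.isClosed hKK'
  set χ : E n → ℝ := fun x => χ' x with hχdef
  have hχ : ContDiff ℝ ∞ χ := χ'.contMDiff.contDiff
  have hts : tsupport χ ⊆ K' := by
    refine closure_minimal ?_ hK'.isClosed
    intro x hx
    by_contra hxn
    exact hx (h0 x hxn)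
  have hc : HasCompactSupport χ := hK'.of_isClosed_subset (isClosed_tsupport _) hts
  have hs : tsupport χ ⊆ Ω := hts.trans hK'Ω
  set v : E n → S := fun x => χ x • u x with hv
  set f : E n → S := fun x => χ x • g x + ∑ j, (fderiv ℝ χ x (bv j)) • A.α j (u x) with hf
  have hwv : A.IsWeakD univ v f := isWeakD_cutoff A hu hg hw hχ hc hs
  have hvm := memLp_smul_of_L2loc hu hχ.continuous hc hs
  have hfm : MemLp f 2 volume := by
    refine (memLp_smul_of_L2loc hg hχ.continuous hc hs).1.add ?_
    refine memLp_finsetSum _ fun j _ => ?_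
    have hcs : HasCompactSupport (fun x => fderiv ℝ χ x (bv j)) := hc.fderiv_apply (𝕜 := ℝ) (bv j)
    exact (integrable_smul_α A hu ((hχ.continuous_fderiv (by simp)).clm_apply continuous_const)
      hcs ((tsupport_fderiv_apply_subset ℝ (bv j)).trans hs) j).1
  have key : ∀ (q : ℝ≥0∞), q = ENNReal.ofReal 2 → ∀ w : E n → S, MemLp w q volume →
      Tendsto (fun i => eLpNorm (moll i w - w) q volume) atTop (𝓝 0) := by
    intro q hq w hw
    subst hq
    exact tendsto_moll_Lp (by norm_num) hw
  have t1 : Tendsto (fun i => eLpNorm (moll i v - v) 2 volume) atTop (𝓝 0) :=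
    key 2 (by simp) v hvm.1
  have t2 : Tendsto (fun i => eLpNorm (moll i f - f) 2 volume) atTop (𝓝 0) :=
    key 2 (by simp) f hfm
  have hvl : LocallyIntegrable v volume := hvm.2.locallyIntegrable
  have hχ1 : ∀ x ∈ K, χ =ᶠ[𝓝 x] fun _ => 1 := by
    intro x hx
    exact (eventually_nhdsSet_iff_forall.1 h1) x hx
  refine ⟨fun i => moll i v, fun i => ?_, ?_, ?_⟩
  · show ContDiff ℝ ∞ (moll i v)
    rw [moll_eq]
    exact (ker_hcs i).contDiff_convolution_left _ (ker_contDiff i) hvl
  · refine tendsto_of_tendsto_of_tendsto_of_le_of_le tendsto_const_nhds t1 (fun _ => zero_le)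
      fun i => ?_
    have e : eLpNorm (fun x => moll i v x - u x) 2 (volume.restrict K) =
        eLpNorm (moll i v - v) 2 (volume.restrict K) := by
      refine eLpNorm_congr_ae ?_
      filter_upwards [ae_restrict_mem hK.measurableSet] with x hx
      have := (hχ1 x hx).self_of_nhds
      simp only [Pi.sub_apply, hv, this, one_smul]
    show eLpNorm (fun x => moll i v x - u x) 2 (volume.restrict K) ≤ _
    rw [e]
    exact eLpNorm_restrict_le _ _ _ _
  · refine tendsto_of_tendsto_of_tendsto_of_le_of_le tendsto_const_nhds t2 (fun _ => zero_le)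
      fun i => ?_
    have e : eLpNorm (fun x => A.D (moll i v) x - g x) 2 (volume.restrict K) =
        eLpNorm (moll i f - f) 2 (volume.restrict K) := by
      refine eLpNorm_congr_ae ?_
      filter_upwards [ae_restrict_mem hK.measurableSet] with x hx
      have h1 := (hχ1 x hx).self_of_nhds
      have h2 : fderiv ℝ χ x = 0 := by
        rw [(hχ1 x hx).fderiv_eq]
        simp
      rw [D_moll A hvl hwv, Pi.sub_apply]
      simp only [hf, h1, h2, one_smul, zero_apply, zero_smul, Finset.sum_const_zero,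
        add_zero]
    show eLpNorm (fun x => A.D (moll i v) x - g x) 2 (volume.restrict K) ≤ _
    rw [e]
    exact eLpNorm_restrict_le _ _ _ _

end DiracUCP
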