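import Pool.Agent.W_MP_23c0ba_an.KelvinAdm
import Pool.Agent.W_MP_23c0ba_an.Moll

/-! The local claim, from the normalised local statement. -/

set_option autoImplicit false

open MeasureTheory Metric Set Filter Topology
open scoped ENNReal ContDiff NNReal FourierTransform ComplexConjugate

namespace DiracUCP

variable {n : ℕ} {S : Type} [NormedAddCommGroup S] [InnerProductSpace ℂ S]
  [FiniteDimensional ℂ S] [CompleteSpace S]

/-- Choice of a small radius. -/
theorem exists_small_radius (hn : 1 ≤ n) {W : E n → ℝ} {x₀ : E n} {δ : ℝ} (hδ : 0 < δ)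
    (hW : MemLp W n (volume.restrict (closedBall x₀ δ))) {ε : ℝ≥0∞} (hε : ε ≠ 0)
    {r : ℝ} (hr : 0 < r) :
    ∃ r' : ℝ, 0 < r' ∧ r' ≤ r ∧ 4 * r' ≤ δ ∧
      eLpNorm W n (volume.restrict (closedBall x₀ (4 * r'))) ≤ ε := by
  obtain ⟨ε₁, h0, h1⟩ := ENNReal.lt_iff_exists_nnreal_btwn.mp (pos_iff_ne_zero.mpr hε)
  have h0' : (0 : ℝ) < ε₁ := by exact_mod_cast h0
  have hn1 : (1 : ℝ≥0∞) ≤ n := by exact_mod_cast hn
  obtain ⟨η, hη, hη'⟩ := hW.eLpNorm_indicator_le hn1 (by simp) h0'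
  -- the volume of small balls
  have hvol : Tendsto (fun ρ : ℝ => ENNReal.ofReal (ρ ^ n) * volume (closedBall (0 : E n) 1))
      (𝓝[>] 0) (𝓝 0) := by
    have h2 : Tendsto (fun ρ : ℝ => ENNReal.ofReal (ρ ^ n)) (𝓝[>] 0) (𝓝 0) := by
      have h3 : Tendsto (fun ρ : ℝ => ENNReal.ofReal (ρ ^ n)) (𝓝 0) (𝓝 (ENNReal.ofReal (0 ^ n))) :=
        (ENNReal.continuous_ofReal.comp (continuous_pow n)).tendsto 0
      rw [zero_pow (by omega), ENNReal.ofReal_zero] at h3
      exact h3.mono_left nhdsWithin_le_nhds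
    have h4 := ENNReal.Tendsto.mul_const h2
      (b := volume (closedBall (0 : E n) 1)) (Or.inr (isCompact_closedBall _ _).measure_lt_top.ne)
    simpa using h4
  have hev : ∀ᶠ ρ in 𝓝[>] (0 : ℝ), ENNReal.ofReal (ρ ^ n) * volume (closedBall (0 : E n) 1) ≤
      ENNReal.ofReal η :=
    (hvol.eventually (gt_mem_nhds (ENNReal.ofReal_pos.mpr hη))).mono fun _ h => h.le
  have hev2 : ∀ᶠ ρ in 𝓝[>] (0 : ℝ), ρ ≤ min δ (4 * r) := by
    have : ∀ᶠ ρ in 𝓝 (0 : ℝ), ρ < min δ (4 * r) := gt_mem_nhds (by positivity)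
    exact (this.filter_mono nhdsWithin_le_nhds).mono fun _ h => h.le
  obtain ⟨ρ, ⟨hρ1, hρ2⟩, hρ3⟩ := ((hev.and hev2).and self_mem_nhdsWithin).exists
  have hρ0 : 0 < ρ := hρ3
  refine ⟨ρ / 4, by positivity, ?_, ?_, ?_⟩
  · have := hρ2.trans (min_le_right _ _)
    linarith
  · have := hρ2.trans (min_le_left _ _)
    linarith
  · have e : 4 * (ρ / 4) = ρ := by ring
    rw [e]
    have hsub : closedBall x₀ ρ ⊆ closedBall x₀ δ :=
      closedBall_subset_closedBall (hρ2.trans (min_le_left _ _))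
    have h5 := hη' (closedBall x₀ ρ) measurableSet_closedBall (by
      rw [Measure.restrict_apply measurableSet_closedBall, inter_eq_left.mpr hsub,
        Measure.addHaar_closedBall' _ _ hρ0.le, finrank_euclideanSpace_fin]
      exact hρ1)
    rw [eLpNorm_indicator_eq_eLpNorm_restrict measurableSet_closedBall,
      Measure.restrict_restrict measurableSet_closedBall, inter_eq_left.mpr hsub] at h5
    exact h5.trans (by rw [ENNReal.ofReal_coe_nnreal]; exact h1.le)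

theorem norm_Phi_sub (a : E n) {r : ℝ} (hr : 0 < r) {y : E n} (hy : y ≠ 0) :
    ‖Phi a r y - a‖ = r / ‖y‖ := by
  have hy' : 0 < ‖y‖ := norm_pos_iff.mpr hy
  simp only [Phi, add_sub_cancel_left, norm_smul, norm_div, norm_pow, norm_norm,
    Real.norm_of_nonneg hr.le]
  field_simp

theorem half_lt_norm {y y₀ : E n} (hy₀ : ‖y₀‖ = 1) (hy : y ∈ ball y₀ (1 / 2)) : 1 / 2 < ‖y‖ := by
  rw [mem_ball, dist_eq_norm] at hy
  have h1 : ‖y₀‖ ≤ ‖y‖ + ‖y - y₀‖ := by
    calc ‖y₀‖ = ‖y - (y - y₀)‖ := by rw [sub_sub_cancel]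
      _ ≤ ‖y‖ + ‖y - y₀‖ := norm_sub_le _ _
  linarith

theorem Phi_mem_closedBall (a : E n) {r : ℝ} (hr : 0 < r) {y y₀ : E n} (hy₀ : ‖y₀‖ = 1)
    (hy : y ∈ ball y₀ (1 / 2)) : Phi a r y ∈ closedBall (a + r • y₀) (4 * r) := by
  have h1 := half_lt_norm hy₀ hy
  have hy0 : y ≠ 0 := by
    intro h; rw [h, norm_zero] at h1; norm_num at h1
  rw [mem_closedBall, dist_eq_norm]
  have h2 := norm_Phi_sub a hr hy0
  have h3 : r / ‖y‖ ≤ 2 * r := by
    rw [div_le_iff₀ (by linarith)]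
    nlinarith
  calc ‖Phi a r y - (a + r • y₀)‖ = ‖(Phi a r y - a) - r • y₀‖ := by congr 1; abel
    _ ≤ ‖Phi a r y - a‖ + ‖r • y₀‖ := norm_sub_le _ _
    _ ≤ 2 * r + r := by
        rw [h2, norm_smul, hy₀, mul_one, Real.norm_of_nonneg hr.le]
        linarith
    _ ≤ 4 * r := by linarith

theorem local_claim (hn : 2 ≤ n) (A : Cliff n S) {ε : ℝ≥0∞} (hε : ε ≠ 0) (hNL : NL A ε)
    {Ω : Set (E n)} (hΩ : IsOpen Ω) {u g : E n → S} (hu : L2loc Ω u) (hg : L2loc Ω g)
    (hw : A.IsWeakD Ω u g) {W : E n → ℝ} (hW0 : ∀ x, 0 ≤ W x)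
    (hW : ∀ K : Set (E n), IsCompact K → K ⊆ Ω → MemLp W n (volume.restrict K))
    (hineq : ∀ᵐ x, x ∈ Ω → ‖g x‖ ≤ W x * ‖u x‖)
    {x₀ a : E n} {r : ℝ} (hx₀ : x₀ ∈ Ω) (hr : 0 < r) (hd : dist x₀ a = r)
    (hz : ∀ᵐ x, x ∈ ball a r → u x = 0) :
    ∃ ρ > 0, ∀ᵐ x, x ∈ ball x₀ ρ → u x = 0 := by
  obtain ⟨δ, hδ, hδΩ⟩ := Metric.nhds_basis_closedBall.mem_iff.mp (hΩ.mem_nhds hx₀)
  obtain ⟨r', hr'0, hr'r, hr'δ, hWε⟩ := exists_small_radius (by omega) hδ
    (hW _ (isCompact_closedBall _ _) hδΩ) hε hr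
  -- the unit vector and the new centre
  set y₀ : E n := (1 / r) • (x₀ - a) with hy₀def
  have hy₀ : ‖y₀‖ = 1 := by
    rw [hy₀def, norm_smul, ← dist_eq_norm, hd, Real.norm_of_nonneg (by positivity)]
    field_simp
  set a' : E n := x₀ - r' • y₀ with ha'
  have hx₀' : a' + r' • y₀ = x₀ := by rw [ha']; abel
  have ha'a : a' - a = (r - r') • y₀ := by
    have : x₀ - a = r • y₀ := by
      rw [hy₀def, smul_smul, mul_one_div_cancel hr.ne', one_smul]
    rw [ha', sub_smul, ← this]; abel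
  have hball : ball a' r' ⊆ ball a r := by
    intro x hx
    rw [mem_ball, dist_eq_norm] at hx ⊢
    calc ‖x - a‖ = ‖(x - a') + (a' - a)‖ := by congr 1; abel
      _ ≤ ‖x - a'‖ + ‖a' - a‖ := norm_add_le _ _
      _ < r' + (r - r') := by
          rw [ha'a, norm_smul, hy₀, mul_one, Real.norm_of_nonneg (by linarith)]
          linarith
      _ = r := by ring
  have hz' : ∀ᵐ x, x ∈ ball a' r' → u x = 0 := by
    filter_upwards [hz] with x hx h
    exact hx (hball h)
  set K : Set (E n) := closedBall x₀ (4 * r') with hKdef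
  have hKΩ : K ⊆ Ω := (closedBall_subset_closedBall hr'δ).trans hδΩ
  have hKc : IsCompact K := isCompact_closedBall _ _
  have huK := hu K hKc hKΩ
  have hgK := hg K hKc hKΩ
  have hWK := hW K hKc hKΩ
  obtain ⟨φ, hφ, hφu, hφg⟩ := exists_smooth_approx A hΩ hu hg hw hKc hKΩ
  -- the ball on which we work
  set s : Set (E n) := ball y₀ (1 / 2) with hs
  have hsm : MeasurableSet s := measurableSet_ball
  have h0s : (0 : E n) ∉ s := by
    intro h
    have := half_lt_norm hy₀ h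
    rw [norm_zero] at this
    norm_num at this
  have hsK : Phi a' r' '' s ⊆ K := by
    rintro _ ⟨y, hy, rfl⟩
    have := Phi_mem_closedBall a' hr'0 hy₀ hy
    rwa [hx₀'] at this
  -- cutoffs
  let χ : ContDiffBump y₀ := ⟨3 / 8, 7 / 16, by norm_num, by norm_num⟩
  let χ' : ContDiffBump y₀ := ⟨7 / 16, 15 / 32, by norm_num, by norm_num⟩
  have hχc : ContDiff ℝ ∞ (χ : E n → ℝ) := χ.contDiff
  have hχ'c : ContDiff ℝ ∞ (χ' : E n → ℝ) := χ'.contDiff
  have hχs : tsupport (χ : E n → ℝ) ⊆ ball y₀ (1 / 2) := by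
    rw [χ.tsupport_eq]
    exact closedBall_subset_ball (show (7 / 16 : ℝ) < 1 / 2 by norm_num)
  have hχ's : tsupport (χ' : E n → ℝ) ⊆ ball y₀ (1 / 2) := by
    rw [χ'.tsupport_eq]
    exact closedBall_subset_ball (show (15 / 32 : ℝ) < 1 / 2 by norm_num)
  have hadm := kelvin_adm (by omega) A a' y₀ hr'0 hy₀ (u := u) (g := g)
    (by rw [hx₀']; exact huK) (by rw [hx₀']; exact hgK) hφ (by rw [hx₀']; exact hφu)
    (by rw [hx₀']; exact hφg) hχc hχs
  have hadm' := kelvin_adm (by omega) A a' y₀ hr'0 hy₀ (u := u) (g := g)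
    (by rw [hx₀']; exact huK) (by rw [hx₀']; exact hgK) hφ (by rw [hx₀']; exact hφu)
    (by rw [hx₀']; exact hφg) hχ'c hχ's
  set v : E n → S := fun y => (χ y * ‖y‖ ^ (-(n : ℤ))) • A.c y (u (Phi a' r' y)) with hv
  set v' : E n → S := fun y => (χ' y * ‖y‖ ^ (-(n : ℤ))) • A.c y (u (Phi a' r' y)) with hv'
  set T : E n → S := fun y => ∑ j, (fderiv ℝ χ y (bv j)) • A.α j (v' y) with hT
  -- the second summand
  have hT_eq : ∀ y, (‖y‖ ^ (-(n : ℤ)) : ℝ) •
      ∑ j, (fderiv ℝ χ y (bv j)) • A.α j (A.c y (u (Phi a' r' y))) = T y := by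
    intro y
    rw [hT]
    simp only
    rw [Finset.smul_sum]
    refine Finset.sum_congr rfl fun j _ => ?_
    by_cases hy : y ∈ tsupport (χ : E n → ℝ)
    · have h1 : χ' y = 1 := by
        apply χ'.one_of_mem_closedBall
        rw [χ.tsupport_eq] at hy
        exact hy
      simp only [hv', h1, one_mul]
      rw [smul_comm]
      congr 1
      have := (A.α j).map_smul (((‖y‖ ^ (-(n : ℤ)) : ℝ)) : ℂ) (A.c y (u (Phi a' r' y)))
      rw [Complex.coe_smul, Complex.coe_smul] at this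
      exact this.symm
    · have h1 : fderiv ℝ χ y = 0 := by
        by_contra h
        exact hy (support_fderiv_subset ℝ (f := (χ : E n → ℝ)) h)
      rw [h1]
      simp
  set f : E n → S := fun y => (-(χ y * (r' * ‖y‖ ^ (-(n : ℤ) - 2)))) •
    A.c y (g (Phi a' r' y)) + T y with hf
  have hadm2 : Adm A v f := by
    have h1 : (fun y => (-(χ y * (r' * ‖y‖ ^ (-(n : ℤ) - 2)))) • A.c y (g (Phi a' r' y)) +
        (‖y‖ ^ (-(n : ℤ)) : ℝ) •
          ∑ j, (fderiv ℝ χ y (bv j)) • A.α j (A.c y (u (Phi a' r' y)))) = f := by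
      funext y
      rw [hT_eq y]
    rw [← h1]
    exact hadm
  -- T is in L²
  have hTL : MemLp T 2 volume := by
    have hv'L : MemLp v' 2 volume := hadm'.memv
    refine memLp_finsetSum _ fun j _ => ?_
    have h1 : MemLp (fun y => A.α j (v' y)) 2 volume :=
      (A.α j).comp_memLp' hv'L
    have h2 : Continuous fun y => fderiv ℝ χ y (bv j) :=
      (hχc.continuous_fderiv (by simp)).clm_apply continuous_const
    have h3 : HasCompactSupport fun y => fderiv ℝ χ y (bv j) :=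
      χ.hasCompactSupport.fderiv_apply (𝕜 := ℝ) _
    obtain ⟨C, hC⟩ := h3.exists_bound_of_continuous h2
    exact h1.of_le_mul (c := C)
      (h2.aestronglyMeasurable.smul h1.1) (ae_of_all _ fun y => by
        rw [norm_smul]
        exact mul_le_mul_of_nonneg_right (hC y) (norm_nonneg _))
  set h : E n → ℝ := fun y => ‖T y‖ with hh
  have hhL : MemLp h 2 volume := hTL.norm
  set W' : E n → ℝ := s.indicator fun y => (r' / ‖y‖ ^ 2) * W (Phi a' r' y) with hW'
  -- a.e. statements pulled back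
  have hPu : ∀ᵐ y, y ∈ s → (Phi a' r' y ∈ ball a' r' → u (Phi a' r' y) = 0) :=
    Phi_ae a' hr'0 hsm h0s (P := fun x => x ∈ ball a' r' → u x = 0)
      (by filter_upwards [hz'] with x hx _ using hx)
  have hPu' : ∀ᵐ y, y ∈ s → u (Phi a' r' y) ≠ 0 → ‖y‖ ≤ 1 := by
    filter_upwards [hPu] with y hy hys hne
    by_contra hcon
    push Not at hcon
    apply hne
    apply hy hys
    have hy0 : y ≠ 0 := fun h => h0s (h ▸ hys)
    rw [mem_ball, dist_eq_norm, norm_Phi_sub a' hr'0 hy0, div_lt_iff₀ (norm_pos_iff.mpr hy0)]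
    nlinarith
  have hPg : ∀ᵐ y, y ∈ s → ‖g (Phi a' r' y)‖ ≤ W (Phi a' r' y) * ‖u (Phi a' r' y)‖ := by
    refine Phi_ae a' hr'0 hsm h0s (P := fun x => ‖g x‖ ≤ W x * ‖u x‖) ?_
    filter_upwards [hineq] with x hx hxs
    exact hx (hKΩ (hsK hxs))
  -- measurability of W'
  have hPhim : Measurable (Phi a' r' : E n → E n) := by
    unfold Phi
    exact measurable_const.add ((measurable_const.div (measurable_norm.pow_const 2)).smul
      measurable_id)
  have hW'meas : AEStronglyMeasurable W' volume := by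
    obtain ⟨W₁, hW₁m, hW₁⟩ := hWK.1
    have h1 : ∀ᵐ y, y ∈ s → W (Phi a' r' y) = W₁ (Phi a' r' y) := by
      refine Phi_ae a' hr'0 hsm h0s (P := fun x => W x = W₁ x) ?_
      rw [Filter.EventuallyEq, ae_restrict_iff' hKc.measurableSet] at hW₁
      filter_upwards [hW₁] with x hx hxs
      exact hx (hsK hxs)
    refine ⟨s.indicator fun y => (r' / ‖y‖ ^ 2) * W₁ (Phi a' r' y), ?_, ?_⟩
    · refine StronglyMeasurable.indicator ?_ hsm
      exact ((measurable_const.div (measurable_norm.pow_const 2)).mul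
        (hW₁m.measurable.comp hPhim)).stronglyMeasurable
    · filter_upwards [h1] with y hy
      by_cases hys : y ∈ s
      · simp only [hW', indicator_of_mem hys, hy hys]
      · simp only [hW', indicator_of_notMem hys]
  have hW'0 : ∀ y, 0 ≤ W' y := by
    intro y
    refine indicator_nonneg (fun y _ => ?_) y
    exact mul_nonneg (by positivity) (hW0 _)
  have hnR : (0 : ℝ) < n := by
    have : 0 < n := by omega
    exact_mod_cast this
  have hn0 : (n : ℝ≥0∞) ≠ 0 := by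
    simp only [ne_eq, Nat.cast_eq_zero]; omega
  have hW'ε : eLpNorm W' n volume ≤ ε := by
    refine le_trans ?_ hWε
    rw [hW', eLpNorm_indicator_eq_eLpNorm_restrict hsm,
      eLpNorm_eq_lintegral_rpow_enorm_toReal hn0 (by simp),
      eLpNorm_eq_lintegral_rpow_enorm_toReal hn0 (by simp)]
    refine ENNReal.rpow_le_rpow ?_ (by positivity)
    simp only [ENNReal.toReal_natCast, ENNReal.rpow_natCast]
    calc ∫⁻ y in s, ‖r' / ‖y‖ ^ 2 * W (Phi a' r' y)‖ₑ ^ n
        = ∫⁻ y in s, ENNReal.ofReal ((r' / ‖y‖ ^ 2) ^ n) * ‖W (Phi a' r' y)‖ₑ ^ n := by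
          refine lintegral_congr fun y => ?_
          rw [enorm_mul, mul_pow]
          congr 1
          rw [Real.enorm_of_nonneg (by positivity), ENNReal.ofReal_pow (by positivity)]
      _ = ∫⁻ x in Phi a' r' '' s, ‖W x‖ₑ ^ n := by
          rw [Phi_lintegral a' hr'0 hsm h0s (fun x => ‖W x‖ₑ ^ n)]
      _ ≤ ∫⁻ x in K, ‖W x‖ₑ ^ n := lintegral_mono_set hsK
  -- supports
  have hvs : ∀ᵐ y, v y ≠ 0 → ‖y‖ ≤ 1 ∧ ‖y - y₀‖ ≤ 1 / 2 := by
    filter_upwards [hPu'] with y hy hvy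
    have h1 : χ y ≠ 0 := by
      intro h; apply hvy; simp only [hv, h, zero_mul, zero_smul]
    have h2 : u (Phi a' r' y) ≠ 0 := by
      intro h; apply hvy; simp only [hv, h, map_zero, smul_zero]
    have h3 : y ∈ s := hχs (subset_tsupport _ h1)
    refine ⟨hy h3 h2, ?_⟩
    rw [← dist_eq_norm]
    exact (mem_ball.mp h3).le
  have hhs : ∀ᵐ y, h y ≠ 0 → ‖y‖ ≤ 1 ∧ 1 / 4 ≤ ‖y - y₀‖ ∧ ‖y - y₀‖ ≤ 1 / 2 := by
    filter_upwards [hPu'] with y hy hhy
    have hT0 : T y ≠ 0 := by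
      intro h0; apply hhy; simp only [hh, h0, norm_zero]
    have h2 : v' y ≠ 0 := by
      intro h0; apply hT0; simp only [hT, h0, map_zero, smul_zero, Finset.sum_const_zero]
    have h2' : u (Phi a' r' y) ≠ 0 := by
      intro h; apply h2; simp only [hv', h, map_zero, smul_zero]
    have h2'' : χ' y ≠ 0 := by
      intro h; apply h2; simp only [hv', h, zero_mul, zero_smul]
    have h3 : y ∈ s := hχ's (subset_tsupport _ h2'')
    refine ⟨hy h3 h2', ?_, ?_⟩
    · by_contra hlt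
      push Not at hlt
      apply hT0
      have h4 : y ∈ ball y₀ χ.rIn := by
        rw [mem_ball, dist_eq_norm]
        exact hlt.trans (show (1 / 4 : ℝ) < 3 / 8 by norm_num)
      have h5 : fderiv ℝ χ y = 0 := by
        have h6 := χ.eventuallyEq_one_of_mem_ball h4
        rw [h6.fderiv_eq]
        simp
      simp only [hT, h5]
      simp
    · rw [← dist_eq_norm]
      exact (mem_ball.mp h3).le
  have hfin : ∀ᵐ y, ‖f y‖ ≤ W' y * ‖v y‖ + h y := by
    filter_upwards [hPg] with y hy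
    by_cases hys : y ∈ s
    · have hy0 : y ≠ 0 := fun h => h0s (h ▸ hys)
      have hyn : 0 < ‖y‖ := norm_pos_iff.mpr hy0
      have h1 := hy hys
      simp only [hf, hh]
      refine (norm_add_le _ _).trans ?_
      gcongr
      simp only [hW', indicator_of_mem hys, hv]
      rw [norm_smul, norm_smul, norm_c, norm_c, norm_neg]
      have hχ0 : 0 ≤ χ y := χ.nonneg
      rw [Real.norm_of_nonneg (by positivity), Real.norm_of_nonneg (by positivity)]
      have h2 : ‖y‖ ^ (-(n : ℤ) - 2) = ‖y‖ ^ (-(n : ℤ)) / ‖y‖ ^ 2 := by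
        rw [zpow_sub₀ hyn.ne']
        norm_cast
      rw [h2]
      calc χ y * (r' * (‖y‖ ^ (-(n : ℤ)) / ‖y‖ ^ 2)) * (‖y‖ * ‖g (Phi a' r' y)‖)
          ≤ χ y * (r' * (‖y‖ ^ (-(n : ℤ)) / ‖y‖ ^ 2)) *
            (‖y‖ * (W (Phi a' r' y) * ‖u (Phi a' r' y)‖)) := by gcongr
        _ = r' / ‖y‖ ^ 2 * W (Phi a' r' y) *
            (χ y * ‖y‖ ^ (-(n : ℤ)) * (‖y‖ * ‖u (Phi a' r' y)‖)) := by ring
    · have h1 : χ y = 0 := by
        by_contra h
        exact hys (hχs (subset_tsupport _ h))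
      simp only [hf, h1, zero_mul, neg_zero, zero_smul, zero_add, hh]
      have := mul_nonneg (hW'0 y) (norm_nonneg (v y))
      linarith
  have hconcl := hNL v f W' h y₀ hadm2 hy₀ hW'meas hW'0 hW'ε hhL hvs hhs hfin
  -- back to `u`
  set s₂ : Set (E n) := ball y₀ (1 / 512) with hs₂
  have hs₂s : s₂ ⊆ s := ball_subset_ball (by norm_num)
  have h0s₂ : (0 : E n) ∉ s₂ := fun h => h0s (hs₂s h)
  have hu0 : ∀ᵐ y, y ∈ s₂ → u (Phi a' r' y) = 0 := by
    filter_upwards [hconcl] with y hy hys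
    have h1 := hy hys
    have hy0 : y ≠ 0 := fun h => h0s₂ (h ▸ hys)
    have hχ1 : χ y = 1 := by
      apply χ.one_of_mem_closedBall
      rw [mem_closedBall]
      exact (mem_ball.mp hys).le.trans (show (1 / 512 : ℝ) ≤ 3 / 8 by norm_num)
    simp only [hv, hχ1, one_mul] at h1
    rcases smul_eq_zero.mp h1 with h2 | h2
    · exact absurd h2 (zpow_ne_zero _ (norm_ne_zero_iff.mpr hy0))
    · have h3 := norm_c A y (u (Phi a' r' y))
      rw [h2, norm_zero] at h3
      rcases mul_eq_zero.mp h3.symm with h4 | h4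
      · exact absurd h4 (norm_ne_zero_iff.mpr hy0)
      · exact norm_eq_zero.mp h4
  have hu1 := Phi_ae_image a' hr'0 measurableSet_ball h0s₂ (P := fun x => u x = 0) hu0
  -- a neighbourhood of `x₀`
  have hx₀a' : x₀ - a' = r' • y₀ := by rw [ha']; abel
  have hy₀0 : y₀ ≠ 0 := by
    intro h0; rw [h0, norm_zero] at hy₀; norm_num at hy₀
  have hx₀a'0 : x₀ - a' ≠ 0 := by
    rw [hx₀a']
    exact smul_ne_zero hr'0.ne' hy₀0
  have hPsi0 : Phi 0 r' (x₀ - a') = y₀ := by
    rw [hx₀a', Phi, norm_smul, hy₀, mul_one, Real.norm_of_nonneg hr'0.le, smul_smul, zero_add]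
    have : r' / r' ^ 2 * r' = 1 := by field_simp
    rw [this, one_smul]
  have hcont : ContinuousAt (fun x => Phi 0 r' (x - a')) x₀ := by
    have h1 : ContinuousAt (Phi (0 : E n) r') (x₀ - a') :=
      (continuousOn_Phi 0 r').continuousAt (isOpen_compl_singleton.mem_nhds hx₀a'0)
    exact ContinuousAt.comp (f := fun x => x - a') (g := Phi (0 : E n) r') h1 (by fun_prop)
  have hnb : ∀ᶠ x in 𝓝 x₀, Phi 0 r' (x - a') ∈ s₂ ∧ x ≠ a' := by
    refine Filter.Eventually.and ?_ ?_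
    · apply hcont
      simp only
      rw [hPsi0]
      exact ball_mem_nhds _ (by norm_num)
    · exact isOpen_compl_singleton.mem_nhds (fun h => hx₀a'0 (by
        rw [mem_singleton_iff.mp h, sub_self]))
  obtain ⟨ρ, hρ, hρ'⟩ := Metric.eventually_nhds_iff_ball.mp hnb
  refine ⟨ρ, hρ, ?_⟩
  filter_upwards [hu1] with x hx hxρ
  obtain ⟨h1, h2⟩ := hρ' x hxρ
  exact hx ⟨_, h1, Phi_Phi a' hr'0 h2⟩

end DiracUCP
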