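import Pool.Agent.W_MP_23c0ba_an.Mult
import Pool.Agent.W_MP_23c0ba_an.FourierD

set_option autoImplicit false

open MeasureTheory Metric Set Filter Topology
open scoped ENNReal ContDiff NNReal FourierTransform ComplexConjugate

/-! The low frequency part. -/

namespace DiracUCP

variable {n : ℕ} {S : Type} [NormedAddCommGroup S] [InnerProductSpace ℂ S]
  [FiniteDimensional ℂ S] [CompleteSpace S]

theorem Low.pe_bounds (hn : 3 ≤ n) : 1 ≤ pe n ∧ pe n ≤ 2 := by
  have hn' : (3 : ℝ) ≤ n := by exact_mod_cast hn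
  constructor
  · rw [pe, ← ENNReal.ofReal_one]
    apply ENNReal.ofReal_le_ofReal
    rw [le_div_iff₀ (by linarith)]; linarith
  · rw [pe]
    have : (2 : ℝ≥0∞) = ENNReal.ofReal 2 := by simp
    rw [this]
    apply ENNReal.ofReal_le_ofReal
    rw [div_le_iff₀ (by linarith)]; linarith

theorem Low.memLp_pe (hn : 3 ≤ n) {X : Type*} [MeasurableSpace X] {μ : Measure X} {H : Type*}
    [NormedAddCommGroup H] {F : X → H} (h : Nice μ F) : MemLp F (pe n) μ := by
  obtain ⟨h1, h2⟩ := Low.pe_bounds hn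
  have hne0 : pe n ≠ 0 := (zero_lt_one.trans_le h1).ne'
  have hnet : pe n ≠ ⊤ := (h2.trans_lt (by simp)).ne
  refine ⟨h.int.aestronglyMeasurable, ?_⟩
  rw [eLpNorm_lt_top_iff_lintegral_rpow_enorm_lt_top hne0 hnet]
  have e1 := (eLpNorm_lt_top_iff_lintegral_rpow_enorm_lt_top (p := 1) (by simp) (by simp)).1
    (memLp_one_iff_integrable.2 h.int).2
  have e2 := (eLpNorm_lt_top_iff_lintegral_rpow_enorm_lt_top (p := 2) (by simp) (by simp)).1
    h.mem.2
  have hp1 : 1 ≤ (pe n).toReal := by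
    rw [← ENNReal.toReal_one]; exact ENNReal.toReal_mono hnet h1
  have hp2 : (pe n).toReal ≤ 2 := by
    have : (2 : ℝ) = (2 : ℝ≥0∞).toReal := by simp
    rw [this]; exact ENNReal.toReal_mono (by simp) h2
  refine lt_of_le_of_lt (lintegral_mono (g := fun x => ‖F x‖ₑ ^ (1 : ℝ≥0∞).toReal +
    ‖F x‖ₑ ^ (2 : ℝ≥0∞).toReal) fun x => ?_) ?_
  · simp only [ENNReal.toReal_one, ENNReal.toReal_ofNat]
    rcases le_total ‖F x‖ₑ 1 with hx | hx
    · refine (ENNReal.rpow_le_rpow_of_exponent_ge hx hp1).trans ?_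
      exact le_self_add
    · refine (ENNReal.rpow_le_rpow_of_exponent_le hx hp2).trans ?_
      exact le_add_self
  · rw [lintegral_add_left' (by
      have := h.meas.enorm
      exact (this.pow_const _).aemeasurable)]
    exact ENNReal.add_lt_top.2 ⟨e1, e2⟩

theorem Low.integral_rpow_le (hn : 3 ≤ n) {R : ℝ} (hR : 0 ≤ R) :
    ∫ s in (0 : ℝ)..R, (1 + s) ^ (-((n : ℝ) + 1) / n) ≤ n := by
  have hn' : (3 : ℝ) ≤ n := by exact_mod_cast hn
  have hn0 : (0 : ℝ) < n := by linarith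
  have h1 : ∫ s in (0 : ℝ)..R, (1 + s) ^ (-((n : ℝ) + 1) / n) =
      ∫ s in (1 : ℝ)..(1 + R), s ^ (-((n : ℝ) + 1) / n) := by
    have := intervalIntegral.integral_comp_add_left (a := 0) (b := R)
      (fun s : ℝ => s ^ (-((n : ℝ) + 1) / n)) 1
    rw [this, add_zero]
  have hexp : -((n : ℝ) + 1) / n + 1 = -(1 / n) := by field_simp; ring
  rw [h1, integral_rpow, hexp]
  · have h2 : 0 < (1 + R) ^ (-(1 / (n : ℝ))) := Real.rpow_pos_of_pos (by linarith) _
    rw [Real.one_rpow]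
    have h3 : ((1 + R) ^ (-(1 / (n : ℝ))) - 1) / -(1 / (n : ℝ)) =
        n * (1 - (1 + R) ^ (-(1 / (n : ℝ)))) := by field_simp; ring
    rw [h3]
    nlinarith
  · right
    refine ⟨?_, ?_⟩
    · intro h
      rw [div_eq_iff hn0.ne'] at h
      linarith
    · rw [uIcc_of_le (by linarith)]
      intro h
      have := h.1
      linarith

theorem Low.measurable_multS₂ (σ : ℝ) (e b : E n) :
    Measurable (fun p : ℝ × E n => multS σ p.1 e b p.2) := by
  unfold multS
  refine Measurable.ite ?_ ?_ measurable_const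
  · exact (isOpen_lt continuous_const (by fun_prop)).measurableSet
  · have : Continuous fun p : ℝ × E n =>
        Complex.exp (((σ * p.1 : ℝ) * Complex.I - 1) * aSym e p.2) *
        (Complex.I * ((inner ℝ b p.2 : ℝ) : ℂ) - ((inner ℝ b e : ℝ) : ℂ)) := by
      unfold aSym
      fun_prop
    exact this.measurable

theorem Low.cont_fourier {H : Type*} [NormedAddCommGroup H] [NormedSpace ℂ H] {f : E n → H}
    (hf : Integrable f) : Continuous (𝓕 f) :=
  VectorFourier.fourierIntegral_continuous Real.continuous_fourierChar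
    (L := innerₗ (E n)) (by exact continuous_inner) hf

theorem Low.norm_fourier_le {H : Type*} [NormedAddCommGroup H] [NormedSpace ℂ H] (f : E n → H)
    (ξ : E n) : ‖𝓕 f ξ‖ ≤ ∫ x, ‖f x‖ :=
  VectorFourier.norm_fourierIntegral_le_integral_norm _ _ _ _ _

theorem Low.intervalIntegral_exp {σ : ℝ} (hσ : σ = 1 ∨ σ = -1) (a : ℂ) (R : ℝ) :
    ∫ s in (0 : ℝ)..R, a * Complex.exp (((σ * s : ℝ) * Complex.I - 1) * a) =
      -(σ : ℂ) * Complex.I * ((Complex.exp (((σ * R : ℝ) * Complex.I) * a) - 1) *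
        Complex.exp (-a)) := by
  have hσ2 : (σ : ℂ) * σ = 1 := by
    rcases hσ with rfl | rfl <;> norm_num
  have hderiv : ∀ s ∈ uIcc (0 : ℝ) R, HasDerivAt
      (fun s : ℝ => -(σ : ℂ) * Complex.I * (Complex.exp (((σ * s : ℝ) * Complex.I) * a) *
        Complex.exp (-a)))
      (a * Complex.exp (((σ * s : ℝ) * Complex.I - 1) * a)) s := by
    intro s _
    have h1 : HasDerivAt (fun s : ℝ => ((σ * s : ℝ) * Complex.I) * a) ((σ : ℂ) * Complex.I * a) s := by
      have h2 : HasDerivAt (fun s : ℝ => (s : ℂ)) 1 s := Complex.ofRealCLM.hasDerivAt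
      have h3 := ((h2.const_mul (σ : ℂ)).mul_const Complex.I).mul_const a
      simpa using h3
    have h4 := ((h1.cexp).mul_const (Complex.exp (-a))).const_mul (-(σ : ℂ) * Complex.I)
    refine h4.congr_deriv ?_
    have h5 : Complex.exp (((σ * s : ℝ) * Complex.I - 1) * a) =
        Complex.exp (((σ * s : ℝ) * Complex.I) * a) * Complex.exp (-a) := by
      rw [← Complex.exp_add]; congr 1; ring
    rw [h5]
    have h6 : -(σ : ℂ) * Complex.I * (Complex.exp (((σ * s : ℝ) * Complex.I) * a) *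
        ((σ : ℂ) * Complex.I * a) * Complex.exp (-a)) =
        -(Complex.I * Complex.I) * ((σ : ℂ) * σ) * a *
        (Complex.exp (((σ * s : ℝ) * Complex.I) * a) * Complex.exp (-a)) := by ring
    rw [h6, hσ2, Complex.I_mul_I]
    ring
  rw [intervalIntegral.integral_eq_sub_of_hasDerivAt hderiv]
  · simp only [mul_zero, Complex.ofReal_zero, zero_mul, Complex.exp_zero]
    ring
  · exact (Continuous.intervalIntegrable (by fun_prop) _ _)

section

variable (A : Cliff n S)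

/-- components of `α_j F` -/
noncomputable def Low.Fc (F : E n → S) (j : Fin n) (i : Fin (Module.finrank ℂ S)) : E n → ℂ :=
  fun x => inner ℂ (stdOrthonormalBasis ℂ S i) (A.α j (F x))

/-- components of `G` -/
noncomputable def Low.Gc (G : E n → S) (i : Fin (Module.finrank ℂ S)) : E n → ℂ :=
  fun x => inner ℂ (stdOrthonormalBasis ℂ S i) (G x)

omit [CompleteSpace S] in
theorem Low.nice_Fc {F : E n → S} (hF : Continuous F) (hFs : HasCompactSupport F) (j : Fin n)
    (i : Fin (Module.finrank ℂ S)) : Nice volume (Low.Fc A F j i) := by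
  have hc : Continuous (Low.Fc A F j i) := by
    unfold Low.Fc
    fun_prop
  have hs : HasCompactSupport (Low.Fc A F j i) :=
    hFs.comp_left (g := fun v => inner ℂ (stdOrthonormalBasis ℂ S i) (A.α j v)) (by simp)
  exact ⟨hc.stronglyMeasurable, hc.integrable_of_hasCompactSupport hs,
    hc.memLp_of_hasCompactSupport hs⟩

omit [CompleteSpace S] in
theorem Low.nice_Gc {G : E n → S} (hG : Nice volume G) (i : Fin (Module.finrank ℂ S)) :
    Nice volume (Low.Gc G i) := by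
  refine ⟨?_, hG.int.const_inner _, hG.mem.const_inner _⟩
  have : Continuous fun v : S => (inner ℂ (stdOrthonormalBasis ℂ S i) v : ℂ) := by fun_prop
  exact this.comp_stronglyMeasurable hG.meas

omit [CompleteSpace S] in
theorem Low.norm_Fc_le (F : E n → S) (j : Fin n) (i : Fin (Module.finrank ℂ S)) (x : E n) :
    ‖Low.Fc A F j i x‖ ≤ ‖F x‖ := by
  refine (norm_inner_le_norm _ _).trans ?_
  rw [(stdOrthonormalBasis ℂ S).norm_eq_one, one_mul, norm_α]

omit [CompleteSpace S] in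
theorem Low.norm_Gc_le (G : E n → S) (i : Fin (Module.finrank ℂ S)) (x : E n) :
    ‖Low.Gc G i x‖ ≤ ‖G x‖ := by
  refine (norm_inner_le_norm _ _).trans ?_
  rw [(stdOrthonormalBasis ℂ S).norm_eq_one, one_mul]

/-- The pointwise expansion. -/
theorem Low.expand {e : E n} (he : ‖e‖ = 1) {w G : E n → S} (hw : ContDiff ℝ ∞ w)
    (hc : HasCompactSupport w) (hG : Integrable G) (ξ : E n) :
    ∑ j, ∑ i, (Complex.I * ((inner ℝ (bv j) ξ : ℝ) : ℂ) - ((inner ℝ (bv j) e : ℝ) : ℂ)) *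
      (𝓕 (Low.Fc A (A.conjF e w) j i) ξ * conj (𝓕 (Low.Gc G i) ξ)) =
    2 * Real.pi * aSym e ξ * inner ℂ (𝓕 G ξ) (𝓕 w ξ) := by
  have hFc : Continuous (A.conjF e w) := (contDiff_conjF A e hw).continuous
  have hFi : Integrable (A.conjF e w) :=
    hFc.integrable_of_hasCompactSupport (hasCompactSupport_conjF A e hc)
  have h1 : ∀ j i, 𝓕 (Low.Fc A (A.conjF e w) j i) ξ =
      inner ℂ (stdOrthonormalBasis ℂ S i) (A.α j (𝓕 (A.conjF e w) ξ)) := by
    intro j i
    rw [clm_fourier (A.α j) _ hFi, inner_fourier _ ((A.α j).integrable_comp hFi)]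
    rfl
  have h2 : ∀ i, conj (𝓕 (Low.Gc G i) ξ) = inner ℂ (𝓕 G ξ) (stdOrthonormalBasis ℂ S i) := by
    intro i
    rw [← inner_conj_symm, inner_fourier _ hG]
    rfl
  have h3 : ∀ j, ∑ i, (Complex.I * ((inner ℝ (bv j) ξ : ℝ) : ℂ) - ((inner ℝ (bv j) e : ℝ) : ℂ)) *
      (𝓕 (Low.Fc A (A.conjF e w) j i) ξ * conj (𝓕 (Low.Gc G i) ξ)) =
      (Complex.I * ((ξ j : ℝ) : ℂ) - ((e j : ℝ) : ℂ)) *
        inner ℂ (𝓕 G ξ) (A.α j (𝓕 (A.conjF e w) ξ)) := by
    intro j
    rw [← Finset.mul_sum]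
    have e1 : inner ℝ (bv j) ξ = ξ j := by simp [bv, EuclideanSpace.inner_single_left]
    have e2 : inner ℝ (bv j) e = e j := by simp [bv, EuclideanSpace.inner_single_left]
    rw [e1, e2]
    congr 1
    rw [← (stdOrthonormalBasis ℂ S).sum_inner_mul_inner]
    refine Finset.sum_congr rfl fun i _ => ?_
    rw [h1, h2, mul_comm]
  rw [Finset.sum_congr rfl fun j _ => h3 j]
  have h4 : ∑ j, (Complex.I * ((ξ j : ℝ) : ℂ) - ((e j : ℝ) : ℂ)) *
        inner ℂ (𝓕 G ξ) (A.α j (𝓕 (A.conjF e w) ξ)) =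
      inner ℂ (𝓕 G ξ) (Complex.I • A.c ξ (𝓕 (A.conjF e w) ξ) - A.c e (𝓕 (A.conjF e w) ξ)) := by
    rw [c_apply, c_apply, Finset.smul_sum, ← Finset.sum_sub_distrib, inner_sum]
    refine Finset.sum_congr rfl fun j _ => ?_
    rw [smul_smul, ← sub_smul, inner_smul_right]
  rw [h4, fourier_conj A he hw hc, inner_smul_right]

end

section

variable (A : Cliff n S)

/-- The bilinear form at time `s`. -/
noncomputable def Low.K (σ : ℝ) (e : E n) (w G : E n → S) (s : ℝ) (ξ : E n) : ℂ :=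
  ∑ j, ∑ i, multS σ s e (bv j) ξ *
    (𝓕 (Low.Fc A (A.conjF e w) j i) ξ * conj (𝓕 (Low.Gc G i) ξ))

theorem Low.K_eq {σ : ℝ} {e : E n} (he : ‖e‖ = 1) {w G : E n → S} (hw : ContDiff ℝ ∞ w)
    (hc : HasCompactSupport w) (hG : Integrable G) (s : ℝ) (ξ : E n) :
    Low.K A σ e w G s ξ = if 0 < σ * (inner ℝ e ξ : ℝ) then
      2 * Real.pi * inner ℂ (𝓕 G ξ) (𝓕 w ξ) *
        (aSym e ξ * Complex.exp (((σ * s : ℝ) * Complex.I - 1) * aSym e ξ)) else 0 := by
  unfold Low.K multS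
  split_ifs with h
  · have h1 := Low.expand A he hw hc hG ξ
    have h2 : 2 * Real.pi * inner ℂ (𝓕 G ξ) (𝓕 w ξ) *
        (aSym e ξ * Complex.exp (((σ * s : ℝ) * Complex.I - 1) * aSym e ξ)) =
        Complex.exp (((σ * s : ℝ) * Complex.I - 1) * aSym e ξ) *
        (2 * Real.pi * aSym e ξ * inner ℂ (𝓕 G ξ) (𝓕 w ξ)) := by ring
    rw [h2, ← h1, Finset.mul_sum]
    refine Finset.sum_congr rfl fun j _ => ?_
    rw [Finset.mul_sum]
    refine Finset.sum_congr rfl fun i _ => ?_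
    ring
  · simp

omit [CompleteSpace S] in
theorem Low.measurable_K (σ : ℝ) {e : E n} {w G : E n → S} (hw : ContDiff ℝ ∞ w)
    (hc : HasCompactSupport w) (hG : Nice volume G) :
    Measurable (fun p : ℝ × E n => Low.K A σ e w G p.1 p.2) := by
  unfold Low.K
  have hFc : Continuous (A.conjF e w) := (contDiff_conjF A e hw).continuous
  have hFs := hasCompactSupport_conjF A e hc
  refine Finset.measurable_sum _ fun j _ => Finset.measurable_sum _ fun i _ => ?_
  refine (Low.measurable_multS₂ σ e (bv j)).mul ?_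
  have h1 := (Low.cont_fourier (Low.nice_Fc A hFc hFs j i).int).comp
    (continuous_snd (X := ℝ) (Y := E n))
  have h2 := (Low.cont_fourier (Low.nice_Gc hG i).int).comp
    (continuous_snd (X := ℝ) (Y := E n))
  exact (h1.mul (Complex.continuous_conj.comp h2)).measurable

omit [CompleteSpace S] in
theorem Low.norm_K_le {σ : ℝ} (hσ : σ = 1 ∨ σ = -1) {e : E n} (he : ‖e‖ = 1) (w G : E n → S) :
    ∃ M : ℝ, ∀ s : ℝ, 0 ≤ s → ∀ ξ, ‖Low.K A σ e w G s ξ‖ ≤ M * Real.exp (-‖ξ‖ ^ 2 / 2) := by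
  refine ⟨∑ j, ∑ i, 6 * ((∫ x, ‖Low.Fc A (A.conjF e w) j i x‖) * ∫ x, ‖Low.Gc G i x‖), ?_⟩
  intro s hs ξ
  unfold Low.K
  refine (norm_sum_le _ _).trans ?_
  rw [Finset.sum_mul]
  refine Finset.sum_le_sum fun j _ => ?_
  refine (norm_sum_le _ _).trans ?_
  rw [Finset.sum_mul]
  refine Finset.sum_le_sum fun i _ => ?_
  have hbj : ‖(bv j : E n)‖ ≤ 1 := by simp [bv]
  rw [norm_mul, norm_mul, RCLike.norm_conj]
  have h1 := norm_multS_le hσ hs he hbj ξ
  have h2 := Low.norm_fourier_le (Low.Fc A (A.conjF e w) j i) ξ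
  have h3 := Low.norm_fourier_le (Low.Gc G i) ξ
  calc ‖multS σ s e (bv j) ξ‖ * (‖𝓕 (Low.Fc A (A.conjF e w) j i) ξ‖ * ‖𝓕 (Low.Gc G i) ξ‖)
      ≤ (6 * Real.exp (-‖ξ‖ ^ 2 / 2)) *
        ((∫ x, ‖Low.Fc A (A.conjF e w) j i x‖) * ∫ x, ‖Low.Gc G i x‖) := by
        refine mul_le_mul h1 (mul_le_mul h2 h3 (norm_nonneg _) ?_) (by positivity) (by positivity)
        exact integral_nonneg fun x => norm_nonneg _
    _ = _ := by ring

theorem Low.integrable_gauss : Integrable (fun ξ : E n => Real.exp (-‖ξ‖ ^ 2 / 2)) := by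
  have h := GaussianFourier.integrable_cexp_neg_mul_sq_norm_add (V := E n) (b := (1 / 2 : ℂ))
    (by norm_num) 0 (0 : E n)
  have h2 := h.norm
  refine h2.congr (Eventually.of_forall fun ξ => ?_)
  simp only [zero_mul, add_zero, Complex.norm_exp]
  congr 1
  have : (-(1 / 2 : ℂ) * (‖ξ‖ : ℂ) ^ 2) = ((-‖ξ‖ ^ 2 / 2 : ℝ) : ℂ) := by push_cast; ring
  rw [this, Complex.ofReal_re]

end

section

variable (A : Cliff n S)

omit [CompleteSpace S] in
theorem Low.integral_K_le (hn : 3 ≤ n) : ∃ C : ℝ, 0 ≤ C ∧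
    ∀ (σ : ℝ) (e : E n) (w G : E n → S) (s : ℝ), (σ = 1 ∨ σ = -1) → ‖e‖ = 1 →
      ContDiff ℝ ∞ w → HasCompactSupport w → Nice volume G → 0 ≤ s →
      ‖∫ ξ, Low.K A σ e w G s ξ‖ ≤ C * (1 + s) ^ (-((n : ℝ) + 1) / n) *
        (eLpNorm (A.conjF e w) (pe n) volume).toReal * (eLpNorm G (pe n) volume).toReal := by
  obtain ⟨C0, hC0, hmb⟩ := mult_bound hn
  refine ⟨∑ _j : Fin n, ∑ _i : Fin (Module.finrank ℂ S), C0, by positivity, ?_⟩
  intro σ e w G s hσ he hw hc hG hs
  have hFc : Continuous (A.conjF e w) := (contDiff_conjF A e hw).continuous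
  have hFs := hasCompactSupport_conjF A e hc
  have hFm : MemLp (A.conjF e w) (pe n) volume := hFc.memLp_of_hasCompactSupport hFs
  have hGm : MemLp G (pe n) volume := Low.memLp_pe hn hG
  have hbj : ∀ j, ‖(bv j : E n)‖ ≤ 1 := fun j => by simp [bv]
  have hterm : ∀ j i, Integrable (fun ξ => multS σ s e (bv j) ξ *
      (𝓕 (Low.Fc A (A.conjF e w) j i) ξ * conj (𝓕 (Low.Gc G i) ξ))) := by
    intro j i
    have h1 := Low.cont_fourier (Low.nice_Fc A hFc hFs j i).int
    have h2 := Low.cont_fourier (Low.nice_Gc hG i).int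
    refine (integrable_multS hσ hs he (hbj j)).mul_bdd
      (c := (∫ x, ‖Low.Fc A (A.conjF e w) j i x‖) * ∫ x, ‖Low.Gc G i x‖)
      (h1.mul (Complex.continuous_conj.comp h2)).aestronglyMeasurable
      (Eventually.of_forall fun ξ => ?_)
    rw [norm_mul, RCLike.norm_conj]
    exact mul_le_mul (Low.norm_fourier_le _ _) (Low.norm_fourier_le _ _) (norm_nonneg _)
      (integral_nonneg fun x => norm_nonneg _)
  unfold Low.K
  rw [integral_finsetSum _ fun j _ => integrable_finsetSum _ fun i _ => hterm j i]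
  refine (norm_sum_le _ _).trans ?_
  rw [Finset.sum_mul, Finset.sum_mul, Finset.sum_mul]
  refine Finset.sum_le_sum fun j _ => ?_
  rw [integral_finsetSum _ fun i _ => hterm j i]
  refine (norm_sum_le _ _).trans ?_
  rw [Finset.sum_mul, Finset.sum_mul, Finset.sum_mul]
  refine Finset.sum_le_sum fun i _ => ?_
  refine (hmb σ s e (bv j) _ _ hσ hs he (hbj j) (Low.nice_Fc A hFc hFs j i)
    (Low.nice_Gc hG i)).trans ?_
  have e1 : (eLpNorm (Low.Fc A (A.conjF e w) j i) (pe n) volume).toReal ≤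
      (eLpNorm (A.conjF e w) (pe n) volume).toReal :=
    ENNReal.toReal_mono hFm.2.ne (eLpNorm_mono fun x => Low.norm_Fc_le A _ j i x)
  have e2 : (eLpNorm (Low.Gc G i) (pe n) volume).toReal ≤ (eLpNorm G (pe n) volume).toReal :=
    ENNReal.toReal_mono hGm.2.ne (eLpNorm_mono fun x => Low.norm_Gc_le _ i x)
  have e3 : 0 ≤ (1 + s) ^ (-((n : ℝ) + 1) / n) := Real.rpow_nonneg (by linarith) _
  refine mul_le_mul (mul_le_mul_of_nonneg_left e1 (by positivity)) e2 (by positivity)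
    (by positivity)

/-- The truncated integral. -/
theorem Low.trunc (hn : 3 ≤ n) : ∃ C : ℝ, 0 ≤ C ∧
    ∀ (σ : ℝ) (e : E n) (w G : E n → S) (R : ℝ), (σ = 1 ∨ σ = -1) → ‖e‖ = 1 →
      ContDiff ℝ ∞ w → HasCompactSupport w → Nice volume G → 0 ≤ R →
      ‖∫ ξ in {ξ : E n | 0 < σ * (inner ℝ e ξ : ℝ)},
        (Complex.exp (((σ * R : ℝ) * Complex.I) * aSym e ξ) - 1) *
          (Complex.exp (-aSym e ξ) * inner ℂ (𝓕 G ξ) (𝓕 w ξ))‖ ≤
      C * (eLpNorm (A.conjF e w) (pe n) volume).toReal * (eLpNorm G (pe n) volume).toReal := by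
  obtain ⟨C1, hC1, hK⟩ := Low.integral_K_le A hn
  refine ⟨C1 * n, by positivity, ?_⟩
  intro σ e w G R hσ he hw hc hG hR
  set NF := (eLpNorm (A.conjF e w) (pe n) volume).toReal with hNF
  set NG := (eLpNorm G (pe n) volume).toReal with hNG
  have hσ2 : (σ : ℂ) * σ = 1 := by
    rcases hσ with rfl | rfl <;> norm_num
  obtain ⟨M, hM⟩ := Low.norm_K_le A hσ he w G
  have hmeasH : MeasurableSet {ξ : E n | 0 < σ * (inner ℝ e ξ : ℝ)} :=
    (isOpen_lt continuous_const (by fun_prop)).measurableSet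
  -- integrability on the product
  have hint : Integrable (Function.uncurry fun (s : ℝ) (ξ : E n) => Low.K A σ e w G s ξ)
      ((volume.restrict (Ioc 0 R)).prod volume) := by
    have hg : Integrable (fun p : ℝ × E n => (1 : ℝ) * (M * Real.exp (-‖p.2‖ ^ 2 / 2)))
        ((volume.restrict (Ioc 0 R)).prod volume) :=
      Integrable.mul_prod (f := fun _ : ℝ => (1 : ℝ))
        (g := fun ξ : E n => M * Real.exp (-‖ξ‖ ^ 2 / 2))
        (integrable_const _) (Low.integrable_gauss.const_mul M)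
    refine hg.mono' (Low.measurable_K A σ hw hc hG).aestronglyMeasurable ?_
    have h1 : ∀ᵐ p : ℝ × E n ∂((volume.restrict (Ioc 0 R)).prod volume), p.1 ∈ Ioc 0 R := by
      have h2 : ∀ᵐ s : ℝ ∂(volume.restrict (Ioc 0 R)), s ∈ Ioc 0 R :=
        ae_restrict_mem measurableSet_Ioc
      exact Measure.quasiMeasurePreserving_fst.ae h2
    filter_upwards [h1] with p hp
    rw [one_mul]
    exact hM p.1 hp.1.le p.2
  have hswap := integral_integral_swap hint
  -- inner integral in `s`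
  have hs : ∀ ξ : E n, ∫ s in Ioc 0 R, Low.K A σ e w G s ξ =
      indicator {ξ : E n | 0 < σ * (inner ℝ e ξ : ℝ)} (fun ξ =>
        (-(2 * Real.pi * σ) * Complex.I) *
        ((Complex.exp (((σ * R : ℝ) * Complex.I) * aSym e ξ) - 1) *
          (Complex.exp (-aSym e ξ) * inner ℂ (𝓕 G ξ) (𝓕 w ξ)))) ξ := by
    intro ξ
    simp_rw [Low.K_eq A he hw hc hG.int]
    by_cases h : 0 < σ * (inner ℝ e ξ : ℝ)
    · rw [indicator_of_mem (by exact h)]
      simp only [h, if_true]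
      rw [← intervalIntegral.integral_of_le hR, intervalIntegral.integral_const_mul,
        Low.intervalIntegral_exp hσ]
      ring
    · rw [indicator_of_notMem (by exact h)]
      simp [h]
  simp_rw [hs] at hswap
  rw [integral_indicator hmeasH, integral_const_mul] at hswap
  set J := ∫ ξ in {ξ : E n | 0 < σ * (inner ℝ e ξ : ℝ)},
        (Complex.exp (((σ * R : ℝ) * Complex.I) * aSym e ξ) - 1) *
          (Complex.exp (-aSym e ξ) * inner ℂ (𝓕 G ξ) (𝓕 w ξ)) with hJ
  have hnorm : ‖(-(2 * Real.pi * σ) * Complex.I : ℂ) * J‖ = 2 * Real.pi * ‖J‖ := by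
    rw [norm_mul, norm_mul, Complex.norm_I, mul_one, norm_neg]
    have : ‖(2 * Real.pi * σ : ℂ)‖ = 2 * Real.pi := by
      rw [norm_mul, norm_mul]
      have h1 : ‖(σ : ℂ)‖ = 1 := by rcases hσ with rfl | rfl <;> simp
      rw [h1]
      simp [abs_of_pos Real.pi_pos]
    rw [this]
  have hle : ‖∫ s in Ioc 0 R, ∫ ξ, Low.K A σ e w G s ξ‖ ≤ C1 * n * NF * NG := by
    rw [← intervalIntegral.integral_of_le hR]
    have h1 : ‖∫ s in (0 : ℝ)..R, ∫ ξ, Low.K A σ e w G s ξ‖ ≤
        ∫ s in (0 : ℝ)..R, C1 * (1 + s) ^ (-((n : ℝ) + 1) / n) * NF * NG := by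
      refine intervalIntegral.norm_integral_le_of_norm_le hR ?_ ?_
      · refine Eventually.of_forall fun s hs => ?_
        exact hK σ e w G s hσ he hw hc hG hs.1.le
      · refine ContinuousOn.intervalIntegrable ?_
        intro s hs
        rw [uIcc_of_le hR] at hs
        refine ContinuousAt.continuousWithinAt ?_
        have : ContinuousAt (fun s : ℝ => (1 + s) ^ (-((n : ℝ) + 1) / n)) s :=
          ContinuousAt.rpow_const (by fun_prop) (Or.inl (by have := hs.1; linarith))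
        exact ((this.const_mul C1).mul_const NF).mul_const NG
    refine h1.trans ?_
    have h2 : ∫ s in (0 : ℝ)..R, C1 * (1 + s) ^ (-((n : ℝ) + 1) / n) * NF * NG =
        C1 * (∫ s in (0 : ℝ)..R, (1 + s) ^ (-((n : ℝ) + 1) / n)) * NF * NG := by
      rw [intervalIntegral.integral_mul_const, intervalIntegral.integral_mul_const,
        intervalIntegral.integral_const_mul]
    rw [h2]
    have h3 := Low.integral_rpow_le hn hR
    have hNF0 : 0 ≤ NF := ENNReal.toReal_nonneg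
    have hNG0 : 0 ≤ NG := ENNReal.toReal_nonneg
    gcongr
  rw [hswap, hnorm] at hle
  have hpi : 1 ≤ 2 * Real.pi := by linarith [Real.pi_gt_three]
  calc ‖J‖ = 1 * ‖J‖ := (one_mul _).symm
    _ ≤ 2 * Real.pi * ‖J‖ := mul_le_mul_of_nonneg_right hpi (norm_nonneg _)
    _ ≤ _ := hle

end

theorem Low.aSym_re (e ξ : E n) : (aSym e ξ).re = ‖ξ‖ ^ 2 - 1 := by
  unfold aSym
  rw [Complex.add_re, Complex.ofReal_re, Complex.re_mul_ofReal]
  simp

theorem Low.aSym_im (e ξ : E n) : (aSym e ξ).im = 2 * inner ℝ e ξ := by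
  unfold aSym
  rw [Complex.add_im, Complex.ofReal_im, Complex.im_mul_ofReal]
  simp

theorem low_bound (hn : 3 ≤ n) (A : Cliff n S) : ∃ C : ℝ, 0 ≤ C ∧
    ∀ (σ : ℝ) (e : E n) (w G : E n → S), (σ = 1 ∨ σ = -1) → ‖e‖ = 1 → ContDiff ℝ ∞ w →
      HasCompactSupport w → Nice volume G →
      ‖∫ ξ in {ξ : E n | 0 < σ * (inner ℝ e ξ : ℝ)},
        Complex.exp (-aSym e ξ) * inner ℂ (𝓕 G ξ) (𝓕 w ξ)‖ ≤
      C * (eLpNorm (A.conjF e w) (pe n) volume).toReal * (eLpNorm G (pe n) volume).toReal := by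
  obtain ⟨C, hC, htr⟩ := Low.trunc A hn
  refine ⟨C, hC, ?_⟩
  intro σ e w G hσ he hw hc hG
  have hmeasH : MeasurableSet {ξ : E n | 0 < σ * (inner ℝ e ξ : ℝ)} :=
    (isOpen_lt continuous_const (by fun_prop)).measurableSet
  have hwi : Integrable w := hw.continuous.integrable_of_hasCompactSupport hc
  have hGc := Low.cont_fourier hG.int
  have hwc := Low.cont_fourier hwi
  have hnorm : ∀ (m : ℕ) (ξ : E n),
      ‖Complex.exp (((σ * m : ℝ) * Complex.I) * aSym e ξ)‖ =
        Real.exp (-(2 * (σ * (inner ℝ e ξ : ℝ)) * m)) := by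
    intro m ξ
    rw [Complex.norm_exp]
    congr 1
    rw [Complex.mul_re, Low.aSym_re, Low.aSym_im, Complex.re_ofReal_mul, Complex.im_ofReal_mul]
    simp
    ring
  have hlim : Tendsto (fun m : ℕ => ∫ ξ in {ξ : E n | 0 < σ * (inner ℝ e ξ : ℝ)},
        (Complex.exp (((σ * m : ℝ) * Complex.I) * aSym e ξ) - 1) *
          (Complex.exp (-aSym e ξ) * inner ℂ (𝓕 G ξ) (𝓕 w ξ))) atTop
      (𝓝 (∫ ξ in {ξ : E n | 0 < σ * (inner ℝ e ξ : ℝ)},
        (0 - 1) * (Complex.exp (-aSym e ξ) * inner ℂ (𝓕 G ξ) (𝓕 w ξ)))) := by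
    refine tendsto_integral_of_dominated_convergence
      (fun ξ => 2 * (Real.exp 1 * Real.exp (-‖ξ‖ ^ 2 / 2) *
        ((∫ x, ‖G x‖) * ∫ x, ‖w x‖))) ?_ ?_ ?_ ?_
    · intro m
      refine Continuous.aestronglyMeasurable ?_
      have h1 : Continuous fun ξ : E n => aSym e ξ := by unfold aSym; fun_prop
      have h2 : Continuous fun ξ : E n => inner ℂ (𝓕 G ξ) (𝓕 w ξ) := hGc.inner hwc
      fun_prop
    · exact (((Low.integrable_gauss.const_mul _).mul_const _).const_mul 2).integrableOn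
    · intro m
      rw [ae_restrict_iff' hmeasH]
      refine Eventually.of_forall fun ξ hξ => ?_
      have hξ' : 0 < σ * (inner ℝ e ξ : ℝ) := hξ
      rw [norm_mul, norm_mul]
      have h1 : ‖Complex.exp (((σ * m : ℝ) * Complex.I) * aSym e ξ) - 1‖ ≤ 2 := by
        refine (norm_sub_le _ _).trans ?_
        rw [hnorm, norm_one]
        have : Real.exp (-(2 * (σ * (inner ℝ e ξ : ℝ)) * m)) ≤ 1 := by
          rw [Real.exp_le_one_iff]
          have : 0 ≤ 2 * (σ * (inner ℝ e ξ : ℝ)) * m := by positivity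
          linarith
        linarith
      have h2 : ‖Complex.exp (-aSym e ξ)‖ ≤ Real.exp 1 * Real.exp (-‖ξ‖ ^ 2 / 2) := by
        rw [Complex.norm_exp, ← Real.exp_add]
        apply Real.exp_le_exp.2
        rw [Complex.neg_re, Low.aSym_re]
        nlinarith [sq_nonneg ‖ξ‖]
      have h3 : ‖(inner ℂ (𝓕 G ξ) (𝓕 w ξ) : ℂ)‖ ≤ (∫ x, ‖G x‖) * ∫ x, ‖w x‖ := by
        refine (norm_inner_le_norm _ _).trans ?_
        exact mul_le_mul (Low.norm_fourier_le _ _) (Low.norm_fourier_le _ _) (norm_nonneg _)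
          (integral_nonneg fun x => norm_nonneg _)
      exact mul_le_mul h1 (mul_le_mul h2 h3 (norm_nonneg _) (by positivity)) (by positivity)
        (by norm_num)
    · rw [ae_restrict_iff' hmeasH]
      refine Eventually.of_forall fun ξ hξ => ?_
      have hξ' : 0 < σ * (inner ℝ e ξ : ℝ) := hξ
      refine Tendsto.mul_const _ (Tendsto.sub_const ?_ _)
      rw [tendsto_zero_iff_norm_tendsto_zero]
      simp_rw [hnorm]
      refine Real.tendsto_exp_neg_atTop_nhds_zero.comp ?_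
      exact tendsto_natCast_atTop_atTop.const_mul_atTop (by positivity)
  have hle := le_of_tendsto hlim.norm (Eventually.of_forall fun m : ℕ =>
    htr σ e w G m hσ he hw hc hG (Nat.cast_nonneg m))
  have heq : ‖∫ ξ in {ξ : E n | 0 < σ * (inner ℝ e ξ : ℝ)},
        (0 - 1) * (Complex.exp (-aSym e ξ) * inner ℂ (𝓕 G ξ) (𝓕 w ξ))‖ =
      ‖∫ ξ in {ξ : E n | 0 < σ * (inner ℝ e ξ : ℝ)},
        Complex.exp (-aSym e ξ) * inner ℂ (𝓕 G ξ) (𝓕 w ξ)‖ := by
    rw [integral_const_mul, norm_mul]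
    simp
  rw [heq] at hle
  exact hle

end DiracUCP
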