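import Pool.Agent.W_MP_23c0ba_an.Carl2
import Pool.Agent.W_MP_23c0ba_an.Alg

/-! The normalised local statement in the plane. -/

set_option autoImplicit false

open MeasureTheory Metric Set Filter Topology
open scoped ENNReal ContDiff NNReal FourierTransform ComplexConjugate

namespace DiracUCP

section aux

variable {n : ℕ} {F : Type*} [NormedAddCommGroup F] [NormedSpace ℝ F]

omit [NormedSpace ℝ F] in
private theorem ae_zero_of_limit {K : Set (E n)} (hK : MeasurableSet K) {g : ℕ → E n → F}
    {f : E n → F} (hf : AEStronglyMeasurable f volume) (hg : ∀ i x, x ∉ K → g i x = 0)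
    (h : Tendsto (fun i => eLpNorm (fun x => g i x - f x) 2 volume) atTop (𝓝 0)) :
    ∀ᵐ x, x ∉ K → f x = 0 := by
  have h1 : eLpNorm (Kᶜ.indicator f) 2 volume = 0 := by
    refine le_antisymm (ge_of_tendsto' h fun i => ?_) bot_le
    refine eLpNorm_mono (fun x => ?_)
    by_cases hx : x ∈ K
    · simp [hx]
    · simp [hx, hg i x hx]
  rw [eLpNorm_eq_zero_iff (hf.indicator hK.compl) (by norm_num)] at h1
  filter_upwards [h1] with x hx hxK
  simpa [hxK] using hx

private theorem four_thirds_le_two : (4 / 3 : ℝ≥0∞) ≤ 2 := by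
  rw [ENNReal.div_le_iff (by norm_num) (by norm_num)]
  norm_num

private theorem one_le_four_thirds : (1 : ℝ≥0∞) ≤ 4 / 3 := by
  rw [ENNReal.le_div_iff_mul_le (by norm_num) (by norm_num)]
  norm_num

private theorem weight_bound {K : Set (E n)} (hK : IsCompact K) {w : E n → ℝ}
    (hw : Continuous w) :
    ∃ B : ℝ≥0∞, B ≠ (⊤ : ℝ≥0∞) ∧ ∀ g : E n → F, AEStronglyMeasurable g volume →
      (∀ᵐ x, x ∉ K → g x = 0) →
      eLpNorm (fun x => w x • g x) (4 / 3) volume ≤ B * eLpNorm g 2 volume := by
  obtain ⟨C, hC⟩ := hK.exists_bound_of_continuousOn hw.continuousOn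
  refine ⟨ENNReal.ofReal C *
    (volume K) ^ (1 / (4 / 3 : ℝ≥0∞).toReal - 1 / (2 : ℝ≥0∞).toReal), ?_, ?_⟩
  · apply ENNReal.mul_ne_top ENNReal.ofReal_ne_top
    apply ENNReal.rpow_ne_top_of_nonneg _ hK.measure_lt_top.ne
    norm_num
  · intro g hg h0
    have e1 : eLpNorm (fun x => w x • g x) (4 / 3) volume ≤
        ENNReal.ofReal C * eLpNorm g (4 / 3) volume := by
      apply eLpNorm_le_mul_eLpNorm_of_ae_le_mul
      filter_upwards [h0] with x hx
      by_cases hxK : x ∈ K
      · rw [norm_smul]
        exact mul_le_mul_of_nonneg_right (hC x hxK) (norm_nonneg _)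
      · rw [hx hxK]
        simp
    have e2 : eLpNorm g (4 / 3) volume = eLpNorm g (4 / 3) (volume.restrict K) := by
      rw [← eLpNorm_indicator_eq_eLpNorm_restrict hK.measurableSet]
      apply eLpNorm_congr_ae
      filter_upwards [h0] with x hx
      by_cases hxK : x ∈ K
      · simp [hxK]
      · simp [hxK, hx hxK]
    have e3 := eLpNorm_le_eLpNorm_mul_rpow_measure_univ (μ := volume.restrict K) (f := g)
      four_thirds_le_two hg.restrict
    rw [Measure.restrict_apply_univ] at e3
    have e4 : eLpNorm g 2 (volume.restrict K) ≤ eLpNorm g 2 volume := eLpNorm_restrict_le _ _ _ _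
    calc eLpNorm (fun x => w x • g x) (4 / 3) volume
        ≤ ENNReal.ofReal C * eLpNorm g (4 / 3) volume := e1
      _ = ENNReal.ofReal C * eLpNorm g (4 / 3) (volume.restrict K) := by rw [e2]
      _ ≤ ENNReal.ofReal C * (eLpNorm g 2 volume *
        (volume K) ^ (1 / (4 / 3 : ℝ≥0∞).toReal - 1 / (2 : ℝ≥0∞).toReal)) := by
          gcongr
          exact e3.trans (by gcongr)
      _ = _ := by ring

private theorem holder_inst : ENNReal.HolderTriple 2 4 (4 / 3 : ℝ≥0∞) := by
  constructor
  rw [← ENNReal.toReal_eq_toReal_iff' (by simp) (by simp), ENNReal.toReal_add (by simp) (by simp)]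
  simp only [ENNReal.toReal_inv, ENNReal.toReal_div, ENNReal.toReal_ofNat]
  norm_num

end aux

variable {S : Type} [NormedAddCommGroup S] [InnerProductSpace ℂ S]
  [FiniteDimensional ℂ S] [CompleteSpace S]

private theorem carleman_adm {A : Cliff 2 S} {C : ℝ≥0}
    (hC : ∀ (k : E 2) (φ : E 2 → S), ContDiff ℝ ∞ φ → HasCompactSupport φ →
      eLpNorm (fun x => Real.exp (inner ℝ k x) • φ x) 4 volume ≤
        C * eLpNorm (fun x => Real.exp (inner ℝ k x) • A.D φ x) (4 / 3) volume)
    (k : E 2) {v f : E 2 → S} (h : Adm A v f) :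
    eLpNorm (fun x => Real.exp (inner ℝ k x) • v x) 4 volume ≤
        C * eLpNorm (fun x => Real.exp (inner ℝ k x) • f x) (4 / 3) volume ∧
      eLpNorm (fun x => Real.exp (inner ℝ k x) • f x) (4 / 3) volume ≠ (⊤ : ℝ≥0∞) := by
  obtain ⟨K, φ, hK, hφ, hs, h1, h2⟩ := h.approx
  have hw : Continuous (fun x : E 2 => Real.exp (inner ℝ k x)) := by fun_prop
  obtain ⟨B, hB, hBg⟩ := weight_bound (F := S) hK hw
  have hvm : AEStronglyMeasurable v volume := h.memv.1
  have hfm : AEStronglyMeasurable f volume := h.memf.1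
  have hDc : ∀ i, Continuous (A.D (φ i)) := fun i => (contDiff_D A (hφ i)).continuous
  have hD0 : ∀ i x, x ∉ K → A.D (φ i) x = 0 := by
    intro i x hx
    by_contra hc
    exact hx (hs i (tsupport_D_subset A (φ i) (subset_tsupport _ hc)))
  have hf0 : ∀ᵐ x, x ∉ K → f x = 0 := ae_zero_of_limit hK.measurableSet hfm hD0 h2
  have hfin : eLpNorm (fun x => Real.exp (inner ℝ k x) • f x) (4 / 3) volume ≠ (⊤ : ℝ≥0∞) :=
    ((hBg f hfm hf0).trans_lt (ENNReal.mul_lt_top hB.lt_top h.memf.2)).ne
  refine ⟨?_, hfin⟩
  have hm : TendstoInMeasure volume φ atTop v :=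
    tendstoInMeasure_of_tendsto_eLpNorm (p := 2) (by norm_num)
      (fun i => (hφ i).continuous.aestronglyMeasurable) hvm h1
  obtain ⟨ns, hns, hae⟩ := hm.exists_seq_tendsto_ae
  -- the error terms
  have herr : Tendsto (fun i => (C : ℝ≥0∞) *
      (eLpNorm (fun x => Real.exp (inner ℝ k x) • f x) (4 / 3) volume +
        B * eLpNorm (fun x => A.D (φ (ns i)) x - f x) 2 volume)) atTop
      (𝓝 (C * (eLpNorm (fun x => Real.exp (inner ℝ k x) • f x) (4 / 3) volume + B * 0))) := by
    apply ENNReal.Tendsto.const_mul _ (Or.inr ENNReal.coe_ne_top)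
    apply Tendsto.const_add
    apply ENNReal.Tendsto.const_mul _ (Or.inr hB)
    exact h2.comp hns.tendsto_atTop
  rw [mul_zero, add_zero] at herr
  have hle : ∀ i, eLpNorm (fun x => Real.exp (inner ℝ k x) • φ (ns i) x) 4 volume ≤
      C * (eLpNorm (fun x => Real.exp (inner ℝ k x) • f x) (4 / 3) volume +
        B * eLpNorm (fun x => A.D (φ (ns i)) x - f x) 2 volume) := by
    intro i
    refine (hC k (φ (ns i)) (hφ _) (hK.of_isClosed_subset (isClosed_tsupport _) (hs _))).trans ?_
    gcongr
    have e1 : (fun x => Real.exp (inner ℝ k x) • A.D (φ (ns i)) x) =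
        (fun x => Real.exp (inner ℝ k x) • f x) +
          (fun x => Real.exp (inner ℝ k x) • (A.D (φ (ns i)) x - f x)) := by
      funext x
      simp only [Pi.add_apply]
      rw [← smul_add]
      congr 1
      abel
    have hm1 : AEStronglyMeasurable (fun x => A.D (φ (ns i)) x - f x) volume :=
      (hDc _).aestronglyMeasurable.sub hfm
    rw [e1]
    refine (eLpNorm_add_le (hw.aestronglyMeasurable.smul hfm) (hw.aestronglyMeasurable.smul hm1)
      one_le_four_thirds).trans ?_
    refine add_le_add (le_of_eq rfl) (hBg _ hm1 ?_)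
    filter_upwards [hf0] with x hx hxK
    rw [hx hxK, hD0 _ x hxK, sub_zero]
  have hlim : ∀ᵐ x, Tendsto (fun i => Real.exp (inner ℝ k x) • φ (ns i) x) atTop
      (𝓝 (Real.exp (inner ℝ k x) • v x)) := by
    filter_upwards [hae] with x hx
    exact hx.const_smul _
  refine (Lp.eLpNorm_lim_le_liminf_eLpNorm
    (fun i => (hw.smul (hφ (ns i)).continuous).aestronglyMeasurable) _ hlim).trans ?_
  rw [← herr.liminf_eq]
  exact liminf_le_liminf (Eventually.of_forall hle)

theorem nl_two (A : Cliff 2 S) : ∃ ε : ℝ≥0∞, ε ≠ 0 ∧ NL A ε := by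
  obtain ⟨C, hC⟩ := carleman_two_smooth A
  refine ⟨((2 * (C + 1) : ℝ≥0) : ℝ≥0∞)⁻¹, ENNReal.inv_ne_zero.2 ENNReal.coe_ne_top, ?_⟩
  set ε : ℝ≥0∞ := ((2 * (C + 1) : ℝ≥0) : ℝ≥0∞)⁻¹ with hε
  have hCε : (C : ℝ≥0∞) * ε ≤ 2⁻¹ := by
    rw [hε, ← div_eq_mul_inv]
    apply ENNReal.div_le_of_le_mul
    push_cast
    rw [← mul_assoc, ENNReal.inv_mul_cancel (by norm_num) (by norm_num), one_mul]
    exact le_self_add
  intro v f W h y₀ hadm hy₀ hWm hW0 hW hh hv hh0 hf
  have hW' : eLpNorm W 2 volume ≤ ε := by simpa using hW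
  -- finiteness of the norm of `h`
  have hHfin : eLpNorm h (4 / 3) volume ≠ (⊤ : ℝ≥0∞) := by
    obtain ⟨B, hB, hBg⟩ := weight_bound (n := 2) (F := ℝ) (isCompact_closedBall (0 : E 2) 1)
      (w := fun _ => 1) continuous_const
    have := hBg h hh.1 (by
      filter_upwards [hh0] with x hx hxK
      by_contra hc
      exact hxK (by simpa using (hx hc).1))
    simp only [one_smul] at this
    exact (this.trans_lt (ENNReal.mul_lt_top hB.lt_top hh.2)).ne
  set N := eLpNorm ((ball y₀ (1 / 512)).indicator v) 4 volume with hN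
  have hvm : AEStronglyMeasurable v volume := hadm.memv.1
  -- the main estimate
  have key : ∀ t : ℝ, 0 ≤ t → N ≤ ENNReal.ofReal (Real.exp (-(15 / 512) * t)) *
      (2 * (C * eLpNorm h (4 / 3) volume)) := by
    intro t ht
    set e : E 2 → ℝ := fun y => Real.exp (inner ℝ (t • y₀) (y - y₀)) with he
    have hec : Continuous e := by rw [he]; fun_prop
    have hexp : ∀ y, e y = Real.exp (-t) * Real.exp (inner ℝ (t • y₀) y) := by
      intro y
      rw [he, ← Real.exp_add]
      simp only
      rw [inner_sub_right, real_inner_smul_left (x := y₀) (y := y₀), real_inner_self_eq_norm_sq, hy₀]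
      simp only [one_pow, mul_one]
      congr 1
      ring
    obtain ⟨hc1, hc2⟩ := carleman_adm hC (t • y₀) hadm
    have hev : (fun y => e y • v y) =
        Real.exp (-t) • (fun y => Real.exp (inner ℝ (t • y₀) y) • v y) := by
      funext y
      rw [Pi.smul_apply, hexp, mul_smul]
    have hef : (fun y => e y • f y) =
        Real.exp (-t) • (fun y => Real.exp (inner ℝ (t • y₀) y) • f y) := by
      funext y
      rw [Pi.smul_apply, hexp, mul_smul]
    set M := eLpNorm (fun y => e y • v y) 4 volume with hM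
    have hMf : M ≤ C * eLpNorm (fun y => e y • f y) (4 / 3) volume := by
      rw [hM, hev, hef, eLpNorm_const_smul, eLpNorm_const_smul, mul_left_comm]
      gcongr
    have hffin : eLpNorm (fun y => e y • f y) (4 / 3) volume ≠ (⊤ : ℝ≥0∞) := by
      rw [hef, eLpNorm_const_smul]
      exact ENNReal.mul_ne_top enorm_ne_top hc2
    have hMfin : M ≠ (⊤ : ℝ≥0∞) :=
      (hMf.trans_lt (ENNReal.mul_lt_top ENNReal.coe_lt_top hffin.lt_top)).ne
    -- bound for `e f`
    have hbd : eLpNorm (fun y => e y • f y) (4 / 3) volume ≤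
        ε * M + ENNReal.ofReal (Real.exp (-t / 32)) * eLpNorm h (4 / 3) volume := by
      have s1 : eLpNorm (fun y => e y • f y) (4 / 3) volume ≤
          eLpNorm ((fun y => W y • (e y • v y : S)) : E 2 → S) (4 / 3) volume +
          eLpNorm (fun y => Real.exp (-t / 32) • h y) (4 / 3) volume := by
        have m1 : AEStronglyMeasurable (fun y => W y • (e y • v y : S)) volume :=
          hWm.smul (hec.aestronglyMeasurable.smul hvm)
        have m2 : AEStronglyMeasurable (fun y => Real.exp (-t / 32) • h y) volume :=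
          AEStronglyMeasurable.const_smul (f := h) hh.1 (Real.exp (-t / 32))
        rw [← eLpNorm_norm (fun y => W y • (e y • v y : S)),
          ← eLpNorm_norm (fun y => Real.exp (-t / 32) • h y)]
        refine le_trans ?_ (eLpNorm_add_le m1.norm m2.norm one_le_four_thirds)
        refine eLpNorm_mono_ae_real ?_
        filter_upwards [hf, hh0] with y hy hy0
        simp only [Pi.add_apply, norm_smul]
        have he0 : 0 < e y := Real.exp_pos _
        rw [Real.norm_of_nonneg he0.le, Real.norm_of_nonneg (hW0 y),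
          Real.norm_of_nonneg (Real.exp_pos (-t / 32)).le]
        have h3 : e y * h y ≤ Real.exp (-t / 32) * ‖h y‖ := by
          by_cases hz : h y = 0
          · rw [hz]; simp
          · obtain ⟨g1, g2, g3⟩ := hy0 hz
            have g4 : e y ≤ Real.exp (-t / 32) := by
              rw [he]
              simp only
              apply Real.exp_le_exp.2
              rw [real_inner_smul_left]
              have g5 : inner ℝ y₀ (y - y₀) = (‖y‖ ^ 2 - ‖y₀‖ ^ 2 - ‖y - y₀‖ ^ 2) / 2 := by
                rw [@norm_sub_sq_real, inner_sub_right, real_inner_self_eq_norm_sq,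
                  real_inner_comm]
                ring
              rw [g5, hy₀]
              nlinarith [norm_nonneg y, norm_nonneg (y - y₀),
                mul_nonneg ht (by nlinarith [norm_nonneg y] :
                  0 ≤ 1 ^ 2 - ‖y‖ ^ 2),
                mul_nonneg ht (by nlinarith [norm_nonneg y] :
                  0 ≤ ‖y - y₀‖ ^ 2 - (1 / 4) ^ 2)]
            calc e y * h y ≤ e y * ‖h y‖ :=
                  mul_le_mul_of_nonneg_left (Real.le_norm_self _) he0.le
              _ ≤ _ := mul_le_mul_of_nonneg_right g4 (norm_nonneg _)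
        calc e y * ‖f y‖ ≤ e y * (W y * ‖v y‖ + h y) :=
              mul_le_mul_of_nonneg_left hy he0.le
          _ = W y * (e y * ‖v y‖) + e y * h y := by ring
          _ ≤ _ := by linarith
      have s2 : eLpNorm ((fun y => W y • (e y • v y : S)) : E 2 → S) (4 / 3) volume ≤
          eLpNorm W 2 volume * M := by
        have := holder_inst
        exact eLpNorm_smul_le_mul_eLpNorm (p := 2) (q := 4) (r := 4 / 3)
          (f := fun y => (e y • v y : S)) (hec.aestronglyMeasurable.smul hvm) hWm
      have s3 : eLpNorm (fun y => Real.exp (-t / 32) • h y) (4 / 3) volume =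
          ENNReal.ofReal (Real.exp (-t / 32)) * eLpNorm h (4 / 3) volume := by
        have := eLpNorm_const_smul (Real.exp (-t / 32)) h (4 / 3) (volume : Measure (E 2))
        rw [Real.enorm_eq_ofReal (Real.exp_pos _).le] at this
        exact this
      rw [s3] at s1
      refine s1.trans ?_
      gcongr
      exact s2.trans (by gcongr)
    -- absorb
    have habs : M ≤ 2 * (C * (ENNReal.ofReal (Real.exp (-t / 32)) * eLpNorm h (4 / 3) volume)) := by
      set X := (C : ℝ≥0∞) * (ENNReal.ofReal (Real.exp (-t / 32)) * eLpNorm h (4 / 3) volume)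
        with hX
      have a1 : M ≤ 2⁻¹ * M + X := by
        calc M ≤ C * (ε * M + ENNReal.ofReal (Real.exp (-t / 32)) * eLpNorm h (4 / 3) volume) :=
              hMf.trans (by gcongr)
          _ = (C * ε) * M + X := by rw [hX]; ring
          _ ≤ 2⁻¹ * M + X := by gcongr
      have a2 : M = 2⁻¹ * M + 2⁻¹ * M := by
        rw [← add_mul, ENNReal.inv_two_add_inv_two, one_mul]
      have hfin2 : 2⁻¹ * M ≠ (⊤ : ℝ≥0∞) := ENNReal.mul_ne_top (by norm_num) hMfin
      have a3 : 2⁻¹ * M ≤ X := by
        have : 2⁻¹ * M + 2⁻¹ * M ≤ 2⁻¹ * M + X := by rw [← a2]; exact a1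
        exact (ENNReal.add_le_add_iff_left hfin2).1 this
      calc M = 2 * (2⁻¹ * M) := by
            rw [← mul_assoc, ENNReal.mul_inv_cancel (by norm_num) (by norm_num), one_mul]
        _ ≤ 2 * X := by gcongr
    -- lower bound
    have hlow : N ≤ ENNReal.ofReal (Real.exp (t / 512)) * M := by
      rw [hN, hM]
      apply eLpNorm_le_mul_eLpNorm_of_ae_le_mul
      refine Eventually.of_forall fun y => ?_
      by_cases hy : y ∈ ball y₀ (1 / 512)
      · rw [indicator_of_mem hy, norm_smul, ← mul_assoc]
        have he0 : 0 < e y := Real.exp_pos _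
        rw [Real.norm_of_nonneg he0.le]
        have : 1 ≤ Real.exp (t / 512) * e y := by
          rw [he]
          simp only
          rw [← Real.exp_add]
          apply Real.one_le_exp
          rw [real_inner_smul_left]
          have g1 : |inner ℝ y₀ (y - y₀)| ≤ 1 / 512 := by
            refine (abs_real_inner_le_norm _ _).trans ?_
            rw [hy₀, one_mul]
            have := mem_ball.1 hy
            rw [dist_eq_norm] at this
            exact this.le
          have g2 := (abs_le.1 g1).1
          nlinarith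
        calc ‖v y‖ = 1 * ‖v y‖ := (one_mul _).symm
          _ ≤ _ := mul_le_mul_of_nonneg_right this (norm_nonneg _)
      · rw [indicator_of_notMem hy]
        simp only [norm_zero]
        positivity
    calc N ≤ ENNReal.ofReal (Real.exp (t / 512)) * M := hlow
      _ ≤ ENNReal.ofReal (Real.exp (t / 512)) *
          (2 * (C * (ENNReal.ofReal (Real.exp (-t / 32)) * eLpNorm h (4 / 3) volume))) := by
            gcongr
      _ = (ENNReal.ofReal (Real.exp (t / 512)) * ENNReal.ofReal (Real.exp (-t / 32))) *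
          (2 * (C * eLpNorm h (4 / 3) volume)) := by ring
      _ = _ := by
          rw [← ENNReal.ofReal_mul (Real.exp_pos _).le, ← Real.exp_add]
          congr 4
          ring
  -- let `t → ∞`
  have hN0 : N = 0 := by
    have hfin : 2 * (C * eLpNorm h (4 / 3) volume) ≠ (⊤ : ℝ≥0∞) :=
      ENNReal.mul_ne_top (by norm_num) (ENNReal.mul_ne_top ENNReal.coe_ne_top hHfin)
    have hlim : Tendsto (fun t : ℝ => ENNReal.ofReal (Real.exp (-(15 / 512) * t)) *
        (2 * (C * eLpNorm h (4 / 3) volume))) atTop (𝓝 0) := by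
      have l1 : Tendsto (fun t : ℝ => Real.exp (-(15 / 512) * t)) atTop (𝓝 0) := by
        apply Real.tendsto_exp_atBot.comp
        exact tendsto_id.const_mul_atTop_of_neg (by norm_num)
      have l2 := ENNReal.tendsto_ofReal l1
      rw [ENNReal.ofReal_zero] at l2
      have l3 := ENNReal.Tendsto.mul_const (b := 2 * (C * eLpNorm h (4 / 3) volume)) l2
        (Or.inr hfin)
      rwa [zero_mul] at l3
    refine le_antisymm (ge_of_tendsto hlim ?_) bot_le
    filter_upwards [eventually_ge_atTop 0] with t ht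
    exact key t ht
  rw [hN, eLpNorm_eq_zero_iff (hvm.indicator measurableSet_ball) (by norm_num)] at hN0
  filter_upwards [hN0] with y hy hyb
  rwa [indicator_of_mem hyb] at hy

end DiracUCP
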