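import Pool.Agent.W_MP_23c0ba_an.NLHigh
import Pool.Agent.W_MP_23c0ba_an.NLTwo
import Pool.Agent.W_MP_23c0ba_an.Local
import Pool.Agent.W_MP_23c0ba_an.Global

/-! The unique continuation theorem. -/

set_option autoImplicit false

open MeasureTheory Metric Set Filter Topology
open scoped ENNReal ContDiff NNReal FourierTransform ComplexConjugate

namespace DiracUCP

variable {n : ℕ} {S : Type} [NormedAddCommGroup S] [InnerProductSpace ℂ S]
  [FiniteDimensional ℂ S] [CompleteSpace S]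

/-- Unique continuation for `|Du| ≤ W |u|`, `W ∈ Lⁿ_loc`. -/
theorem ucp_ineq (hn : 2 ≤ n) (A : Cliff n S) {Ω : Set (E n)} (hΩ : IsOpen Ω)
    (hc : IsPreconnected Ω) {u g : E n → S} (hu : L2loc Ω u) (hg : L2loc Ω g)
    (hw : A.IsWeakD Ω u g) {W : E n → ℝ} (hW0 : ∀ x, 0 ≤ W x)
    (hW : ∀ K : Set (E n), IsCompact K → K ⊆ Ω → MemLp W n (volume.restrict K))
    (hineq : ∀ᵐ x, x ∈ Ω → ‖g x‖ ≤ W x * ‖u x‖)
    {U : Set (E n)} (hU : IsOpen U) (hne : U.Nonempty) (hUΩ : U ⊆ Ω)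
    (hz : ∀ᵐ x, x ∈ U → u x = 0) : ∀ᵐ x, x ∈ Ω → u x = 0 := by
  obtain ⟨ε, hε, hNL⟩ : ∃ ε : ℝ≥0∞, ε ≠ 0 ∧ NL A ε := by
    rcases Nat.lt_or_ge n 3 with h | h
    · obtain rfl : n = 2 := by omega
      exact nl_two A
    · exact nl_high h A
  exact global_of_local hΩ hc
    (fun x₀ hx₀ a r hr hd hz' => local_claim hn A hε hNL hΩ hu hg hw hW0 hW hineq hx₀ hr hd hz')
    hU hne hUΩ hz

end DiracUCP
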