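import Pool.Agent.W_MP_23c0ba_an.Defs

/-! Many points of a convex set are centres of large symmetric subsets. -/

set_option autoImplicit false

open MeasureTheory Metric Set Filter Topology
open scoped ENNReal ContDiff NNReal FourierTransform ComplexConjugate

namespace DiracUCP

variable {n : ℕ}

theorem volume_preimage_two_smul_sub (T : Set (E n)) (t : E n) :
    volume {k : E n | (2 : ℝ) • k - t ∈ T} = ENNReal.ofReal |((2 : ℝ) ^ n)⁻¹| * volume T := by
  have h1 : {k : E n | (2 : ℝ) • k - t ∈ T} = (fun k : E n => (2 : ℝ) • k) ⁻¹'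
      ((fun k : E n => k - t) ⁻¹' T) := rfl
  rw [h1, Measure.addHaar_preimage_smul volume (two_ne_zero) _, finrank_euclideanSpace_fin]
  congr 1
  simp only [sub_eq_add_neg]
  exact measure_preimage_add_right volume (-t) T

theorem midpoint_volume (T : Set (E n)) (hT : MeasurableSet T) (hconv : Convex ℝ T)
    (hfin : volume T ≠ ⊤) :
    volume T ≤ 2 ^ (n + 1) *
      volume {k ∈ T | volume T ≤ 2 ^ (n + 1) * volume (T ∩ {t | (2 : ℝ) • k - t ∈ T})} := by
  classical
  rcases eq_or_ne (volume T) 0 with h0 | h0
  · rw [h0]; exact bot_le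
  set V := volume T with hV
  set A : Set (E n) := {k ∈ T | V ≤ 2 ^ (n + 1) * volume (T ∩ {t | (2 : ℝ) • k - t ∈ T})} with hA
  set c : ℝ≥0∞ := (2 ^ (n + 1))⁻¹ with hc
  have hp0 : (2 : ℝ≥0∞) ^ (n + 1) ≠ 0 := by positivity
  have hpt : (2 : ℝ≥0∞) ^ (n + 1) ≠ ⊤ := ENNReal.pow_ne_top (by simp)
  -- upper bound
  have hup : ∫⁻ k in T, volume (T ∩ {t | (2 : ℝ) • k - t ∈ T}) ≤ V * volume A + c * V * V := by
    calc ∫⁻ k in T, volume (T ∩ {t | (2 : ℝ) • k - t ∈ T})
        ≤ ∫⁻ k in T, (A.indicator (fun _ => V) k + c * V) := by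
          apply setLIntegral_mono' hT
          intro k hk
          by_cases hkA : k ∈ A
          · rw [indicator_of_mem hkA]
            exact (measure_mono inter_subset_left).trans le_self_add
          · rw [indicator_of_notMem hkA, zero_add]
            have h1 : ¬ V ≤ 2 ^ (n + 1) * volume (T ∩ {t | (2 : ℝ) • k - t ∈ T}) :=
              fun h => hkA ⟨hk, h⟩
            have h2 := (not_le.1 h1).le
            calc volume (T ∩ {t | (2 : ℝ) • k - t ∈ T})
                = c * (2 ^ (n + 1) * volume (T ∩ {t | (2 : ℝ) • k - t ∈ T})) := by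
                  rw [← mul_assoc, hc, ENNReal.inv_mul_cancel hp0 hpt, one_mul]
              _ ≤ c * V := mul_le_mul_right h2 c
      _ = (∫⁻ k in T, A.indicator (fun _ => V) k) + ∫⁻ k in T, c * V := by
          exact lintegral_add_right _ measurable_const
      _ ≤ V * volume A + c * V * V := by
          refine add_le_add ?_ ?_
          · refine (setLIntegral_le_lintegral _ _).trans ?_
            exact lintegral_indicator_const_le _ _
          · rw [setLIntegral_const]
  -- lower bound
  have hcomp : ∫⁻ k in T, volume (T ∩ {t | (2 : ℝ) • k - t ∈ T}) =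
      ENNReal.ofReal |((2 : ℝ) ^ n)⁻¹| * V * V := by
    have hm1 : Measurable fun p : E n × E n => (2 : ℝ) • p.1 - p.2 := by fun_prop
    have hmS : MeasurableSet {p : E n × E n | p.1 ∈ T ∧ p.2 ∈ T ∧ (2 : ℝ) • p.1 - p.2 ∈ T} :=
      (measurable_fst hT).inter ((measurable_snd hT).inter (hm1 hT))
    set F : E n → E n → ℝ≥0∞ := fun k t =>
      {p : E n × E n | p.1 ∈ T ∧ p.2 ∈ T ∧ (2 : ℝ) • p.1 - p.2 ∈ T}.indicator 1 (k, t) with hF
    have h1 : ∫⁻ k in T, volume (T ∩ {t | (2 : ℝ) • k - t ∈ T}) = ∫⁻ k, ∫⁻ t, F k t := by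
      rw [← lintegral_indicator hT]
      apply lintegral_congr
      intro k
      by_cases hk : k ∈ T
      · rw [indicator_of_mem hk]
        have h2 : F k = (T ∩ {t | (2 : ℝ) • k - t ∈ T}).indicator 1 := by
          funext t
          simp only [hF, indicator_apply]
          congr 1
          simp [hk]
        rw [h2, lintegral_indicator_one]
        have hm2 : Measurable fun t : E n => (2 : ℝ) • k - t := by fun_prop
        exact hT.inter (hm2 hT)
      · rw [indicator_of_notMem hk]
        have h2 : F k = 0 := by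
          funext t
          simp only [hF, indicator_apply]
          simp [hk]
        rw [h2]; simp
    rw [h1, lintegral_lintegral_swap]
    · have h3 : ∀ t, ∫⁻ k, F k t = T.indicator (fun _ => ENNReal.ofReal |((2 : ℝ) ^ n)⁻¹| * V) t := by
        intro t
        by_cases ht : t ∈ T
        · rw [indicator_of_mem ht, hV, ← volume_preimage_two_smul_sub T t]
          have h2 : (fun k => F k t) = {k : E n | (2 : ℝ) • k - t ∈ T}.indicator 1 := by
            funext k
            simp only [hF, indicator_apply]
            congr 1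
            simp only [mem_ofPred_eq, ht, true_and, eq_iff_iff, and_iff_right_iff_imp]
            intro hk
            have h4 := hconv ht hk (show (0 : ℝ) ≤ 1 / 2 by norm_num)
              (show (0 : ℝ) ≤ 1 / 2 by norm_num) (by norm_num)
            have h5 : (1 / 2 : ℝ) • t + (1 / 2 : ℝ) • ((2 : ℝ) • k - t) = k := by
              rw [smul_sub, smul_smul]
              norm_num
            rwa [h5] at h4
          rw [h2, lintegral_indicator_one]
          have hm2 : Measurable fun k : E n => (2 : ℝ) • k - t := by fun_prop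
          exact hm2 hT
        · rw [indicator_of_notMem ht]
          have h2 : (fun k => F k t) = 0 := by
            funext k
            simp only [hF, indicator_apply]
            simp [ht]
          rw [h2]; exact lintegral_zero
      rw [lintegral_congr h3, lintegral_indicator_const hT]
    · exact (measurable_one.indicator hmS).aemeasurable
  rw [hcomp] at hup
  have h2c : ENNReal.ofReal |((2 : ℝ) ^ n)⁻¹| = c + c := by
    rw [abs_of_nonneg (by positivity), ENNReal.ofReal_inv_of_pos (by positivity),
      ENNReal.ofReal_pow (by norm_num), hc, pow_succ,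
      ENNReal.mul_inv (Or.inl (by positivity)) (Or.inr (by simp)), ← mul_add]
    rw [ENNReal.inv_two_add_inv_two, mul_one, ENNReal.ofReal_ofNat]
  rw [h2c, add_mul, add_mul] at hup
  have hcV : c * V * V ≠ ⊤ :=
    ENNReal.mul_ne_top (ENNReal.mul_ne_top (ENNReal.inv_ne_top.2 hp0) hfin) hfin
  have h6 : c * V * V ≤ V * volume A := (ENNReal.add_le_add_iff_right hcV).1 hup
  have h7 : V * (c * V) ≤ V * volume A := by rw [mul_comm V (c * V)]; exact h6
  have h8 : c * V ≤ volume A := (ENNReal.mul_le_mul_iff_right h0 hfin).1 h7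
  calc V = 2 ^ (n + 1) * (c * V) := by
        rw [← mul_assoc, hc, ENNReal.mul_inv_cancel hp0 hpt, one_mul]
    _ ≤ 2 ^ (n + 1) * volume A := mul_le_mul_right h8 _

end DiracUCP
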