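import Pool.Agent.W_MP_23c0ba_an.Interp
import Pool.Agent.W_MP_23c0ba_an.Kernel
import Pool.Agent.W_MP_fd6526_gt.Plancherel

/-! The L^p to L^p' bound for the multiplier multS. -/

set_option autoImplicit false

open MeasureTheory Metric Set Filter Topology
open scoped ENNReal ContDiff NNReal FourierTransform ComplexConjugate

namespace DiracUCP

variable {n : ℕ}

/-! ### Fourier transforms of integrable functions -/

theorem mult_fourier_continuous {F : E n → ℂ} (hF : Integrable F) : Continuous (𝓕 F) :=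
  VectorFourier.fourierIntegral_continuous Real.continuous_fourierChar
    (L := innerₗ (E n)) (by exact continuous_inner) hF

theorem mult_fourier_norm_le (F : E n → ℂ) (ξ : E n) : ‖𝓕 F ξ‖ ≤ ∫ x, ‖F x‖ :=
  VectorFourier.norm_fourierIntegral_le_integral_norm _ _ _ _ _

theorem mult_fourier_add {F G : E n → ℂ} (hF : Integrable F) (hG : Integrable G) :
    𝓕 (F + G) = 𝓕 F + 𝓕 G :=
  VectorFourier.fourierIntegral_add Real.continuous_fourierChar
    (L := innerₗ (E n)) (by exact continuous_inner) hF hG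

theorem mult_flip {f g : E n → ℂ} (hf : Integrable f) (hg : Integrable g) :
    ∫ ξ, 𝓕 f ξ * g ξ = ∫ x, f x * 𝓕 g x := by
  have := VectorFourier.integral_fourierIntegral_smul_eq_flip (μ := volume) (ν := volume)
    (L := innerₗ (E n)) Real.continuous_fourierChar (by exact continuous_inner)
    (f := f) (g := g) hf hg
  rw [flip_innerₗ] at this
  exact this

/-- The product of an integrable function with bounded continuous ones is integrable. -/
theorem mult_integrable_mul {m F G : E n → ℂ} (hm : Integrable m) (hF : Integrable F)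
    (hG : Integrable G) : Integrable fun ξ => m ξ * (𝓕 F ξ * conj (𝓕 G ξ)) := by
  have h1 : Continuous fun ξ => 𝓕 F ξ * conj (𝓕 G ξ) :=
    (mult_fourier_continuous hF).mul (Complex.continuous_conj.comp (mult_fourier_continuous hG))
  have h2 := hm.bdd_mul (c := (∫ x, ‖F x‖) * ∫ x, ‖G x‖) h1.aestronglyMeasurable
    (Eventually.of_forall fun ξ => by
      rw [norm_mul, RCLike.norm_conj]
      exact mul_le_mul (mult_fourier_norm_le F ξ) (mult_fourier_norm_le G ξ) (norm_nonneg _)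
        (integral_nonneg fun _ => norm_nonneg _))
  refine h2.congr (Eventually.of_forall fun ξ => ?_)
  show (𝓕 F ξ * conj (𝓕 G ξ)) * m ξ = m ξ * (𝓕 F ξ * conj (𝓕 G ξ))
  ring

/-- The bound `(L¹, L¹)` from a bound of the kernel. -/
theorem mult_bound_one {m F G : E n → ℂ} {B : ℝ} (hB : 0 ≤ B) (hm : Integrable m)
    (hF : Integrable F) (hG : Integrable G)
    (hK : ∀ x : E n, ‖∫ ξ, m ξ * Complex.exp (2 * Real.pi * Complex.I * (inner ℝ x ξ : ℝ))‖ ≤ B) :
    ‖∫ ξ, m ξ * (𝓕 F ξ * conj (𝓕 G ξ))‖ ≤ B * (∫ x, ‖F x‖) * ∫ x, ‖G x‖ := by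
  have hcG : Continuous (𝓕 G) := mult_fourier_continuous hG
  have hg : Integrable fun ξ => m ξ * conj (𝓕 G ξ) := by
    have h1 : Continuous fun ξ => conj (𝓕 G ξ) := Complex.continuous_conj.comp hcG
    have h2 := hm.bdd_mul (c := ∫ x, ‖G x‖) h1.aestronglyMeasurable
      (Eventually.of_forall fun ξ => by
        rw [RCLike.norm_conj]
        exact mult_fourier_norm_le G ξ)
    refine h2.congr (Eventually.of_forall fun ξ => ?_)
    show conj (𝓕 G ξ) * m ξ = m ξ * conj (𝓕 G ξ)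
    ring
  have h1 : ∫ ξ, m ξ * (𝓕 F ξ * conj (𝓕 G ξ)) =
      ∫ y, F y * 𝓕 (fun ξ => m ξ * conj (𝓕 G ξ)) y := by
    rw [← mult_flip hF hg]
    refine integral_congr_ae (Eventually.of_forall fun ξ => ?_)
    show m ξ * (𝓕 F ξ * conj (𝓕 G ξ)) = 𝓕 F ξ * (m ξ * conj (𝓕 G ξ))
    ring
  -- bound of the inner transform
  have h2 : ∀ y, ‖𝓕 (fun ξ => m ξ * conj (𝓕 G ξ)) y‖ ≤ B * ∫ x, ‖G x‖ := by
    intro y
    let h : E n → ℂ := fun ξ =>
      Complex.exp (((2 * Real.pi * (inner ℝ ξ y : ℝ) : ℝ) : ℂ) * Complex.I) * conj (m ξ)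
    have hh : Integrable h := by
      have hc : Continuous fun ξ : E n =>
          Complex.exp (((2 * Real.pi * (inner ℝ ξ y : ℝ) : ℝ) : ℂ) * Complex.I) := by
        fun_prop
      have hmc : Integrable fun ξ => conj (m ξ) :=
        (Complex.conjCLE.toContinuousLinearMap.integrable_comp hm)
      exact hmc.bdd_mul (c := 1) hc.aestronglyMeasurable
        (Eventually.of_forall fun ξ => by rw [Complex.norm_exp_ofReal_mul_I])
    have e1 : conj (𝓕 (fun ξ => m ξ * conj (𝓕 G ξ)) y) = ∫ ξ, 𝓕 G ξ * h ξ := by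
      rw [Real.fourier_eq', ← integral_conj]
      refine integral_congr_ae (Eventually.of_forall fun ξ => ?_)
      show conj (Complex.exp (((-2 * Real.pi * (inner ℝ ξ y : ℝ) : ℝ) : ℂ) * Complex.I) •
        (m ξ * conj (𝓕 G ξ))) = 𝓕 G ξ * (Complex.exp (((2 * Real.pi * (inner ℝ ξ y : ℝ) : ℝ) : ℂ) *
          Complex.I) * conj (m ξ))
      rw [smul_eq_mul, map_mul, map_mul, Complex.conj_conj, ← Complex.exp_conj, map_mul,
        Complex.conj_ofReal, Complex.conj_I]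
      have : ((-2 * Real.pi * (inner ℝ ξ y : ℝ) : ℝ) : ℂ) * -Complex.I =
          ((2 * Real.pi * (inner ℝ ξ y : ℝ) : ℝ) : ℂ) * Complex.I := by
        push_cast
        ring
      rw [this]
      ring
    have e2 : ∫ ξ, 𝓕 G ξ * h ξ = ∫ z, G z * 𝓕 h z := mult_flip hG hh
    have e3 : ∀ z, ‖𝓕 h z‖ ≤ B := by
      intro z
      have e4 : conj (𝓕 h z) =
          ∫ ξ, m ξ * Complex.exp (2 * Real.pi * Complex.I * (inner ℝ (z - y) ξ : ℝ)) := by
        rw [Real.fourier_eq', ← integral_conj]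
        refine integral_congr_ae (Eventually.of_forall fun ξ => ?_)
        show conj (Complex.exp (((-2 * Real.pi * (inner ℝ ξ z : ℝ) : ℝ) : ℂ) * Complex.I) •
          (Complex.exp (((2 * Real.pi * (inner ℝ ξ y : ℝ) : ℝ) : ℂ) * Complex.I) * conj (m ξ))) =
          m ξ * Complex.exp (2 * Real.pi * Complex.I * (inner ℝ (z - y) ξ : ℝ))
        rw [smul_eq_mul, map_mul, map_mul, Complex.conj_conj, ← Complex.exp_conj,
          ← Complex.exp_conj, map_mul, map_mul, Complex.conj_ofReal, Complex.conj_ofReal,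
          Complex.conj_I, ← mul_assoc, ← Complex.exp_add, mul_comm (m ξ)]
        congr 2
        rw [inner_sub_left, real_inner_comm ξ z, real_inner_comm ξ y]
        push_cast
        ring
      rw [← RCLike.norm_conj, e4]
      exact hK (z - y)
    rw [← RCLike.norm_conj, e1, e2]
    calc ‖∫ z, G z * 𝓕 h z‖ ≤ ∫ z, ‖G z * 𝓕 h z‖ := norm_integral_le_integral_norm _
      _ ≤ ∫ z, B * ‖G z‖ := by
          refine integral_mono_of_nonneg (Eventually.of_forall fun _ => norm_nonneg _)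
            (hG.norm.const_mul B) (Eventually.of_forall fun z => ?_)
          show ‖G z * 𝓕 h z‖ ≤ B * ‖G z‖
          rw [norm_mul, mul_comm]
          exact mul_le_mul_of_nonneg_right (e3 z) (norm_nonneg _)
      _ = B * ∫ z, ‖G z‖ := integral_const_mul _ _
  rw [h1]
  calc ‖∫ y, F y * 𝓕 (fun ξ => m ξ * conj (𝓕 G ξ)) y‖
      ≤ ∫ y, ‖F y * 𝓕 (fun ξ => m ξ * conj (𝓕 G ξ)) y‖ := norm_integral_le_integral_norm _
    _ ≤ ∫ y, (B * ∫ x, ‖G x‖) * ‖F y‖ := by
        refine integral_mono_of_nonneg (Eventually.of_forall fun _ => norm_nonneg _)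
          (hF.norm.const_mul _) (Eventually.of_forall fun y => ?_)
        show ‖F y * 𝓕 (fun ξ => m ξ * conj (𝓕 G ξ)) y‖ ≤ (B * ∫ x, ‖G x‖) * ‖F y‖
        rw [norm_mul, mul_comm]
        exact mul_le_mul_of_nonneg_right (h2 y) (norm_nonneg _)
    _ = (B * ∫ x, ‖G x‖) * ∫ y, ‖F y‖ := integral_const_mul _ _
    _ = B * (∫ x, ‖F x‖) * ∫ x, ‖G x‖ := by ring

/-- The bound `(L², L²)`. -/
theorem mult_bound_two {m F G : E n → ℂ} {A : ℝ} (hA : 0 ≤ A) (hm : ∀ ξ, ‖m ξ‖ ≤ A)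
    (hF : Integrable F) (hG : Integrable G) (hF2 : MemLp F 2) (hG2 : MemLp G 2) :
    ‖∫ ξ, m ξ * (𝓕 F ξ * conj (𝓕 G ξ))‖ ≤
      A * (eLpNorm F 2 volume).toReal * (eLpNorm G 2 volume).toReal := by
  have hcF : Continuous (𝓕 F) := mult_fourier_continuous hF
  have hcG : Continuous (𝓕 G) := mult_fourier_continuous hG
  have key : ∀ f : E n → ℂ, Integrable f → MemLp f 2 →
      (∫⁻ ξ, ‖𝓕 f ξ‖ₑ ^ (2 : ℝ)) ^ (1 / (2 : ℝ)) = eLpNorm f 2 volume := by
    intro f hf hf2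
    rw [eLpNorm_eq_lintegral_rpow_enorm_toReal (by norm_num) (by norm_num)]
    have := Pool.Agent.W_MP_fd6526_gt.lintegral_fourier_sq f hf hf2
    have h2 : (ENNReal.toReal 2) = (2 : ℝ) := by norm_num
    rw [h2]
    simp_rw [show (2 : ℝ) = ((2 : ℕ) : ℝ) by norm_num, ENNReal.rpow_natCast] at this ⊢
    rw [this]
  have h1 : ‖∫ ξ, m ξ * (𝓕 F ξ * conj (𝓕 G ξ))‖ₑ ≤
      ENNReal.ofReal A * (eLpNorm F 2 volume * eLpNorm G 2 volume) := by
    calc ‖∫ ξ, m ξ * (𝓕 F ξ * conj (𝓕 G ξ))‖ₑ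
        ≤ ∫⁻ ξ, ‖m ξ * (𝓕 F ξ * conj (𝓕 G ξ))‖ₑ := enorm_integral_le_lintegral_enorm _
      _ ≤ ∫⁻ ξ, ENNReal.ofReal A * (‖𝓕 F ξ‖ₑ * ‖𝓕 G ξ‖ₑ) := by
          refine lintegral_mono fun ξ => ?_
          show ‖m ξ * (𝓕 F ξ * conj (𝓕 G ξ))‖ₑ ≤ ENNReal.ofReal A * (‖𝓕 F ξ‖ₑ * ‖𝓕 G ξ‖ₑ)
          have e1 : ‖conj (𝓕 G ξ)‖ₑ = ‖𝓕 G ξ‖ₑ := by
            rw [← ofReal_norm, ← ofReal_norm, RCLike.norm_conj]
          rw [enorm_mul, enorm_mul, e1]
          gcongr
          rw [← ofReal_norm]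
          exact ENNReal.ofReal_le_ofReal (hm ξ)
      _ = ENNReal.ofReal A * ∫⁻ ξ, ‖𝓕 F ξ‖ₑ * ‖𝓕 G ξ‖ₑ :=
          lintegral_const_mul' _ _ ENNReal.ofReal_ne_top
      _ ≤ ENNReal.ofReal A * (eLpNorm F 2 volume * eLpNorm G 2 volume) := by
          gcongr
          rw [← key F hF hF2, ← key G hG hG2]
          exact ENNReal.lintegral_mul_le_Lp_mul_Lq volume
            (Real.HolderConjugate.two_two) hcF.enorm.aemeasurable hcG.enorm.aemeasurable
  have h2 := ENNReal.toReal_mono (by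
    exact ENNReal.mul_ne_top ENNReal.ofReal_ne_top
      (ENNReal.mul_ne_top hF2.eLpNorm_ne_top hG2.eLpNorm_ne_top)) h1
  rw [toReal_enorm, ENNReal.toReal_mul, ENNReal.toReal_mul, ENNReal.toReal_ofReal hA,
    ← mul_assoc] at h2
  exact h2

theorem mult_bound (hn : 3 ≤ n) : ∃ C : ℝ, 0 ≤ C ∧ ∀ (σ s : ℝ) (e b : E n) (F G : E n → ℂ),
    (σ = 1 ∨ σ = -1) → 0 ≤ s → ‖e‖ = 1 → ‖b‖ ≤ 1 → Nice volume F → Nice volume G →
    ‖∫ ξ, multS σ s e b ξ * (𝓕 F ξ * conj (𝓕 G ξ))‖ ≤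
      C * (1 + s) ^ (-((n : ℝ) + 1) / n) *
        (eLpNorm F (pe n) volume).toReal * (eLpNorm G (pe n) volume).toReal := by
  have hn0 : (0 : ℝ) < n := by exact_mod_cast (by omega : 0 < n)
  have hn3 : (3 : ℝ) ≤ n := by exact_mod_cast hn
  have hp1 : (1 : ℝ) < 2 * n / (n + 2) := by
    rw [lt_div_iff₀ (by linarith)]
    linarith
  have hp2 : (2 * n / (n + 2) : ℝ) < 2 := by
    rw [div_lt_iff₀ (by linarith)]
    linarith
  obtain ⟨C₁, hC₁, hint⟩ := interp (volume : Measure (E n)) hp1 hp2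
  obtain ⟨C₂, hC₂, hker⟩ := kernel_bound (n := n) (by omega)
  refine ⟨C₁ * (6 ^ (2 - 2 / (2 * n / (n + 2) : ℝ)) * (C₂ + 1) ^ (2 / (n : ℝ))), by positivity,
    ?_⟩
  intro σ s e b F G hσ hs he hb hF hG
  have h1s : 0 < 1 + s := by linarith
  have hm : Integrable (multS σ s e b) := integrable_multS hσ hs he hb
  have hm6 : ∀ ξ, ‖multS σ s e b ξ‖ ≤ 6 := by
    intro ξ
    refine (norm_multS_le hσ hs he hb ξ).trans ?_
    have : Real.exp (-‖ξ‖ ^ 2 / 2) ≤ 1 := Real.exp_le_one_iff.2 (by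
      have := sq_nonneg ‖ξ‖
      linarith)
    linarith
  have hB : 0 < (C₂ + 1) * (1 + s) ^ (-((n : ℝ) + 1) / 2) := by positivity
  have hK : ∀ x : E n, ‖∫ ξ, multS σ s e b ξ *
      Complex.exp (2 * Real.pi * Complex.I * (inner ℝ x ξ : ℝ))‖ ≤
      (C₂ + 1) * (1 + s) ^ (-((n : ℝ) + 1) / 2) := by
    intro x
    refine (hker σ s e b x hσ hs he hb).trans ?_
    gcongr
    linarith
  have key := hint (fun F G => ∫ ξ, multS σ s e b ξ * (𝓕 F ξ * conj (𝓕 G ξ))) 6
    ((C₂ + 1) * (1 + s) ^ (-((n : ℝ) + 1) / 2)) (by norm_num) hB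
    (by
      intro F F' G hF hF' hG
      show ∫ ξ, multS σ s e b ξ * (𝓕 (F + F') ξ * conj (𝓕 G ξ)) = _
      rw [mult_fourier_add hF.int hF'.int, ← integral_add (mult_integrable_mul hm hF.int hG.int)
        (mult_integrable_mul hm hF'.int hG.int)]
      refine integral_congr_ae (Eventually.of_forall fun ξ => ?_)
      show multS σ s e b ξ * ((𝓕 F ξ + 𝓕 F' ξ) * conj (𝓕 G ξ)) = _
      ring)
    (by
      intro F G G' hF hG hG'
      show ∫ ξ, multS σ s e b ξ * (𝓕 F ξ * conj (𝓕 (G + G') ξ)) = _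
      rw [mult_fourier_add hG.int hG'.int, ← integral_add (mult_integrable_mul hm hF.int hG.int)
        (mult_integrable_mul hm hF.int hG'.int)]
      refine integral_congr_ae (Eventually.of_forall fun ξ => ?_)
      show multS σ s e b ξ * (𝓕 F ξ * conj (𝓕 G ξ + 𝓕 G' ξ)) = _
      rw [map_add]
      ring)
    (fun F G hF hG => mult_bound_two (by norm_num) hm6 hF.int hG.int hF.mem hG.mem)
    (fun F G hF hG => by
      have h := mult_bound_one hB.le hm hF.int hG.int hK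
      have e1 : ∀ f : E n → ℂ, Integrable f → (eLpNorm f 1 volume).toReal = ∫ x, ‖f x‖ := by
        intro f hf
        rw [eLpNorm_one_eq_lintegral_enorm, integral_norm_eq_lintegral_enorm hf.1]
      rw [e1 F hF.int, e1 G hG.int]
      exact h)
    F G hF hG
  refine key.trans (le_of_eq ?_)
  have e2 : (2 / (2 * n / (n + 2) : ℝ) - 1) = 2 / (n : ℝ) := by
    field_simp
    ring
  have e3 : ((C₂ + 1) * (1 + s) ^ (-((n : ℝ) + 1) / 2)) ^ (2 / (2 * n / (n + 2) : ℝ) - 1) =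
      (C₂ + 1) ^ (2 / (n : ℝ)) * (1 + s) ^ (-((n : ℝ) + 1) / n) := by
    rw [e2, Real.mul_rpow (by linarith) (by positivity), ← Real.rpow_mul h1s.le]
    congr 2
    field_simp
  rw [e3]
  show C₁ * (_ * (_ * _)) * (eLpNorm F (ENNReal.ofReal (2 * n / (n + 2))) volume).toReal *
    (eLpNorm G (ENNReal.ofReal (2 * n / (n + 2))) volume).toReal = _
  unfold pe
  ring

end DiracUCP
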