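import Pool.Agent.W_MP_23c0ba_an.WolffB

/-! The averaged form of the measure lemma of Wolff. -/

set_option autoImplicit false

open MeasureTheory Metric Set Filter Topology
open scoped ENNReal ContDiff NNReal FourierTransform ComplexConjugate

namespace DiracUCP

theorem wolff (n : ℕ) : ∃ (c C : ℝ≥0∞), c ≠ 0 ∧ c ≠ ⊤ ∧ C ≠ 0 ∧ C ≠ ⊤ ∧
    ∀ (μ : Measure (E n)) (K : Set (E n)) (k₀ : E n) (R : ℝ), IsFiniteMeasure μ → μ ≠ 0 →
      IsCompact K → μ Kᶜ = 0 → 0 < R →
      ∃ (𝓔 : Set (E n × E n)) (G : Set (E n)), MeasurableSet 𝓔 ∧ MeasurableSet G ∧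
        G ⊆ closedBall k₀ R ∧ (∀ q ∈ 𝓔, q.2 ∈ K) ∧
        c * volume (closedBall k₀ R) ≤ volume G ∧
        (∀ k ∈ G, c * ∫⁻ x, ENNReal.ofReal (Real.exp (inner ℝ k x)) ∂μ ≤
          ∫⁻ x in {x | (k, x) ∈ 𝓔}, ENNReal.ofReal (Real.exp (inner ℝ k x)) ∂μ) ∧
        (∀ x, ∫⁻ k in G, Set.indicator {k | (k, x) ∈ 𝓔}
          (fun k => volume {x' | (k, x') ∈ 𝓔}) k ≤ C) := by
  obtain ⟨Cs, hCs0, hCst, hCs⟩ := sublevel_volume n
  -- the constant `c₀ = e⁻¹ 2^{-(n+1)} Cs⁻¹`
  set c₀ : ℝ≥0∞ := ENNReal.ofReal (Real.exp (-1)) * ((2 : ℝ≥0∞) ^ (n + 1))⁻¹ * Cs⁻¹ with hc₀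
  have h2n0 : ((2 : ℝ≥0∞) ^ (n + 1)) ≠ 0 := by positivity
  have h2nt : ((2 : ℝ≥0∞) ^ (n + 1)) ≠ ⊤ := ENNReal.pow_ne_top (by norm_num)
  have hc₀0 : c₀ ≠ 0 := by
    refine mul_ne_zero (mul_ne_zero ?_ (ENNReal.inv_ne_zero.mpr h2nt))
      (ENNReal.inv_ne_zero.mpr hCst)
    simp [Real.exp_pos]
  have hc₀t : c₀ ≠ ⊤ :=
    ENNReal.mul_ne_top (ENNReal.mul_ne_top ENNReal.ofReal_ne_top (ENNReal.inv_ne_top.mpr h2n0))
      (ENNReal.inv_ne_top.mpr hCs0)
  refine ⟨c₀ / 2, 2 ^ (n + 1) * 8 ^ n, ?_, ?_, by positivity, ?_, ?_⟩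
  · exact (ENNReal.div_pos hc₀0 (by norm_num)).ne'
  · exact ENNReal.div_ne_top hc₀t (by norm_num)
  · exact ENNReal.mul_ne_top h2nt (ENNReal.pow_ne_top (by norm_num))
  intro μ K k₀ R hfin hμ hK hμK hR
  set 𝓔 := Eset μ K k₀ R with h𝓔
  have h𝓔m : MeasurableSet 𝓔 := measurableSet_Eset hK hμK hμ k₀ R
  set B := closedBall k₀ R with hB
  have hBm : MeasurableSet B := measurableSet_closedBall
  have hcphi := continuous_lphi hK hμK hμ
  -- the normalised density
  set d : E n → E n → ℝ≥0∞ := fun k x => ENNReal.ofReal (Real.exp (inner ℝ k x - lphi μ k)) with hd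
  have hdm : Measurable fun q : E n × E n => d q.1 q.2 := by
    have : Continuous fun q : E n × E n => Real.exp (inner ℝ q.1 q.2 - lphi μ q.1) := by
      exact Real.continuous_exp.comp
        ((continuous_fst.inner continuous_snd).sub (hcphi.comp continuous_fst))
    exact this.measurable.ennreal_ofReal
  set h : E n → E n → ℝ≥0∞ := fun k x => 𝓔.indicator (fun q : E n × E n => d q.1 q.2) (k, x)
    with hh
  have hhm : Measurable fun q : E n × E n => h q.1 q.2 := by
    have := hdm.indicator h𝓔m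
    exact this
  set mf : E n → ℝ≥0∞ := fun k => ∫⁻ x, h k x ∂μ with hmf
  have hmfm : Measurable mf := Measurable.lintegral_prod_right' (ν := μ) hhm
  have hd1 : ∀ k, ∫⁻ x, d k x ∂μ = 1 := fun k => lintegral_exp_sub hK hμK hμ k
  have hmf1 : ∀ k, mf k ≤ 1 := by
    intro k
    rw [← hd1 k]
    exact lintegral_mono fun x => indicator_le_self _ _ (k, x)
  -- the sections
  have hsec : ∀ k, MeasurableSet {x | (k, x) ∈ 𝓔} := fun k => measurable_prodMk_left h𝓔m
  have hmf_eq : ∀ k, mf k = ∫⁻ x in {x | (k, x) ∈ 𝓔}, d k x ∂μ := by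
    intro k
    rw [← lintegral_indicator (hsec k)]
    rfl
  -- key lower bound
  have hkey : ∀ x ∈ K, c₀ * ∫⁻ k in B, d k x ≤ ∫⁻ k in B, h k x := by
    intro x hx
    have hTc := isCompact_Tset hK hμK hμ k₀ R x
    set T := Tset μ k₀ R x with hT
    set A : Set (E n) := {k ∈ T | volume T ≤ 2 ^ (n + 1) *
      volume (T ∩ {t | (2 : ℝ) • k - t ∈ T})} with hA
    have hAB : A ⊆ B := fun k hk => hk.1.1
    have hAm : MeasurableSet A := by
      have h1 : MeasurableSet {k | (k, x) ∈ 𝓔} := measurable_prodMk_right h𝓔m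
      have h2 : {k | (k, x) ∈ 𝓔} = A := by
        ext k
        constructor
        · intro hk; exact ⟨hk.2.1, hk.2.2⟩
        · intro hk; exact ⟨hx, hk.1, hk.2⟩
      rwa [h2] at h1
    have hmid : volume T ≤ 2 ^ (n + 1) * volume A :=
      midpoint_volume T hTc.measurableSet (convex_Tset hK hμK hμ k₀ R x) hTc.measure_lt_top.ne
    have hgapc : Continuous fun k => gap μ k₀ R k x :=
      (continuous_gap hK hμK hμ k₀ R).comp (continuous_id.prodMk continuous_const)
    have hsub : ∫⁻ k in B, ENNReal.ofReal (Real.exp (-gap μ k₀ R k x)) ≤ Cs * volume T :=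
      hCs B (fun k => gap μ k₀ R k x) (convex_closedBall k₀ R) (isCompact_closedBall k₀ R)
        (convexOn_gap hK hμK hμ k₀ R x) hgapc (exists_gap_eq_zero hK hμK hμ k₀ hR x)
        (fun k hk => gap_nonneg hK hμK hμ hk x)
    have hdgap : ∀ k, d k x = ENNReal.ofReal (Real.exp (lpsi μ k₀ R x)) *
        ENNReal.ofReal (Real.exp (-gap μ k₀ R k x)) := by
      intro k
      rw [← ENNReal.ofReal_mul (Real.exp_pos _).le, ← Real.exp_add, hd]
      simp only [gap]
      congr 2
      ring
    set Q := ENNReal.ofReal (Real.exp (lpsi μ k₀ R x)) with hQ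
    have h1 : ∫⁻ k in B, d k x = Q * ∫⁻ k in B, ENNReal.ofReal (Real.exp (-gap μ k₀ R k x)) := by
      simp only [hdgap]
      rw [lintegral_const_mul]
      exact (Real.measurable_exp.comp hgapc.measurable.neg).ennreal_ofReal
    have h2 : Q * (ENNReal.ofReal (Real.exp (-1)) * volume A) ≤ ∫⁻ k in B, h k x := by
      calc Q * (ENNReal.ofReal (Real.exp (-1)) * volume A)
          = ∫⁻ k in A, Q * ENNReal.ofReal (Real.exp (-1)) := by
            rw [setLIntegral_const, mul_assoc]
        _ ≤ ∫⁻ k in A, d k x := by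
            refine setLIntegral_mono' hAm fun k hk => ?_
            rw [hdgap k]
            gcongr
            have := hk.1.2
            linarith
        _ = ∫⁻ k in A, h k x := by
            refine setLIntegral_congr_fun hAm fun k hk => ?_
            have : (k, x) ∈ 𝓔 := ⟨hx, hk.1, hk.2⟩
            simp only [hh]
            rw [indicator_of_mem this]
        _ ≤ ∫⁻ k in B, h k x := lintegral_mono_set hAB
    refine le_trans ?_ h2
    rw [h1]
    calc c₀ * (Q * ∫⁻ k in B, ENNReal.ofReal (Real.exp (-gap μ k₀ R k x)))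
        ≤ c₀ * (Q * (Cs * (2 ^ (n + 1) * volume A))) := by gcongr; exact hsub.trans (by gcongr)
      _ = Q * (ENNReal.ofReal (Real.exp (-1)) * volume A) * ((2 ^ (n + 1))⁻¹ * 2 ^ (n + 1)) *
          (Cs⁻¹ * Cs) := by
          rw [hc₀]; ring
      _ = Q * (ENNReal.ofReal (Real.exp (-1)) * volume A) := by
          rw [ENNReal.inv_mul_cancel h2n0 h2nt, ENNReal.inv_mul_cancel hCs0 hCst, mul_one, mul_one]
      _ ≤ _ := le_rfl
  have hKae : ∀ᵐ x ∂μ, x ∈ K := by
    rw [ae_iff]; exact hμK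
  have hlow : c₀ * volume B ≤ ∫⁻ k in B, mf k := by
    calc c₀ * volume B = c₀ * ∫⁻ k in B, ∫⁻ x, d k x ∂μ := by simp [hd1]
      _ = c₀ * ∫⁻ x, (∫⁻ k in B, d k x) ∂μ := by
          rw [lintegral_lintegral_swap]
          exact hdm.aemeasurable
      _ = ∫⁻ x, (c₀ * ∫⁻ k in B, d k x) ∂μ := by
          rw [lintegral_const_mul]
          exact Measurable.lintegral_prod_left' (μ := volume.restrict B) hdm
      _ ≤ ∫⁻ x, (∫⁻ k in B, h k x) ∂μ := by
          refine lintegral_mono_ae ?_
          filter_upwards [hKae] with x hx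
          exact hkey x hx
      _ = ∫⁻ k in B, mf k := by
          rw [hmf, lintegral_lintegral_swap (f := fun x k => h k x)]
          exact (hhm.comp measurable_swap).aemeasurable
  -- the good set
  set G : Set (E n) := B ∩ {k | c₀ / 2 ≤ mf k} with hG
  have hGm : MeasurableSet G := hBm.inter (measurableSet_le measurable_const hmfm)
  have hBt : volume B ≠ ⊤ := (isCompact_closedBall k₀ R).measure_lt_top.ne
  refine ⟨𝓔, G, h𝓔m, hGm, inter_subset_left, fun q hq => hq.1, ?_, ?_, ?_⟩
  · have h1 : ∫⁻ k in B, mf k ≤ volume G + c₀ / 2 * volume B := by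
      calc ∫⁻ k in B, mf k ≤ ∫⁻ k in B, (G.indicator 1 k + c₀ / 2) := by
            refine setLIntegral_mono' hBm fun k hk => ?_
            by_cases hkG : k ∈ G
            · rw [indicator_of_mem hkG]
              exact (hmf1 k).trans (by simp)
            · rw [indicator_of_notMem hkG, zero_add]
              have : ¬ (c₀ / 2 ≤ mf k) := fun hc => hkG ⟨hk, hc⟩
              exact (not_le.mp this).le
        _ = volume (G ∩ B) + c₀ / 2 * volume B := by
            rw [lintegral_add_right _ measurable_const, lintegral_indicator_one hGm,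
              Measure.restrict_apply hGm, lintegral_const, Measure.restrict_apply_univ]
        _ ≤ _ := by gcongr; exact inter_subset_left
    have h2 := hlow.trans h1
    have h3 : c₀ * volume B = c₀ / 2 * volume B + c₀ / 2 * volume B := by
      rw [← add_mul, ENNReal.add_halves]
    rw [h3] at h2
    exact (ENNReal.add_le_add_iff_right
      (ENNReal.mul_ne_top (ENNReal.div_ne_top hc₀t (by norm_num)) hBt)).mp h2
  · intro k hk
    have h1 : c₀ / 2 ≤ ∫⁻ x in {x | (k, x) ∈ 𝓔}, d k x ∂μ := by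
      rw [← hmf_eq]; exact hk.2
    have h2 : ∀ x, ENNReal.ofReal (Real.exp (inner ℝ k x)) =
        ENNReal.ofReal (Real.exp (lphi μ k)) * d k x := by
      intro x
      rw [hd]
      simp only
      rw [← ENNReal.ofReal_mul (Real.exp_pos _).le, ← Real.exp_add]
      congr 2
      ring
    have hdk : Measurable (d k) := by
      have h : Continuous fun x : E n => Real.exp (inner ℝ k x - lphi μ k) := by fun_prop
      exact h.measurable.ennreal_ofReal
    simp only [h2]
    rw [lintegral_const_mul _ hdk, lintegral_const_mul _ hdk, hd1, mul_one, mul_comm]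
    gcongr
  · intro x
    have hTc := isCompact_Tset hK hμK hμ k₀ R x
    set T := Tset μ k₀ R x with hT
    by_cases hT0 : volume T = 0
    · -- impossible unless the section is negligible; the integral vanishes
      have h0 : ∀ k, Set.indicator {k | (k, x) ∈ 𝓔} (fun k => volume {x' | (k, x') ∈ 𝓔}) k ≤
          T.indicator (fun k => volume {x' | (k, x') ∈ 𝓔}) k := by
        intro k
        by_cases hk : (k, x) ∈ 𝓔
        · rw [indicator_of_mem (show k ∈ {k | (k, x) ∈ 𝓔} from hk), indicator_of_mem hk.2.1]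
        · rw [indicator_of_notMem (show k ∉ {k | (k, x) ∈ 𝓔} from hk)]
          exact zero_le
      calc ∫⁻ k in G, Set.indicator {k | (k, x) ∈ 𝓔} (fun k => volume {x' | (k, x') ∈ 𝓔}) k
          ≤ ∫⁻ k in G, T.indicator (fun k => volume {x' | (k, x') ∈ 𝓔}) k :=
            lintegral_mono fun k => h0 k
        _ ≤ ∫⁻ k, T.indicator (fun k => volume {x' | (k, x') ∈ 𝓔}) k :=
            setLIntegral_le_lintegral _ _
        _ = ∫⁻ k in T, volume {x' | (k, x') ∈ 𝓔} := lintegral_indicator hTc.measurableSet _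
        _ = 0 := setLIntegral_measure_zero _ _ hT0
        _ ≤ _ := zero_le
    · have hTt : volume T ≠ ⊤ := hTc.measure_lt_top.ne
      set C₁ : ℝ≥0∞ := 2 ^ (n + 1) * 8 ^ n with hC₁
      have h0 : ∀ k, Set.indicator {k | (k, x) ∈ 𝓔} (fun k => volume {x' | (k, x') ∈ 𝓔}) k ≤
          T.indicator (fun _ => C₁ / volume T) k := by
        intro k
        by_cases hk : (k, x) ∈ 𝓔
        · rw [indicator_of_mem (show k ∈ {k | (k, x) ∈ 𝓔} from hk), indicator_of_mem hk.2.1]
          rw [ENNReal.le_div_iff_mul_le (Or.inl hT0) (Or.inl hTt)]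
          exact section_volume hK hμK hμ hk
        · rw [indicator_of_notMem (show k ∉ {k | (k, x) ∈ 𝓔} from hk)]
          exact zero_le
      calc ∫⁻ k in G, Set.indicator {k | (k, x) ∈ 𝓔} (fun k => volume {x' | (k, x') ∈ 𝓔}) k
          ≤ ∫⁻ k in G, T.indicator (fun _ => C₁ / volume T) k :=
            lintegral_mono fun k => h0 k
        _ ≤ ∫⁻ k, T.indicator (fun _ => C₁ / volume T) k :=
            setLIntegral_le_lintegral _ _
        _ = ∫⁻ k in T, C₁ / volume T := lintegral_indicator hTc.measurableSet _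
        _ = C₁ / volume T * volume T := by rw [setLIntegral_const]
        _ ≤ C₁ := by rw [ENNReal.div_mul_cancel hT0 hTt]

end DiracUCP
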