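import Pool.Agent.W_MP_23c0ba_an.CarlAdm
import Pool.Agent.W_MP_23c0ba_an.Wolff

/-! The normalised local statement in dimension n ≥ 3. -/

set_option autoImplicit false

open MeasureTheory Metric Set Filter Topology
open scoped ENNReal ContDiff NNReal FourierTransform ComplexConjugate

namespace DiracUCP

variable {n : ℕ} {S : Type} [NormedAddCommGroup S] [InnerProductSpace ℂ S]
  [FiniteDimensional ℂ S] [CompleteSpace S]

namespace NLHigh

/-- The real exponent `2n/(n+2)`. -/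
noncomputable def pr (n : ℕ) : ℝ := 2 * n / (n + 2)

theorem pr_ge (hn : 3 ≤ n) : 1 ≤ pr n := by
  have h : (3 : ℝ) ≤ n := by exact_mod_cast hn
  rw [pr, le_div_iff₀ (by positivity)]
  linarith

theorem pr_le (n : ℕ) : pr n ≤ 2 := by
  rw [pr, div_le_iff₀ (by positivity)]
  linarith

theorem pe_toReal (hn : 3 ≤ n) : (pe n).toReal = pr n := by
  rw [pe, ENNReal.toReal_ofReal]
  · rfl
  · positivity

theorem pe_ne_top (n : ℕ) : pe n ≠ ⊤ := ENNReal.ofReal_ne_top

theorem one_le_pe (hn : 3 ≤ n) : 1 ≤ pe n := by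
  rw [pe, ← ENNReal.ofReal_one]
  exact ENNReal.ofReal_le_ofReal (pr_ge hn)

theorem pe_ne_zero (hn : 3 ≤ n) : pe n ≠ 0 :=
  (zero_lt_one.trans_le (one_le_pe hn)).ne'

theorem pe_le_two (n : ℕ) : pe n ≤ 2 := by
  have : (2 : ℝ≥0∞) = ENNReal.ofReal 2 := by simp
  rw [pe, this]
  exact ENNReal.ofReal_le_ofReal (pr_le n)

theorem holder_pe (hn : 3 ≤ n) : ENNReal.HolderTriple (n : ℝ≥0∞) 2 (pe n) := by
  constructor
  have h : (3 : ℝ) ≤ n := by exact_mod_cast hn
  have e1 : (n : ℝ≥0∞) = ENNReal.ofReal n := by simp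
  have e2 : (2 : ℝ≥0∞) = ENNReal.ofReal 2 := by simp
  rw [e1, pe, e2, ← ENNReal.ofReal_inv_of_pos (by linarith), ← ENNReal.ofReal_inv_of_pos (by norm_num),
    ← ENNReal.ofReal_inv_of_pos (by positivity), ← ENNReal.ofReal_add (by positivity) (by positivity)]
  congr 1
  field_simp
  ring

/-- Existence of a good `ε`. -/
theorem exists_eps {a M L b : ℝ≥0∞} (ha : a ≠ ⊤) (hM : M ≠ ⊤) (hL : L ≠ 0) (hb : b ≠ 0) {n : ℕ}
    (hn : n ≠ 0) : ∃ ε : ℝ≥0∞, ε ≠ 0 ∧ a * ε ≤ b ∧ M * ε ^ n < L := by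
  have h1 : Tendsto (fun ε : ℝ≥0∞ => a * ε) (𝓝[>] 0) (𝓝 0) := by
    have := ENNReal.Tendsto.const_mul (a := a) (tendsto_id (x := 𝓝 (0 : ℝ≥0∞))) (Or.inr ha)
    simp only [id, mul_zero] at this
    exact this.mono_left nhdsWithin_le_nhds
  have h2 : Tendsto (fun ε : ℝ≥0∞ => M * ε ^ n) (𝓝[>] 0) (𝓝 0) := by
    have h3 : Tendsto (fun ε : ℝ≥0∞ => ε ^ n) (𝓝 0) (𝓝 (0 ^ n)) := by
      exact (ENNReal.continuous_pow n).tendsto 0
    rw [zero_pow hn] at h3
    have := ENNReal.Tendsto.const_mul (a := M) h3 (Or.inr hM)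
    simp only [mul_zero] at this
    exact this.mono_left nhdsWithin_le_nhds
  have h4 := h1.eventually (gt_mem_nhds (pos_iff_ne_zero.2 hb))
  have h5 := h2.eventually (gt_mem_nhds (pos_iff_ne_zero.2 hL))
  obtain ⟨ε, h6, h7, h8⟩ := (h4.and (h5.and self_mem_nhdsWithin)).exists
  exact ⟨ε, (pos_iff_ne_zero.1 h8), h6.le, h7⟩

/-- The factor `exp(-3λ/256) (1 + 2 λ b)` is small for large `λ`. -/
theorem exists_lambda {b : ℝ≥0∞} (hb : b ≠ ⊤) {B L : ℝ≥0∞} (hB : B ≠ ⊤) (hL : L ≠ 0) :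
    ∃ l : ℝ, 0 < l ∧ ENNReal.ofReal (Real.exp (-(3 * l / 256))) *
      (1 + ENNReal.ofReal (2 * l) * b) * B ≤ L := by
  have h1 : Tendsto (fun l : ℝ => Real.exp (-(3 * l / 256)) * (1 + 2 * l * b.toReal)) atTop
      (𝓝 0) := by
    have h2 : Tendsto (fun l : ℝ => Real.exp (-(3 * l / 256))) atTop (𝓝 0) := by
      apply Real.tendsto_exp_neg_atTop_nhds_zero.comp
      exact (tendsto_id.const_mul_atTop (by norm_num : (0 : ℝ) < 3)).atTop_div_const (by norm_num)
    have h3 : Tendsto (fun l : ℝ => (3 * l / 256) * Real.exp (-(3 * l / 256))) atTop (𝓝 0) := by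
      have h4 := Real.tendsto_pow_mul_exp_neg_atTop_nhds_zero 1
      have h5 : Tendsto (fun l : ℝ => 3 * l / 256) atTop atTop :=
        (tendsto_id.const_mul_atTop (by norm_num : (0 : ℝ) < 3)).atTop_div_const (by norm_num)
      have := h4.comp h5
      simpa [Function.comp_def] using this
    have h6 := h2.add (h3.const_mul (2 * b.toReal * 256 / 3))
    simp only [mul_zero, add_zero] at h6
    refine h6.congr (fun l => ?_)
    ring
  have h2 : Tendsto (fun l : ℝ => ENNReal.ofReal (Real.exp (-(3 * l / 256)) *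
      (1 + 2 * l * b.toReal)) * B) atTop (𝓝 0) := by
    have := ENNReal.Tendsto.mul_const (b := B) (ENNReal.tendsto_ofReal h1) (Or.inr hB)
    simpa using this
  obtain ⟨l, hl, hl0⟩ := ((h2.eventually (gt_mem_nhds (pos_iff_ne_zero.2 hL))).and
    (eventually_gt_atTop 0)).exists
  refine ⟨l, hl0, ?_⟩
  refine le_trans (le_of_eq ?_) hl.le
  congr 1
  rw [ENNReal.ofReal_mul (Real.exp_pos _).le, ENNReal.ofReal_add (by norm_num) (by positivity),
    ENNReal.ofReal_mul (p := 2 * l) (by positivity), ENNReal.ofReal_toReal hb, ENNReal.ofReal_one]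

/-- Geometry: the exponent on the support of `h`. -/
theorem inner_h_le {k y y₀ : E n} {l : ℝ} (hl : 0 < l) (hk : ‖k - l • y₀‖ ≤ l / 16)
    (hy₀ : ‖y₀‖ = 1) (h1 : ‖y‖ ≤ 1) (h2 : 1 / 4 ≤ ‖y - y₀‖) :
    (inner ℝ k y : ℝ) ≤ inner ℝ k y₀ - l / 64 := by
  have e0 : (inner ℝ k (y - y₀) : ℝ) ≤ - (l / 64) := by
    have e1 : (inner ℝ k (y - y₀) : ℝ) = inner ℝ (k - l • y₀) (y - y₀) +
        l * inner ℝ y₀ (y - y₀) := by
      rw [inner_sub_left, inner_smul_left]
      simp
    have e2 : (inner ℝ (k - l • y₀) (y - y₀) : ℝ) ≤ l / 16 * ‖y - y₀‖ :=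
      (real_inner_le_norm _ _).trans (mul_le_mul_of_nonneg_right hk (norm_nonneg _))
    have e3 : (inner ℝ y₀ (y - y₀) : ℝ) ≤ - (‖y - y₀‖ ^ 2 / 2) := by
      have e4 : ‖y‖ ^ 2 = ‖y₀ + (y - y₀)‖ ^ 2 := by congr 2; abel
      rw [norm_add_sq_real, hy₀] at e4
      have e5 : ‖y‖ ^ 2 ≤ 1 := by
        have := norm_nonneg y
        nlinarith
      linarith
    have e6 : l * (inner ℝ y₀ (y - y₀) : ℝ) ≤ l * (- (‖y - y₀‖ ^ 2 / 2)) :=
      mul_le_mul_of_nonneg_left e3 hl.le
    have e7 : 0 ≤ l * ((‖y - y₀‖ - 1 / 4) * (‖y - y₀‖ + 1 / 8)) :=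
      mul_nonneg hl.le (mul_nonneg (by linarith) (by linarith))
    rw [e1]
    nlinarith
  rw [inner_sub_right] at e0
  linarith

theorem norm_k_le {k y₀ : E n} {l : ℝ} (hl : 0 < l) (hk : ‖k - l • y₀‖ ≤ l / 16)
    (hy₀ : ‖y₀‖ = 1) : ‖k‖ ≤ 17 / 16 * l := by
  have : k = (k - l • y₀) + l • y₀ := by abel
  rw [this]
  refine (norm_add_le _ _).trans ?_
  rw [norm_smul, hy₀, Real.norm_of_nonneg hl.le]
  linarith

theorem inner_v_ge {k y y₀ : E n} {l : ℝ} (hl : 0 < l) (hk : ‖k - l • y₀‖ ≤ l / 16)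
    (hy₀ : ‖y₀‖ = 1) (h1 : y ∈ ball y₀ (1 / 512)) :
    (inner ℝ k y₀ : ℝ) - l / 256 ≤ inner ℝ k y := by
  have h2 : ‖y - y₀‖ < 1 / 512 := by rwa [mem_ball, dist_eq_norm] at h1
  have h3 := abs_real_inner_le_norm k (y - y₀)
  have h4 : ‖k‖ * ‖y - y₀‖ ≤ (17 / 16 * l) * (1 / 512) :=
    mul_le_mul (norm_k_le hl hk hy₀) h2.le (norm_nonneg _) (by positivity)
  rw [inner_sub_right] at h3
  have := (abs_le.1 h3).1
  linarith


/-- Abbreviation for the weighted function. -/
noncomputable def wt {F : Type} [NormedAddCommGroup F] [NormedSpace ℝ F] (k : E n) (f : E n → F)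
    (x : E n) : F := Real.exp (inner ℝ k x) • f x

theorem wt_meas {F : Type} [NormedAddCommGroup F] [NormedSpace ℝ F] (k : E n) {f : E n → F}
    {μ : Measure (E n)} (hf : AEStronglyMeasurable f μ) : AEStronglyMeasurable (wt k f) μ := by
  have : Continuous (fun x : E n => Real.exp (inner ℝ k x)) := by fun_prop
  exact this.aestronglyMeasurable.smul hf

theorem norm_wt {F : Type} [NormedAddCommGroup F] [NormedSpace ℝ F] (k : E n) (f : E n → F)
    (x : E n) : ‖wt k f x‖ = Real.exp (inner ℝ k x) * ‖f x‖ := by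
  rw [wt, norm_smul, Real.norm_of_nonneg (Real.exp_pos _).le]

theorem memLp_wt {F : Type} [NormedAddCommGroup F] [NormedSpace ℝ F] (k : E n) {f : E n → F}
    {K : Set (E n)} (hK : IsCompact K) (hf : MemLp f 2 volume) (hs : ∀ᵐ y, f y ≠ 0 → y ∈ K) :
    MemLp (wt k f) (pe n) volume := by
  have hKm : MeasurableSet K := hK.measurableSet
  have : IsFiniteMeasure (volume.restrict K) := ⟨by
    rw [Measure.restrict_apply_univ]; exact hK.measure_lt_top⟩
  have h1 : MemLp f (pe n) (volume.restrict K) := (hf.restrict K).mono_exponent (pe_le_two n)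
  obtain ⟨M, hM⟩ : ∃ M, ∀ y ∈ K, ‖Real.exp (inner ℝ k y)‖ ≤ M := by
    have : Continuous (fun x : E n => Real.exp (inner ℝ k x)) := by fun_prop
    exact hK.exists_bound_of_continuousOn this.continuousOn
  have h2 : MemLp (wt k f) (pe n) (volume.restrict K) := by
    refine h1.of_le_mul (c := M) (wt_meas k h1.1) ?_
    filter_upwards [ae_restrict_mem hKm] with x hx
    rw [norm_wt]
    refine mul_le_mul_of_nonneg_right ?_ (norm_nonneg _)
    exact (Real.le_norm_self _).trans (hM x hx)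
  rw [← memLp_indicator_iff_restrict hKm] at h2
  refine h2.ae_eq ?_
  filter_upwards [hs] with x hx
  by_cases hxK : x ∈ K
  · simp [hxK]
  · have : f x = 0 := by
      by_contra h
      exact hxK (hx h)
    simp [hxK, wt, this]

/-- If `wt k f` vanishes in `L^p` then `f = 0` a.e. -/
theorem wt_eLpNorm_eq_zero {F : Type} [NormedAddCommGroup F] [NormedSpace ℝ F] (k : E n)
    {f : E n → F} {μ : Measure (E n)} (hf : AEStronglyMeasurable f μ) {p : ℝ≥0∞} (hp : p ≠ 0)
    (h : eLpNorm (wt k f) p μ = 0) : f =ᵐ[μ] 0 := by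
  rw [eLpNorm_eq_zero_iff (wt_meas k hf) hp] at h
  filter_upwards [h] with x hx
  simpa [wt, (Real.exp_pos _).ne'] using hx

omit [FiniteDimensional ℂ S] [CompleteSpace S] in
/-- Absorption of `h`. -/
theorem absorb (hn : 3 ≤ n) (A : Cliff n S) {C : ℝ≥0}
    (hC : ∀ (k : E n) (v f : E n → S) (T : Set (E n)), k ≠ 0 → Adm A v f →
      MeasurableSet T → volume T ≠ ⊤ →
      eLpNorm (fun x => Real.exp (inner ℝ k x) • v x) 2 (volume.restrict T) ≤
        C * (1 + ‖k‖ₑ * volume T ^ (1 / (n : ℝ))) *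
          eLpNorm (fun x => Real.exp (inner ℝ k x) • f x) (pe n) volume)
    {v f : E n → S} {h : E n → ℝ} {y₀ : E n} (hvf : Adm A v f) (hy₀ : ‖y₀‖ = 1)
    (hh : MemLp h 2 volume)
    (hh2 : ∀ᵐ y, h y ≠ 0 → ‖y‖ ≤ 1 ∧ 1 / 4 ≤ ‖y - y₀‖ ∧ ‖y - y₀‖ ≤ 1 / 2)
    (hv : eLpNorm v 2 (volume.restrict (ball y₀ (1 / 512))) ≠ 0) {δ : ℝ≥0∞} (hδ : δ ≠ 0) :
    ∃ l : ℝ, 0 < l ∧ ∀ k : E n, ‖k - l • y₀‖ ≤ l / 16 →
      eLpNorm (wt k h) (pe n) volume ≤ δ * eLpNorm (wt k f) (pe n) volume := by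
  set B₀ : Set (E n) := ball y₀ (1 / 512) with hB₀
  set a : ℝ≥0∞ := eLpNorm v 2 (volume.restrict B₀) with ha
  have ha' : a ≠ ⊤ := (hvf.memv.restrict B₀).2.ne
  have hB₀v : volume B₀ ≠ ⊤ := measure_ball_lt_top.ne
  have hhp : eLpNorm h (pe n) volume ≠ ⊤ := by
    have h1 := memLp_wt (0 : E n) (f := h) (K := closedBall y₀ (1 / 2))
      (isCompact_closedBall _ _) hh (by
        filter_upwards [hh2] with y hy h0
        rw [mem_closedBall, dist_eq_norm]
        exact (hy h0).2.2)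
    have h2 : wt (0 : E n) h = h := by
      funext x
      simp [wt]
    rw [h2] at h1
    exact h1.2.ne
  set b : ℝ≥0∞ := volume B₀ ^ (1 / (n : ℝ)) with hb
  have hb' : b ≠ ⊤ := ENNReal.rpow_ne_top_of_nonneg (by positivity) hB₀v
  obtain ⟨l, hl, hl2⟩ := exists_lambda (b := b) hb' (B := C * eLpNorm h (pe n) volume)
    (L := δ * a) (ENNReal.mul_ne_top ENNReal.coe_ne_top hhp) (mul_ne_zero hδ hv)
  refine ⟨l, hl, fun k hk => ?_⟩
  have hk0 : k ≠ 0 := by
    rintro rfl
    rw [zero_sub, norm_neg, norm_smul, hy₀, Real.norm_of_nonneg hl.le] at hk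
    linarith
  set N := eLpNorm (wt k f) (pe n) volume with hN
  have h1 : eLpNorm (wt k v) 2 (volume.restrict B₀) ≤ C * (1 + ‖k‖ₑ * b) * N :=
    hC k v f B₀ hk0 hvf measurableSet_ball hB₀v
  have h2 : a ≤ ENNReal.ofReal (Real.exp (-((inner ℝ k y₀ : ℝ) - l / 256))) *
      eLpNorm (wt k v) 2 (volume.restrict B₀) := by
    refine eLpNorm_le_mul_eLpNorm_of_ae_le_mul ?_ 2
    filter_upwards [ae_restrict_mem measurableSet_ball] with x hx
    rw [norm_wt, ← mul_assoc, ← Real.exp_add]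
    refine le_mul_of_one_le_left (norm_nonneg _) ?_
    rw [Real.one_le_exp_iff]
    have := inner_v_ge hl hk hy₀ hx
    linarith
  have h3 : eLpNorm (wt k h) (pe n) volume ≤
      ENNReal.ofReal (Real.exp ((inner ℝ k y₀ : ℝ) - l / 64)) * eLpNorm h (pe n) volume := by
    refine eLpNorm_le_mul_eLpNorm_of_ae_le_mul ?_ (pe n)
    filter_upwards [hh2] with x hx
    rw [norm_wt]
    by_cases h0 : h x = 0
    · simp [h0]
    · refine mul_le_mul_of_nonneg_right ?_ (norm_nonneg _)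
      exact Real.exp_le_exp.2 (inner_h_le hl hk hy₀ (hx h0).1 (hx h0).2.1)
  have hke : ‖k‖ₑ ≤ ENNReal.ofReal (2 * l) := by
    rw [← ofReal_norm]
    exact ENNReal.ofReal_le_ofReal ((norm_k_le hl hk hy₀).trans (by linarith))
  have h4 : a * eLpNorm (wt k h) (pe n) volume ≤ a * (δ * N) := by
    calc a * eLpNorm (wt k h) (pe n) volume
        ≤ (ENNReal.ofReal (Real.exp (-((inner ℝ k y₀ : ℝ) - l / 256))) *
          (C * (1 + ‖k‖ₑ * b) * N)) *
          (ENNReal.ofReal (Real.exp ((inner ℝ k y₀ : ℝ) - l / 64)) * eLpNorm h (pe n) volume) :=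
          mul_le_mul' (h2.trans (mul_le_mul' le_rfl h1)) h3
      _ = (ENNReal.ofReal (Real.exp (-((inner ℝ k y₀ : ℝ) - l / 256))) *
          ENNReal.ofReal (Real.exp ((inner ℝ k y₀ : ℝ) - l / 64))) *
          (1 + ‖k‖ₑ * b) * (C * eLpNorm h (pe n) volume) * N := by ring
      _ = ENNReal.ofReal (Real.exp (-(3 * l / 256))) *
          (1 + ‖k‖ₑ * b) * (C * eLpNorm h (pe n) volume) * N := by
          rw [← ENNReal.ofReal_mul (Real.exp_pos _).le, ← Real.exp_add]
          congr 5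
          ring
      _ ≤ ENNReal.ofReal (Real.exp (-(3 * l / 256))) *
          (1 + ENNReal.ofReal (2 * l) * b) * (C * eLpNorm h (pe n) volume) * N := by
          gcongr
      _ ≤ δ * a * N := mul_le_mul' hl2 le_rfl
      _ = a * (δ * N) := by ring
  exact (ENNReal.mul_le_mul_iff_right hv ha').1 h4

omit [FiniteDimensional ℂ S] [CompleteSpace S] in
/-- The pointwise inequality gives the localized bound. -/
theorem local_bound (hn : 3 ≤ n) {v f : E n → S} {W h : E n → ℝ}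
    (hv : AEStronglyMeasurable v volume) (hW : AEStronglyMeasurable W volume)
    (hh : AEStronglyMeasurable h volume)
    (hineq : ∀ᵐ y, ‖f y‖ ≤ W y * ‖v y‖ + h y) (k : E n) (T : Set (E n)) :
    eLpNorm (wt k f) (pe n) (volume.restrict T) ≤
      eLpNorm W n (volume.restrict T) * eLpNorm (wt k v) 2 (volume.restrict T) +
        eLpNorm (wt k h) (pe n) volume := by
  have := holder_pe hn
  have h1 : eLpNorm (wt k f) (pe n) (volume.restrict T) ≤
      eLpNorm ((W • fun x => ‖wt k v x‖) + wt k h) (pe n) (volume.restrict T) := by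
    refine eLpNorm_mono_ae ?_
    filter_upwards [ae_restrict_of_ae hineq] with x hx
    rw [norm_wt]
    refine le_trans ?_ (Real.le_norm_self _)
    have := mul_le_mul_of_nonneg_left hx (Real.exp_pos (inner ℝ k x)).le
    have hn' := norm_wt k v x
    simp only [Pi.add_apply, Pi.mul_apply, smul_eq_mul, hn']
    simp only [wt, smul_eq_mul]
    linarith
  refine h1.trans ?_
  refine (eLpNorm_add_le ?_ ?_ (one_le_pe hn)).trans ?_
  · exact hW.restrict.smul (wt_meas k hv.restrict).norm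
  · exact wt_meas k hh.restrict
  refine add_le_add ?_ (eLpNorm_mono_measure _ Measure.restrict_le_self)
  refine (eLpNorm_smul_le_mul_eLpNorm (p := n) (q := 2) (wt_meas k hv.restrict).norm
    hW.restrict).trans ?_
  rw [eLpNorm_norm]


/-- Fubini for the averaged estimate. -/
theorem fubini {w : E n → ℝ≥0∞} (hw : Measurable w) {𝓔 : Set (E n × E n)} {G : Set (E n)}
    (h𝓔 : MeasurableSet 𝓔) {Cw : ℝ≥0∞}
    (hC : ∀ x, ∫⁻ k in G, Set.indicator {k | (k, x) ∈ 𝓔}
          (fun k => volume {x' | (k, x') ∈ 𝓔}) k ≤ Cw) :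
    ∫⁻ k in G, volume {x' | (k, x') ∈ 𝓔} * ∫⁻ x in {x' | (k, x') ∈ 𝓔}, w x ≤
      Cw * ∫⁻ x, w x := by
  have hm : Measurable fun k : E n => (volume : Measure (E n)) {x' | (k, x') ∈ 𝓔} :=
    measurable_measure_prodMk_left h𝓔
  have hs : ∀ k : E n, MeasurableSet {x' | (k, x') ∈ 𝓔} := fun k => measurable_prodMk_left h𝓔
  have e1 : ∀ k : E n, volume {x' | (k, x') ∈ 𝓔} * ∫⁻ x in {x' | (k, x') ∈ 𝓔}, w x =
      ∫⁻ x, w x * Set.indicator {k | (k, x) ∈ 𝓔} (fun k => volume {x' | (k, x') ∈ 𝓔}) k := by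
    intro k
    rw [← lintegral_indicator (hs k), ← lintegral_const_mul _ (hw.indicator (hs k))]
    refine lintegral_congr fun x => ?_
    by_cases hx : (k, x) ∈ 𝓔
    · simp [Set.indicator, hx, mul_comm]
    · simp [Set.indicator, hx]
  simp_rw [e1]
  rw [lintegral_lintegral_swap]
  · calc ∫⁻ x, ∫⁻ k in G, w x * Set.indicator {k | (k, x) ∈ 𝓔}
          (fun k => volume {x' | (k, x') ∈ 𝓔}) k
        = ∫⁻ x, w x * ∫⁻ k in G, Set.indicator {k | (k, x) ∈ 𝓔}
          (fun k => volume {x' | (k, x') ∈ 𝓔}) k := by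
          refine lintegral_congr fun x => ?_
          rw [lintegral_const_mul]
          exact hm.indicator (measurable_prodMk_right h𝓔)
      _ ≤ ∫⁻ x, w x * Cw := lintegral_mono fun x => mul_le_mul' le_rfl (hC x)
      _ = Cw * ∫⁻ x, w x := by
          rw [lintegral_mul_const _ hw, mul_comm]
  · refine Measurable.aemeasurable ?_
    have : (Function.uncurry fun (k x : E n) => w x * Set.indicator {k | (k, x) ∈ 𝓔}
        (fun k => volume {x' | (k, x') ∈ 𝓔}) k) =
        fun q : E n × E n => w q.2 * Set.indicator 𝓔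
          (fun q => volume {x' | (q.1, x') ∈ 𝓔}) q := by
      funext q
      rcases q with ⟨k, x⟩
      by_cases hx : (k, x) ∈ 𝓔
      · simp [Function.uncurry, Set.indicator, hx]
      · simp [Function.uncurry, Set.indicator, hx]
    rw [this]
    exact (hw.comp measurable_snd).mul ((hm.comp measurable_fst).indicator h𝓔)

/-- The `L^p` norm of the weighted function in terms of the measure with density. -/
theorem lintegral_mu {F : Type} [NormedAddCommGroup F] [NormedSpace ℝ F] {f : E n → F}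
    (hf : AEStronglyMeasurable f volume) (hn : 3 ≤ n) (k : E n) {T : Set (E n)}
    (hT : MeasurableSet T) :
    ∫⁻ x in T, ENNReal.ofReal (Real.exp (inner ℝ (pr n • k) x))
      ∂(volume.withDensity fun x => ‖f x‖ₑ ^ pr n) =
      eLpNorm (wt k f) (pe n) (volume.restrict T) ^ pr n := by
  have hp0 : 0 < pr n := zero_lt_one.trans_le (pr_ge hn)
  rw [setLIntegral_withDensity_eq_lintegral_mul₀ (hf.enorm.pow_const _)
    (by fun_prop) hT, eLpNorm_eq_lintegral_rpow_enorm_toReal (pe_ne_zero hn) (pe_ne_top n),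
    pe_toReal hn, ← ENNReal.rpow_mul, one_div, inv_mul_cancel₀ hp0.ne', ENNReal.rpow_one]
  refine lintegral_congr fun x => ?_
  rw [Pi.mul_apply, wt, enorm_smul, ENNReal.mul_rpow_of_nonneg _ _ hp0.le, mul_comm]
  congr 1
  rw [Real.enorm_of_nonneg (Real.exp_pos _).le,
    ENNReal.ofReal_rpow_of_pos (Real.exp_pos _), inner_smul_left, ← Real.exp_mul]
  congr 2
  simp [mul_comm]


end NLHigh

open NLHigh

theorem nl_high (hn : 3 ≤ n) (A : Cliff n S) : ∃ ε : ℝ≥0∞, ε ≠ 0 ∧ NL A ε := by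
  obtain ⟨C₁, hC₁⟩ := carleman_adm hn A
  obtain ⟨c, Cw, hc0, hct, hCw0, hCwt, hwolff⟩ := wolff n
  have hp0 : 0 < pr n := zero_lt_one.trans_le (pr_ge hn)
  have hn0 : n ≠ 0 := by omega
  have hnr : (0 : ℝ) < n := by positivity
  -- constants
  set c' : ℝ≥0∞ := c ^ (1 / pr n) with hc'
  have hc'0 : c' ≠ 0 := by
    rw [hc', ne_eq, ENNReal.rpow_eq_zero_iff]
    simp [hc0, hct]
  have hc't : c' ≠ ⊤ := ENNReal.rpow_ne_top_of_nonneg (by positivity) hct
  set wn : ℝ≥0∞ := volume (ball (0 : E n) 1) with hwn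
  have hwn0 : wn ≠ 0 := (measure_ball_pos volume _ one_pos).ne'
  set L : ℝ≥0∞ := (c' / 2) ^ n * (c * (ENNReal.ofReal (pr n / 16) ^ n * wn)) with hL
  have hL0 : L ≠ 0 := by
    refine mul_ne_zero (pow_ne_zero _ ?_) (mul_ne_zero hc0 (mul_ne_zero (pow_ne_zero _ ?_) hwn0))
    · exact (ENNReal.div_pos hc'0 (by simp)).ne'
    · exact (ENNReal.ofReal_pos.2 (by positivity)).ne'
  obtain ⟨ε, hε0, hε1, hε2⟩ := exists_eps (a := (C₁ : ℝ≥0∞)) (M := (C₁ * 2) ^ n * Cw) (L := L)
    (b := c' / 4) ENNReal.coe_ne_top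
    (ENNReal.mul_ne_top (ENNReal.pow_ne_top (ENNReal.mul_ne_top ENNReal.coe_ne_top (by simp)))
      hCwt) hL0 (ENNReal.div_pos hc'0 (by simp)).ne' hn0
  refine ⟨ε, hε0, ?_⟩
  intro v f W h y₀ hvf hy₀ hWm hW0 hWε hh hv2 hh2 hineq
  by_contra hcon
  set B₀ : Set (E n) := ball y₀ (1 / 512) with hB₀
  have hB₀v : volume B₀ ≠ ⊤ := measure_ball_lt_top.ne
  -- `v` does not vanish on the ball
  have hv : eLpNorm v 2 (volume.restrict B₀) ≠ 0 := by
    intro h0
    apply hcon
    rw [eLpNorm_eq_zero_iff hvf.memv.1.restrict (by simp)] at h0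
    have := (ae_restrict_iff' (measurableSet_ball)).1 h0
    filter_upwards [this] with y hy hyB
    exact hy hyB
  -- `f` is supported in the ball
  set K : Set (E n) := closedBall y₀ (1 / 2) with hK
  have hKc : IsCompact K := isCompact_closedBall _ _
  have hfK : ∀ᵐ y, f y ≠ 0 → y ∈ K := by
    filter_upwards [hv2, hh2, hineq] with y h1 h2 h3 h4
    by_contra h5
    have h6 : v y = 0 := by
      by_contra h7
      exact h5 (by rw [hK, mem_closedBall, dist_eq_norm]; exact (h1 h7).2)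
    have h7 : h y = 0 := by
      by_contra h8
      exact h5 (by rw [hK, mem_closedBall, dist_eq_norm]; exact (h2 h8).2.2)
    rw [h6, h7] at h3
    simp only [norm_zero, mul_zero, add_zero] at h3
    exact h4 (norm_le_zero_iff.1 h3)
  -- the weighted norms of `f` are positive and finite
  have hNt : ∀ k : E n, eLpNorm (wt k f) (pe n) volume ≠ ⊤ := fun k =>
    (memLp_wt k hKc hvf.memf hfK).2.ne
  have hf0 : ¬ f =ᵐ[volume] 0 := by
    intro h0
    have h1 := hC₁ y₀ v f B₀ (by intro h; simp [h] at hy₀) hvf measurableSet_ball hB₀v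
    have h2 : eLpNorm (fun x => Real.exp (inner ℝ y₀ x) • f x) (pe n) volume = 0 := by
      rw [eLpNorm_congr_ae (g := 0), eLpNorm_zero]
      filter_upwards [h0] with x hx
      simp [hx]
    rw [h2, mul_zero, nonpos_iff_eq_zero] at h1
    have h3 := wt_eLpNorm_eq_zero y₀ (hvf.memv.1.restrict (s := B₀)) (by simp) h1
    exact hv (by rw [eLpNorm_congr_ae h3, eLpNorm_zero])
  have hN0 : ∀ k : E n, eLpNorm (wt k f) (pe n) volume ≠ 0 := fun k h0 =>
    hf0 (wt_eLpNorm_eq_zero k hvf.memf.1 (pe_ne_zero hn) h0)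
  -- absorption
  obtain ⟨l, hl, habs⟩ := absorb hn A hC₁ hvf hy₀ hh hh2 hv
    (δ := c' / 4) (ENNReal.div_pos hc'0 (by simp)).ne'
  -- the measure
  set μ : Measure (E n) := volume.withDensity fun x => ‖f x‖ₑ ^ pr n with hμ
  have hμT : ∀ (k : E n) {T : Set (E n)}, MeasurableSet T →
      ∫⁻ x in T, ENNReal.ofReal (Real.exp (inner ℝ (pr n • k) x)) ∂μ =
        eLpNorm (wt k f) (pe n) (volume.restrict T) ^ pr n := fun k T hT =>
    lintegral_mu hvf.memf.1 hn k hT
  have hμuniv : ∀ k : E n, ∫⁻ x, ENNReal.ofReal (Real.exp (inner ℝ (pr n • k) x)) ∂μ =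
        eLpNorm (wt k f) (pe n) volume ^ pr n := fun k => by
    have := hμT k MeasurableSet.univ
    rwa [Measure.restrict_univ, Measure.restrict_univ] at this
  have hμ1 : μ univ = eLpNorm (wt (0 : E n) f) (pe n) volume ^ pr n := by
    rw [← hμuniv 0]
    simp
  have hμfin : IsFiniteMeasure μ := ⟨by
    rw [hμ1]
    exact ENNReal.rpow_lt_top_of_nonneg hp0.le (hNt 0)⟩
  have hμ0 : μ ≠ 0 := by
    intro h0
    rw [h0, Measure.coe_zero, Pi.zero_apply, eq_comm, ENNReal.rpow_eq_zero_iff] at hμ1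
    rcases hμ1 with h | h
    · exact hN0 0 h.1
    · exact hNt 0 h.1
  have hμK : μ Kᶜ = 0 := by
    rw [hμ, withDensity_apply _ hKc.measurableSet.compl, lintegral_eq_zero_iff']
    · rw [EventuallyEq, ae_restrict_iff' hKc.measurableSet.compl]
      filter_upwards [hfK] with x hx hxK
      have : f x = 0 := by
        by_contra h0
        exact hxK (hx h0)
      simp [this, hp0]
    · exact (hvf.memf.1.restrict.enorm.pow_const _)
  obtain ⟨𝓔, G, h𝓔, hG, hGs, h𝓔K, hGv, hGk, h𝓔C⟩ := hwolff μ K (pr n • (l • y₀)) (pr n * (l / 16))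
    hμfin hμ0 hKc hμK (by positivity)
  set w : E n → ℝ≥0∞ := fun y => ‖hWm.mk W y‖ₑ ^ (n : ℝ) with hw
  have hwm : Measurable w := (hWm.stronglyMeasurable_mk.measurable.enorm).pow_const _
  have hWT : ∀ T : Set (E n), eLpNorm W n (volume.restrict T) ^ n = ∫⁻ x in T, w x := by
    intro T
    rw [eLpNorm_congr_ae (ae_restrict_of_ae hWm.ae_eq_mk),
      eLpNorm_eq_lintegral_rpow_enorm_toReal (by exact_mod_cast hn0) (by simp),
      ENNReal.toReal_natCast, ← ENNReal.rpow_natCast, ← ENNReal.rpow_mul, one_div,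
      inv_mul_cancel₀ hnr.ne', ENNReal.rpow_one]
  -- the main inequality on `G`
  have hmain : ∀ κ ∈ G, (c' / 2) ^ n ≤ (C₁ * ENNReal.ofReal (2 * l)) ^ n *
      (volume {x' | (κ, x') ∈ 𝓔} * ∫⁻ x in {x' | (κ, x') ∈ 𝓔}, w x) := by
    intro κ hκ
    set k : E n := (pr n)⁻¹ • κ with hk
    have hκk : κ = pr n • k := by rw [hk, smul_smul, mul_inv_cancel₀ hp0.ne', one_smul]
    have hkl : ‖k - l • y₀‖ ≤ l / 16 := by
      have h1 := hGs hκ
      rw [mem_closedBall, dist_eq_norm, hκk, ← smul_sub, norm_smul, Real.norm_of_nonneg hp0.le]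
        at h1
      exact le_of_mul_le_mul_left h1 hp0
    have hk0 : k ≠ 0 := by
      intro h0
      rw [h0, zero_sub, norm_neg, norm_smul, hy₀, Real.norm_of_nonneg hl.le] at hkl
      linarith
    set T : Set (E n) := {x' | (κ, x') ∈ 𝓔} with hT
    have hTm : MeasurableSet T := measurable_prodMk_left h𝓔
    have hTK : T ⊆ K := fun x hx => h𝓔K (κ, x) hx
    have hTv : volume T ≠ ⊤ := ((measure_mono hTK).trans_lt hKc.measure_lt_top).ne
    set N := eLpNorm (wt k f) (pe n) volume with hN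
    -- lower bound
    have h1 : c' * N ≤ eLpNorm (wt k f) (pe n) (volume.restrict T) := by
      have h2 := hGk κ hκ
      rw [hκk, hμuniv k] at h2
      have h3 : {x | (pr n • k, x) ∈ 𝓔} = T := by rw [← hκk]
      rw [h3, hμT k hTm] at h2
      have h4 : (c' * N) ^ pr n = c * N ^ pr n := by
        rw [ENNReal.mul_rpow_of_nonneg _ _ hp0.le, hc', ← ENNReal.rpow_mul, one_div,
          inv_mul_cancel₀ hp0.ne', ENNReal.rpow_one]
      rw [← h4] at h2
      exact (ENNReal.rpow_le_rpow_iff hp0).1 h2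
    have h2 := local_bound hn hvf.memv.1 hWm hh.1 hineq k T
    have h3 : eLpNorm (wt k v) 2 (volume.restrict T) ≤
        C₁ * (1 + ‖k‖ₑ * volume T ^ (1 / (n : ℝ))) * N := hC₁ k v f T hk0 hvf hTm hTv
    have h4 := habs k hkl
    have h5 : c' * N ≤ (eLpNorm W n (volume.restrict T) *
        (C₁ * (1 + ‖k‖ₑ * volume T ^ (1 / (n : ℝ)))) + c' / 4) * N := by
      calc c' * N ≤ _ := h1.trans h2
        _ ≤ eLpNorm W n (volume.restrict T) * (C₁ * (1 + ‖k‖ₑ * volume T ^ (1 / (n : ℝ))) * N) +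
          c' / 4 * N := add_le_add (mul_le_mul' le_rfl h3) h4
        _ = _ := by ring
    have h6 := (ENNReal.mul_le_mul_iff_left (hN0 k) (hNt k)).1 h5
    have h7 : eLpNorm W n (volume.restrict T) ≤ ε :=
      (eLpNorm_mono_measure _ Measure.restrict_le_self).trans hWε
    have h8 : ‖k‖ₑ ≤ ENNReal.ofReal (2 * l) := by
      rw [← ofReal_norm]
      exact ENNReal.ofReal_le_ofReal ((norm_k_le hl hkl hy₀).trans (by linarith))
    have h9 : c' ≤ c' / 2 + C₁ * ENNReal.ofReal (2 * l) *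
        (volume T ^ (1 / (n : ℝ)) * eLpNorm W n (volume.restrict T)) := by
      calc c' ≤ _ := h6
        _ = C₁ * eLpNorm W n (volume.restrict T) + C₁ * ‖k‖ₑ *
            (volume T ^ (1 / (n : ℝ)) * eLpNorm W n (volume.restrict T)) + c' / 4 := by ring
        _ ≤ c' / 4 + C₁ * ENNReal.ofReal (2 * l) *
            (volume T ^ (1 / (n : ℝ)) * eLpNorm W n (volume.restrict T)) + c' / 4 := by
            gcongr
            exact (mul_le_mul' le_rfl h7).trans hε1
        _ = c' / 2 + C₁ * ENNReal.ofReal (2 * l) *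
            (volume T ^ (1 / (n : ℝ)) * eLpNorm W n (volume.restrict T)) := by
            have : c' / 4 + c' / 4 = c' / 2 := by
              rw [← ENNReal.add_div, ← two_mul, show (4 : ℝ≥0∞) = 2 * 2 by norm_num,
                ENNReal.mul_div_mul_left _ _ (by simp) (by simp)]
            rw [← this]
            ring
    have h10 : c' / 2 ≤ C₁ * ENNReal.ofReal (2 * l) *
        (volume T ^ (1 / (n : ℝ)) * eLpNorm W n (volume.restrict T)) := by
      have hc2 : c' / 2 ≠ ⊤ := (ENNReal.div_lt_top hc't (by simp)).ne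
      have h11 : c' / 2 + c' / 2 ≤ c' / 2 + C₁ * ENNReal.ofReal (2 * l) *
        (volume T ^ (1 / (n : ℝ)) * eLpNorm W n (volume.restrict T)) := by
        rw [ENNReal.add_halves]
        exact h9
      exact (ENNReal.add_le_add_iff_left hc2).1 h11
    calc (c' / 2) ^ n ≤ (C₁ * ENNReal.ofReal (2 * l) *
        (volume T ^ (1 / (n : ℝ)) * eLpNorm W n (volume.restrict T))) ^ n := by gcongr
      _ = _ := by
        have h12 : (volume T ^ (1 / (n : ℝ))) ^ n = volume T := by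
          rw [← ENNReal.rpow_natCast, ← ENNReal.rpow_mul (volume T), one_div,
            inv_mul_cancel₀ hnr.ne', ENNReal.rpow_one]
        rw [mul_pow, mul_pow (volume T ^ (1 / (n : ℝ))), hWT T, h12]
  -- integrate over `G`
  have hint : (c' / 2) ^ n * volume G ≤ (C₁ * ENNReal.ofReal (2 * l)) ^ n * (Cw * ε ^ n) := by
    calc (c' / 2) ^ n * volume G = ∫⁻ _κ in G, (c' / 2) ^ n := by
          rw [setLIntegral_const]
      _ ≤ ∫⁻ κ in G, (C₁ * ENNReal.ofReal (2 * l)) ^ n *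
          (volume {x' | (κ, x') ∈ 𝓔} * ∫⁻ x in {x' | (κ, x') ∈ 𝓔}, w x) :=
          setLIntegral_mono' hG hmain
      _ = (C₁ * ENNReal.ofReal (2 * l)) ^ n * ∫⁻ κ in G,
          (volume {x' | (κ, x') ∈ 𝓔} * ∫⁻ x in {x' | (κ, x') ∈ 𝓔}, w x) := by
          rw [lintegral_const_mul']
          exact ENNReal.pow_ne_top (ENNReal.mul_ne_top ENNReal.coe_ne_top ENNReal.ofReal_ne_top)
      _ ≤ (C₁ * ENNReal.ofReal (2 * l)) ^ n * (Cw * ∫⁻ x, w x) :=
          mul_le_mul' le_rfl (fubini hwm h𝓔 h𝓔C)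
      _ ≤ (C₁ * ENNReal.ofReal (2 * l)) ^ n * (Cw * ε ^ n) := by
          have h1 := hWT univ
          rw [Measure.restrict_univ] at h1
          rw [← h1]
          gcongr
  have hvolG : c * (ENNReal.ofReal (pr n / 16) ^ n * wn) * ENNReal.ofReal l ^ n ≤ volume G := by
    refine le_trans (le_of_eq ?_) hGv
    rw [Measure.addHaar_closedBall _ _ (by positivity), finrank_euclideanSpace, Fintype.card_fin,
      ENNReal.ofReal_pow (by positivity), show pr n * (l / 16) = pr n / 16 * l by ring,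
      ENNReal.ofReal_mul (by positivity)]
    ring
  have hlast : L * ENNReal.ofReal l ^ n ≤ ((C₁ * 2) ^ n * Cw * ε ^ n) * ENNReal.ofReal l ^ n := by
    calc L * ENNReal.ofReal l ^ n = (c' / 2) ^ n *
          (c * (ENNReal.ofReal (pr n / 16) ^ n * wn) * ENNReal.ofReal l ^ n) := by
          rw [hL]; ring
      _ ≤ (c' / 2) ^ n * volume G := mul_le_mul' le_rfl hvolG
      _ ≤ _ := hint
      _ = _ := by
          rw [ENNReal.ofReal_mul (by norm_num : (0 : ℝ) ≤ 2), ENNReal.ofReal_ofNat]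
          ring
  have hl0 : ENNReal.ofReal l ^ n ≠ 0 := pow_ne_zero _ (ENNReal.ofReal_pos.2 hl).ne'
  have hlt : ENNReal.ofReal l ^ n ≠ ⊤ := ENNReal.pow_ne_top ENNReal.ofReal_ne_top
  have := (ENNReal.mul_le_mul_iff_left hl0 hlt).1 hlast
  exact absurd hε2 (not_lt.2 this)

end DiracUCP
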