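import Pool.Agent.W_MP_23c0ba_an.Defs

/-! Volume product bound |T| |T°| ≤ 4^n. -/

set_option autoImplicit false

open MeasureTheory Metric Set Filter Topology
open scoped ENNReal ContDiff NNReal FourierTransform ComplexConjugate

namespace DiracUCP

variable {n : ℕ}

theorem polar_det_adjoint (f : E n →ₗ[ℝ] E n) :
    LinearMap.det (LinearMap.adjoint f) = LinearMap.det f := by
  have b := EuclideanSpace.basisFun (Fin n) ℝ
  rw [← LinearMap.det_toMatrix b.toBasis, ← LinearMap.det_toMatrix b.toBasis f,
    LinearMap.toMatrix_adjoint b b f, Matrix.det_conjTranspose]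
  simp

theorem polar_cube_volume :
    volume {x : E n | ∀ i, |x i| ≤ 1} = 2 ^ n := by
  have h1 : {x : E n | ∀ i, |x i| ≤ 1} =
      (@WithLp.ofLp 2 (Fin n → ℝ)) ⁻¹' (Set.pi univ fun _ => Icc (-1 : ℝ) 1) := by
    ext x
    simp only [Set.mem_ofPred_eq, Set.mem_preimage, Set.mem_pi, Set.mem_univ, true_imp_iff,
      Set.mem_Icc, abs_le]
  rw [h1, (PiLp.volume_preserving_ofLp (Fin n)).measure_preimage
    (MeasurableSet.univ_pi fun _ => measurableSet_Icc).nullMeasurableSet, volume_pi_pi]
  simp only [Real.volume_Icc, Finset.prod_const, Finset.card_univ, Fintype.card_fin]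
  congr 1
  norm_num

/-- If `T` is not null, it contains a basis. -/
theorem polar_exists_basis (T : Set (E n)) (hT : volume T ≠ 0) :
    ∃ s : Fin n → E n, (∀ i, s i ∈ T) ∧
      (EuclideanSpace.basisFun (Fin n) ℝ).toBasis.det s ≠ 0 := by
  have hspan : (⊤ : Submodule ℝ (E n)) ≤ Submodule.span ℝ T := by
    rw [top_le_iff]
    by_contra h
    apply hT
    exact measure_mono_null Submodule.subset_span (Measure.addHaar_submodule volume _ h)
  let B := Module.Basis.ofSpan hspan
  haveI : Finite ((linearIndepOn_empty ℝ (id : E n → E n)).extend (empty_subset T)) :=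
    Module.Finite.finite_basis B
  haveI : Fintype ((linearIndepOn_empty ℝ (id : E n → E n)).extend (empty_subset T)) :=
    Fintype.ofFinite _
  have hcard : Fintype.card ((linearIndepOn_empty ℝ (id : E n → E n)).extend (empty_subset T))
      = Fintype.card (Fin n) := by
    rw [← Module.finrank_eq_card_basis B]; simp
  let e := Fintype.equivOfCardEq hcard
  refine ⟨B.reindex e, fun i => ?_, ?_⟩
  · rw [Module.Basis.reindex_apply]
    exact Module.Basis.ofSpan_subset hspan ⟨_, rfl⟩
  · exact ((EuclideanSpace.basisFun (Fin n) ℝ).toBasis.isUnit_det (B.reindex e)).ne_zero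

theorem polar_volume (T : Set (E n)) (hT : IsCompact T) :
    volume T * volume {y : E n | ∀ s ∈ T, |(inner ℝ s y : ℝ)| ≤ 1} ≤ 4 ^ n := by
  classical
  by_cases hT0 : volume T = 0
  · simp [hT0]
  set b := (EuclideanSpace.basisFun (Fin n) ℝ).toBasis with hb
  obtain ⟨s0, hs0, hdet0⟩ := polar_exists_basis T hT0
  have hcont : Continuous fun s : Fin n → E n => |b.det s| := by
    simp only [Module.Basis.det_apply]
    refine Continuous.abs (Continuous.matrix_det ?_)
    refine continuous_pi fun i => continuous_pi fun j => ?_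
    simp only [Module.Basis.toMatrix_apply, hb, OrthonormalBasis.coe_toBasis_repr_apply,
      EuclideanSpace.basisFun_repr]
    fun_prop
  obtain ⟨s, hsT, hmax⟩ := (isCompact_univ_pi fun _ : Fin n => hT).exists_isMaxOn
    ⟨s0, fun i _ => hs0 i⟩ hcont.continuousOn
  have hs : b.det s ≠ 0 := by
    have := hmax (show s0 ∈ Set.pi univ fun _ => T from fun i _ => hs0 i)
    simp only [Set.mem_ofPred_eq] at this
    intro h
    rw [h, abs_zero] at this
    exact hdet0 (abs_nonpos_iff.mp this)
  have hunit : IsUnit (b.det s) := isUnit_iff_ne_zero.mpr hs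
  obtain ⟨hli, hsp⟩ := (Module.Basis.is_basis_iff_det b).mpr hunit
  let B : Module.Basis (Fin n) ℝ (E n) := Module.Basis.mk hli hsp.ge
  have hB : ⇑B = s := by simp [B]
  let L : E n →ₗ[ℝ] E n := b.constr ℝ s
  have hLs : L ∘ b = s := by
    funext i
    simp [L]
  have hdetL : LinearMap.det L = b.det s := by
    have := Module.Basis.det_comp b L b
    rw [hLs, Module.Basis.det_self, mul_one] at this
    exact this.symm
  have hLb : ∀ i, L (EuclideanSpace.basisFun (Fin n) ℝ i) = s i := by
    intro i
    have := congrFun hLs i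
    simpa [hb] using this
  -- Cramer
  have hcramer : ∀ t ∈ T, ∀ i, |B.repr t i| ≤ 1 := by
    intro t ht i
    have h1 : b.det (Function.update s i t) = B.repr t i * b.det s := by
      conv_lhs => rw [← B.sum_repr t, hB]
      rw [AlternatingMap.map_update_sum]
      rw [Finset.sum_eq_single i]
      · rw [AlternatingMap.map_update_smul, Function.update_eq_self, smul_eq_mul]
      · intro j _ hj
        rw [AlternatingMap.map_update_smul, AlternatingMap.map_update_self _ _ hj.symm, smul_zero]
      · simp
    have h2 : |b.det (Function.update s i t)| ≤ |b.det s| := by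
      refine hmax (show Function.update s i t ∈ Set.pi univ fun _ => T from fun j _ => ?_)
      by_cases hj : j = i
      · subst hj; simpa using ht
      · rw [Function.update_of_ne hj]; exact hsT j (mem_univ _)
    rw [h1, abs_mul] at h2
    have h3 : 0 < |b.det s| := abs_pos.mpr hs
    nlinarith [h2, h3]
  have hsub1 : T ⊆ L '' {x : E n | ∀ i, |x i| ≤ 1} := by
    intro t ht
    refine ⟨WithLp.toLp 2 (fun i => B.repr t i), fun i => hcramer t ht i, ?_⟩
    simp only [L, Module.Basis.constr_apply_fintype, hb]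
    conv_rhs => rw [← B.sum_repr t, hB]
    simp [Module.Basis.equivFun_apply]
  have hsub2 : {y : E n | ∀ s ∈ T, |(inner ℝ s y : ℝ)| ≤ 1} ⊆
      (LinearMap.adjoint L) ⁻¹' {x : E n | ∀ i, |x i| ≤ 1} := by
    intro y hy i
    have h1 : (LinearMap.adjoint L y) i = inner ℝ (s i) y := by
      rw [← hLb i, ← LinearMap.adjoint_inner_right]
      rw [← OrthonormalBasis.repr_apply_apply]
      simp
    rw [h1]
    exact hy (s i) (hsT i (mem_univ _))
  have hd0 : LinearMap.det (LinearMap.adjoint L) ≠ 0 := by
    rw [polar_det_adjoint, hdetL]; exact hs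
  calc volume T * volume {y : E n | ∀ s ∈ T, |(inner ℝ s y : ℝ)| ≤ 1}
      ≤ volume (L '' {x : E n | ∀ i, |x i| ≤ 1}) *
        volume ((LinearMap.adjoint L) ⁻¹' {x : E n | ∀ i, |x i| ≤ 1}) :=
        mul_le_mul' (measure_mono hsub1) (measure_mono hsub2)
    _ = (ENNReal.ofReal |b.det s| * 2 ^ n) * (ENNReal.ofReal |(b.det s)⁻¹| * 2 ^ n) := by
        rw [Measure.addHaar_image_linearMap, Measure.addHaar_preimage_linearMap _ hd0,
          polar_det_adjoint, hdetL, polar_cube_volume]
    _ = (ENNReal.ofReal |b.det s| * ENNReal.ofReal |(b.det s)⁻¹|) * (2 ^ n * 2 ^ n) := by ring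
    _ = 4 ^ n := by
        rw [← ENNReal.ofReal_mul (abs_nonneg _), ← abs_mul, mul_inv_cancel₀ hs, abs_one,
          ENNReal.ofReal_one, one_mul, ← mul_pow]
        norm_num
    _ ≤ 4 ^ n := le_rfl

end DiracUCP
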