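import Pool.Agent.W_MP_23c0ba_an.Defs

/-! The dual Sobolev inequality, from the Gagliardo-Nirenberg-Sobolev inequality. -/

set_option autoImplicit false

open MeasureTheory Metric Set Filter Topology
open scoped ENNReal ContDiff NNReal FourierTransform ComplexConjugate SchwartzMap

namespace DiracUCP

variable {n : ℕ}

/-- Sobolev inequality for Schwartz functions. -/
theorem gns_schwartz (hn : 3 ≤ n) : ∃ C : ℝ≥0, ∀ g : 𝓢(E n, ℂ),
    eLpNorm g (ENNReal.ofReal (2 * n / (n - 2))) volume ≤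
      C * eLpNorm (fderiv ℝ g) 2 volume := by
  have hn' : (3 : ℝ) ≤ n := by exact_mod_cast hn
  set q : ℝ≥0 := Real.toNNReal (2 * n / (n - 2)) with hq
  have hqr : (q : ℝ) = 2 * n / (n - 2) := by
    rw [hq, Real.coe_toNNReal]
    apply div_nonneg <;> linarith
  refine ⟨SNormLESNormFDerivOfEqConst ℂ (volume : Measure (E n)) 2, fun g => ?_⟩
  set C := SNormLESNormFDerivOfEqConst ℂ (volume : Measure (E n)) 2
  let χ : ContDiffBump (0 : E n) := ⟨1, 2, by norm_num, by norm_num⟩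
  have hχc : ContDiff ℝ ∞ (χ : E n → ℝ) := χ.contDiff
  have hχs : HasCompactSupport (χ : E n → ℝ) := χ.hasCompactSupport
  obtain ⟨M, hM⟩ : ∃ M, ∀ x, ‖fderiv ℝ (χ : E n → ℝ) x‖ ≤ M := by
    apply (hχs.fderiv (𝕜 := ℝ)).exists_bound_of_continuous
    exact hχc.continuous_fderiv (by simp)
  have hM0 : 0 ≤ M := (norm_nonneg _).trans (hM 0)
  -- the cutoffs
  let c : ℕ → E n → ℝ := fun m x => χ (((m : ℝ) + 1)⁻¹ • x)
  have hpos : ∀ m : ℕ, (0 : ℝ) < (m : ℝ) + 1 := fun m => by positivity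
  have hcc : ∀ m, ContDiff ℝ ∞ (c m) := fun m => hχc.comp (contDiff_const_smul _)
  have hcs : ∀ m, HasCompactSupport (c m) := fun m => by
    have := hχs.comp_homeomorph (Homeomorph.smulOfNeZero (((m : ℝ) + 1)⁻¹)
      (inv_ne_zero (hpos m).ne'))
    exact this
  have hcd : ∀ m x, ‖fderiv ℝ (c m) x‖ ≤ M / ((m : ℝ) + 1) := by
    intro m x
    have h1 : fderiv ℝ (c m) x = (((m : ℝ) + 1)⁻¹) • fderiv ℝ (χ : E n → ℝ) (((m : ℝ) + 1)⁻¹ • x) := by
      have h2 : HasFDerivAt (fun x : E n => ((m : ℝ) + 1)⁻¹ • x)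
          ((((m : ℝ) + 1)⁻¹) • ContinuousLinearMap.id ℝ (E n)) x := by
        exact ((((m : ℝ) + 1)⁻¹) • ContinuousLinearMap.id ℝ (E n)).hasFDerivAt
      have h3 : HasFDerivAt (χ : E n → ℝ) (fderiv ℝ (χ : E n → ℝ) (((m : ℝ) + 1)⁻¹ • x))
          (((m : ℝ) + 1)⁻¹ • x) :=
        (hχc.differentiable (by simp) _).hasFDerivAt
      have h4 := h3.comp x h2
      rw [show c m = (χ : E n → ℝ) ∘ (fun x : E n => ((m : ℝ) + 1)⁻¹ • x) from rfl, h4.fderiv]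
      ext y
      simp
    rw [h1, norm_smul, Real.norm_of_nonneg (inv_nonneg.2 (hpos m).le), div_eq_inv_mul]
    exact mul_le_mul_of_nonneg_left (hM _) (inv_nonneg.2 (hpos m).le)
  let u : ℕ → E n → ℂ := fun m x => c m x • g x
  have hgc : ContDiff ℝ ∞ (g : E n → ℂ) := g.smooth _
  have huc : ∀ m, ContDiff ℝ ∞ (u m) := fun m => (hcc m).smul hgc
  have hus : ∀ m, HasCompactSupport (u m) := fun m => (hcs m).smul_right
  have hud : ∀ m x, fderiv ℝ (u m) x = c m x • fderiv ℝ g x +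
      (fderiv ℝ (c m) x).smulRight (g x) := by
    intro m x
    exact fderiv_fun_smul ((hcc m).differentiable (by simp) x) (hgc.differentiable (by simp) x)
  have hgns : ∀ m, eLpNorm (u m) q volume ≤ C * eLpNorm (fderiv ℝ (u m)) 2 volume := by
    intro m
    refine eLpNorm_le_eLpNorm_fderiv_of_eq (F := ℂ) volume ((huc m).of_le (by simp)) (hus m)
      (p := 2) one_le_two ?_ ?_
    · simp; omega
    · rw [hqr]
      simp
      field_simp
  have hcle : ∀ m x, ‖c m x‖ ≤ 1 := by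
    intro m x
    rw [Real.norm_of_nonneg χ.nonneg]
    exact χ.le_one
  have hbd : ∀ m, eLpNorm (fderiv ℝ (u m)) 2 volume ≤
      eLpNorm (fderiv ℝ g) 2 volume + ENNReal.ofReal (M / ((m : ℝ) + 1)) * eLpNorm g 2 volume := by
    intro m
    have e1 : fderiv ℝ (u m) = (fun x => c m x • fderiv ℝ g x) +
        (fun x => (fderiv ℝ (c m) x).smulRight (g x)) := by
      funext x
      rw [hud]; rfl
    have hfg : Continuous (fderiv ℝ (g : E n → ℂ)) := hgc.continuous_fderiv (by simp)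
    have m1 : Continuous (fun x => c m x • fderiv ℝ g x) := (hcc m).continuous.smul hfg
    have m2 : Continuous (fun x => (fderiv ℝ (c m) x).smulRight (g x)) := by
      have hf : Continuous (fderiv ℝ (c m)) := (hcc m).continuous_fderiv (by simp)
      have : Continuous (fun x => fderiv ℝ (u m) x - c m x • fderiv ℝ g x) :=
        ((huc m).continuous_fderiv (by simp)).sub m1
      refine this.congr (fun x => ?_)
      rw [hud]; abel
    rw [e1]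
    refine (eLpNorm_add_le m1.aestronglyMeasurable m2.aestronglyMeasurable one_le_two).trans ?_
    refine add_le_add ?_ ?_
    · refine eLpNorm_mono (fun x => ?_)
      rw [norm_smul]
      exact mul_le_of_le_one_left (norm_nonneg _) (hcle m x)
    · have : ∀ x, ‖(fderiv ℝ (c m) x).smulRight (g x)‖ ≤ M / ((m : ℝ) + 1) * ‖g x‖ := by
        intro x
        rw [ContinuousLinearMap.norm_smulRight_apply]
        exact mul_le_mul_of_nonneg_right (hcd m x) (norm_nonneg _)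
      exact eLpNorm_le_mul_eLpNorm_of_ae_le_mul (Eventually.of_forall this) 2
  have hlim : ∀ x, Tendsto (fun m => u m x) atTop (𝓝 (g x)) := by
    intro x
    have : ∀ᶠ m : ℕ in atTop, u m x = g x := by
      filter_upwards [eventually_ge_atTop ⌈‖x‖⌉₊] with m hm
      have h1 : ‖x‖ ≤ m := (Nat.le_ceil _).trans (by exact_mod_cast hm)
      have h2 : c m x = 1 := by
        apply χ.one_of_mem_closedBall
        rw [mem_closedBall_zero_iff, norm_smul, Real.norm_of_nonneg (inv_nonneg.2 (hpos m).le),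
          inv_mul_le_iff₀ (hpos m)]
        change ‖x‖ ≤ ((m : ℝ) + 1) * 1
        linarith
      change c m x • g x = g x
      rw [h2, one_smul]
    exact tendsto_const_nhds.congr' (this.mono fun m hm => hm.symm)
  have hF : eLpNorm g q volume ≤ atTop.liminf (fun m => eLpNorm (u m) q volume) :=
    Lp.eLpNorm_lim_le_liminf_eLpNorm (fun m => (huc m).continuous.aestronglyMeasurable) _
      (Eventually.of_forall hlim)
  refine hF.trans ?_
  have hg2 : eLpNorm (g : E n → ℂ) 2 volume ≠ ⊤ := (g.memLp 2 volume).eLpNorm_ne_top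
  have hMt : Tendsto (fun m : ℕ => ENNReal.ofReal (M / ((m : ℝ) + 1))) atTop (𝓝 0) := by
    rw [← ENNReal.ofReal_zero]
    refine ENNReal.tendsto_ofReal ?_
    exact tendsto_const_div_atTop_nhds_zero_nat M |>.comp (tendsto_add_atTop_nat 1) |>.congr
      (fun m => by simp)
  have hT : Tendsto (fun m : ℕ => C * (eLpNorm (fderiv ℝ g) 2 volume +
      ENNReal.ofReal (M / ((m : ℝ) + 1)) * eLpNorm g 2 volume)) atTop
      (𝓝 (C * (eLpNorm (fderiv ℝ g) 2 volume + 0 * eLpNorm g 2 volume))) := by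
    refine ENNReal.Tendsto.const_mul ?_ (Or.inr ENNReal.coe_ne_top)
    refine tendsto_const_nhds.add ?_
    exact ENNReal.Tendsto.mul_const hMt (Or.inr hg2)
  rw [zero_mul, add_zero] at hT
  rw [← hT.liminf_eq]
  exact liminf_le_liminf (Eventually.of_forall fun m => (hgns m).trans (mul_le_mul_right (hbd m) _))

theorem lintegral_sq_schwartz (h : 𝓢(E n, ℂ)) :
    ∫⁻ x, ‖h x‖ₑ ^ 2 = ENNReal.ofReal (∫ x, ‖h x‖ ^ 2) := by
  have hm : MemLp (h : E n → ℂ) 2 volume := h.memLp 2 volume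
  rw [ofReal_integral_eq_lintegral_ofReal hm.norm.integrable_sq
    (Eventually.of_forall fun x => by positivity)]
  refine lintegral_congr fun x => ?_
  rw [ENNReal.ofReal_pow (norm_nonneg _), ofReal_norm]

theorem plancherel_schwartz (h : 𝓢(E n, ℂ)) :
    ∫⁻ ξ, ‖(𝓕 h : 𝓢(E n, ℂ)) ξ‖ₑ ^ 2 = ∫⁻ x, ‖h x‖ₑ ^ 2 := by
  rw [lintegral_sq_schwartz, lintegral_sq_schwartz, SchwartzMap.integral_norm_sq_fourier]

theorem opNorm_sq_le (A : E n →L[ℝ] ℂ) : ‖A‖ ^ 2 ≤ ∑ j, ‖A (bv j)‖ ^ 2 := by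
  have h0 : 0 ≤ ∑ j, ‖A (bv j)‖ ^ 2 := Finset.sum_nonneg fun j _ => by positivity
  have : ‖A‖ ≤ Real.sqrt (∑ j, ‖A (bv j)‖ ^ 2) := by
    refine A.opNorm_le_bound (Real.sqrt_nonneg _) (fun x => ?_)
    have hx : x = ∑ j, x j • (bv j : E n) := by
      ext i
      simp [Finset.sum_apply, Pi.single_apply]
    have h1 : ‖A x‖ ≤ ∑ j, ‖x j‖ * ‖A (bv j)‖ := by
      conv_lhs => rw [hx]
      rw [map_sum]
      refine (norm_sum_le _ _).trans (Finset.sum_le_sum fun j _ => ?_)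
      rw [map_smul, norm_smul]
    refine h1.trans ((Real.sum_mul_le_sqrt_mul_sqrt _ _ _).trans ?_)
    rw [← EuclideanSpace.norm_eq, mul_comm]
  calc ‖A‖ ^ 2 ≤ (Real.sqrt (∑ j, ‖A (bv j)‖ ^ 2)) ^ 2 := by gcongr
    _ = _ := Real.sq_sqrt h0

theorem fderiv_sq_le (g : 𝓢(E n, ℂ)) :
    ∫⁻ x, ‖fderiv ℝ g x‖ₑ ^ 2 ≤
      ENNReal.ofReal ((2 * Real.pi) ^ 2) * ∫⁻ ξ, ‖ξ‖ₑ ^ 2 * ‖(𝓕 g : 𝓢(E n, ℂ)) ξ‖ₑ ^ 2 := by
  have h1 : ∀ x, ‖fderiv ℝ g x‖ₑ ^ 2 ≤ ∑ j : Fin n, ‖(LineDeriv.lineDerivOp (bv j : E n) g) x‖ₑ ^ 2 := by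
    intro x
    have := opNorm_sq_le (fderiv ℝ (g : E n → ℂ) x)
    have h2 := ENNReal.ofReal_le_ofReal this
    rw [ENNReal.ofReal_pow (norm_nonneg _), ofReal_norm,
      ENNReal.ofReal_sum_of_nonneg (fun j _ => by positivity)] at h2
    refine h2.trans (le_of_eq (Finset.sum_congr rfl fun j _ => ?_))
    rw [ENNReal.ofReal_pow (norm_nonneg _), ofReal_norm]
    rfl
  calc ∫⁻ x, ‖fderiv ℝ g x‖ₑ ^ 2
      ≤ ∫⁻ x, ∑ j : Fin n, ‖(LineDeriv.lineDerivOp (bv j : E n) g) x‖ₑ ^ 2 := lintegral_mono h1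
    _ = ∑ j : Fin n, ∫⁻ x, ‖(LineDeriv.lineDerivOp (bv j : E n) g) x‖ₑ ^ 2 := by
        refine lintegral_finsetSum _ (fun j _ => ?_)
        exact (SchwartzMap.continuous _).enorm.measurable.pow_const 2
    _ = ∑ j : Fin n, ∫⁻ ξ, ‖(𝓕 (LineDeriv.lineDerivOp (bv j : E n) g)) ξ‖ₑ ^ 2 := by
        refine Finset.sum_congr rfl fun j _ => ?_
        rw [plancherel_schwartz]
    _ = ∑ j : Fin n, ∫⁻ ξ, ENNReal.ofReal ((2 * Real.pi) ^ 2) *
          (ENNReal.ofReal ((ξ j) ^ 2) * ‖(𝓕 g : 𝓢(E n, ℂ)) ξ‖ₑ ^ 2) := by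
        refine Finset.sum_congr rfl fun j _ => lintegral_congr fun ξ => ?_
        have hT : (fun y : E n => inner ℝ y (bv j : E n)).HasTemperateGrowth := by fun_prop
        rw [SchwartzMap.fourier_lineDerivOp_eq, smul_apply,
          SchwartzMap.smulLeftCLM_apply_apply hT, enorm_smul, enorm_smul, mul_pow, mul_pow]
        congr 1
        · rw [← ofReal_norm, ← ENNReal.ofReal_pow (norm_nonneg _)]
          congr 2
          simp [abs_of_pos Real.pi_pos]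
        · congr 1
          rw [← ofReal_norm, ← ENNReal.ofReal_pow (norm_nonneg _)]
          congr 1
          simp [EuclideanSpace.inner_single_right]
    _ = ∫⁻ ξ, ∑ j : Fin n, ENNReal.ofReal ((2 * Real.pi) ^ 2) *
          (ENNReal.ofReal ((ξ j) ^ 2) * ‖(𝓕 g : 𝓢(E n, ℂ)) ξ‖ₑ ^ 2) := by
        rw [lintegral_finsetSum]
        intro j _
        have : Continuous (fun ξ : E n => (ξ j) ^ 2) := by fun_prop
        exact ((this.measurable.ennreal_ofReal).mul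
          ((SchwartzMap.continuous _).enorm.measurable.pow_const 2)).const_mul _
    _ = ∫⁻ ξ, ENNReal.ofReal ((2 * Real.pi) ^ 2) * (‖ξ‖ₑ ^ 2 * ‖(𝓕 g : 𝓢(E n, ℂ)) ξ‖ₑ ^ 2) := by
        refine lintegral_congr fun ξ => ?_
        rw [← Finset.mul_sum, ← Finset.sum_mul]
        congr 2
        rw [← ENNReal.ofReal_sum_of_nonneg (fun j _ => by positivity), ← ofReal_norm,
          ← ENNReal.ofReal_pow (norm_nonneg _), EuclideanSpace.norm_eq, Real.sq_sqrt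
          (Finset.sum_nonneg fun j _ => by positivity)]
        simp
    _ = ENNReal.ofReal ((2 * Real.pi) ^ 2) * ∫⁻ ξ, ‖ξ‖ₑ ^ 2 * ‖(𝓕 g : 𝓢(E n, ℂ)) ξ‖ₑ ^ 2 := by
        rw [lintegral_const_mul]
        exact (continuous_enorm.measurable.pow_const 2).mul
          ((SchwartzMap.continuous _).enorm.measurable.pow_const 2)

/-- The main estimate for a Schwartz function. -/
theorem sobolev_dual_aux (hn : 3 ≤ n) : ∃ C : ℝ≥0, ∀ f : 𝓢(E n, ℂ), ∀ R : ℝ, 0 < R →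
    ∫⁻ ξ, ENNReal.ofReal (R ^ 2 / (1 + R ^ 2 * ‖ξ‖ ^ 2)) * ‖(𝓕 f : 𝓢(E n, ℂ)) ξ‖ₑ ^ 2 ≤
      (C * eLpNorm f (pe n) volume) ^ 2 := by
  obtain ⟨C, hC⟩ := gns_schwartz hn
  have hn' : (3 : ℝ) ≤ n := by exact_mod_cast hn
  refine ⟨C * (2 * Real.pi).toNNReal, fun f R hR => ?_⟩
  set w : E n → ℝ := fun ξ => (1 + ‖R • ξ‖ ^ 2) ^ (-1 : ℝ) with hw
  have hwT : w.HasTemperateGrowth := by
    have h1 := Function.hasTemperateGrowth_one_add_norm_sq_rpow (H := E n) (-1)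
    have h2 : (fun ξ : E n => R • ξ).HasTemperateGrowth :=
      (R • ContinuousLinearMap.id ℝ (E n)).hasTemperateGrowth
    exact h1.comp h2
  have hwe : ∀ ξ, w ξ = 1 / (1 + R ^ 2 * ‖ξ‖ ^ 2) := by
    intro ξ
    rw [hw]
    simp only
    rw [Real.rpow_neg_one, norm_smul, mul_pow, Real.norm_eq_abs, sq_abs, one_div]
  have hw0 : ∀ ξ, 0 ≤ w ξ := fun ξ => by rw [hwe]; positivity
  have hw1 : ∀ ξ, w ξ ≤ 1 := fun ξ => by
    rw [hwe, div_le_one (by positivity)]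
    nlinarith [mul_nonneg (sq_nonneg R) (sq_nonneg ‖ξ‖)]
  have hwc : Continuous w := by
    have : w = fun ξ => 1 / (1 + R ^ 2 * ‖ξ‖ ^ 2) := funext hwe
    rw [this]
    refine continuous_const.div (by fun_prop) (fun ξ => by positivity)
  let g : 𝓢(E n, ℂ) := 𝓕⁻ (SchwartzMap.smulLeftCLM ℂ w (𝓕 f))
  have hg : ∀ ξ, (𝓕 g : 𝓢(E n, ℂ)) ξ = w ξ • (𝓕 f : 𝓢(E n, ℂ)) ξ := by
    intro ξ
    have : 𝓕 g = SchwartzMap.smulLeftCLM ℂ w (𝓕 f) := FourierTransform.fourier_fourierInv_eq _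
    rw [this, SchwartzMap.smulLeftCLM_apply_apply hwT]
  set X : ℝ≥0∞ := ∫⁻ ξ, ENNReal.ofReal (w ξ) * ‖(𝓕 f : 𝓢(E n, ℂ)) ξ‖ₑ ^ 2 with hX
  have hint : Integrable (fun ξ => w ξ * ‖(𝓕 f : 𝓢(E n, ℂ)) ξ‖ ^ 2) volume := by
    have hm : MemLp (𝓕 f : 𝓢(E n, ℂ)) 2 volume := (𝓕 f : 𝓢(E n, ℂ)).memLp 2 volume
    refine hm.norm.integrable_sq.mono'
      (hwc.mul ((SchwartzMap.continuous _).norm.pow 2)).aestronglyMeasurable
      (Eventually.of_forall fun ξ => ?_)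
    rw [Real.norm_of_nonneg (mul_nonneg (hw0 ξ) (by positivity))]
    exact mul_le_of_le_one_left (by positivity) (hw1 ξ)
  have hXr : X = ENNReal.ofReal (∫ ξ, w ξ * ‖(𝓕 f : 𝓢(E n, ℂ)) ξ‖ ^ 2) := by
    rw [ofReal_integral_eq_lintegral_ofReal hint
      (Eventually.of_forall fun ξ => mul_nonneg (hw0 ξ) (by positivity))]
    refine lintegral_congr fun ξ => ?_
    rw [ENNReal.ofReal_mul (hw0 ξ), ENNReal.ofReal_pow (norm_nonneg _), ofReal_norm]
  have hXt : X ≠ ⊤ := by rw [hXr]; exact ENNReal.ofReal_ne_top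
  -- step A
  have hA : X ≤ eLpNorm f (pe n) volume *
      eLpNorm g (ENNReal.ofReal (2 * n / (n - 2))) volume := by
    have h1 : (∫ ξ, w ξ * ‖(𝓕 f : 𝓢(E n, ℂ)) ξ‖ ^ 2 : ℝ) = ‖∫ x, inner ℂ (f x) (g x)‖ := by
      rw [← SchwartzMap.integral_inner_fourier_fourier]
      have h2 : ∀ ξ, inner ℂ ((𝓕 f : 𝓢(E n, ℂ)) ξ) ((𝓕 g : 𝓢(E n, ℂ)) ξ) =
          ((w ξ * ‖(𝓕 f : 𝓢(E n, ℂ)) ξ‖ ^ 2 : ℝ) : ℂ) := by
        intro ξ
        rw [hg, inner_smul_right_eq_smul, inner_self_eq_norm_sq_to_K]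
        simp
      simp_rw [h2]
      rw [integral_complex_ofReal, Complex.norm_real, Real.norm_of_nonneg]
      exact integral_nonneg fun ξ => mul_nonneg (hw0 ξ) (by positivity)
    have hpq : (2 * n / (n + 2) : ℝ).HolderConjugate (2 * n / (n - 2)) := by
      rw [Real.holderConjugate_iff]
      constructor
      · rw [lt_div_iff₀ (by positivity)]; linarith
      · have : (n : ℝ) - 2 ≠ 0 := by linarith
        field_simp
        ring
    have hp0 : (0 : ℝ) < 2 * n / (n + 2) := by positivity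
    have hq0 : (0 : ℝ) < 2 * n / (n - 2) := by
      apply div_pos <;> linarith
    have h3 := ENNReal.lintegral_mul_le_Lp_mul_Lq (volume : Measure (E n)) hpq
      (f := fun x => ‖f x‖ₑ) (g := fun x => ‖g x‖ₑ)
      f.continuous.enorm.measurable.aemeasurable g.continuous.enorm.measurable.aemeasurable
    have h4 : eLpNorm f (pe n) volume =
        (∫⁻ x, ‖f x‖ₑ ^ (2 * n / (n + 2) : ℝ)) ^ (1 / (2 * n / (n + 2)) : ℝ) := by
      rw [eLpNorm_eq_lintegral_rpow_enorm_toReal, pe, ENNReal.toReal_ofReal hp0.le]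
      · simp only [pe, ne_eq, ENNReal.ofReal_eq_zero, not_le]; exact hp0
      · exact ENNReal.ofReal_ne_top
    have h5 : eLpNorm g (ENNReal.ofReal (2 * n / (n - 2))) volume =
        (∫⁻ x, ‖g x‖ₑ ^ (2 * n / (n - 2) : ℝ)) ^ (1 / (2 * n / (n - 2)) : ℝ) := by
      rw [eLpNorm_eq_lintegral_rpow_enorm_toReal, ENNReal.toReal_ofReal hq0.le]
      · simp only [ne_eq, ENNReal.ofReal_eq_zero, not_le]; exact hq0
      · exact ENNReal.ofReal_ne_top
    rw [h4, h5, hXr, h1, ofReal_norm]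
    refine (enorm_integral_le_lintegral_enorm _).trans ((lintegral_mono fun x => ?_).trans h3)
    simp only [Pi.mul_apply]
    rw [← ofReal_norm, ← ofReal_norm, ← ofReal_norm, ← ENNReal.ofReal_mul (norm_nonneg _)]
    exact ENNReal.ofReal_le_ofReal (norm_inner_le_norm _ _)
  -- step B
  have hB : eLpNorm (fderiv ℝ g) 2 volume ^ 2 ≤
      ENNReal.ofReal ((2 * Real.pi) ^ 2) * (ENNReal.ofReal ((R ^ 2)⁻¹) * X) := by
    have h1 : eLpNorm (fderiv ℝ g) 2 volume ^ 2 = ∫⁻ x, ‖fderiv ℝ g x‖ₑ ^ 2 := by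
      rw [eLpNorm_eq_lintegral_rpow_enorm_toReal (by norm_num) (by norm_num)]
      simp only [ENNReal.toReal_ofNat, one_div]
      rw [← ENNReal.rpow_natCast, ← ENNReal.rpow_mul]
      norm_num
    rw [h1]
    refine (fderiv_sq_le g).trans (mul_le_mul_right ?_ _)
    rw [hX, ← lintegral_const_mul']
    · refine lintegral_mono fun ξ => ?_
      rw [hg, enorm_smul, ← mul_assoc, mul_pow, ← mul_assoc]
      refine mul_le_mul_left ?_ _
      rw [← ofReal_norm, ← ofReal_norm, ← ENNReal.ofReal_pow (norm_nonneg _),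
        ← ENNReal.ofReal_pow (norm_nonneg _), ← ENNReal.ofReal_mul (by positivity),
        ← ENNReal.ofReal_mul (by positivity)]
      refine ENNReal.ofReal_le_ofReal ?_
      rw [Real.norm_of_nonneg (hw0 ξ), sq (w ξ), ← mul_assoc]
      refine mul_le_mul_of_nonneg_right ?_ (hw0 ξ)
      rw [hwe, mul_one_div, div_le_iff₀ (by positivity)]
      have : 0 < R ^ 2 := by positivity
      field_simp
      nlinarith
    · exact ENNReal.ofReal_ne_top
  -- conclusion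
  have hR2 : (0 : ℝ) < R ^ 2 := by positivity
  have hL : ∫⁻ ξ, ENNReal.ofReal (R ^ 2 / (1 + R ^ 2 * ‖ξ‖ ^ 2)) *
      ‖(𝓕 f : 𝓢(E n, ℂ)) ξ‖ₑ ^ 2 = ENNReal.ofReal (R ^ 2) * X := by
    rw [hX, ← lintegral_const_mul' _ _ ENNReal.ofReal_ne_top]
    refine lintegral_congr fun ξ => ?_
    rw [← mul_assoc, ← ENNReal.ofReal_mul hR2.le, hwe, mul_one_div]
  rw [hL]
  have hX2 : X * X ≤ (eLpNorm f (pe n) volume ^ 2 * (C : ℝ≥0∞) ^ 2 *
      (ENNReal.ofReal ((2 * Real.pi) ^ 2) * ENNReal.ofReal ((R ^ 2)⁻¹))) * X := by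
    calc X * X = X ^ 2 := (sq X).symm
      _ ≤ (eLpNorm f (pe n) volume *
        eLpNorm g (ENNReal.ofReal (2 * n / (n - 2))) volume) ^ 2 := pow_le_pow_left' hA 2
      _ ≤ (eLpNorm f (pe n) volume * (C * eLpNorm (fderiv ℝ g) 2 volume)) ^ 2 :=
        pow_le_pow_left' (mul_le_mul_right (hC g) _) 2
      _ = eLpNorm f (pe n) volume ^ 2 * (C : ℝ≥0∞) ^ 2 * eLpNorm (fderiv ℝ g) 2 volume ^ 2 := by
        ring
      _ ≤ eLpNorm f (pe n) volume ^ 2 * (C : ℝ≥0∞) ^ 2 *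
        (ENNReal.ofReal ((2 * Real.pi) ^ 2) * (ENNReal.ofReal ((R ^ 2)⁻¹) * X)) :=
        mul_le_mul_right hB _
      _ = _ := by ring
  rcases eq_or_ne X 0 with hX0 | hX0
  · rw [hX0, mul_zero]; exact zero_le
  have hX3 : X ≤ eLpNorm f (pe n) volume ^ 2 * (C : ℝ≥0∞) ^ 2 *
      (ENNReal.ofReal ((2 * Real.pi) ^ 2) * ENNReal.ofReal ((R ^ 2)⁻¹)) :=
    (ENNReal.mul_le_mul_iff_left hX0 hXt).1 hX2
  calc ENNReal.ofReal (R ^ 2) * X ≤ ENNReal.ofReal (R ^ 2) *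
      (eLpNorm f (pe n) volume ^ 2 * (C : ℝ≥0∞) ^ 2 *
      (ENNReal.ofReal ((2 * Real.pi) ^ 2) * ENNReal.ofReal ((R ^ 2)⁻¹))) := mul_le_mul_right hX3 _
    _ = (ENNReal.ofReal (R ^ 2) * ENNReal.ofReal ((R ^ 2)⁻¹)) *
      (eLpNorm f (pe n) volume ^ 2 * (C : ℝ≥0∞) ^ 2 * ENNReal.ofReal ((2 * Real.pi) ^ 2)) := by
        ring
    _ = (((C * (2 * Real.pi).toNNReal : ℝ≥0) : ℝ≥0∞) * eLpNorm f (pe n) volume) ^ 2 := by
        rw [← ENNReal.ofReal_mul hR2.le, mul_inv_cancel₀ hR2.ne', ENNReal.ofReal_one, one_mul,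
          ENNReal.ofReal_pow (by positivity), ENNReal.coe_mul]
        change _ = (C * ENNReal.ofReal (2 * Real.pi) * _) ^ 2
        ring

/-- `‖ |ξ|⁻¹ F̂ ‖₂ ≤ C ‖F‖_p`, `p = 2n/(n+2)`. -/
theorem sobolev_dual (hn : 3 ≤ n) : ∃ C : ℝ≥0, ∀ F : E n → ℂ, ContDiff ℝ ∞ F →
    HasCompactSupport F →
    ∫⁻ ξ, (‖ξ‖ₑ⁻¹ * ‖𝓕 F ξ‖ₑ) ^ 2 ≤ (C * eLpNorm F (pe n) volume) ^ 2 := by
  obtain ⟨C, hC⟩ := sobolev_dual_aux hn
  refine ⟨C, fun F hF hFc => ?_⟩
  let f : 𝓢(E n, ℂ) := hFc.toSchwartzMap hF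
  have hFf : ∀ ξ, ‖(𝓕 f : 𝓢(E n, ℂ)) ξ‖ₑ = ‖𝓕 F ξ‖ₑ := fun ξ => rfl
  have hne : ∀ᵐ ξ : E n, ξ ≠ 0 := by
    have : Nonempty (Fin n) := ⟨⟨0, by omega⟩⟩
    exact Measure.ae_ne volume 0
  have hlim : ∀ᵐ ξ : E n, (‖ξ‖ₑ⁻¹ * ‖𝓕 F ξ‖ₑ) ^ 2 =
      liminf (fun m : ℕ => ENNReal.ofReal (((m : ℝ) + 1) ^ 2 / (1 + ((m : ℝ) + 1) ^ 2 * ‖ξ‖ ^ 2)) *
        ‖(𝓕 f : 𝓢(E n, ℂ)) ξ‖ₑ ^ 2) atTop := by
    filter_upwards [hne] with ξ hξ
    have hξ0 : 0 < ‖ξ‖ := norm_pos_iff.2 hξ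
    have h1 : Tendsto (fun m : ℕ => ((m : ℝ) + 1) ^ 2 / (1 + ((m : ℝ) + 1) ^ 2 * ‖ξ‖ ^ 2)) atTop
        (𝓝 ((‖ξ‖⁻¹) ^ 2)) := by
      have h2 : Tendsto (fun m : ℕ => ((((m : ℝ) + 1) ^ 2)⁻¹ + ‖ξ‖ ^ 2)⁻¹) atTop
          (𝓝 ((0 + ‖ξ‖ ^ 2)⁻¹)) := by
        refine Tendsto.inv₀ (Tendsto.add_const _ ?_) (by positivity)
        refine Tendsto.inv_tendsto_atTop ?_
        refine (tendsto_pow_atTop two_ne_zero).comp ?_
        exact tendsto_atTop_add_const_right _ _ tendsto_natCast_atTop_atTop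
      rw [zero_add, ← inv_pow] at h2
      refine h2.congr (fun m => ?_)
      field_simp
    have h3 : Tendsto (fun m : ℕ => ENNReal.ofReal
        (((m : ℝ) + 1) ^ 2 / (1 + ((m : ℝ) + 1) ^ 2 * ‖ξ‖ ^ 2)) *
        ‖(𝓕 f : 𝓢(E n, ℂ)) ξ‖ₑ ^ 2) atTop
        (𝓝 (ENNReal.ofReal ((‖ξ‖⁻¹) ^ 2) * ‖(𝓕 f : 𝓢(E n, ℂ)) ξ‖ₑ ^ 2)) :=
      ENNReal.Tendsto.mul_const (ENNReal.tendsto_ofReal h1) (Or.inr (by finiteness))
    rw [h3.liminf_eq, hFf, mul_pow, ENNReal.ofReal_pow (by positivity),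
      ENNReal.ofReal_inv_of_pos hξ0, ofReal_norm]
  rw [lintegral_congr_ae hlim]
  refine (lintegral_liminf_le' (fun m => ?_)).trans ?_
  · have : Continuous fun ξ : E n => ((m : ℝ) + 1) ^ 2 / (1 + ((m : ℝ) + 1) ^ 2 * ‖ξ‖ ^ 2) :=
      continuous_const.div (by fun_prop) (fun ξ => by positivity)
    exact (this.measurable.ennreal_ofReal.mul
      ((SchwartzMap.continuous _).enorm.measurable.pow_const 2)).aemeasurable
  · refine (liminf_le_liminf (Eventually.of_forall fun (m : ℕ) => hC f ((m : ℝ) + 1) (by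
      have : (0 : ℝ) ≤ m := Nat.cast_nonneg m
      linarith))).trans
      ?_
    rw [liminf_const]
    exact le_rfl

end DiracUCP
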