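import Pool.Agent.W_MP_23c0ba_an.Defs

/-! Exponential integrals of convex functions. -/

set_option autoImplicit false

open MeasureTheory Metric Set Filter Topology
open scoped ENNReal ContDiff NNReal FourierTransform ComplexConjugate

namespace DiracUCP

/-- Volume of the sublevel set at level `j + 1`. -/
theorem sublevel_scale {n : ℕ} (K : Set (E n)) (g : E n → ℝ) (hg : ConvexOn ℝ K g)
    (k₀ : E n) (hk₀ : k₀ ∈ K) (hg₀ : g k₀ = 0) (j : ℕ) :
    volume {k ∈ K | g k ≤ j + 1} ≤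
      ENNReal.ofReal (((j : ℝ) + 1) ^ n) * volume {k ∈ K | g k ≤ 1} := by
  have hj : (0 : ℝ) < (j : ℝ) + 1 := by positivity
  have hsub : {k ∈ K | g k ≤ j + 1} ⊆
      AffineMap.homothety k₀ ((j : ℝ) + 1) '' {k ∈ K | g k ≤ 1} := by
    rintro k ⟨hkK, hgk⟩
    have ha : (0 : ℝ) ≤ 1 / ((j : ℝ) + 1) := by positivity
    have hb : (0 : ℝ) ≤ 1 - 1 / ((j : ℝ) + 1) := by
      rw [sub_nonneg, div_le_one hj]; linarith [(Nat.cast_nonneg j : (0 : ℝ) ≤ j)]
    have hab : 1 / ((j : ℝ) + 1) + (1 - 1 / ((j : ℝ) + 1)) = 1 := by ring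
    refine ⟨(1 / ((j : ℝ) + 1)) • k + (1 - 1 / ((j : ℝ) + 1)) • k₀, ⟨?_, ?_⟩, ?_⟩
    · exact hg.1 hkK hk₀ ha hb hab
    · have h := hg.2 hkK hk₀ ha hb hab
      rw [hg₀, smul_zero, add_zero, smul_eq_mul] at h
      refine h.trans ?_
      rw [one_div, inv_mul_le_iff₀ hj, mul_one]
      exact hgk
    · rw [AffineMap.homothety_apply, vsub_eq_sub, vadd_eq_add]
      have : (1 / ((j : ℝ) + 1)) • k + (1 - 1 / ((j : ℝ) + 1)) • k₀ - k₀ =
          (1 / ((j : ℝ) + 1)) • (k - k₀) := by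
        module
      rw [this, smul_smul, mul_one_div_cancel hj.ne', one_smul]
      abel
  calc volume {k ∈ K | g k ≤ j + 1}
      ≤ volume (AffineMap.homothety k₀ ((j : ℝ) + 1) '' {k ∈ K | g k ≤ 1}) := measure_mono hsub
    _ = ENNReal.ofReal |((j : ℝ) + 1) ^ Module.finrank ℝ (E n)| *
        volume {k ∈ K | g k ≤ 1} := Measure.addHaar_image_homothety _ _ _ _
    _ = _ := by
        rw [finrank_euclideanSpace, Fintype.card_fin, abs_of_pos (by positivity)]

theorem sublevel_summable (n : ℕ) :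
    Summable fun j : ℕ => Real.exp (-(j : ℝ)) * ((j : ℝ) + 1) ^ n := by
  have h := Real.summable_pow_mul_exp_neg_nat_mul n (one_pos)
  have h2 : Summable fun j : ℕ => ((j + 1 : ℕ) : ℝ) ^ n * Real.exp (-1 * ((j + 1 : ℕ) : ℝ)) :=
    (summable_nat_add_iff 1).mpr h
  refine (h2.mul_left (Real.exp 1)).congr fun j => ?_
  have : Real.exp (-(j : ℝ)) = Real.exp 1 * Real.exp (-1 * ((j + 1 : ℕ) : ℝ)) := by
    rw [← Real.exp_add]; congr 1; push_cast; ring
  rw [this]; push_cast; ring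

theorem sublevel_volume (n : ℕ) : ∃ C : ℝ≥0∞, C ≠ 0 ∧ C ≠ ⊤ ∧
    ∀ (K : Set (E n)) (g : E n → ℝ), Convex ℝ K → IsCompact K → ConvexOn ℝ K g → Continuous g →
      (∃ k₀ ∈ K, g k₀ = 0) → (∀ k ∈ K, 0 ≤ g k) →
      ∫⁻ k in K, ENNReal.ofReal (Real.exp (-g k)) ≤ C * volume {k ∈ K | g k ≤ 1} := by
  refine ⟨∑' j : ℕ, ENNReal.ofReal (Real.exp (-(j : ℝ)) * ((j : ℝ) + 1) ^ n), ?_, ?_, ?_⟩
  · intro h
    have := (ENNReal.tsum_eq_zero.mp h) 0
    simp at this
  · exact (sublevel_summable n).tsum_ofReal_ne_top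
  · rintro K g - hK hconv hcont ⟨k₀, hk₀, hg₀⟩ hpos
    have hmeas : ∀ j : ℕ, MeasurableSet {k : E n | g k ≤ (j : ℝ) + 1} := fun j =>
      (isClosed_le hcont continuous_const).measurableSet
    calc ∫⁻ k in K, ENNReal.ofReal (Real.exp (-g k))
        ≤ ∫⁻ k in K, ∑' j : ℕ, {k : E n | g k ≤ (j : ℝ) + 1}.indicator
            (fun _ => ENNReal.ofReal (Real.exp (-(j : ℝ)))) k := by
          refine setLIntegral_mono' hK.measurableSet fun k hk => ?_
          have h0 := hpos k hk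
          have h1 : (⌊g k⌋₊ : ℝ) ≤ g k := Nat.floor_le h0
          have h2 : g k < (⌊g k⌋₊ : ℝ) + 1 := Nat.lt_floor_add_one _
          refine le_trans ?_ (ENNReal.le_tsum ⌊g k⌋₊)
          rw [Set.indicator_of_mem (show k ∈ {x : E n | g x ≤ (⌊g k⌋₊ : ℝ) + 1} from h2.le)]
          exact ENNReal.ofReal_le_ofReal (Real.exp_le_exp.mpr (by linarith))
      _ = ∑' j : ℕ, ∫⁻ k in K, {k : E n | g k ≤ (j : ℝ) + 1}.indicator
            (fun _ => ENNReal.ofReal (Real.exp (-(j : ℝ)))) k := by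
          rw [lintegral_tsum]
          exact fun j => (measurable_const.indicator (hmeas j)).aemeasurable
      _ ≤ ∑' j : ℕ, ENNReal.ofReal (Real.exp (-(j : ℝ)) * ((j : ℝ) + 1) ^ n) *
            volume {k ∈ K | g k ≤ 1} := by
          refine ENNReal.tsum_le_tsum fun j => ?_
          rw [lintegral_indicator (hmeas j), setLIntegral_const, Measure.restrict_apply (hmeas j),
            ENNReal.ofReal_mul (Real.exp_pos _).le, mul_assoc]
          refine mul_le_mul_right ?_ _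
          refine le_trans (measure_mono ?_) (sublevel_scale K g hconv k₀ hk₀ hg₀ j)
          rintro k ⟨h1, h2⟩
          exact ⟨h2, h1⟩
      _ = _ := ENNReal.tsum_mul_right

end DiracUCP
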