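import Pool.Agent.W_MP_23c0ba_an.Polar
import Pool.Agent.W_MP_23c0ba_an.Mid
import Pool.Agent.W_MP_23c0ba_an.Sublevel

/-! The log-Laplace transform, its partial Legendre transform and the duality gap. -/

set_option autoImplicit false

open MeasureTheory Metric Set Filter Topology
open scoped ENNReal ContDiff NNReal FourierTransform ComplexConjugate

namespace DiracUCP

variable {n : ℕ}

/-- The logarithm of the Laplace transform. -/
noncomputable def lphi (μ : Measure (E n)) (k : E n) : ℝ :=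
  Real.log (∫ x, Real.exp (inner ℝ k x) ∂μ)

section

variable {μ : Measure (E n)} {K : Set (E n)}

theorem integrable_exp_inner [IsFiniteMeasure μ] (hK : IsCompact K) (hμK : μ Kᶜ = 0) (k : E n) :
    Integrable (fun x => Real.exp (inner ℝ k x)) μ := by
  have hcont : Continuous fun x : E n => Real.exp (inner ℝ k x) := by fun_prop
  obtain ⟨C, hC⟩ := hK.exists_bound_of_continuousOn hcont.continuousOn
  refine Integrable.of_bound hcont.aestronglyMeasurable C ?_
  have : ∀ᵐ x ∂μ, x ∈ K := by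
    rw [ae_iff]
    exact hμK
  filter_upwards [this] with x hx
  exact hC x hx

theorem integral_exp_inner_pos [IsFiniteMeasure μ] (hK : IsCompact K) (hμK : μ Kᶜ = 0) (hμ : μ ≠ 0)
    (k : E n) : 0 < ∫ x, Real.exp (inner ℝ k x) ∂μ := by
  have : NeZero μ := ⟨hμ⟩
  exact integral_exp_pos (integrable_exp_inner hK hμK k)

theorem exp_lphi [IsFiniteMeasure μ] (hK : IsCompact K) (hμK : μ Kᶜ = 0) (hμ : μ ≠ 0)
    (k : E n) : Real.exp (lphi μ k) = ∫ x, Real.exp (inner ℝ k x) ∂μ :=
  Real.exp_log (integral_exp_inner_pos hK hμK hμ k)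

theorem lintegral_exp_sub [IsFiniteMeasure μ] (hK : IsCompact K) (hμK : μ Kᶜ = 0) (hμ : μ ≠ 0)
    (k : E n) : ∫⁻ x, ENNReal.ofReal (Real.exp (inner ℝ k x - lphi μ k)) ∂μ = 1 := by
  have h1 : ∀ x, Real.exp (inner ℝ k x - lphi μ k) =
      Real.exp (inner ℝ k x) * Real.exp (-lphi μ k) := by
    intro x
    rw [← Real.exp_add]
    ring_nf
  rw [← ofReal_integral_eq_lintegral_ofReal]
  · simp only [h1]
    rw [integral_mul_const, ← exp_lphi hK hμK hμ, ← Real.exp_add]
    simp
  · simp only [h1]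
    exact (integrable_exp_inner hK hμK k).mul_const _
  · exact ae_of_all _ fun x => (Real.exp_pos _).le

theorem convexOn_lphi [IsFiniteMeasure μ] (hK : IsCompact K) (hμK : μ Kᶜ = 0) (hμ : μ ≠ 0) :
    ConvexOn ℝ univ (lphi μ) := by
  refine ⟨convex_univ, ?_⟩
  intro k₁ _ k₂ _ s t hs ht hst
  have hexp : ∀ x : E n, Real.exp (inner ℝ (s • k₁ + t • k₂) x - (s * lphi μ k₁ + t * lphi μ k₂)) ≤
      s * Real.exp (inner ℝ k₁ x - lphi μ k₁) + t * Real.exp (inner ℝ k₂ x - lphi μ k₂) := by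
    intro x
    have h := convexOn_exp.2 (mem_univ (inner ℝ k₁ x - lphi μ k₁))
      (mem_univ (inner ℝ k₂ x - lphi μ k₂)) hs ht hst
    simp only [smul_eq_mul] at h
    refine le_trans (le_of_eq ?_) h
    congr 1
    rw [inner_add_left, real_inner_smul_left, real_inner_smul_left]
    ring
  have hI : ∀ k : E n, Integrable (fun x => Real.exp (inner ℝ k x - lphi μ k)) μ := by
    intro k
    have h1 : ∀ x : E n, Real.exp (inner ℝ k x - lphi μ k) =
        Real.exp (inner ℝ k x) * Real.exp (-lphi μ k) := by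
      intro x
      rw [← Real.exp_add]
      ring_nf
    simp only [h1]
    exact (integrable_exp_inner hK hμK k).mul_const _
  have hone : ∀ k : E n, ∫ x, Real.exp (inner ℝ k x - lphi μ k) ∂μ = 1 := by
    intro k
    have h1 : ∀ x : E n, Real.exp (inner ℝ k x - lphi μ k) =
        Real.exp (inner ℝ k x) * Real.exp (-lphi μ k) := by
      intro x
      rw [← Real.exp_add]
      ring_nf
    simp only [h1]
    rw [integral_mul_const, ← exp_lphi hK hμK hμ, ← Real.exp_add]
    simp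
  set c := s * lphi μ k₁ + t * lphi μ k₂ with hc
  have h2 : ∀ x : E n, Real.exp (inner ℝ (s • k₁ + t • k₂) x - c) =
      Real.exp (inner ℝ (s • k₁ + t • k₂) x) * Real.exp (-c) := by
    intro x
    rw [← Real.exp_add]
    ring_nf
  have h3 : ∫ x, Real.exp (inner ℝ (s • k₁ + t • k₂) x - c) ∂μ ≤ 1 := by
    calc _ ≤ ∫ x, (s * Real.exp (inner ℝ k₁ x - lphi μ k₁) +
          t * Real.exp (inner ℝ k₂ x - lphi μ k₂)) ∂μ := by
          refine integral_mono ?_ (((hI k₁).const_mul s).add ((hI k₂).const_mul t)) hexp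
          simp only [h2]
          exact (integrable_exp_inner hK hμK _).mul_const _
      _ = 1 := by
          rw [integral_add ((hI k₁).const_mul s) ((hI k₂).const_mul t), integral_const_mul,
            integral_const_mul, hone, hone]
          linarith
  simp only [h2] at h3
  rw [integral_mul_const, ← exp_lphi hK hμK hμ, ← Real.exp_add] at h3
  have h4 : lphi μ (s • k₁ + t • k₂) + -c ≤ 0 := Real.exp_le_one_iff.mp h3
  simp only [smul_eq_mul]
  linarith

theorem continuous_lphi [IsFiniteMeasure μ] (hK : IsCompact K) (hμK : μ Kᶜ = 0) (hμ : μ ≠ 0) :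
    Continuous (lphi μ) := by
  rw [← continuousOn_univ]
  exact (convexOn_lphi hK hμK hμ).continuousOn isOpen_univ

end

/-- The partial Legendre transform over a closed ball. -/
noncomputable def lpsi (μ : Measure (E n)) (k₀ : E n) (R : ℝ) (x : E n) : ℝ :=
  sSup ((fun k => (inner ℝ k x : ℝ) - lphi μ k) '' closedBall k₀ R)

/-- The duality gap. -/
noncomputable def gap (μ : Measure (E n)) (k₀ : E n) (R : ℝ) (k x : E n) : ℝ :=
  lphi μ k + lpsi μ k₀ R x - inner ℝ k x

section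

variable {μ : Measure (E n)} {K : Set (E n)} [IsFiniteMeasure μ]

theorem continuous_lpsi (hK : IsCompact K) (hμK : μ Kᶜ = 0) (hμ : μ ≠ 0) (k₀ : E n) (R : ℝ) :
    Continuous (lpsi μ k₀ R) := by
  have hc := continuous_lphi hK hμK hμ
  refine (isCompact_closedBall k₀ R).continuous_sSup
    (f := fun x k => (inner ℝ k x : ℝ) - lphi μ k) ?_
  exact (continuous_snd.inner continuous_fst).sub (hc.comp continuous_snd)

theorem continuous_gap (hK : IsCompact K) (hμK : μ Kᶜ = 0) (hμ : μ ≠ 0) (k₀ : E n) (R : ℝ) :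
    Continuous fun q : E n × E n => gap μ k₀ R q.1 q.2 := by
  unfold gap
  exact (((continuous_lphi hK hμK hμ).comp continuous_fst).add
    ((continuous_lpsi hK hμK hμ k₀ R).comp continuous_snd)).sub
    (continuous_fst.inner continuous_snd)

theorem le_lpsi (hK : IsCompact K) (hμK : μ Kᶜ = 0) (hμ : μ ≠ 0) {k₀ : E n} {R : ℝ} {k : E n}
    (hk : k ∈ closedBall k₀ R) (x : E n) : (inner ℝ k x : ℝ) - lphi μ k ≤ lpsi μ k₀ R x := by
  refine le_csSup ?_ (mem_image_of_mem _ hk)
  have hc := continuous_lphi hK hμK hμ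
  exact (isCompact_closedBall k₀ R).bddAbove_image (by fun_prop)

theorem gap_nonneg (hK : IsCompact K) (hμK : μ Kᶜ = 0) (hμ : μ ≠ 0) {k₀ : E n} {R : ℝ} {k : E n}
    (hk : k ∈ closedBall k₀ R) (x : E n) : 0 ≤ gap μ k₀ R k x := by
  have := le_lpsi hK hμK hμ hk x
  unfold gap
  linarith

theorem exists_gap_eq_zero (hK : IsCompact K) (hμK : μ Kᶜ = 0) (hμ : μ ≠ 0) (k₀ : E n) {R : ℝ}
    (hR : 0 < R) (x : E n) : ∃ k ∈ closedBall k₀ R, gap μ k₀ R k x = 0 := by
  have hc := continuous_lphi hK hμK hμ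
  obtain ⟨k, hk, h⟩ := (isCompact_closedBall k₀ R).exists_sSup_image_eq
    (nonempty_closedBall.mpr hR.le) (f := fun k => (inner ℝ k x : ℝ) - lphi μ k) (by fun_prop)
  refine ⟨k, hk, ?_⟩
  unfold gap lpsi
  rw [h]
  ring

theorem convexOn_gap (hK : IsCompact K) (hμK : μ Kᶜ = 0) (hμ : μ ≠ 0) (k₀ : E n) (R : ℝ)
    (x : E n) : ConvexOn ℝ (closedBall k₀ R) (fun k => gap μ k₀ R k x) := by
  have h1 := (convexOn_lphi hK hμK hμ).subset (subset_univ (closedBall k₀ R))
    (convex_closedBall k₀ R)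
  refine ⟨convex_closedBall k₀ R, ?_⟩
  intro a ha b hb s t hs ht hst
  have h2 := h1.2 ha hb hs ht hst
  simp only [smul_eq_mul] at h2 ⊢
  unfold gap
  rw [inner_add_left, real_inner_smul_left, real_inner_smul_left]
  have : lpsi μ k₀ R x = s * lpsi μ k₀ R x + t * lpsi μ k₀ R x := by
    rw [← add_mul, hst, one_mul]
  rw [this]
  nlinarith [h2]

/-- The sublevel set in `k`. -/
def Tset (μ : Measure (E n)) (k₀ : E n) (R : ℝ) (x : E n) : Set (E n) :=
  {k ∈ closedBall k₀ R | gap μ k₀ R k x ≤ 1}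

theorem isCompact_Tset (hK : IsCompact K) (hμK : μ Kᶜ = 0) (hμ : μ ≠ 0) (k₀ : E n) (R : ℝ)
    (x : E n) : IsCompact (Tset μ k₀ R x) := by
  have h : IsClosed {k : E n | gap μ k₀ R k x ≤ 1} :=
    isClosed_le ((continuous_gap hK hμK hμ k₀ R).comp (continuous_id.prodMk continuous_const))
      continuous_const
  exact (isCompact_closedBall k₀ R).inter_right h

theorem convex_Tset (hK : IsCompact K) (hμK : μ Kᶜ = 0) (hμ : μ ≠ 0) (k₀ : E n) (R : ℝ)
    (x : E n) : Convex ℝ (Tset μ k₀ R x) :=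
  (convexOn_gap hK hμK hμ k₀ R x).convex_le 1

theorem volume_Tset_ne_top (hK : IsCompact K) (hμK : μ Kᶜ = 0) (hμ : μ ≠ 0) (k₀ : E n) (R : ℝ)
    (x : E n) : volume (Tset μ k₀ R x) ≠ ⊤ :=
  (isCompact_Tset hK hμK hμ k₀ R x).measure_lt_top.ne

/-- The polarity relation. -/
theorem polarity (hK : IsCompact K) (hμK : μ Kᶜ = 0) (hμ : μ ≠ 0) {k₀ : E n} {R : ℝ}
    {k s x x' : E n} (hk : k ∈ closedBall k₀ R) (hks : k + s ∈ closedBall k₀ R)
    (h1 : gap μ k₀ R (k + s) x ≤ 1) (h2 : gap μ k₀ R k x' ≤ 1) :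
    (inner ℝ s (x' - x) : ℝ) ≤ 2 := by
  have h3 := le_lpsi hK hμK hμ hks x'
  have h4 := le_lpsi hK hμK hμ hk x
  unfold gap at h1 h2
  rw [inner_add_left] at h1 h3
  rw [inner_sub_right]
  linarith

end

end DiracUCP
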