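import Pool.Agent.W_MP_23c0ba_an.WolffA

/-! The set `𝓔` of the measure lemma and the volume of its sections. -/

set_option autoImplicit false

open MeasureTheory Metric Set Filter Topology
open scoped ENNReal ContDiff NNReal FourierTransform ComplexConjugate Pointwise

namespace DiracUCP

variable {n : ℕ} {μ : Measure (E n)} {K : Set (E n)} [IsFiniteMeasure μ]

/-- The set `𝓔`. -/
def Eset (μ : Measure (E n)) (K : Set (E n)) (k₀ : E n) (R : ℝ) : Set (E n × E n) :=
  {q | q.2 ∈ K ∧ q.1 ∈ Tset μ k₀ R q.2 ∧ volume (Tset μ k₀ R q.2) ≤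
    2 ^ (n + 1) * volume (Tset μ k₀ R q.2 ∩ {t | (2 : ℝ) • q.1 - t ∈ Tset μ k₀ R q.2})}

theorem measurableSet_Tprod (hK : IsCompact K) (hμK : μ Kᶜ = 0) (hμ : μ ≠ 0) (k₀ : E n) (R : ℝ) :
    MeasurableSet {q : E n × E n | q.1 ∈ Tset μ k₀ R q.2} := by
  have h1 : IsClosed {q : E n × E n | q.1 ∈ closedBall k₀ R} :=
    isClosed_closedBall.preimage continuous_fst
  have h2 : IsClosed {q : E n × E n | gap μ k₀ R q.1 q.2 ≤ 1} :=
    isClosed_le (continuous_gap hK hμK hμ k₀ R) continuous_const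
  exact (h1.inter h2).measurableSet

theorem measurableSet_Eset (hK : IsCompact K) (hμK : μ Kᶜ = 0) (hμ : μ ≠ 0) (k₀ : E n) (R : ℝ) :
    MeasurableSet (Eset μ K k₀ R) := by
  have hT := measurableSet_Tprod hK hμK hμ k₀ R
  have m1 : MeasurableSet {q : E n × E n | q.2 ∈ K} :=
    measurable_snd hK.measurableSet
  have f1 : Measurable fun x : E n => volume (Tset μ k₀ R x) := by
    have hs : MeasurableSet {q : E n × E n | q.2 ∈ Tset μ k₀ R q.1} :=
      (measurable_snd.prodMk measurable_fst) hT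
    exact measurable_measure_prodMk_left (ν := volume) hs
  have f2 : Measurable fun q : E n × E n =>
      volume (Tset μ k₀ R q.2 ∩ {t | (2 : ℝ) • q.1 - t ∈ Tset μ k₀ R q.2}) := by
    have hs : MeasurableSet {p : (E n × E n) × E n |
        p.2 ∈ Tset μ k₀ R p.1.2 ∧ (2 : ℝ) • p.1.1 - p.2 ∈ Tset μ k₀ R p.1.2} := by
      have g1 : Measurable fun p : (E n × E n) × E n => ((p.2, p.1.2) : E n × E n) := by fun_prop
      have g2 : Measurable fun p : (E n × E n) × E n =>
          (((2 : ℝ) • p.1.1 - p.2, p.1.2) : E n × E n) := by fun_prop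
      exact (g1 hT).inter (g2 hT)
    exact measurable_measure_prodMk_left (ν := volume) hs
  exact m1.inter (hT.inter (measurableSet_le (f1.comp measurable_snd) (f2.const_mul _)))

/-- The volume of the sections of `𝓔`. -/
theorem section_volume (hK : IsCompact K) (hμK : μ Kᶜ = 0) (hμ : μ ≠ 0) {k₀ : E n} {R : ℝ}
    {k x : E n} (hq : (k, x) ∈ Eset μ K k₀ R) :
    volume {x' | (k, x') ∈ Eset μ K k₀ R} * volume (Tset μ k₀ R x) ≤ 2 ^ (n + 1) * 8 ^ n := by
  obtain ⟨hxK, hkT, hvol⟩ := hq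
  simp only at hxK hkT hvol
  set T := Tset μ k₀ R x with hTdef
  have hTc : IsCompact T := isCompact_Tset hK hμK hμ k₀ R x
  set S : Set (E n) := {s | k + s ∈ T ∧ k - s ∈ T} with hS
  have hSc : IsCompact S := by
    have h1 : IsCompact {s : E n | k + s ∈ T} := (Homeomorph.addLeft k).isCompact_preimage.mpr hTc
    have h2 : IsClosed {s : E n | k - s ∈ T} := hTc.isClosed.preimage (by fun_prop)
    exact h1.inter_right h2
  have hSv : volume (T ∩ {t | (2 : ℝ) • k - t ∈ T}) = volume S := by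
    rw [← measure_preimage_add volume k (T ∩ {t | (2 : ℝ) • k - t ∈ T})]
    congr 1
    ext s
    simp only [hS, mem_preimage, mem_inter_iff, mem_ofPred_eq]
    have : (2 : ℝ) • k - (k + s) = k - s := by
      rw [two_smul]; abel
    rw [this]
  rw [hSv] at hvol
  set P : Set (E n) := {y : E n | ∀ s ∈ S, |(inner ℝ s y : ℝ)| ≤ 1} with hP
  have hpol : volume S * volume P ≤ 4 ^ n := polar_volume S hSc
  have hsub : {x' | (k, x') ∈ Eset μ K k₀ R} ⊆ (fun y => -x + y) ⁻¹' ((2 : ℝ) • P) := by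
    intro x' hx'
    obtain ⟨_, hkT', _⟩ := hx'
    simp only at hkT'
    rw [mem_preimage, mem_smul_set_iff_inv_smul_mem₀ (two_ne_zero)]
    intro s hs
    have h1 : (inner ℝ s (x' - x) : ℝ) ≤ 2 :=
      polarity hK hμK hμ hkT.1 hs.1.1 hs.1.2 hkT'.2
    have h2 : (inner ℝ (-s) (x' - x) : ℝ) ≤ 2 := by
      have hs2 := hs.2
      rw [sub_eq_add_neg] at hs2
      exact polarity hK hμK hμ hkT.1 hs2.1 hs2.2 hkT'.2
    rw [inner_neg_left] at h2
    have h3 : (inner ℝ s ((2 : ℝ)⁻¹ • (-x + x')) : ℝ) = 2⁻¹ * inner ℝ s (x' - x) := by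
      rw [real_inner_smul_right, neg_add_eq_sub]
    rw [h3, abs_le]
    constructor <;> linarith
  have hE : volume {x' | (k, x') ∈ Eset μ K k₀ R} ≤ 2 ^ n * volume P := by
    refine (measure_mono hsub).trans ?_
    rw [measure_preimage_add, Measure.addHaar_smul]
    simp
  calc volume {x' | (k, x') ∈ Eset μ K k₀ R} * volume T
      ≤ (2 ^ n * volume P) * (2 ^ (n + 1) * volume S) := by gcongr
    _ = (2 ^ n * 2 ^ (n + 1)) * (volume S * volume P) := by ring
    _ ≤ (2 ^ n * 2 ^ (n + 1)) * 4 ^ n := by gcongr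
    _ = 2 ^ (n + 1) * 8 ^ n := by
        have : (8 : ℝ≥0∞) ^ n = 2 ^ n * 4 ^ n := by
          rw [← mul_pow]; norm_num
        rw [this]; ring

end DiracUCP
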